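import Pool.Agent.Run7.h492.TheoremH

/-!
Actions of commuting maps and transference to the lattice.
-/

set_option linter.unusedVariables false

noncomputable section

open MeasureTheory Finset UnitAddTorus Filter
open scoped ComplexConjugate ENNReal Classical

namespace PSarnak

local instance instMS6 : MeasureSpace UnitAddCircle := ⟨AddCircle.haarAddCircle⟩

variable {D : ℕ} {X : Type*}

/-- iterated action: first the last coordinate, ..., finally the first coordinate -/
def act (T : Fin D → X → X) (n : Fin D → ℕ) (x : X) : X :=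
  (List.finRange D).foldr (fun i y => (T i)^[n i] y) x

section comm
variable (T : Fin D → X → X) (hc : ∀ i j x, T i (T j x) = T j (T i x))
include hc

lemma iter_comm (i j : Fin D) (a b : ℕ) (x : X) : (T i)^[a] ((T j)^[b] x) = (T j)^[b] ((T i)^[a] x) := by
  have : Function.Commute (T i) (T j) := fun x => hc i j x
  exact (this.iterate_iterate a b) x

lemma iter_foldr (l : List (Fin D)) (n : Fin D → ℕ) (i : Fin D) (a : ℕ) (x : X) :
    (T i)^[a] (l.foldr (fun i y => (T i)^[n i] y) x) =
      l.foldr (fun i y => (T i)^[n i] y) ((T i)^[a] x) := by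
  induction l with
  | nil => rfl
  | cons j l ih => simp only [List.foldr_cons]; rw [iter_comm T hc, ih]

lemma foldr_add (l : List (Fin D)) (n m : Fin D → ℕ) (x : X) :
    l.foldr (fun i y => (T i)^[(n + m) i] y) x =
      l.foldr (fun i y => (T i)^[n i] y) (l.foldr (fun i y => (T i)^[m i] y) x) := by
  induction l with
  | nil => rfl
  | cons j l ih =>
    simp only [List.foldr_cons]
    rw [ih, Pi.add_apply, Function.iterate_add_apply, ← iter_foldr T hc l n j (m j)]

lemma act_add (n m : Fin D → ℕ) (x : X) : act T (n + m) x = act T n (act T m x) :=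
  foldr_add T hc _ n m x

omit hc in
lemma act_zero (x : X) : act T 0 x = x := by
  rw [act]
  induction (List.finRange D) with
  | nil => rfl
  | cons j l ih => rw [List.foldr_cons, ih]; rfl

omit hc in
lemma foldr_single_notMem (l : List (Fin D)) (i : Fin D) (hi : i ∉ l) (W : ℕ) (x : X) :
    l.foldr (fun j y => (T j)^[(Pi.single i W : Fin D → ℕ) j] y) x = x := by
  induction l with
  | nil => rfl
  | cons j l ih =>
    rw [List.mem_cons, not_or] at hi
    rw [List.foldr_cons, ih hi.2, Pi.single_eq_of_ne (Ne.symm hi.1)]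
    rfl

omit hc in
lemma foldr_single_mem (l : List (Fin D)) (hl : l.Nodup) (i : Fin D) (hi : i ∈ l) (W : ℕ) (x : X) :
    l.foldr (fun j y => (T j)^[(Pi.single i W : Fin D → ℕ) j] y) x = (T i)^[W] x := by
  induction l with
  | nil => simp at hi
  | cons j l ih =>
    rw [List.nodup_cons] at hl
    rw [List.foldr_cons]
    by_cases hij : i = j
    · subst hij
      rw [foldr_single_notMem T l i hl.1, Pi.single_eq_same]
    · have hi' : i ∈ l := by
        rcases List.mem_cons.mp hi with h | h
        · exact absurd h hij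
        · exact h
      rw [ih hl.2 hi', Pi.single_eq_of_ne (Ne.symm hij)]
      rfl

omit hc in
lemma act_single (i : Fin D) (W : ℕ) (x : X) : act T (Pi.single i W) x = (T i)^[W] x :=
  foldr_single_mem T _ (List.nodup_finRange D) i (List.mem_finRange i) W x

end comm

section mp
variable [MeasurableSpace X] {μ : Measure X} (T : Fin D → X → X) (hT : ∀ i, MeasurePreserving (T i) μ μ)
include hT

lemma act_mp (n : Fin D → ℕ) : MeasurePreserving (act T n) μ μ := by
  have : ∀ l : List (Fin D), MeasurePreserving (fun x => l.foldr (fun i y => (T i)^[n i] y) x) μ μ := by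
    intro l
    induction l with
    | nil => exact MeasurePreserving.id μ
    | cons j l ih =>
      simp only [List.foldr_cons]
      exact ((hT j).iterate (n j)).comp ih
  exact this _

end mp

/-- box of natural numbers `[0,J)^D` -/
def nbox (D J : ℕ) : Finset (Fin D → ℕ) := Fintype.piFinset (fun _ => range J)

lemma mem_nbox {J : ℕ} {j : Fin D → ℕ} : j ∈ nbox D J ↔ ∀ i, j i < J := by simp [nbox]

lemma card_nbox (J : ℕ) : (nbox D J).card = J ^ D := by simp [nbox, Fintype.card_piFinset]

/-- the box `[1,N]^D` -/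
def pbox (D N : ℕ) : Finset (Fin D → ℕ) := Fintype.piFinset (fun _ => Finset.Icc 1 N)

lemma mem_pbox {N : ℕ} {j : Fin D → ℕ} : j ∈ pbox D N ↔ ∀ i, 1 ≤ j i ∧ j i ≤ N := by simp [pbox]

lemma card_pbox (N : ℕ) : (pbox D N).card = N ^ D := by simp [pbox, Fintype.card_piFinset]

/-- cast to the lattice -/
def cst (n : Fin D → ℕ) : Lat D := fun i => (n i : ℤ)

lemma cst_injective : Function.Injective (cst (D := D)) := by
  intro a b hab
  ext i
  have := congrFun hab i
  simpa [cst] using this

lemma nsq_inj {ι : Type*} (s : Finset ι) (φ : ι → Lat D) (hφ : Set.InjOn φ s) (v : ι → ℂ) :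
    nsq (∑ j ∈ s, v j • ee (φ j)) = ∑ j ∈ s, ‖v j‖ ^ 2 := by
  classical
  by_cases hne : s.Nonempty
  · obtain ⟨j₀, hj₀⟩ := hne
    have : Nonempty ι := ⟨j₀⟩
    have h1 : (∑ j ∈ s, v j • ee (φ j)) = tp (s.image φ) (fun n => v (Function.invFunOn φ s n)) := by
      rw [tp, Finset.sum_image (fun a ha b hb h => hφ ha hb h)]
      apply Finset.sum_congr rfl
      intro j hj
      have : Function.invFunOn φ s (φ j) = j := by
        apply hφ (Function.invFunOn_mem ⟨j, hj, rfl⟩) hj
        exact Function.invFunOn_eq ⟨j, hj, rfl⟩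
      rw [this]
    rw [h1, nsq_tp, Finset.sum_image (fun a ha b hb h => hφ ha hb h)]
    apply Finset.sum_congr rfl
    intro j hj
    have : Function.invFunOn φ s (φ j) = j := by
      apply hφ (Function.invFunOn_mem ⟨j, hj, rfl⟩) hj
      exact Function.invFunOn_eq ⟨j, hj, rfl⟩
    rw [this]
  · rw [Finset.not_nonempty_iff_eq_empty.mp hne]
    simp [nsq]

/-- the transferred function -/
def transf (T : Fin D → X → X) (J : ℕ) (Φ : X → ℂ) (x : X) : C(Tor D, ℂ) :=
  ∑ j ∈ nbox D J, Φ (act T j x) • ee (-(cst j))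

/-- the kernel -/
def kerN (w : (Fin D → ℕ) → ℂ) (N : ℕ) : C(Tor D, ℂ) :=
  ∑ n ∈ pbox D N, (w n / (N : ℂ) ^ D) • ee (cst n)

/-- averages -/
def avg (w : (Fin D → ℕ) → ℂ) (T : Fin D → X → X) (Φ : X → ℂ) (N : ℕ) (x : X) : ℂ :=
  (1 / (N : ℂ) ^ D) * ∑ n ∈ pbox D N, w n * Φ (act T n x)

lemma transf_sub (T : Fin D → X → X) (J : ℕ) (Φ Ψ : X → ℂ) (x : X) :
    transf T J (fun y => Φ y - Ψ y) x = transf T J Φ x - transf T J Ψ x := by
  rw [transf, transf, transf, ← Finset.sum_sub_distrib]
  apply Finset.sum_congr rfl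
  intro j _
  ext α
  simp only [ContinuousMap.smul_apply, ContinuousMap.sub_apply, smul_eq_mul, sub_mul]

lemma transf_sum {ι : Type*} (s : Finset ι) (T : Fin D → X → X) (J : ℕ) (Φ : ι → X → ℂ) (x : X) :
    transf T J (fun y => ∑ i ∈ s, Φ i y) x = ∑ i ∈ s, transf T J (Φ i) x := by
  simp only [transf]
  rw [Finset.sum_comm]
  apply Finset.sum_congr rfl
  intro j _
  ext α
  simp only [ContinuousMap.smul_apply, ContinuousMap.sum_apply, smul_eq_mul, Finset.sum_mul]

lemma nsq_transf (T : Fin D → X → X) (J : ℕ) (Φ : X → ℂ) (x : X) :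
    nsq (transf T J Φ x) = ∑ j ∈ nbox D J, ‖Φ (act T j x)‖ ^ 2 := by
  rw [transf, nsq_inj]
  intro a _ b _ hab
  exact cst_injective (neg_injective hab)

lemma cf_transf (T : Fin D → X → X) (J : ℕ) (Φ : X → ℂ) (x : X) (n : Fin D → ℕ)
    (hn : n ∈ nbox D J) : cf (transf T J Φ x) (-(cst n)) = Φ (act T n x) := by
  rw [transf, cf_sum]
  simp only [cf_smul, cf_ee]
  rw [Finset.sum_eq_single n]
  · simp
  · intro j _ hj
    rw [if_neg, mul_zero]
    intro h
    exact hj (cst_injective (neg_injective h)).symm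
  · intro h; exact absurd hn h

lemma cf_kerN_transf (w : (Fin D → ℕ) → ℂ) (T : Fin D → X → X)
    (hc : ∀ i j x, T i (T j x) = T j (T i x)) (J N : ℕ) (Φ : X → ℂ) (x : X)
    (j : Fin D → ℕ) (hj : ∀ i, j i + N < J) :
    cf (kerN w N * transf T J Φ x) (-(cst j)) = avg w T Φ N (act T j x) := by
  rw [kerN, Finset.sum_mul, cf_sum, avg, Finset.mul_sum]
  apply Finset.sum_congr rfl
  intro n hn
  rw [smul_mul_assoc, cf_smul, cf_ee_mul]
  have h1 : (-(cst j) - cst n : Lat D) = -(cst (n + j)) := by
    ext i; simp only [cst, Pi.sub_apply, Pi.neg_apply, Pi.add_apply]; push_cast; ring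
  rw [h1, cf_transf, act_add T hc]
  · ring
  · rw [mem_nbox]
    intro i
    have := (mem_pbox.mp hn i).2
    have := hj i
    simp only [Pi.add_apply]; omega

lemma kerN_isTP (w : (Fin D → ℕ) → ℂ) (N : ℕ) : IsTP N (kerN w N) := by
  apply IsTP.sum
  intro n hn
  apply IsTP.smul
  apply isTP_ee
  rw [mem_box]
  intro i
  rw [cst, abs_of_nonneg (by positivity)]
  exact_mod_cast (mem_pbox.mp hn i).2

lemma nsq_kerN (w : (Fin D → ℕ) → ℂ) (hw : ∀ n, ‖w n‖ ≤ 1) (N : ℕ) :
    nsq (kerN w N) * (2 * (N:ℝ) + 1) ^ D ≤ 3 ^ D := by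
  rcases Nat.eq_zero_or_pos N with hN | hN
  · subst hN
    rw [kerN, nsq_inj _ _ cst_injective.injOn]
    rcases Nat.eq_zero_or_pos D with hD | hD
    · subst hD
      simp only [pow_zero, mul_one]
      have : (pbox 0 0).card = 1 := by simp [card_pbox]
      calc ∑ j ∈ pbox 0 0, ‖w j / 1‖ ^ 2 ≤ ∑ j ∈ pbox 0 0, (1:ℝ) := by
            apply Finset.sum_le_sum
            intro j _
            rw [div_one]
            have := hw j
            have := norm_nonneg (w j)
            nlinarith
        _ = 1 := by simp [this]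
    · have : pbox D 0 = ∅ := by
        rw [Finset.eq_empty_iff_forall_notMem]
        intro j hj
        have := mem_pbox.mp hj ⟨0, hD⟩
        omega
      rw [this]; simp
  · have hN' : (0:ℝ) < N := by exact_mod_cast hN
    have hN1 : (1:ℝ) ≤ N := by exact_mod_cast hN
    rw [kerN, nsq_inj _ _ cst_injective.injOn]
    have h1 : ∑ j ∈ pbox D N, ‖w j / (N:ℂ) ^ D‖ ^ 2 ≤ 1 / (N:ℝ) ^ D := by
      calc ∑ j ∈ pbox D N, ‖w j / (N:ℂ) ^ D‖ ^ 2 ≤ ∑ j ∈ pbox D N, (1 / (N:ℝ) ^ D) ^ 2 := by
            apply Finset.sum_le_sum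
            intro j _
            rw [norm_div, norm_pow, Complex.norm_natCast]
            have := hw j
            gcongr
        _ = 1 / (N:ℝ) ^ D := by
            rw [Finset.sum_const, card_pbox, nsmul_eq_mul]
            push_cast
            field_simp
    calc (∑ j ∈ pbox D N, ‖w j / (N:ℂ) ^ D‖ ^ 2) * (2 * (N:ℝ) + 1) ^ D
        ≤ (1 / (N:ℝ) ^ D) * (3 * (N:ℝ)) ^ D := by
          gcongr
          linarith
      _ = 3 ^ D := by rw [mul_pow]; field_simp

end PSarnak
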