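import Pool.Agent.Run7.h492.MajE

/-!
Choice of parameters: the kernels of a multiplicative function are approximable.
-/

set_option linter.unusedVariables false
set_option linter.unusedSectionVars false

noncomputable section

open Finset NumberField Filter
open scoped Classical ComplexConjugate

namespace PSarnak

variable {K : Type*} [Field K] [NumberField K] {D : ℕ} (b : Module.Basis (Fin D) ℤ (𝓞 K))

lemma card_mult_le (C ε : ℝ) (hC : 1 ≤ C) (A P : ℕ) (hP : 0 < P) (𝒟 : Finset (𝓞 K)) (h : MultSet b C ε A P 𝒟) :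
    (𝒟.card : ℝ) ≤ (3 * (C * (P:ℝ) ^ A)) ^ D := by
  have hD := D_pos b
  have hDr : (1:ℝ) ≤ D := by exact_mod_cast hD
  have hPA : (1:ℝ) ≤ (P:ℝ) ^ A := one_le_pow₀ (by exact_mod_cast hP)
  have hCP : 1 ≤ C * (P:ℝ) ^ A := one_le_mul_of_one_le_of_one_le hC hPA
  have h1 : 𝒟.card ≤ (box D ⌊C * (P:ℝ) ^ A⌋₊).card := by
    apply Finset.card_le_card_of_injOn (crd b)
    · intro δ hδ
      apply crd_mem_box_of_norm
      refine ((h.bal δ hδ).up).trans ?_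
      have h1 : Rr D δ ≤ (Nn δ : ℝ) := by
        have h2 : (1:ℝ) ≤ Nn δ := by exact_mod_cast Nn_pos (h.bal δ hδ).ne
        rw [Rr]
        calc (Nn δ : ℝ) ^ ((1:ℝ) / D) ≤ (Nn δ : ℝ) ^ (1:ℝ) := by
              apply Real.rpow_le_rpow_of_exponent_le h2
              rw [div_le_one (by linarith)]; exact hDr
          _ = _ := Real.rpow_one _
      have h2 : (Nn δ : ℝ) ≤ (P:ℝ) ^ A := by exact_mod_cast h.hi δ hδ
      have := h1.trans h2
      gcongr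
    · exact (crd_injective b).injOn
  rw [card_box] at h1
  have h2 : (𝒟.card : ℝ) ≤ (2 * (⌊C * (P:ℝ) ^ A⌋₊ : ℝ) + 1) ^ D := by exact_mod_cast h1
  refine h2.trans ?_
  have h3 : (⌊C * (P:ℝ) ^ A⌋₊ : ℝ) ≤ C * (P:ℝ) ^ A := Nat.floor_le (by linarith)
  gcongr
  linarith

lemma log_two_ge : (1:ℝ) / 2 ≤ Real.log 2 := by
  have := Real.log_two_gt_d9; linarith

/-- number of dyadic groups -/
lemma J_bound (z A : ℕ) (hz : 2 ≤ z) :
    ((Nat.log 2 ((z ^ 6) ^ A) + 1 : ℕ) : ℝ) ≤ 2 * (6 * A + 1) * Real.log z := by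
  have hzr : (2:ℝ) ≤ z := by exact_mod_cast hz
  have h1 : 2 ^ Nat.log 2 ((z ^ 6) ^ A) ≤ (z ^ 6) ^ A := Nat.pow_log_le_self 2 (by positivity)
  have h2 : (2:ℝ) ^ Nat.log 2 ((z ^ 6) ^ A) ≤ ((z:ℝ) ^ 6) ^ A := by exact_mod_cast h1
  have h3 := Real.log_le_log (by positivity) h2
  rw [Real.log_pow, Real.log_pow, Real.log_pow] at h3
  have h4 : Real.log 2 ≤ Real.log z := Real.log_le_log (by norm_num) hzr
  have h5 := log_two_ge
  push_cast at h3 ⊢
  nlinarith [(Nat.cast_nonneg A : (0:ℝ) ≤ A)]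

theorem exists_approx (χ : 𝓞 K → ℂ) (hχ : ∀ x, ‖χ x‖ ≤ 1)
    (hm : ∀ x y, Nat.Coprime (Nn x) (Nn y) → χ (x * y) = χ x * χ y)
    (h N : ℕ → ℕ) (hs : Super h) (hN : ∀ᶠ k : ℕ in atTop, (h k) ^ 4 ≤ N k) (ε : ℝ) (hε : 0 < ε) :
    ∃ C : ℝ, 0 ≤ C ∧ ∃ a : ℕ → C(Tor D, ℂ),
      Approx D h N (fun k => kerN (fun n => χ (iot b (cst n))) (N k)) ε C a := by
  have hD := D_pos b
  have hDr : (1:ℝ) ≤ D := by exact_mod_cast hD
  obtain ⟨C, hC, hmult⟩ := exists_mult b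
  obtain ⟨C₄, hC₄, hsep⟩ := exists_sepA b
  obtain ⟨C₅, hC₅, C₆, hC₆, hmaj⟩ := kerA_major b C hC
  set ε' : ℝ := ε / (4 * 3 ^ D) with hε'
  have hε'0 : 0 < ε' := by positivity
  obtain ⟨A, P₀, hP₀, hmult⟩ := hmult ε' hε'0
  set z : ℕ → ℕ := fun k => k ^ (8 * D ^ 2) with hz
  set P : ℕ → ℕ := fun k => (z k) ^ 6 with hP
  set J : ℕ → ℕ := fun k => Nat.log 2 ((P k) ^ A) + 1 with hJ
  have hex : ∀ k, ∃ 𝒟 : Finset (𝓞 K), P₀ ≤ P k → MultSet b C ε' A (P k) 𝒟 := by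
    intro k
    by_cases hk : P₀ ≤ P k
    · obtain ⟨𝒟, h𝒟⟩ := hmult (P k) hk
      exact ⟨𝒟, fun _ => h𝒟⟩
    · exact ⟨∅, fun h => absurd h hk⟩
  choose 𝒟 h𝒟 using hex
  set p : ℕ := 48 * D ^ 2 * A * D + 4 * D * (D + 1) with hp
  set Z : ℕ → ℝ := fun k => (3 * C) ^ D * ((k:ℝ) + 2) ^ p with hZ
  -- basic facts for large k
  have hbase : ∀ᶠ k : ℕ in atTop, 2 ≤ k ∧ P₀ ≤ P k := by
    filter_upwards [eventually_ge_atTop (max 2 P₀)] with k hk
    have hk2 : 2 ≤ k := le_trans (le_max_left _ _) hk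
    refine ⟨hk2, ?_⟩
    have h1 : k ≤ P k := by
      rw [hP, hz]; simp only
      rw [← pow_mul]
      apply Nat.le_self_pow
      have : 0 < 8 * D ^ 2 * 6 := by positivity
      omega
    exact (le_trans (le_max_right _ _) hk).trans h1
  have hzge : ∀ k, 2 ≤ k → 2 ≤ z k := by
    intro k hk
    refine hk.trans ?_
    rw [hz]; simp only
    apply Nat.le_self_pow
    have : 0 < 8 * D ^ 2 := by positivity
    omega
  have hkP : ∀ k, 2 ≤ k → k ≤ P k := by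
    intro k hk
    rw [hP, hz]; simp only
    rw [← pow_mul]
    apply Nat.le_self_pow
    have : 0 < 8 * D ^ 2 * 6 := by positivity
    omega
  have hPpos : ∀ k, 2 ≤ k → 0 < P k := fun k hk => lt_of_lt_of_le (by omega) (hkP k hk)
  have hPA : ∀ k, (P k : ℝ) ^ A ≤ ((k:ℝ) + 2) ^ (48 * D ^ 2 * A) := by
    intro k
    have h1 : (P k : ℝ) ^ A = (k:ℝ) ^ (48 * D ^ 2 * A) := by
      rw [hP, hz]; simp only
      push_cast
      rw [← pow_mul, ← pow_mul]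
      congr 1; ring
    rw [h1]
    apply pow_le_pow_left₀ (by positivity); linarith
  have hk2r : ∀ k : ℕ, (1:ℝ) ≤ (k:ℝ) + 2 := fun k => by linarith [(Nat.cast_nonneg k : (0:ℝ) ≤ k)]
  have h3C : 1 ≤ 3 * C := by linarith
  have hZ1 : ∀ k, 1 ≤ Z k := by
    intro k
    exact one_le_mul_of_one_le_of_one_le (one_le_pow₀ h3C) (one_le_pow₀ (hk2r k))
  have hCPZ : ∀ k, 3 * (C * (P k : ℝ) ^ A) ≤ Z k := by
    intro k
    calc 3 * (C * (P k : ℝ) ^ A) = (3 * C) * (P k : ℝ) ^ A := by ring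
      _ ≤ (3 * C) ^ D * ((k:ℝ) + 2) ^ p := by
          apply mul_le_mul _ _ (by positivity) (by positivity)
          · exact le_self_pow₀ h3C hD.ne'
          · refine (hPA k).trans (pow_le_pow_right₀ (hk2r k) ?_)
            rw [hp]
            have : 48 * D ^ 2 * A * 1 ≤ 48 * D ^ 2 * A * D := Nat.mul_le_mul_left _ hD
            omega
  have hcardZ : ∀ k, 2 ≤ k → P₀ ≤ P k → ((𝒟 k).card : ℝ) ≤ Z k := by
    intro k hk2 hk
    refine (card_mult_le b C ε' hC A (P k) (hPpos k hk2) (𝒟 k) (h𝒟 k hk)).trans ?_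
    calc (3 * (C * (P k : ℝ) ^ A)) ^ D = (3 * C) ^ D * ((P k : ℝ) ^ A) ^ D := by rw [← mul_pow]; ring
      _ ≤ (3 * C) ^ D * (((k:ℝ) + 2) ^ (48 * D ^ 2 * A)) ^ D := by
          have := hPA k
          gcongr
      _ ≤ (3 * C) ^ D * ((k:ℝ) + 2) ^ p := by
          rw [← pow_mul]
          gcongr
          · exact hk2r k
          · rw [hp]; omega
  have hQZ : ∀ k, ((Qk D k : ℕ) : ℝ) ^ (D + 1) ≤ Z k := by
    intro k
    calc ((Qk D k : ℕ) : ℝ) ^ (D + 1) ≤ (((k:ℝ) + 2) ^ (4 * D)) ^ (D + 1) := by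
          have := Qk_le (D := D) k
          gcongr
      _ = 1 * ((k:ℝ) + 2) ^ (4 * D * (D + 1)) := by rw [← pow_mul, one_mul]
      _ ≤ (3 * C) ^ D * ((k:ℝ) + 2) ^ p := by
          apply mul_le_mul _ _ (by positivity) (by positivity)
          · exact one_le_pow₀ h3C
          · apply pow_le_pow_right₀ (hk2r k)
            rw [hp]; omega
  -- large powers of Z are dominated by h
  have hZh : ∀ (c : ℝ) (q : ℕ), 0 ≤ c → ∀ᶠ k : ℕ in atTop, c * Z k ^ q ≤ h k := by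
    intro c q hc
    filter_upwards [hs (p * q) (c * ((3 * C) ^ D) ^ q)] with k hk
    calc c * Z k ^ q = c * ((3 * C) ^ D) ^ q * ((k:ℝ) + 2) ^ (p * q) := by
          rw [hZ]; simp only; rw [mul_pow, ← pow_mul]; ring
      _ ≤ h k := hk
  have hhN : ∀ᶠ k : ℕ in atTop, (1:ℝ) ≤ h k ∧ (h k : ℝ) ≤ N k ∧ (h k) ^ 2 ≤ N k ∧ (h k : ℝ) ^ 4 ≤ N k := by
    filter_upwards [hN, hs.eventually_ge 1] with k hk h1
    have h1' : 1 ≤ h k := by exact_mod_cast h1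
    have h2 : (h k : ℝ) ^ 4 ≤ N k := by exact_mod_cast hk
    refine ⟨h1, ?_, ?_, h2⟩
    · exact (le_self_pow₀ h1 (by norm_num)).trans h2
    · exact (Nat.pow_le_pow_right h1' (by norm_num)).trans hk
  have hPN : ∀ᶠ k : ℕ in atTop, (P k) ^ (2 * A * D) ≤ N k := by
    filter_upwards [hZh 1 (2 * D) zero_le_one, hhN] with k hk h1
    have h2 : ((P k : ℝ)) ^ (2 * A * D) ≤ N k := by
      calc ((P k : ℝ)) ^ (2 * A * D) = ((P k : ℝ) ^ A) ^ (2 * D) := by rw [← pow_mul]; congr 1; ring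
        _ ≤ (Z k) ^ (2 * D) := by
            have h3 := hCPZ k
            have h4 : (P k : ℝ) ^ A ≤ Z k := by
              have : 0 ≤ (P k : ℝ) ^ A := by positivity
              nlinarith
            gcongr
        _ ≤ h k := by linarith
        _ ≤ N k := h1.2.1
    exact_mod_cast h2
  refine ⟨C₅ * (2 * (6 * A + 1)) + 1, by positivity, fun k => kerA b χ (𝒟 k) (N k), ?_⟩
  constructor
  · -- tp
    exact Eventually.of_forall (fun k => kerA_isTP b χ (𝒟 k) (N k))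
  · -- bd
    filter_upwards [hbase, hhN, hZh (D * 2 ^ D) 1 (by positivity)] with k hk h1 h2 α
    have hNr : (0:ℝ) < N k := by linarith [h1.1, h1.2.1]
    have hN0 : 0 < N k := by exact_mod_cast hNr
    have hM := h𝒟 k hk.2
    have h3 := kerA_bd b χ hχ (𝒟 k) (fun δ hδ => (hM.bal δ hδ).ne) hM.L1 (N k) hN0 (by
      intro δ hδ
      have h4 : (Nn δ : ℝ) ≤ (P k : ℝ) ^ A := by exact_mod_cast hM.hi δ hδ
      have h5 := hCPZ k
      have h6 : (0:ℝ) ≤ (P k : ℝ) ^ A := by positivity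
      have h7 : Z k ≤ D * 2 ^ D * Z k ^ 1 := by
        rw [pow_one]
        apply le_mul_of_one_le_left (by linarith [hZ1 k])
        exact one_le_mul_of_one_le_of_one_le hDr (one_le_pow₀ (by norm_num))
      have h8 : (Nn δ : ℝ) ≤ N k := by nlinarith [h1.2.1]
      exact_mod_cast h8) α
    refine h3.trans ?_
    have h4 : ((𝒟 k).card : ℝ) * (D * 2 ^ D / N k) ≤ 1 := by
      rw [← mul_div_assoc, div_le_one hNr]
      calc ((𝒟 k).card : ℝ) * (D * 2 ^ D) ≤ Z k * (D * 2 ^ D) := by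
            have := hcardZ k hk.1 hk.2
            gcongr
        _ = D * 2 ^ D * Z k ^ 1 := by ring
        _ ≤ h k := h2
        _ ≤ N k := h1.2.1
    linarith
  · -- close
    filter_upwards [hbase, hhN, hPN, hZh (3 ^ D * 6 * (D * 2 ^ D) * (8 / ε)) 2 (by positivity),
      hZh (3 ^ D * 8 * D ^ 2 * (D * 2 ^ D) * (8 / ε)) 1 (by positivity),
      eventually_ge_atTop ⌈3 ^ D * 8 * (D:ℝ) ^ 2 * (8 / ε)⌉₊] with k hk h1 h2 h3 h4 h5
    have hNr : (0:ℝ) < N k := by linarith [h1.1, h1.2.1]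
    have hM := h𝒟 k hk.2
    have hPr : (0:ℝ) < P k := by exact_mod_cast hPpos k hk.1
    have h6 := kerA_close b χ hχ hm C ε' A (P k) (𝒟 k) hM (N k) (hPpos k hk.1) h2
    refine h6.trans ?_
    have h7 : 3 ^ D * 6 * (D * 2 ^ D) * (((𝒟 k).card : ℝ) ^ 2 / N k) ≤ ε / 8 := by
      have h8 : ((𝒟 k).card : ℝ) ^ 2 ≤ Z k ^ 2 := by
        have := hcardZ k hk.1 hk.2
        gcongr
      calc 3 ^ D * 6 * (D * 2 ^ D) * (((𝒟 k).card : ℝ) ^ 2 / N k)
          ≤ 3 ^ D * 6 * (D * 2 ^ D) * (Z k ^ 2 / N k) := by gcongr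
        _ = (3 ^ D * 6 * (D * 2 ^ D) * (8 / ε) * Z k ^ 2) * (ε / 8) / N k := by field_simp
        _ ≤ (N k : ℝ) * (ε / 8) / N k := by
            have := h3.trans h1.2.1
            gcongr
        _ = _ := by field_simp
    have h8 : 3 ^ D * 8 * (D:ℝ) ^ 2 * (1 / P k) ≤ ε / 8 := by
      have h9 : 3 ^ D * 8 * (D:ℝ) ^ 2 * (8 / ε) ≤ P k := by
        calc 3 ^ D * 8 * (D:ℝ) ^ 2 * (8 / ε) ≤ (⌈3 ^ D * 8 * (D:ℝ) ^ 2 * (8 / ε)⌉₊ : ℝ) := Nat.le_ceil _
          _ ≤ k := by exact_mod_cast h5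
          _ ≤ P k := by exact_mod_cast hkP k hk.1
      rw [mul_one_div, div_le_iff₀ hPr]
      calc 3 ^ D * 8 * (D:ℝ) ^ 2 = (ε / 8) * (3 ^ D * 8 * (D:ℝ) ^ 2 * (8 / ε)) := by field_simp
        _ ≤ _ := by gcongr
    have h9 : 3 ^ D * 8 * (D:ℝ) ^ 2 * (D * 2 ^ D) * ((P k : ℝ) ^ A / N k) ≤ ε / 8 := by
      have h10 : (P k : ℝ) ^ A ≤ Z k := by
        have h3' := hCPZ k
        have : 0 ≤ (P k : ℝ) ^ A := by positivity
        nlinarith
      calc 3 ^ D * 8 * (D:ℝ) ^ 2 * (D * 2 ^ D) * ((P k : ℝ) ^ A / N k)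
          ≤ 3 ^ D * 8 * (D:ℝ) ^ 2 * (D * 2 ^ D) * (Z k / N k) := by gcongr
        _ = (3 ^ D * 8 * (D:ℝ) ^ 2 * (D * 2 ^ D) * (8 / ε) * Z k ^ 1) * (ε / 8) / N k := by field_simp
        _ ≤ (N k : ℝ) * (ε / 8) / N k := by
            have := h4.trans h1.2.1
            gcongr
        _ = _ := by field_simp
    have h10 : 3 ^ D * (2 * ε') = ε / 2 := by
      rw [hε']; field_simp; norm_num
    calc 3 ^ D * (2 * (ε' + 3 * ((𝒟 k).card : ℝ) ^ 2 * (D * 2 ^ D / N k)) +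
        8 * ((D:ℝ) ^ 2 * (1 / P k + (P k : ℝ) ^ A * (D * 2 ^ D / N k))))
        = 3 ^ D * (2 * ε') + 3 ^ D * 6 * (D * 2 ^ D) * (((𝒟 k).card : ℝ) ^ 2 / N k) +
          3 ^ D * 8 * (D:ℝ) ^ 2 * (1 / P k) + 3 ^ D * 8 * (D:ℝ) ^ 2 * (D * 2 ^ D) * ((P k : ℝ) ^ A / N k) := by ring
      _ ≤ ε / 2 + ε / 8 + ε / 8 + ε / 8 := by linarith
      _ ≤ ε := by linarith
  · -- minor
    have hlogk : ∀ᶠ k : ℕ in atTop, (450 * C ^ 4) ^ D * (2 * (6 * A + 1) * (8 * D ^ 2)) ^ 2 * Real.log k ^ 2 ≤ k / 18 := by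
      have h1 := (Real.isLittleO_pow_log_id_atTop (n := 2))
      set c : ℝ := (450 * C ^ 4) ^ D * (2 * (6 * A + 1) * (8 * D ^ 2)) ^ 2 with hc
      have hc0 : 0 < c := by positivity
      have h2 := h1.def (c := 1 / (18 * c)) (by positivity)
      have h3 := tendsto_natCast_atTop_atTop (R := ℝ) |>.eventually h2
      filter_upwards [h3] with k hk
      simp only [id, Real.norm_eq_abs] at hk
      rw [abs_of_nonneg (by positivity), abs_of_nonneg (Nat.cast_nonneg k)] at hk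
      calc c * Real.log k ^ 2 ≤ c * (1 / (18 * c) * k) := by gcongr
        _ = k / 18 := by field_simp
    filter_upwards [hbase, hhN, hPN, hlogk, eventually_ge_atTop ⌈C₄⌉₊,
      hZh ((450 * C ^ 4) ^ D * (2 * (6 * A + 1) * (8 * D ^ 2)) ^ 2 * (4 * C₄)) 1 (by positivity),
      hs (48 * D ^ 2 * A + 3 * (D - 1) + 4) ((450 * C ^ 4) ^ D * (2 * (6 * A + 1) * (8 * D ^ 2)) ^ 2 * (4 * C₄))]
      with k hk h1 h2 h3 h4 _ h5 α hα
    have hNr : (0:ℝ) < N k := by linarith [h1.1, h1.2.1]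
    have hM := h𝒟 k hk.2
    have hk2 : (2:ℝ) ≤ k := by exact_mod_cast hk.1
    have hkr : (0:ℝ) < k := by linarith
    have hhr : (0:ℝ) < h k := by linarith [h1.1]
    set Y : ℕ := k ^ 3 with hY
    have hY0 : 0 < Y := by rw [hY]; exact pow_pos (by omega) 3
    have hYr : (0:ℝ) < Y := by exact_mod_cast hY0
    set τ : ℝ := 1 / (2 * C₄ * (Y:ℝ) ^ (D - 1) * (h k : ℝ) ^ 3) with hτ
    have hC₄0 : 0 < C₄ := by linarith
    have hτ0 : 0 < τ := by positivity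
    have hSep := hsep α (Qk D k) Y (1 / (h k : ℝ) ^ 3) τ hY0 hτ0 (by
      have h6 : C₄ ≤ k := (Nat.le_ceil C₄).trans (by exact_mod_cast h4)
      rw [hY, Qk]
      push_cast
      calc C₄ * ((k:ℝ) ^ 3) ^ D ≤ (k:ℝ) ^ D * ((k:ℝ) ^ 3) ^ D := by
            gcongr
            exact h6.trans (le_self_pow₀ (by linarith) hD.ne')
        _ = (k:ℝ) ^ (4 * D) := by rw [← pow_mul, ← pow_add]; congr 1; ring) (by
      rw [hτ]
      apply le_of_eq
      field_simp) hα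
    have hPA1 : (P k) ^ A ≤ N k := by
      refine le_trans (Nat.pow_le_pow_right (hPpos k hk.1) ?_) h2
      calc A = 1 * A * 1 := by ring
        _ ≤ 2 * A * D := by gcongr <;> omega
    have hYP : Y ≤ P k := by
      rw [hY, hP, hz]; simp only
      rw [← pow_mul]
      apply Nat.pow_le_pow_right (by omega)
      have : 1 ≤ D ^ 2 := Nat.one_le_pow _ _ hD
      omega
    have h6 := kerA_minor b χ hχ C ε' hC A (P k) (𝒟 k) hM (N k) (J k) Y (hPpos k hk.1) hY0 hYP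
      (Nat.lt_pow_succ_log_self (by norm_num) _) hPA1 τ hτ0 α hSep
    have hJk : (J k : ℝ) ≤ 2 * (6 * A + 1) * (8 * D ^ 2) * Real.log k := by
      have h7 := J_bound (z k) A (hzge k hk.1)
      have h8 : Real.log (z k) = 8 * D ^ 2 * Real.log k := by
        rw [hz]; simp only; push_cast; rw [Real.log_pow]; push_cast; ring
      rw [h8] at h7
      calc (J k : ℝ) ≤ 2 * (6 * A + 1) * (8 * D ^ 2 * Real.log k) := h7
        _ = _ := by ring
    have hlogk0 : 0 ≤ Real.log k := Real.log_nonneg (by linarith)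
    have hlogle : Real.log k ≤ k := (Real.log_le_sub_one_of_pos hkr).trans (by linarith)
    set c : ℝ := (450 * C ^ 4) ^ D * (2 * (6 * A + 1) * (8 * D ^ 2)) ^ 2 with hc
    have hc0 : 0 < c := by positivity
    have h7 : (450 * C ^ 4) ^ D * (J k : ℝ) ^ 2 ≤ c * Real.log k ^ 2 := by
      calc (450 * C ^ 4) ^ D * (J k : ℝ) ^ 2 ≤ (450 * C ^ 4) ^ D * (2 * (6 * A + 1) * (8 * D ^ 2) * Real.log k) ^ 2 := by gcongr
        _ = _ := by rw [hc]; ring
    have h8 : c * Real.log k ^ 2 * (1 / (Y:ℝ) ^ D) ≤ 1 / (2 * ((k:ℝ) + 2) ^ 2) := by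
      have h9 : (k:ℝ) ^ 3 ≤ (Y:ℝ) ^ D := by
        rw [hY]; push_cast
        exact le_self_pow₀ (one_le_pow₀ (by linarith)) hD.ne'
      calc c * Real.log k ^ 2 * (1 / (Y:ℝ) ^ D) ≤ (k / 18) * (1 / (k:ℝ) ^ 3) := by gcongr
        _ = 1 / (18 * (k:ℝ) ^ 2) := by field_simp
        _ ≤ 1 / (2 * ((k:ℝ) + 2) ^ 2) := by
            apply one_div_le_one_div_of_le (by positivity)
            nlinarith
    have h9 : c * Real.log k ^ 2 * ((P k : ℝ) ^ A / (τ * N k)) ≤ 1 / (2 * ((k:ℝ) + 2) ^ 2) := by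
      have h10 : 1 / (τ * N k) ≤ 2 * C₄ * (Y:ℝ) ^ (D - 1) / h k := by
        rw [hτ]
        have e : (1:ℝ) / (1 / (2 * C₄ * (Y:ℝ) ^ (D - 1) * (h k : ℝ) ^ 3) * N k) =
            2 * C₄ * (Y:ℝ) ^ (D - 1) * ((h k : ℝ) ^ 3 / N k) := by field_simp
        rw [e, mul_div_assoc]
        have h11 : (h k : ℝ) ^ 3 / N k ≤ 1 / h k := by
          rw [div_le_div_iff₀ hNr hhr]
          calc (h k : ℝ) ^ 3 * h k = (h k : ℝ) ^ 4 := by ring
            _ ≤ (N k : ℝ) := h1.2.2.2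
            _ = 1 * (N k : ℝ) := (one_mul _).symm
        calc 2 * C₄ * (Y:ℝ) ^ (D - 1) * ((h k : ℝ) ^ 3 / N k) ≤ 2 * C₄ * (Y:ℝ) ^ (D - 1) * (1 / h k) := by gcongr
          _ = _ := by ring
      have hYle : (Y:ℝ) ^ (D - 1) ≤ ((k:ℝ) + 2) ^ (3 * (D - 1)) := by
        rw [hY]; push_cast; rw [← pow_mul]
        apply pow_le_pow_left₀ (by positivity); linarith
      have hlog2 : Real.log k ^ 2 ≤ ((k:ℝ) + 2) ^ 2 := by
        apply pow_le_pow_left₀ hlogk0; linarith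
      have hlhs : c * Real.log k ^ 2 * ((P k : ℝ) ^ A / (τ * N k)) ≤
          c * ((k:ℝ) + 2) ^ 2 * (((k:ℝ) + 2) ^ (48 * D ^ 2 * A) * (2 * C₄ * ((k:ℝ) + 2) ^ (3 * (D - 1)) / h k)) := by
        have e : (P k : ℝ) ^ A / (τ * N k) = (P k : ℝ) ^ A * (1 / (τ * N k)) := by ring
        rw [e]
        have hPAk := hPA k
        have h10' : 1 / (τ * N k) ≤ 2 * C₄ * ((k:ℝ) + 2) ^ (3 * (D - 1)) / h k := h10.trans (by gcongr)
        exact mul_le_mul (mul_le_mul_of_nonneg_left hlog2 hc0.le) (mul_le_mul hPAk h10' (by positivity) (by positivity))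
          (by positivity) (by positivity)
      refine hlhs.trans ?_
      have e2 : c * ((k:ℝ) + 2) ^ 2 * (((k:ℝ) + 2) ^ (48 * D ^ 2 * A) * (2 * C₄ * ((k:ℝ) + 2) ^ (3 * (D - 1)) / h k)) =
          (c * (4 * C₄) * ((k:ℝ) + 2) ^ (48 * D ^ 2 * A + 3 * (D - 1) + 4)) / h k * (1 / (2 * ((k:ℝ) + 2) ^ 2)) := by
        rw [pow_add, pow_add]
        field_simp
        ring
      rw [e2]
      have h12 : (c * (4 * C₄) * ((k:ℝ) + 2) ^ (48 * D ^ 2 * A + 3 * (D - 1) + 4)) / h k ≤ 1 := by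
        rw [div_le_one hhr]; exact h5
      have h13 : (0:ℝ) ≤ 1 / (2 * ((k:ℝ) + 2) ^ 2) := by positivity
      nlinarith
    have h10 : ‖kerA b χ (𝒟 k) (N k) α‖ ^ 2 ≤ (1 / ((k:ℝ) + 2)) ^ 2 := by
      refine h6.trans ?_
      calc (450 * C ^ 4) ^ D * (J k : ℝ) ^ 2 * (1 / (Y:ℝ) ^ D + (P k : ℝ) ^ A / (τ * N k))
          ≤ c * Real.log k ^ 2 * (1 / (Y:ℝ) ^ D + (P k : ℝ) ^ A / (τ * N k)) := by gcongr
        _ = c * Real.log k ^ 2 * (1 / (Y:ℝ) ^ D) + c * Real.log k ^ 2 * ((P k : ℝ) ^ A / (τ * N k)) := by ring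
        _ ≤ 1 / (2 * ((k:ℝ) + 2) ^ 2) + 1 / (2 * ((k:ℝ) + 2) ^ 2) := add_le_add h8 h9
        _ = _ := by field_simp; norm_num
    exact le_of_pow_le_pow_left₀ two_ne_zero (by positivity) h10
  · -- major
    intro η hη ρ M hρ hρ1 hn
    obtain ⟨Q₁, hQ₁, Lc, hLc, hmj⟩ := hmaj M ρ hρ hρ1 η hη hn
    refine ⟨Q₁, ?_⟩
    filter_upwards [hbase, hhN, hPN, hZh C₆ 3 hC₆.le, hZh (C₆ * (1 + Lc ^ 2) / η) 6 (by positivity)]
      with k hk h1 h2 h3 h4
    have hhr : (0:ℝ) < h k := by linarith [h1.1]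
    have hM := h𝒟 k hk.2
    have hk0 : 0 < k := by omega
    have hPA1 : (P k) ^ A ≤ N k := by
      refine le_trans (Nat.pow_le_pow_right (hPpos k hk.1) ?_) h2
      calc A = 1 * A * 1 := by ring
        _ ≤ 2 * A * D := by gcongr <;> omega
    have h5 := hmj χ hχ ε' A (P k) (𝒟 k) hM (N k) (Qk D k) (z k) (J k) (h k) (Z k) (hPpos k hk.1)
      (by rw [Qk]; exact pow_pos hk0 _) (by
        rw [Qk, hP, hz]; simp only
        rw [← pow_mul]
        apply Nat.pow_le_pow_right hk0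
        nlinarith) (by
        rw [hP]; simp only
        exact Nat.le_self_pow (by norm_num) _) (hzge k hk.1) (by
        rw [hP, Qk, hz]; simp only
        rw [← pow_mul, ← pow_mul, ← pow_mul, ← pow_add]
        apply Nat.pow_le_pow_right hk0
        apply le_of_eq; ring) (Nat.lt_pow_succ_log_self (by norm_num) _) hPA1 (hZ1 k) (hcardZ k hk.1 hk.2) (by
        have := hCPZ k
        have h6 : 0 ≤ C * (P k : ℝ) ^ A := by positivity
        linarith) (hQZ k) h3 h1.2.2.1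
    rw [Ak]
    refine h5.trans ?_
    have hz2 : (2:ℝ) ≤ z k := by exact_mod_cast hzge k hk.1
    have hlog : 0 < Real.log (z k) := Real.log_pos (by linarith)
    have h6 : (J k : ℝ) / Real.log (z k) ≤ 2 * (6 * A + 1) := by
      rw [div_le_iff₀ hlog]
      exact J_bound (z k) A (hzge k hk.1)
    have h7 : C₆ * (1 + Lc ^ 2) * Z k ^ 6 / h k ≤ η := by
      rw [div_le_iff₀ hhr]
      calc C₆ * (1 + Lc ^ 2) * Z k ^ 6 = η * (C₆ * (1 + Lc ^ 2) / η * Z k ^ 6) := by field_simp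
        _ ≤ η * h k := by gcongr
    calc C₅ * (J k / Real.log (z k)) * η + C₆ * (1 + Lc ^ 2) * Z k ^ 6 / h k
        ≤ C₅ * (2 * (6 * A + 1)) * η + η := by gcongr
      _ = _ := by ring

end PSarnak
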