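import Pool.Agent.Run7.h492.Coord

/-!
Norms, archimedean places and balanced generators.
-/

set_option linter.unusedVariables false
set_option linter.unusedSectionVars false

noncomputable section

open MeasureTheory Finset UnitAddTorus Filter NumberField
open scoped ComplexConjugate ENNReal Classical

namespace PSarnak

variable {D : ℕ} {K : Type*} [Field K] [NumberField K] (b : Module.Basis (Fin D) ℤ (𝓞 K))

/-- absolute norm of an element -/
def Nn (x : 𝓞 K) : ℕ := (Algebra.norm ℤ x).natAbs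

lemma Nn_eq_absNorm (x : 𝓞 K) : Nn x = Ideal.absNorm (Ideal.span {x}) := by
  rw [Nn, Ideal.absNorm_span_singleton]

lemma Nn_mul (x y : 𝓞 K) : Nn (x * y) = Nn x * Nn y := by
  rw [Nn, Nn, Nn, map_mul, Int.natAbs_mul]

lemma Nn_pos {x : 𝓞 K} (hx : x ≠ 0) : 0 < Nn x := by
  rw [Nn, Int.natAbs_pos]
  exact Algebra.norm_ne_zero_iff.mpr hx

lemma Nn_cast (x : 𝓞 K) : (Nn x : ℝ) = |Algebra.norm ℚ (x : K)| := by
  rw [Nn, Nat.cast_natAbs, ← Algebra.coe_norm_int]
  push_cast; rfl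

lemma prod_place (x : 𝓞 K) : ∏ w : InfinitePlace K, (w (x : K)) ^ w.mult = (Nn x : ℝ) := by
  rw [InfinitePlace.prod_eq_abs_norm, Nn_cast]

include b in
lemma finrank_eq : Module.finrank ℚ K = D := by
  rw [← RingOfIntegers.rank, Module.finrank_eq_card_basis b, Fintype.card_fin]

include b in
lemma sum_mult : ∑ w : InfinitePlace K, w.mult = D := by
  rw [InfinitePlace.sum_mult_eq, finrank_eq b]

include b in
lemma D_pos : 0 < D := by
  rw [← finrank_eq b]; exact Module.finrank_pos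

lemma exists_place_bound : ∃ C : ℝ, 1 ≤ C ∧ ∀ (x : 𝓞 K) (w : InfinitePlace K), w (x : K) ≤ C * ‖crd b x‖ := by
  refine ⟨1 + ∑ w : InfinitePlace K, ∑ i, w (b i : K), ?_, ?_⟩
  · have : 0 ≤ ∑ w : InfinitePlace K, ∑ i, w (b i : K) :=
      Finset.sum_nonneg (fun w _ => Finset.sum_nonneg (fun i _ => apply_nonneg w _))
    linarith
  · intro x w
    have h1 : (x : K) = ∑ i, ((crd b x i : ℤ) : K) * (b i : K) := by
      conv_lhs => rw [← iot_crd b x, iot_eq]
      rw [RingOfIntegers.coe_eq_algebraMap, map_sum]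
      apply Finset.sum_congr rfl
      intro i _
      rw [zsmul_eq_mul, map_mul, map_intCast]
    rw [h1]
    have h2 : w (∑ i, ((crd b x i : ℤ) : K) * (b i : K)) ≤ ∑ i, w (((crd b x i : ℤ) : K) * (b i : K)) := by
      induction (Finset.univ : Finset (Fin D)) using Finset.induction_on with
      | empty => simp
      | insert a s ha ih =>
        rw [Finset.sum_insert ha, Finset.sum_insert ha]
        exact (w.1.add_le _ _).trans (add_le_add (le_refl _) ih)
    refine h2.trans ?_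
    have h3 : ∀ i, w (((crd b x i : ℤ) : K) * (b i : K)) ≤ ‖crd b x‖ * w (b i : K) := by
      intro i
      rw [map_mul]
      have e1 : w ((crd b x i : ℤ) : K) = ‖crd b x i‖ := by
        rw [← InfinitePlace.norm_embedding_eq, map_intCast, Complex.norm_intCast]
        rfl
      rw [e1]
      have e2 : ‖crd b x i‖ ≤ ‖crd b x‖ := norm_le_pi_norm _ i
      have e3 : 0 ≤ w (b i : K) := apply_nonneg w _
      gcongr
    refine (Finset.sum_le_sum (fun i _ => h3 i)).trans ?_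
    rw [← Finset.mul_sum, mul_comm]
    have h4 : ∑ i, w (b i : K) ≤ 1 + ∑ w : InfinitePlace K, ∑ i, w (b i : K) := by
      have := Finset.single_le_sum (f := fun w : InfinitePlace K => ∑ i, w (b i : K))
        (fun w _ => Finset.sum_nonneg (fun i _ => apply_nonneg w _)) (Finset.mem_univ w)
      linarith
    gcongr

lemma exists_crd_bound : ∃ C : ℝ, 1 ≤ C ∧ ∀ (x : 𝓞 K) (B : ℝ), (∀ w : InfinitePlace K, w (x : K) ≤ B) →
    ‖crd b x‖ ≤ C * B := by
  have hfd : ∀ i, ∃ C : ℝ, 0 ≤ C ∧ ∀ y : mixedEmbedding.mixedSpace K,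
      |(mixedEmbedding.latticeBasis K).repr y i| ≤ C * ‖y‖ := by
    intro i
    have hc : Continuous ((mixedEmbedding.latticeBasis K).coord i) :=
      LinearMap.continuous_of_finiteDimensional _
    set L : mixedEmbedding.mixedSpace K →L[ℝ] ℝ := ⟨(mixedEmbedding.latticeBasis K).coord i, hc⟩ with hL
    refine ⟨‖L‖, norm_nonneg _, fun y => ?_⟩
    have := L.le_opNorm y
    exact this
  choose C hC0 hC using hfd
  refine ⟨1 + ∑ i, C i * ‖crd b (RingOfIntegers.basis K i)‖, ?_, ?_⟩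
  · have : 0 ≤ ∑ i, C i * ‖crd b (RingOfIntegers.basis K i)‖ :=
      Finset.sum_nonneg (fun i _ => mul_nonneg (hC0 i) (norm_nonneg _))
    linarith
  · intro x B hB
    have hB0 : 0 ≤ B := by
      obtain ⟨w⟩ : Nonempty (InfinitePlace K) := inferInstance
      exact (apply_nonneg w _).trans (hB w)
    have hnorm : ‖mixedEmbedding K (x : K)‖ ≤ B := by
      rw [mixedEmbedding.norm_eq_sup'_normAtPlace]
      apply Finset.sup'_le
      intro w _
      rw [mixedEmbedding.normAtPlace_apply]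
      exact hB w
    have hx : x = ∑ i, (RingOfIntegers.basis K).repr x i • RingOfIntegers.basis K i :=
      ((RingOfIntegers.basis K).sum_repr x).symm
    have hcoef : ∀ i, ‖((RingOfIntegers.basis K).repr x i : ℤ)‖ ≤ C i * B := by
      intro i
      have h1 := hC i (mixedEmbedding K (x : K))
      rw [mixedEmbedding.latticeBasis_repr_apply] at h1
      rw [integralBasis_repr_apply] at h1
      have h2 : ‖((RingOfIntegers.basis K).repr x i : ℤ)‖ = |((((RingOfIntegers.basis K).repr x i : ℤ) : ℚ) : ℝ)| := by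
        rw [Int.norm_eq_abs]; simp
      rw [h2]
      refine h1.trans ?_
      have := hC0 i
      gcongr
    have h3 : crd b x = ∑ i, (RingOfIntegers.basis K).repr x i • crd b (RingOfIntegers.basis K i) := by
      conv_lhs => rw [hx]
      rw [crd_sum]
      simp only [crd_zsmul]
    rw [h3]
    calc ‖∑ i, (RingOfIntegers.basis K).repr x i • crd b (RingOfIntegers.basis K i)‖
        ≤ ∑ i, (C i * B) * ‖crd b (RingOfIntegers.basis K i)‖ := by
          refine (norm_sum_le _ _).trans (Finset.sum_le_sum (fun i _ => ?_))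
          refine (norm_smul_le _ _).trans ?_
          have := hcoef i
          gcongr
      _ = (∑ i, C i * ‖crd b (RingOfIntegers.basis K i)‖) * B := by
          rw [Finset.sum_mul]
          apply Finset.sum_congr rfl; intro i _; ring
      _ ≤ (1 + ∑ i, C i * ‖crd b (RingOfIntegers.basis K i)‖) * B := by
          gcongr; linarith

/-- upper bound for norms -/
lemma exists_Nn_bound : ∃ C : ℝ, 1 ≤ C ∧ ∀ x : 𝓞 K, (Nn x : ℝ) ≤ C * ‖crd b x‖ ^ D := by
  obtain ⟨C, hC1, hC⟩ := exists_place_bound b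
  refine ⟨C ^ D, one_le_pow₀ hC1, fun x => ?_⟩
  rw [← prod_place, ← mul_pow]
  calc ∏ w : InfinitePlace K, (w (x : K)) ^ w.mult ≤ ∏ w : InfinitePlace K, (C * ‖crd b x‖) ^ w.mult := by
        apply Finset.prod_le_prod
        · intro w _; exact pow_nonneg (apply_nonneg w _) _
        · intro w _; exact pow_le_pow_left₀ (apply_nonneg w _) (hC x w) _
    _ = (C * ‖crd b x‖) ^ D := by rw [Finset.prod_pow_eq_pow_sum, sum_mult b]

/-- the complementary factor of the norm -/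
lemma exists_adj : ∃ C : ℝ, 1 ≤ C ∧ ∀ x : 𝓞 K, x ≠ 0 → ∃ y : 𝓞 K, y * x = (Nn x : 𝓞 K) ∧
    ‖crd b y‖ ≤ C * ‖crd b x‖ ^ (D - 1) := by
  obtain ⟨C, hC1, hC⟩ := exists_place_bound b
  obtain ⟨C', hC'1, hC'⟩ := exists_crd_bound b
  refine ⟨C' * C ^ (D - 1), one_le_mul_of_one_le_of_one_le hC'1 (one_le_pow₀ hC1), fun x hx => ?_⟩
  have h1 : ((Ideal.absNorm (Ideal.span {x}) : ℕ) : 𝓞 K) ∈ Ideal.span {x} := Ideal.absNorm_mem _
  rw [Ideal.mem_span_singleton'] at h1
  obtain ⟨y, hy⟩ := h1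
  rw [← Nn_eq_absNorm] at hy
  refine ⟨y, hy, ?_⟩
  rw [mul_assoc, ← mul_pow]
  apply hC'
  intro w
  have hwx : 0 < w (x : K) := by
    rw [InfinitePlace.pos_iff]
    simpa using hx
  have h2 : w (y : K) * w (x : K) = (Nn x : ℝ) := by
    rw [← map_mul]
    have : ((y : K) * (x : K)) = ((Nn x : ℕ) : K) := by
      have := congrArg (algebraMap (𝓞 K) K) hy
      simpa using this
    rw [this, ← InfinitePlace.norm_embedding_eq, map_natCast, Complex.norm_natCast]
  have h3 : (Nn x : ℝ) ≤ (C * ‖crd b x‖) ^ (D - 1) * w (x : K) := by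
    rw [← prod_place, ← Finset.mul_prod_erase _ _ (Finset.mem_univ w)]
    have e0 : 0 < w.mult := InfinitePlace.mult_pos
    obtain ⟨m, hm⟩ : ∃ m, w.mult = m + 1 := ⟨w.mult - 1, by omega⟩
    have e1 : ∏ v ∈ Finset.univ.erase w, (v (x : K)) ^ v.mult ≤ (C * ‖crd b x‖) ^ (∑ v ∈ Finset.univ.erase w, v.mult) := by
      rw [← Finset.prod_pow_eq_pow_sum]
      apply Finset.prod_le_prod
      · intro v _; exact pow_nonneg (apply_nonneg v _) _
      · intro v _; exact pow_le_pow_left₀ (apply_nonneg v _) (hC x v) _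
    have e2 : m + ∑ v ∈ Finset.univ.erase w, v.mult = D - 1 := by
      have := sum_mult (K := K) b
      rw [← Finset.add_sum_erase _ _ (Finset.mem_univ w)] at this
      omega
    have e3 : (w (x : K)) ^ m ≤ (C * ‖crd b x‖) ^ m := pow_le_pow_left₀ hwx.le (hC x w) _
    calc (w (x : K)) ^ w.mult * ∏ v ∈ Finset.univ.erase w, (v (x : K)) ^ v.mult
        = (w (x : K)) ^ m * w (x : K) * ∏ v ∈ Finset.univ.erase w, (v (x : K)) ^ v.mult := by
          rw [hm, pow_succ]
      _ ≤ (C * ‖crd b x‖) ^ m * w (x : K) * (C * ‖crd b x‖) ^ (∑ v ∈ Finset.univ.erase w, v.mult) := by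
          gcongr
      _ = (C * ‖crd b x‖) ^ (m + ∑ v ∈ Finset.univ.erase w, v.mult) * w (x : K) := by
          rw [pow_add]; ring
      _ = _ := by rw [e2]
  rw [← h2] at h3
  exact le_of_mul_le_mul_right h3 hwx

/-- size of an element -/
def Rr (D : ℕ) (x : 𝓞 K) : ℝ := (Nn x : ℝ) ^ ((1:ℝ) / D)

lemma Rr_pow (hD : 0 < D) (x : 𝓞 K) : Rr D x ^ D = Nn x := by
  rw [Rr, ← Real.rpow_natCast, ← Real.rpow_mul (Nat.cast_nonneg _)]
  rw [one_div_mul_cancel (by exact_mod_cast hD.ne'), Real.rpow_one]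

lemma Rr_pos {x : 𝓞 K} (hx : x ≠ 0) : 0 < Rr D x := by
  rw [Rr]
  apply Real.rpow_pos_of_pos
  exact_mod_cast Nn_pos hx

/-- balanced elements -/
structure Bal (b : Module.Basis (Fin D) ℤ (𝓞 K)) (C : ℝ) (δ : 𝓞 K) : Prop where
  ne : δ ≠ 0
  up : ‖crd b δ‖ ≤ C * Rr D δ
  low : ∀ m : 𝓞 K, ‖crd b m‖ * Rr D δ ≤ C * ‖crd b (δ * m)‖

theorem exists_balanced : ∃ C : ℝ, 1 ≤ C ∧ ∀ x : 𝓞 K, x ≠ 0 → ∃ u : (𝓞 K)ˣ,
    Bal b C ((u : 𝓞 K) * x) := by
  obtain ⟨C₁, hC₁1, hC₁⟩ := exists_place_bound b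
  obtain ⟨C₂, hC₂1, hC₂⟩ := exists_crd_bound b
  obtain ⟨C₀', hC₀'⟩ := isBounded_iff_forall_norm_le.mp
    (mixedEmbedding.fundamentalCone.isBounded_normLeOne K)
  set C₀ : ℝ := max 1 C₀' with hC₀
  have hC₀1 : 1 ≤ C₀ := le_max_left _ _
  have hD := D_pos b
  refine ⟨C₂ * C₁ * C₀ ^ D * C₀, ?_, ?_⟩
  · have : 1 ≤ C₀ ^ D := one_le_pow₀ hC₀1
    have h1 : 1 ≤ C₂ * C₁ := one_le_mul_of_one_le_of_one_le hC₂1 hC₁1
    exact one_le_mul_of_one_le_of_one_le (one_le_mul_of_one_le_of_one_le h1 this) hC₀1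
  intro x hx
  have hxn : mixedEmbedding.norm (mixedEmbedding K (x : K)) ≠ 0 := by
    rw [mixedEmbedding.norm_eq_norm, ← Nn_cast]
    exact_mod_cast (Nn_pos hx).ne'
  obtain ⟨u, hu⟩ := mixedEmbedding.fundamentalCone.exists_unit_smul_mem hxn
  refine ⟨u, ?_⟩
  set δ : 𝓞 K := (u : 𝓞 K) * x with hδ
  have hδ0 : δ ≠ 0 := mul_ne_zero u.ne_zero hx
  set R : ℝ := Rr D δ with hR
  have hR0 : 0 < R := Rr_pos hδ0
  have hemb : u • mixedEmbedding K (x : K) = mixedEmbedding K (δ : K) := by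
    rw [mixedEmbedding.unitSMul_smul, ← map_mul]
    congr 1
  rw [hemb] at hu
  have hmem : (R⁻¹ : ℝ) • mixedEmbedding K (δ : K) ∈ mixedEmbedding.fundamentalCone.normLeOne K := by
    rw [mixedEmbedding.fundamentalCone.mem_normLeOne]
    refine ⟨mixedEmbedding.fundamentalCone.smul_mem_of_mem hu (inv_ne_zero hR0.ne'), ?_⟩
    rw [mixedEmbedding.norm_smul, mixedEmbedding.norm_eq_norm, ← Nn_cast, finrank_eq b,
      abs_of_pos (inv_pos.mpr hR0), ← Rr_pow hD δ, ← mul_pow, inv_mul_cancel₀ hR0.ne', one_pow]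
  have hup : ∀ w : InfinitePlace K, w (δ : K) ≤ C₀ * R := by
    intro w
    have h1 := hC₀' _ hmem
    have h2 : mixedEmbedding.normAtPlace w ((R⁻¹ : ℝ) • mixedEmbedding K (δ : K)) ≤
        ‖(R⁻¹ : ℝ) • mixedEmbedding K (δ : K)‖ := by
      rw [mixedEmbedding.norm_eq_sup'_normAtPlace]
      exact Finset.le_sup' (fun w => mixedEmbedding.normAtPlace w ((R⁻¹ : ℝ) • mixedEmbedding K (δ : K))) (Finset.mem_univ w)
    rw [mixedEmbedding.normAtPlace_smul, mixedEmbedding.normAtPlace_apply,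
      abs_of_pos (inv_pos.mpr hR0)] at h2
    have h3 : R⁻¹ * w (δ : K) ≤ C₀ := h2.trans (h1.trans (le_max_right _ _))
    rw [inv_mul_le_iff₀ hR0] at h3
    linarith
  have hlow : ∀ w : InfinitePlace K, R ≤ C₀ ^ D * w (δ : K) := by
    intro w
    by_contra hcon
    push Not at hcon
    have hw0 : 0 < w (δ : K) := by
      rw [InfinitePlace.pos_iff]; simpa using hδ0
    have h1 := prod_place δ
    rw [← Finset.mul_prod_erase _ _ (Finset.mem_univ w), ← Rr_pow hD δ, ← hR] at h1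
    have e0 : 0 < w.mult := InfinitePlace.mult_pos
    have e2 : w.mult + ∑ v ∈ Finset.univ.erase w, v.mult = D := by
      have := sum_mult (K := K) b
      rwa [← Finset.add_sum_erase _ _ (Finset.mem_univ w)] at this
    set s := ∑ v ∈ Finset.univ.erase w, v.mult with hs
    have e1 : ∏ v ∈ Finset.univ.erase w, (v (δ : K)) ^ v.mult ≤ (C₀ * R) ^ s := by
      rw [hs, ← Finset.prod_pow_eq_pow_sum]
      apply Finset.prod_le_prod
      · intro v _; exact pow_nonneg (apply_nonneg v _) _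
      · intro v _; exact pow_le_pow_left₀ (apply_nonneg v _) (hup v) _
    have e3 : (C₀ ^ D) ^ w.mult * (w (δ : K)) ^ w.mult < R ^ w.mult := by
      rw [← mul_pow]
      exact pow_lt_pow_left₀ hcon (by positivity) e0.ne'
    have e4 : C₀ ^ s ≤ (C₀ ^ D) ^ w.mult := by
      rw [← pow_mul]
      apply pow_le_pow_right₀ hC₀1
      have : D * 1 ≤ D * w.mult := Nat.mul_le_mul_left D e0
      omega
    have e5 : R ^ D * C₀ ^ s < R ^ D * C₀ ^ s := by
      calc R ^ D * C₀ ^ s ≤ R ^ D * (C₀ ^ D) ^ w.mult := by gcongr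
        _ = ((w (δ : K)) ^ w.mult * ∏ v ∈ Finset.univ.erase w, (v (δ : K)) ^ v.mult) * (C₀ ^ D) ^ w.mult := by rw [h1]
        _ ≤ ((w (δ : K)) ^ w.mult * (C₀ * R) ^ s) * (C₀ ^ D) ^ w.mult := by gcongr
        _ = ((C₀ ^ D) ^ w.mult * (w (δ : K)) ^ w.mult) * (C₀ * R) ^ s := by ring
        _ < R ^ w.mult * (C₀ * R) ^ s := by gcongr
        _ = R ^ (w.mult + s) * C₀ ^ s := by rw [mul_pow, pow_add]; ring
        _ = R ^ D * C₀ ^ s := by rw [e2]
    exact lt_irrefl _ e5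
  have hbig : 1 ≤ C₁ * C₀ ^ D := one_le_mul_of_one_le_of_one_le hC₁1 (one_le_pow₀ hC₀1)
  refine ⟨hδ0, ?_, ?_⟩
  · refine (hC₂ δ _ hup).trans ?_
    calc C₂ * (C₀ * R) = C₂ * 1 * C₀ * R := by ring
      _ ≤ C₂ * (C₁ * C₀ ^ D) * C₀ * R := by gcongr
      _ = _ := by ring
  · intro m
    have h1 : ∀ w : InfinitePlace K, w (m : K) ≤ C₁ * C₀ ^ D * ‖crd b (δ * m)‖ / R := by
      intro w
      rw [le_div_iff₀ hR0]
      have h2 := hC₁ (δ * m) w
      have h3 : w ((δ * m : 𝓞 K) : K) = w (δ : K) * w (m : K) := by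
        rw [← map_mul]; congr 1
      rw [h3] at h2
      have hm0 : 0 ≤ w (m : K) := apply_nonneg w _
      calc w (m : K) * R ≤ w (m : K) * (C₀ ^ D * w (δ : K)) := by
            have := hlow w; gcongr
        _ = C₀ ^ D * (w (δ : K) * w (m : K)) := by ring
        _ ≤ C₀ ^ D * (C₁ * ‖crd b (δ * m)‖) := by gcongr
        _ = _ := by ring
    have h2 := hC₂ m _ h1
    calc ‖crd b m‖ * R ≤ (C₂ * (C₁ * C₀ ^ D * ‖crd b (δ * m)‖ / R)) * R := by gcongr
      _ = C₂ * C₁ * C₀ ^ D * 1 * ‖crd b (δ * m)‖ := by field_simp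
      _ ≤ C₂ * C₁ * C₀ ^ D * C₀ * ‖crd b (δ * m)‖ := by gcongr

end PSarnak
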