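import Pool.Agent.Run7.h492.Torus

/-!
Bumps around rational points of the torus.
-/

set_option linter.unusedVariables false

noncomputable section

open MeasureTheory Finset UnitAddTorus
open scoped ComplexConjugate ENNReal

namespace PSarnak

local instance instMS3 : MeasureSpace UnitAddCircle := ⟨AddCircle.haarAddCircle⟩

variable {D : ℕ}

/-- every point of the circle has a representative of absolute value at most 1/2, equal to norm -/
lemma exists_rep (t : UnitAddCircle) : ∃ x : ℝ, (x : UnitAddCircle) = t ∧ |x| = ‖t‖ ∧ |x| ≤ 1/2 := by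
  obtain ⟨y, rfl⟩ := QuotientAddGroup.mk_surjective t
  refine ⟨y - round y, ?_, ?_, ?_⟩
  · have : ((y - round y : ℝ) : UnitAddCircle) = (y : UnitAddCircle) := by
      rw [AddCircle.coe_sub]
      have h : ((round y : ℝ) : UnitAddCircle) = 0 := by
        rw [AddCircle.coe_eq_zero_iff]
        exact ⟨round y, by simp⟩
      rw [h, sub_zero]
    exact this
  · exact (UnitAddCircle.norm_eq (x := y)).symm
  · exact abs_sub_round y

lemma fourier_one_sub_one_bounds (t : UnitAddCircle) :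
    4 * ‖t‖ ≤ ‖fourier 1 t - 1‖ ∧ ‖fourier 1 t - 1‖ ≤ 2 * Real.pi * ‖t‖ := by
  obtain ⟨x, rfl, hx, hx2⟩ := exists_rep t
  have h1 : fourier 1 (x : UnitAddCircle) - 1 = Complex.exp (Complex.I * ((2 * Real.pi * x : ℝ) : ℂ)) - 1 := by
    rw [fourier_coe_apply]
    congr 2
    push_cast
    simp
    ring
  rw [h1, Complex.norm_exp_I_mul_ofReal_sub_one, ← hx]
  have h3 : 2 * Real.pi * x / 2 = Real.pi * x := by ring
  rw [h3, norm_mul, Real.norm_eq_abs, Real.norm_eq_abs, abs_of_pos (by norm_num : (0:ℝ) < 2)]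
  have h4 : |Real.sin (Real.pi * x)| = Real.sin (Real.pi * |x|) := by
    rcases abs_cases x with ⟨h, h'⟩ | ⟨h, h'⟩
    · rw [h, abs_of_nonneg]
      apply Real.sin_nonneg_of_nonneg_of_le_pi (by positivity)
      nlinarith [Real.pi_pos]
    · rw [h]
      have : Real.pi * -x = -(Real.pi * x) := by ring
      rw [this, Real.sin_neg, abs_of_nonpos]
      apply Real.sin_nonpos_of_nonpos_of_neg_pi_le
      · nlinarith [Real.pi_pos]
      · nlinarith [Real.pi_pos]
  rw [h4]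
  constructor
  · have := Real.mul_le_sin (x := Real.pi * |x|) (by positivity) (by nlinarith [Real.pi_pos])
    have h5 : 2 / Real.pi * (Real.pi * |x|) = 2 * |x| := by
      field_simp
    linarith
  · have := Real.sin_le (x := Real.pi * |x|) (by positivity)
    linarith

/-- one-dimensional averaging multiplier -/
def psi (H : ℕ) (t : UnitAddCircle) : ℂ := (H : ℂ)⁻¹ * ∑ h ∈ range H, fourier (h : ℤ) t

lemma fourier_natCast (h : ℕ) (t : UnitAddCircle) : fourier (h : ℤ) t = (fourier 1 t) ^ h := by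
  induction h with
  | zero => simp
  | succ k ih => push_cast; rw [fourier_add, ih, pow_succ]

lemma norm_fourier_apply (n : ℤ) (t : UnitAddCircle) : ‖(fourier n t : ℂ)‖ = 1 := by
  rw [fourier_apply, Circle.norm_coe]

lemma psi_norm_le_one (H : ℕ) (t : UnitAddCircle) : ‖psi H t‖ ≤ 1 := by
  rw [psi, norm_mul, norm_inv, Complex.norm_natCast]
  rcases Nat.eq_zero_or_pos H with rfl | hH
  · simp
  rw [inv_mul_le_iff₀ (by positivity), mul_one]
  refine (norm_sum_le _ _).trans ?_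
  simp [norm_fourier_apply]

lemma psi_decay (H : ℕ) (t : UnitAddCircle) : ‖psi H t‖ * (2 * H * ‖t‖) ≤ 1 := by
  rcases Nat.eq_zero_or_pos H with rfl | hH
  · simp
  have hH' : (0:ℝ) < H := by exact_mod_cast hH
  have h1 : (∑ h ∈ range H, fourier (h : ℤ) t) * (fourier 1 t - 1) = fourier 1 t ^ H - 1 := by
    have : ∀ h ∈ range H, fourier (h : ℤ) t = (fourier 1 t) ^ h := fun h _ => fourier_natCast h t
    rw [Finset.sum_congr rfl this]
    exact geom_sum_mul _ _
  have h2 : ‖∑ h ∈ range H, fourier (h : ℤ) t‖ * ‖fourier 1 t - 1‖ ≤ 2 := by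
    rw [← norm_mul, h1]
    refine (norm_sub_le _ _).trans ?_
    rw [norm_pow, norm_fourier_apply]
    norm_num
  have h3 := (fourier_one_sub_one_bounds t).1
  rw [psi, norm_mul, norm_inv, Complex.norm_natCast]
  have h4 : (H:ℝ)⁻¹ * ‖∑ h ∈ range H, fourier (h : ℤ) t‖ * (2 * H * ‖t‖)
      = ‖∑ h ∈ range H, fourier (h : ℤ) t‖ * (2 * ‖t‖) := by
    field_simp
  rw [h4]
  nlinarith [norm_nonneg (∑ h ∈ range H, fourier (h : ℤ) t), norm_nonneg t]

lemma norm_one_sub_pow_le (z : ℂ) (hz : ‖z‖ ≤ 1) (h : ℕ) : ‖1 - z ^ h‖ ≤ h * ‖1 - z‖ := by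
  induction h with
  | zero => simp
  | succ k ih =>
    have : 1 - z ^ (k + 1) = (1 - z) + z * (1 - z ^ k) := by ring
    rw [this]
    refine (norm_add_le _ _).trans ?_
    rw [norm_mul]
    push_cast
    nlinarith [norm_nonneg (1 - z), norm_nonneg (1 - z^k)]

lemma psi_near (H : ℕ) (hH : 0 < H) (t : UnitAddCircle) : ‖1 - psi H t‖ ≤ 2 * Real.pi * H * ‖t‖ := by
  have hH' : (0:ℝ) < H := by exact_mod_cast hH
  have h1 : 1 - psi H t = (H : ℂ)⁻¹ * ∑ h ∈ range H, (1 - (fourier 1 t) ^ h) := by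
    rw [psi, Finset.sum_sub_distrib]
    have : ∀ h ∈ range H, fourier (h : ℤ) t = (fourier 1 t) ^ h := fun h _ => fourier_natCast h t
    rw [Finset.sum_congr rfl this, mul_sub]
    congr 1
    simp only [Finset.sum_const, card_range, nsmul_eq_mul, mul_one]
    rw [inv_mul_cancel₀]
    exact_mod_cast hH.ne'
  rw [h1, norm_mul, norm_inv, Complex.norm_natCast, inv_mul_le_iff₀ hH']
  calc ‖∑ h ∈ range H, (1 - (fourier 1 t : ℂ) ^ h)‖ ≤ ∑ h ∈ range H, ‖(1 - (fourier 1 t : ℂ) ^ h)‖ :=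
        norm_sum_le _ _
    _ ≤ ∑ h ∈ range H, (H : ℝ) * (2 * Real.pi * ‖t‖) := by
        apply Finset.sum_le_sum
        intro h hh
        rw [Finset.mem_range] at hh
        refine (norm_one_sub_pow_le _ (norm_fourier_apply 1 t).le h).trans ?_
        rw [norm_sub_rev]
        have h2 := (fourier_one_sub_one_bounds t).2
        have h3 : (h:ℝ) ≤ H := by exact_mod_cast hh.le
        gcongr
    _ = H * (2 * Real.pi * H * ‖t‖) := by
        rw [Finset.sum_const, card_range, nsmul_eq_mul]; ring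

/-- cube of side `H` -/
def cube (D : ℕ) (H : ℕ) : Finset (Lat D) := Fintype.piFinset (fun _ => Finset.Ico (0:ℤ) H)

lemma mem_cube {H : ℕ} {n : Lat D} : n ∈ cube D H ↔ ∀ i, 0 ≤ n i ∧ n i < H := by
  simp [cube]

lemma card_cube (H : ℕ) : (cube D H).card = H ^ D := by
  simp [cube, Fintype.card_piFinset]

lemma cube_subset_box (H : ℕ) : cube D H ⊆ box D H := by
  intro n hn
  rw [mem_cube] at hn
  rw [mem_box]
  intro i
  rw [abs_of_nonneg (hn i).1]
  exact (hn i).2.le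

/-- translated bump around `β` -/
def phiT (H : ℕ) (β : Tor D) : C(Tor D, ℂ) :=
  tp (cube D H) (fun h => ((H : ℂ) ^ D)⁻¹ * ee (-h) β)

lemma phiT_apply (H : ℕ) (β α : Tor D) : phiT H β α = ∏ i, psi H (α i - β i) := by
  rw [phiT, tp_apply]
  simp only [psi]
  rw [Finset.prod_mul_distrib, Finset.prod_const, Finset.card_univ, Fintype.card_fin, ← inv_pow]
  have h1 : ∏ i : Fin D, ∑ h ∈ range H, fourier (h : ℤ) (α i - β i)
      = ∏ i : Fin D, ∑ h ∈ Finset.Ico (0:ℤ) H, fourier h (α i - β i) := by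
    apply Finset.prod_congr rfl
    intro i _
    have : Finset.Ico (0:ℤ) H = (range H).map Nat.castEmbedding := by
      ext x
      simp only [Finset.mem_Ico, Finset.mem_map, Finset.mem_range, Nat.castEmbedding_apply]
      constructor
      · rintro ⟨h0, h1⟩
        exact ⟨x.toNat, by omega, by omega⟩
      · rintro ⟨a, ha, rfl⟩
        omega
    rw [this, Finset.sum_map]
    simp
  rw [h1, Finset.prod_univ_sum, Finset.mul_sum]
  apply Finset.sum_congr rfl
  intro n _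
  rw [mul_assoc]
  congr 1
  simp only [ee, mFourier, ContinuousMap.coe_mk]
  rw [← Finset.prod_mul_distrib]
  apply Finset.prod_congr rfl
  intro i _
  simp only [Pi.neg_apply, fourier_apply]
  rw [← Circle.coe_mul, ← AddCircle.toCircle_add]
  congr 2
  rw [zsmul_sub, neg_zsmul]
  abel

lemma phiT_norm_le_one (H : ℕ) (β α : Tor D) : ‖phiT H β α‖ ≤ 1 := by
  rw [phiT_apply, norm_prod]
  exact Finset.prod_le_one (fun _ _ => norm_nonneg _) (fun _ _ => psi_norm_le_one _ _)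

lemma phiT_norm_le_psi (H : ℕ) (β α : Tor D) (i : Fin D) :
    ‖phiT H β α‖ ≤ ‖psi H (α i - β i)‖ := by
  rw [phiT_apply, norm_prod]
  rw [← Finset.mul_prod_erase _ _ (Finset.mem_univ i)]
  refine mul_le_of_le_one_right (norm_nonneg _) ?_
  exact Finset.prod_le_one (fun _ _ => norm_nonneg _) (fun _ _ => psi_norm_le_one _ _)

lemma phiT_decay_coord (H : ℕ) (β α : Tor D) (i : Fin D) :
    ‖phiT H β α‖ * (2 * H * ‖α i - β i‖) ≤ 1 := by
  refine le_trans ?_ (psi_decay H (α i - β i))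
  have := phiT_norm_le_psi H β α i
  gcongr

lemma phiT_decay (H : ℕ) (β α : Tor D) : ‖phiT H β α‖ * (2 * H * ‖α - β‖) ≤ 1 := by
  by_cases hz : ‖phiT H β α‖ * (2 * H) = 0
  · rw [← mul_assoc, hz, zero_mul]; exact zero_le_one
  have hpos : 0 < ‖phiT H β α‖ * (2 * H) := lt_of_le_of_ne (by positivity) (Ne.symm hz)
  rw [← mul_assoc, mul_comm, ← le_div_iff₀ hpos]
  rw [pi_norm_le_iff_of_nonneg (by positivity)]
  intro i
  rw [le_div_iff₀ hpos]
  have := phiT_decay_coord H β α i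
  rw [Pi.sub_apply]
  linarith

lemma norm_one_sub_prod_le {ι : Type*} (s : Finset ι) (z : ι → ℂ) (hz : ∀ i ∈ s, ‖z i‖ ≤ 1) :
    ‖1 - ∏ i ∈ s, z i‖ ≤ ∑ i ∈ s, ‖1 - z i‖ := by
  classical
  induction s using Finset.induction_on with
  | empty => simp
  | insert a s ha ih =>
    rw [Finset.prod_insert ha, Finset.sum_insert ha]
    have h1 : 1 - z a * ∏ i ∈ s, z i = (1 - z a) + z a * (1 - ∏ i ∈ s, z i) := by ring
    rw [h1]
    refine (norm_add_le _ _).trans ?_
    rw [norm_mul]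
    have h2 := hz a (by simp)
    have h3 := ih (fun i hi => hz i (by simp [hi]))
    nlinarith [norm_nonneg (1 - ∏ i ∈ s, z i), norm_nonneg (z a)]

lemma phiT_near (H : ℕ) (hH : 0 < H) (β α : Tor D) :
    ‖1 - phiT H β α‖ ≤ 2 * Real.pi * D * H * ‖α - β‖ := by
  rw [phiT_apply]
  refine (norm_one_sub_prod_le _ _ (fun i _ => psi_norm_le_one _ _)).trans ?_
  calc ∑ i : Fin D, ‖1 - psi H (α i - β i)‖ ≤ ∑ i : Fin D, 2 * Real.pi * H * ‖α - β‖ := by
        apply Finset.sum_le_sum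
        intro i _
        refine (psi_near H hH _).trans ?_
        have : ‖α i - β i‖ ≤ ‖α - β‖ := norm_le_pi_norm (α - β) i
        gcongr
    _ = _ := by rw [Finset.sum_const, Finset.card_univ, Fintype.card_fin, nsmul_eq_mul]; ring

lemma phiT_isTP (H : ℕ) (β : Tor D) : IsTP H (phiT H β) := isTP_tp_of_subset (cube_subset_box H) _

/-- kills torsion -/
lemma phiT_torsion (H W : ℕ) (hH : 0 < H) (β α : Tor D) (hβ : W • β = 0) (i : Fin D) :
    ‖phiT H β α‖ * ‖(1 : ℂ) - ee (Pi.single i (W : ℤ)) α‖ ≤ Real.pi * W / H := by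
  have hH' : (0:ℝ) < H := by exact_mod_cast hH
  have h1 : ee (Pi.single i (W : ℤ)) α = (fourier 1 (α i - β i)) ^ W := by
    rw [← fourier_natCast]
    simp only [ee, mFourier, ContinuousMap.coe_mk]
    rw [Finset.prod_eq_single i]
    · rw [Pi.single_eq_same]
      simp only [fourier_apply]
      congr 2
      rw [zsmul_sub]
      have : (W : ℤ) • β i = 0 := by
        have := congrFun hβ i
        simpa using this
      rw [this, sub_zero]
    · intro j _ hj
      rw [Pi.single_eq_of_ne hj]; simp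
    · simp
  rw [h1]
  have h2 := norm_one_sub_pow_le (fourier 1 (α i - β i)) (norm_fourier_apply 1 _).le W
  have h3 := (fourier_one_sub_one_bounds (α i - β i)).2
  rw [norm_sub_rev] at h3
  have h4 := phiT_decay_coord H β α i
  rw [le_div_iff₀ hH']
  calc ‖phiT H β α‖ * ‖(1 : ℂ) - (fourier 1 (α i - β i)) ^ W‖ * H
      ≤ ‖phiT H β α‖ * (W * (2 * Real.pi * ‖α i - β i‖)) * H := by
        gcongr
        exact h2.trans (by gcongr)
    _ = Real.pi * W * (‖phiT H β α‖ * (2 * H * ‖α i - β i‖)) := by ring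
    _ ≤ Real.pi * W * 1 := by gcongr
    _ = _ := by ring

/-- `s`-separated sets -/
def Sep (A : Finset (Tor D)) (s : ℝ) : Prop :=
  ∀ a ∈ A, ∀ b ∈ A, a ≠ b → s ≤ ‖a - b‖

lemma Sep.mono {A B : Finset (Tor D)} {s : ℝ} (h : Sep A s) (hBA : B ⊆ A) : Sep B s :=
  fun a ha b hb hab => h a (hBA ha) b (hBA hb) hab

lemma far_small (A : Finset (Tor D)) (s : ℝ) (hs : 0 < s) (hA : Sep A s) (H : ℕ) (hH : 0 < H)
    (α : Tor D) :
    ∃ T ⊆ A, T.card ≤ 1 ∧ (∀ β ∈ A, ‖α - β‖ < s / 2 → β ∈ T) ∧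
      ∀ β ∈ A, β ∉ T → ‖phiT H β α‖ ≤ 1 / (H * s) := by
  classical
  have hH' : (0:ℝ) < H := by exact_mod_cast hH
  refine ⟨A.filter (fun β => ‖α - β‖ < s / 2), Finset.filter_subset _ _, ?_, ?_, ?_⟩
  · rw [Finset.card_le_one]
    intro a ha b hb
    rw [Finset.mem_filter] at ha hb
    by_contra hab
    have h1 := hA a ha.1 b hb.1 hab
    have h2 : ‖a - b‖ ≤ ‖α - b‖ + ‖α - a‖ := by
      have : a - b = (α - b) - (α - a) := by abel
      rw [this]; exact norm_sub_le _ _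
    linarith [ha.2, hb.2]
  · intro β hβ h
    rw [Finset.mem_filter]; exact ⟨hβ, h⟩
  · intro β hβ h
    rw [Finset.mem_filter, not_and, not_lt] at h
    have h1 := h hβ
    have h2 := phiT_decay H β α
    rw [le_div_iff₀ (by positivity)]
    refine le_trans ?_ h2
    have : (H:ℝ) * s ≤ 2 * H * ‖α - β‖ := by nlinarith
    gcongr

/-- the major arc kernel -/
def kap (A : Finset (Tor D)) (H : ℕ) : C(Tor D, ℂ) := ∑ β ∈ A, phiT H β

lemma kap_apply (A : Finset (Tor D)) (H : ℕ) (α : Tor D) : kap A H α = ∑ β ∈ A, phiT H β α := by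
  rw [kap, ContinuousMap.sum_apply]

lemma kap_isTP (A : Finset (Tor D)) (H : ℕ) : IsTP H (kap A H) :=
  IsTP.sum _ (fun β _ => phiT_isTP H β)

lemma weighted_norm_le (A : Finset (Tor D)) (s : ℝ) (hs : 0 < s) (hA : Sep A s) (H : ℕ) (hH : 0 < H)
    (c : Tor D → ℂ) (hc : ∀ β ∈ A, ‖c β‖ ≤ 1) (α : Tor D) :
    ‖∑ β ∈ A, c β * phiT H β α‖ ^ 2 ≤
      2 * ∑ β ∈ A, ‖c β‖ ^ 2 * ‖phiT H β α‖ ^ 2 + 2 * (A.card / (H * s)) ^ 2 := by
  classical
  have hH' : (0:ℝ) < H := by exact_mod_cast hH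
  obtain ⟨T, hT, hT1, hT2, hT3⟩ := far_small A s hs hA H hH α
  rw [← Finset.sum_sdiff hT]
  have h1 : ‖∑ β ∈ A \ T, c β * phiT H β α‖ ≤ A.card / (H * s) := by
    refine (norm_sum_le _ _).trans ?_
    calc ∑ β ∈ A \ T, ‖c β * phiT H β α‖ ≤ ∑ β ∈ A \ T, 1 / (H * s) := by
          apply Finset.sum_le_sum
          intro β hβ
          rw [Finset.mem_sdiff] at hβ
          rw [norm_mul]
          have := hT3 β hβ.1 hβ.2
          have h5 := hc β hβ.1
          calc ‖c β‖ * ‖phiT H β α‖ ≤ 1 * (1 / (H * s)) := by gcongr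
            _ = _ := by ring
      _ = (A \ T).card * (1 / (H * s)) := by rw [Finset.sum_const, nsmul_eq_mul]
      _ ≤ A.card * (1 / (H * s)) := by
          gcongr
          exact Finset.sdiff_subset
      _ = _ := by ring
  have h2 : ‖∑ β ∈ T, c β * phiT H β α‖ ^ 2 ≤ ∑ β ∈ A, ‖c β‖ ^ 2 * ‖phiT H β α‖ ^ 2 := by
    have h3 : ‖∑ β ∈ T, c β * phiT H β α‖ ^ 2 ≤ ∑ β ∈ T, ‖c β‖ ^ 2 * ‖phiT H β α‖ ^ 2 := by
      rcases Finset.card_le_one_iff_subset_singleton.mp hT1 with ⟨b, hb⟩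
      rcases Finset.subset_singleton_iff.mp hb with h | h
      · rw [h]; simp
      · rw [h]; simp [mul_pow]
    refine h3.trans ?_
    exact Finset.sum_le_sum_of_subset_of_nonneg hT (fun _ _ _ => by positivity)
  have h4 : ‖∑ β ∈ A \ T, c β * phiT H β α + ∑ β ∈ T, c β * phiT H β α‖ ≤
      ‖∑ β ∈ A \ T, c β * phiT H β α‖ + ‖∑ β ∈ T, c β * phiT H β α‖ := norm_add_le _ _
  have h5 : 0 ≤ ‖∑ β ∈ A \ T, c β * phiT H β α‖ := norm_nonneg _
  have h6 : 0 ≤ ‖∑ β ∈ T, c β * phiT H β α‖ := norm_nonneg _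
  have h7 : 0 ≤ ‖∑ β ∈ A \ T, c β * phiT H β α + ∑ β ∈ T, c β * phiT H β α‖ := norm_nonneg _
  nlinarith [sq_nonneg (‖∑ β ∈ A \ T, c β * phiT H β α‖ - ‖∑ β ∈ T, c β * phiT H β α‖)]

lemma kap_norm_le (A : Finset (Tor D)) (s : ℝ) (hs : 0 < s) (hA : Sep A s) (H : ℕ) (hH : 0 < H)
    (α : Tor D) : ‖kap A H α‖ ≤ 1 + A.card / (H * s) := by
  classical
  have hH' : (0:ℝ) < H := by exact_mod_cast hH
  obtain ⟨T, hT, hT1, hT2, hT3⟩ := far_small A s hs hA H hH α
  rw [kap_apply, ← Finset.sum_sdiff hT]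
  refine (norm_add_le _ _).trans ?_
  rw [add_comm]
  apply add_le_add
  · refine (norm_sum_le _ _).trans ?_
    calc ∑ β ∈ T, ‖phiT H β α‖ ≤ ∑ β ∈ T, 1 := Finset.sum_le_sum (fun β _ => phiT_norm_le_one H β α)
      _ = T.card := by simp
      _ ≤ 1 := by exact_mod_cast hT1
  · refine (norm_sum_le _ _).trans ?_
    calc ∑ β ∈ A \ T, ‖phiT H β α‖ ≤ ∑ β ∈ A \ T, 1 / (H * s) := by
          apply Finset.sum_le_sum
          intro β hβ
          rw [Finset.mem_sdiff] at hβ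
          exact hT3 β hβ.1 hβ.2
      _ = (A \ T).card * (1 / (H * s)) := by rw [Finset.sum_const, nsmul_eq_mul]
      _ ≤ A.card * (1 / (H * s)) := by
          gcongr
          exact Finset.sdiff_subset
      _ = _ := by ring

lemma sumsq_le (A : Finset (Tor D)) (s : ℝ) (hs : 0 < s) (hA : Sep A s) (H : ℕ) (hH : 0 < H)
    (α : Tor D) : ∑ β ∈ A, ‖phiT H β α‖ ^ 2 ≤ 1 + A.card / (H * s) ^ 2 := by
  classical
  have hH' : (0:ℝ) < H := by exact_mod_cast hH
  obtain ⟨T, hT, hT1, hT2, hT3⟩ := far_small A s hs hA H hH α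
  rw [← Finset.sum_sdiff hT, add_comm]
  apply add_le_add
  · calc ∑ β ∈ T, ‖phiT H β α‖ ^ 2 ≤ ∑ β ∈ T, 1 := Finset.sum_le_sum (fun β _ => by
          have := phiT_norm_le_one H β α
          exact pow_le_one₀ (norm_nonneg _) this)
      _ = T.card := by simp
      _ ≤ 1 := by exact_mod_cast hT1
  · calc ∑ β ∈ A \ T, ‖phiT H β α‖ ^ 2 ≤ ∑ β ∈ A \ T, (1 / (H * s)) ^ 2 := by
          apply Finset.sum_le_sum
          intro β hβ
          rw [Finset.mem_sdiff] at hβ
          have := hT3 β hβ.1 hβ.2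
          gcongr
      _ = (A \ T).card * (1 / (H * s)) ^ 2 := by rw [Finset.sum_const, nsmul_eq_mul]
      _ ≤ A.card * (1 / (H * s)) ^ 2 := by
          gcongr
          exact Finset.sdiff_subset
      _ = _ := by ring

lemma kap_close (A : Finset (Tor D)) (s : ℝ) (hs : 0 < s) (hA : Sep A s) (H : ℕ) (hH : 0 < H)
    (α β : Tor D) (hβ : β ∈ A) (hαβ : ‖α - β‖ < s / 2) :
    ‖1 - kap A H α‖ ≤ 2 * Real.pi * D * H * ‖α - β‖ + A.card / (H * s) := by
  classical
  have hH' : (0:ℝ) < H := by exact_mod_cast hH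
  obtain ⟨T, hT, hT1, hT2, hT3⟩ := far_small A s hs hA H hH α
  have hβT := hT2 β hβ hαβ
  have hTe : T = {β} := by
    rw [Finset.card_le_one] at hT1
    ext x
    rw [Finset.mem_singleton]
    constructor
    · intro hx; exact hT1 x hx β hβT
    · rintro rfl; exact hβT
  rw [kap_apply, ← Finset.sum_sdiff hT, hTe, Finset.sum_singleton]
  have : (1 : ℂ) - (∑ x ∈ A \ {β}, phiT H x α + phiT H β α)
      = (1 - phiT H β α) - ∑ x ∈ A \ {β}, phiT H x α := by ring
  rw [this]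
  refine (norm_sub_le _ _).trans ?_
  apply add_le_add
  · exact phiT_near H hH β α
  · refine (norm_sum_le _ _).trans ?_
    calc ∑ x ∈ A \ {β}, ‖phiT H x α‖ ≤ ∑ x ∈ A \ {β}, 1 / (H * s) := by
          apply Finset.sum_le_sum
          intro x hx
          rw [← hTe, Finset.mem_sdiff] at hx
          exact hT3 x hx.1 hx.2
      _ = (A \ {β}).card * (1 / (H * s)) := by rw [Finset.sum_const, nsmul_eq_mul]
      _ ≤ A.card * (1 / (H * s)) := by
          gcongr
          exact Finset.sdiff_subset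
      _ = _ := by ring

lemma kap_torsion (A : Finset (Tor D)) (H W : ℕ) (hH : 0 < H) (hA : ∀ β ∈ A, W • β = 0)
    (α : Tor D) (i : Fin D) :
    ‖kap A H α‖ * ‖(1 : ℂ) - ee (Pi.single i (W : ℤ)) α‖ ≤ A.card * (Real.pi * W / H) := by
  rw [kap_apply]
  calc ‖∑ β ∈ A, phiT H β α‖ * ‖(1 : ℂ) - ee (Pi.single i (W : ℤ)) α‖
      ≤ (∑ β ∈ A, ‖phiT H β α‖) * ‖(1 : ℂ) - ee (Pi.single i (W : ℤ)) α‖ := by
        gcongr; exact norm_sum_le _ _
    _ = ∑ β ∈ A, ‖phiT H β α‖ * ‖(1 : ℂ) - ee (Pi.single i (W : ℤ)) α‖ := by rw [Finset.sum_mul]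
    _ ≤ ∑ β ∈ A, Real.pi * W / H :=
        Finset.sum_le_sum (fun β hβ => phiT_torsion H W hH β α (hA β hβ) i)
    _ = _ := by rw [Finset.sum_const, nsmul_eq_mul]

lemma nsq_kap_le (A : Finset (Tor D)) (H : ℕ) (hH : 0 < H) :
    nsq (kap A H) ≤ (A.card : ℝ) ^ 2 / H ^ D := by
  have hH' : (0:ℝ) < H := by exact_mod_cast hH
  have h1 : kap A H = tp (cube D H) (fun h => ∑ β ∈ A, ((H : ℂ) ^ D)⁻¹ * ee (-h) β) := by
    ext α
    rw [kap_apply, tp_apply]
    simp only [phiT, tp_apply, Finset.sum_mul]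
    rw [Finset.sum_comm]
  rw [h1, nsq_tp]
  calc ∑ n ∈ cube D H, ‖∑ β ∈ A, ((H : ℂ) ^ D)⁻¹ * ee (-n) β‖ ^ 2
      ≤ ∑ n ∈ cube D H, ((A.card : ℝ) / H ^ D) ^ 2 := by
        apply Finset.sum_le_sum
        intro n _
        gcongr
        refine (norm_sum_le _ _).trans ?_
        have : ∀ β ∈ A, ‖((H : ℂ) ^ D)⁻¹ * ee (-n) β‖ = 1 / H ^ D := by
          intro β _
          rw [norm_mul, ee_norm_apply]
          simp
        rw [Finset.sum_congr rfl this, Finset.sum_const, nsmul_eq_mul]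
        apply le_of_eq; ring
    _ = _ := by
        rw [Finset.sum_const, card_cube, nsmul_eq_mul]
        push_cast
        field_simp

lemma order_le_norm (n : ℕ) (hn : 0 < n) (t : UnitAddCircle) (h : n • t = 0) (ht : t ≠ 0) :
    1 / (n : ℝ) ≤ ‖t‖ := by
  have hn' : (0:ℝ) < n := by exact_mod_cast hn
  obtain ⟨x, rfl, hx, hx2⟩ := exists_rep t
  rw [← hx]
  have h1 : ((n * x : ℝ) : UnitAddCircle) = 0 := by
    rw [← nsmul_eq_mul, AddCircle.coe_nsmul]; exact h
  rw [AddCircle.coe_eq_zero_iff] at h1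
  obtain ⟨m, hm⟩ := h1
  have hm' : (m : ℝ) = n * x := by simpa using hm
  have hm0 : m ≠ 0 := by
    rintro rfl
    have : x = 0 := by
      have : (n:ℝ) * x = 0 := by rw [← hm']; simp
      rcases mul_eq_zero.mp this with h | h
      · exact absurd h hn'.ne'
      · exact h
    exact ht (by rw [this]; simp)
  have h2 : (1:ℝ) ≤ |(m:ℝ)| := by
    rw [← Int.cast_abs]
    exact_mod_cast Int.one_le_abs hm0
  rw [div_le_iff₀ hn', mul_comm]
  rw [hm', abs_mul, abs_of_pos hn'] at h2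
  exact h2

lemma exists_near_torsion (q : ℕ) (hq : 0 < q) (t : UnitAddCircle) :
    ∃ t₀ : UnitAddCircle, q • t₀ = 0 ∧ ‖t - t₀‖ ≤ ‖q • t‖ / q := by
  have hq' : (0:ℝ) < q := by exact_mod_cast hq
  obtain ⟨x, rfl⟩ := QuotientAddGroup.mk_surjective t
  refine ⟨(((round ((q:ℝ) * x) : ℝ) / q : ℝ) : UnitAddCircle), ?_, ?_⟩
  · rw [← AddCircle.coe_nsmul, nsmul_eq_mul, mul_div_cancel₀ _ hq'.ne', AddCircle.coe_eq_zero_iff]
    exact ⟨round ((q:ℝ) * x), by simp⟩
  · have h1 : ‖q • (x : UnitAddCircle)‖ = |(q:ℝ) * x - round ((q:ℝ) * x)| := by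
      rw [← AddCircle.coe_nsmul, nsmul_eq_mul, UnitAddCircle.norm_eq]
    have h2 : (QuotientAddGroup.mk x : UnitAddCircle) - (((round ((q:ℝ) * x) : ℝ) / q : ℝ) : UnitAddCircle)
        = ((x - (round ((q:ℝ) * x) : ℝ) / q : ℝ) : UnitAddCircle) := by
      rw [AddCircle.coe_sub]
    rw [h2]
    have h3 : ‖((x - (round ((q:ℝ) * x) : ℝ) / q : ℝ) : UnitAddCircle)‖ ≤
        |x - (round ((q:ℝ) * x) : ℝ) / q| := by
      rw [UnitAddCircle.norm_eq]
      have := round_le (x - (round ((q:ℝ) * x) : ℝ) / q) 0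
      simpa using this
    refine h3.trans ?_
    have h4 : ‖q • (QuotientAddGroup.mk x : UnitAddCircle)‖ = |(q:ℝ) * x - round ((q:ℝ) * x)| := h1
    rw [h4, le_div_iff₀ hq']
    rw [← abs_of_pos hq', ← abs_mul, abs_of_pos hq']
    apply le_of_eq
    congr 1
    field_simp

/-- rational points of order at most `Q` -/
def rat (D : ℕ) (Q : ℕ) : Finset (Tor D) := by
  classical
  exact (Finset.Icc 1 Q).biUnion (fun q =>
    (Fintype.piFinset (fun _ : Fin D => range q)).image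
      (fun a => fun i => (((a i : ℝ) / q * 1 : ℝ) : UnitAddCircle)))

lemma mem_rat {Q : ℕ} {α : Tor D} : α ∈ rat D Q ↔ ∃ q : ℕ, 1 ≤ q ∧ q ≤ Q ∧ q • α = 0 := by
  classical
  simp only [rat, Finset.mem_biUnion, Finset.mem_Icc, Finset.mem_image, Fintype.mem_piFinset,
    Finset.mem_range]
  constructor
  · rintro ⟨q, ⟨h1, h2⟩, a, ha, rfl⟩
    refine ⟨q, h1, h2, ?_⟩
    ext i
    simp only [Pi.smul_apply, Pi.zero_apply]
    rw [AddCircle.nsmul_eq_zero_iff (by omega)]
    exact ⟨a i, ha i, rfl⟩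
  · rintro ⟨q, h1, h2, h3⟩
    refine ⟨q, ⟨h1, h2⟩, ?_⟩
    have : ∀ i, ∃ m < q, (((m : ℝ) / q * 1 : ℝ) : UnitAddCircle) = α i := by
      intro i
      have := congrFun h3 i
      simp only [Pi.smul_apply, Pi.zero_apply] at this
      rw [AddCircle.nsmul_eq_zero_iff (by omega)] at this
      exact this
    choose a ha hb using this
    exact ⟨a, ha, by ext i; exact hb i⟩

lemma card_rat_le (Q : ℕ) : (rat D Q).card ≤ Q ^ (D + 1) := by
  classical
  rw [rat]
  refine Finset.card_biUnion_le.trans ?_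
  calc ∑ q ∈ Finset.Icc 1 Q, _ ≤ ∑ q ∈ Finset.Icc 1 Q, Q ^ D := by
        apply Finset.sum_le_sum
        intro q hq
        refine Finset.card_image_le.trans ?_
        rw [Fintype.card_piFinset]
        simp only [Finset.card_range, Finset.prod_const, Finset.card_univ, Fintype.card_fin]
        rw [Finset.mem_Icc] at hq
        exact Nat.pow_le_pow_left hq.2 D
    _ = _ := by
        rw [Finset.sum_const, Nat.card_Icc, smul_eq_mul, Nat.add_sub_cancel, pow_succ, mul_comm]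

lemma sep_rat (Q : ℕ) (hQ : 0 < Q) : Sep (rat D Q) (1 / (Q:ℝ) ^ 2) := by
  intro a ha b hb hab
  rw [mem_rat] at ha hb
  obtain ⟨q, hq1, hq2, hqa⟩ := ha
  obtain ⟨r, hr1, hr2, hrb⟩ := hb
  obtain ⟨i, hi⟩ := Function.ne_iff.mp hab
  have h1 : (q * r) • (a i - b i) = 0 := by
    have e1 : q • a i = 0 := by simpa using congrFun hqa i
    have e2 : r • b i = 0 := by simpa using congrFun hrb i
    have e3 : (q * r) • a i = 0 := by rw [mul_comm, mul_nsmul]; rw [smul_comm, e1]; simp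
    have e4 : (q * r) • b i = 0 := by rw [mul_nsmul]; rw [smul_comm, e2]; simp
    rw [nsmul_sub, e3, e4, sub_zero]
  have h2 := order_le_norm (q * r) (by positivity) (a i - b i) h1 (sub_ne_zero.mpr hi)
  have h3 : ‖a i - b i‖ ≤ ‖a - b‖ := norm_le_pi_norm (a - b) i
  refine le_trans ?_ (h2.trans h3)
  have h4 : (q : ℝ) ≤ Q := by exact_mod_cast hq2
  have h5 : (r : ℝ) ≤ Q := by exact_mod_cast hr2
  have h6 : (0:ℝ) < q := by exact_mod_cast hq1
  have h7 : (0:ℝ) < r := by exact_mod_cast hr1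
  apply one_div_le_one_div_of_le (by positivity)
  push_cast
  nlinarith

end PSarnak
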