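import Pool.Agent.Run7.h492.Final

/-!
Aperiodicity with respect to one integral basis gives cancellation in boxes of another basis.
-/

set_option linter.unusedVariables false
set_option linter.unusedSectionVars false

noncomputable section

open Finset NumberField Filter
open scoped Classical

namespace PSarnak

/-- one residue class in an interval -/
lemma ap_one (W : ℕ) (hW : 1 ≤ W) (r v : ℤ) (S : ℕ) (hS : W ≤ S) :
    ∃ (a : ℤ) (L : ℕ), 1 ≤ L ∧ ∀ x : ℤ, (∃ k : ℕ, k < L ∧ x = a + (W : ℤ) * (k : ℤ)) ↔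
      ((v ≤ x ∧ x < v + S) ∧ (W : ℤ) ∣ x - r) := by
  have hWz : (0:ℤ) < W := by exact_mod_cast hW
  have hSz : (W:ℤ) ≤ S := by exact_mod_cast hS
  set a : ℤ := v + (r - v) % W with ha
  have h1 := Int.emod_nonneg (r - v) hWz.ne'
  have h2 := Int.emod_lt_of_pos (r - v) hWz
  have h3 := Int.emod_add_mul_ediv (r - v) W
  have hQ : 0 ≤ (v + S - 1 - a) / W := Int.ediv_nonneg (by omega) hWz.le
  refine ⟨a, ((v + S - 1 - a) / W).toNat + 1, by omega, ?_⟩
  intro x
  constructor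
  · rintro ⟨k, hk, rfl⟩
    have h4 : (k:ℤ) ≤ (v + S - 1 - a) / W := by
      have h5 : k ≤ ((v + S - 1 - a) / W).toNat := by omega
      have h6 := Int.toNat_of_nonneg hQ
      rw [← h6]; exact_mod_cast h5
    have h5 : (W:ℤ) * k ≤ v + S - 1 - a := by
      calc (W:ℤ) * k ≤ W * ((v + S - 1 - a) / W) := mul_le_mul_of_nonneg_left h4 hWz.le
        _ ≤ _ := Int.mul_ediv_self_le hWz.ne'
    have h6 : 0 ≤ (W:ℤ) * k := by positivity
    refine ⟨⟨by omega, by omega⟩, ?_⟩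
    refine ⟨k - (r - v) / W, ?_⟩
    rw [mul_sub]
    linarith
  · rintro ⟨⟨h4, h5⟩, c, hc⟩
    have h6 : x - a = W * (c + (r - v) / W) := by
      rw [mul_add, ← hc]; linarith
    set e : ℤ := c + (r - v) / W with he
    have h7 : 0 ≤ e := by
      by_contra h8
      rw [not_le] at h8
      have h9 : e ≤ -1 := by omega
      have h10 : (W:ℤ) * e ≤ -W := by nlinarith
      omega
    refine ⟨e.toNat, ?_, ?_⟩
    · have h8 : e ≤ (v + S - 1 - a) / W := by
        rw [Int.le_ediv_iff_mul_le hWz]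
        rw [mul_comm, ← h6]; omega
      omega
    · rw [Int.toNat_of_nonneg h7]; omega

section
variable {D : ℕ}

/-- one residue class in a cube is a progression -/
lemma ap_cube (W : ℕ) (hW : 1 ≤ W) (r v : Fin D → ℤ) (S : ℕ) (hS : W ≤ S) :
    ∃ (n₀ : Fin D → ℤ) (L : Fin D → ℕ), (∀ i, 1 ≤ L i) ∧ ∀ x : Fin D → ℤ,
      x ∈ prog n₀ W L ↔ (x ∈ cubeAt v S ∧ ∀ i, (W : ℤ) ∣ x i - r i) := by
  choose a L hL h using fun i => ap_one W hW (r i) (v i) S hS
  refine ⟨a, L, hL, ?_⟩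
  intro x
  rw [mem_cubeAt]
  constructor
  · rintro ⟨k, hk, hx⟩
    have h1 : ∀ i, (v i ≤ x i ∧ x i < v i + S) ∧ (W : ℤ) ∣ x i - r i := fun i =>
      (h i (x i)).mp ⟨k i, hk i, hx i⟩
    exact ⟨fun i => (h1 i).1, fun i => (h1 i).2⟩
  · rintro ⟨h1, h2⟩
    have h3 : ∀ i, ∃ k : ℕ, k < L i ∧ x i = a i + (W : ℤ) * (k : ℤ) := fun i =>
      (h i (x i)).mpr ⟨h1 i, h2 i⟩
    choose k hk using h3
    exact ⟨k, fun i => (hk i).1, fun i => (hk i).2⟩

end

section
variable {K : Type*} [Field K] [NumberField K] {D : ℕ} (b c : Module.Basis (Fin D) ℤ (𝓞 K))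

lemma exists_change_bound : ∃ C : ℕ, 1 ≤ C ∧ ∀ x : Lat D, ∀ S : ℕ, ‖x‖ ≤ S → ∀ i, |crd b (iot c x) i| ≤ C * S := by
  obtain ⟨C, hC⟩ := exists_nat_ge (∑ j, ‖crd b (c j)‖)
  refine ⟨C + 1, by omega, ?_⟩
  intro x S hS i
  have h1 : ‖crd b (iot c x)‖ ≤ (∑ j, ‖crd b (c j)‖) * ‖x‖ := by
    rw [iot_eq, crd_sum, Finset.sum_mul]
    refine (norm_sum_le _ _).trans (Finset.sum_le_sum (fun j _ => ?_))
    rw [crd_zsmul]
    refine (norm_smul_le _ _).trans ?_
    rw [mul_comm]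
    have := norm_le_pi_norm x j
    gcongr
  have h2 : |((crd b (iot c x) i : ℤ) : ℝ)| ≤ ((C + 1 : ℕ) : ℝ) * S := by
    rw [← Int.norm_eq_abs]
    refine (norm_le_pi_norm _ i).trans (h1.trans ?_)
    push_cast
    have h3 : 0 ≤ ∑ j, ‖crd b (c j)‖ := Finset.sum_nonneg (fun _ _ => norm_nonneg _)
    calc (∑ j, ‖crd b (c j)‖) * ‖x‖ ≤ C * S := by gcongr
      _ ≤ ((C:ℝ) + 1) * S := by
          have : (0:ℝ) ≤ S := Nat.cast_nonneg _
          nlinarith
  exact_mod_cast h2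

/-- shifting the box changes a sum by little -/
lemma shift_box (F : Lat D → ℂ) (hF : ∀ n, ‖F n‖ ≤ 1) (N E : ℕ) (hEN : 2 * E ≤ N) (s : Lat D)
    (hs : ∀ i, |s i| ≤ E) :
    ‖∑ n ∈ pZ D N, F n - ∑ n ∈ pZ D N, F (n + s)‖ ≤ ((N:ℝ) + 2 * E) ^ D - ((N:ℝ) - 2 * E) ^ D := by
  set outer : Finset (Lat D) := cubeAt (fun _ => 1 - (E:ℤ)) (N + 2 * E) with hout
  set inner : Finset (Lat D) := cubeAt (fun _ => 1 + (E:ℤ)) (N - 2 * E) with hin
  have h5 : ((N - 2 * E : ℕ) : ℤ) = (N:ℤ) - 2 * E := by push_cast [Nat.cast_sub hEN]; rfl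
  have hE0 : (0:ℤ) ≤ E := Nat.cast_nonneg _
  have h2 : inner ⊆ outer := by
    intro x hx
    rw [hout, mem_cubeAt]
    rw [hin, mem_cubeAt] at hx
    intro i
    have h3 := hx i
    rw [h5] at h3
    push_cast
    constructor <;> linarith [h3.1, h3.2]
  have h3 : ∑ n ∈ pZ D N, F (n + s) = ∑ n ∈ (pZ D N).image (fun n => n + s), F n := by
    rw [Finset.sum_image]
    intro a _ c _ h
    exact add_right_cancel h
  set B := (pZ D N).image (fun n => n + s) with hB
  have hA1 : inner ⊆ pZ D N := by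
    intro x hx
    rw [mem_cubeAt]
    rw [hin, mem_cubeAt] at hx
    intro i
    have h3 := hx i
    rw [h5] at h3
    constructor <;> linarith [h3.1, h3.2]
  have hA2 : pZ D N ⊆ outer := by
    intro x hx
    rw [hout, mem_cubeAt]
    rw [mem_cubeAt] at hx
    intro i
    have h3 := hx i
    push_cast
    constructor <;> linarith [h3.1, h3.2]
  have hB1 : inner ⊆ B := by
    intro x hx
    rw [hB, Finset.mem_image]
    refine ⟨x - s, ?_, by abel⟩
    rw [mem_cubeAt]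
    rw [hin, mem_cubeAt] at hx
    intro i
    have h3 := hx i
    have h4 := abs_le.mp (hs i)
    rw [h5] at h3
    simp only [Pi.sub_apply]
    constructor <;> linarith [h3.1, h3.2, h4.1, h4.2]
  have hB2 : B ⊆ outer := by
    intro x hx
    rw [hB, Finset.mem_image] at hx
    obtain ⟨n, hn, rfl⟩ := hx
    rw [hout, mem_cubeAt]
    rw [mem_cubeAt] at hn
    intro i
    have h3 := hn i
    have h4 := abs_le.mp (hs i)
    push_cast
    simp only [Pi.add_apply]
    constructor <;> linarith [h3.1, h3.2, h4.1, h4.2]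
  rw [h3]
  have e1 : ∑ n ∈ pZ D N, F n = ∑ n ∈ inner, F n + ∑ n ∈ pZ D N \ inner, F n := by
    rw [add_comm, Finset.sum_sdiff hA1]
  have e2 : ∑ n ∈ B, F n = ∑ n ∈ inner, F n + ∑ n ∈ B \ inner, F n := by
    rw [add_comm, Finset.sum_sdiff hB1]
  rw [e1, e2, add_sub_add_left_eq_sub]
  -- compare the two remainders pointwise on `outer \ inner`
  have e3 : ∑ n ∈ pZ D N \ inner, F n = ∑ n ∈ outer \ inner, (if n ∈ pZ D N then F n else 0) := by
    rw [← Finset.sum_filter]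
    apply Finset.sum_congr _ (fun _ _ => rfl)
    ext n
    simp only [Finset.mem_sdiff, Finset.mem_filter]
    constructor
    · rintro ⟨h6, h7⟩; exact ⟨⟨hA2 h6, h7⟩, h6⟩
    · rintro ⟨⟨_, h7⟩, h6⟩; exact ⟨h6, h7⟩
  have e4 : ∑ n ∈ B \ inner, F n = ∑ n ∈ outer \ inner, (if n ∈ B then F n else 0) := by
    rw [← Finset.sum_filter]
    apply Finset.sum_congr _ (fun _ _ => rfl)
    ext n
    simp only [Finset.mem_sdiff, Finset.mem_filter]
    constructor
    · rintro ⟨h6, h7⟩; exact ⟨⟨hB2 h6, h7⟩, h6⟩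
    · rintro ⟨⟨_, h7⟩, h6⟩; exact ⟨h6, h7⟩
  rw [e3, e4, ← Finset.sum_sub_distrib]
  have e5 : ‖∑ n ∈ outer \ inner, ((if n ∈ pZ D N then F n else 0) - (if n ∈ B then F n else 0))‖ ≤
      ((outer \ inner).card : ℝ) := by
    refine (norm_sum_le _ _).trans ?_
    calc _ ≤ ∑ n ∈ outer \ inner, (1:ℝ) := by
          apply Finset.sum_le_sum
          intro n _
          have := hF n
          split_ifs <;> simp [this]
      _ = _ := by simp
  refine e5.trans ?_
  rw [Finset.card_sdiff_of_subset h2, hout, hin, card_cubeAt, card_cubeAt]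
  have h4 : (N - 2 * E) ^ D ≤ (N + 2 * E) ^ D := Nat.pow_le_pow_left (by omega) _
  rw [Nat.cast_sub h4]
  push_cast [Nat.cast_sub hEN]
  exact le_rfl

lemma bd_ineq (hD : 0 < D) (N E : ℕ) (hN : 0 < N) (hEN : 2 * E ≤ N) :
    ((N:ℝ) + 2 * E) ^ D - ((N:ℝ) - 2 * E) ^ D ≤ D * 2 ^ (D + 1) * E / N * (N:ℝ) ^ D := by
  have hNr : (0:ℝ) < N := by exact_mod_cast hN
  have hENr : 2 * (E:ℝ) ≤ N := by exact_mod_cast hEN
  have hE0 : (0:ℝ) ≤ E := Nat.cast_nonneg _
  have h4 := pow_sub_pow_le' ((N:ℝ) + 2 * E) ((N:ℝ) - 2 * E) (by linarith) (by linarith) (by linarith) D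
  refine h4.trans ?_
  obtain ⟨d, rfl⟩ : ∃ d, D = d + 1 := ⟨D - 1, by omega⟩
  have h6 : ((N:ℝ) + 2 * E) ^ (d + 1) * (((N:ℝ) + 2 * E - (N - 2 * E)) / (N + 2 * E)) =
      ((N:ℝ) + 2 * E) ^ d * (4 * E) := by
    rw [pow_succ]; field_simp; ring
  rw [mul_assoc, h6]
  calc ((d + 1 : ℕ) : ℝ) * (((N:ℝ) + 2 * E) ^ d * (4 * E)) ≤ ((d + 1 : ℕ) : ℝ) * ((2 * (N:ℝ)) ^ d * (4 * E)) := by
        gcongr; linarith
    _ = _ := by
        rw [mul_pow]; field_simp; ring

lemma dvd_change (W : ℕ) (y : Lat D) : (∀ i, (W:ℤ) ∣ y i) → ∀ i, (W:ℤ) ∣ crd c (iot b y) i := by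
  intro h
  choose z hz using h
  have h1 : y = W • z := by
    ext i
    rw [hz i]; simp
  have h2 : crd c (iot b y) = W • crd c (iot b z) := by
    have h3 : iot b y = (W : 𝓞 K) * iot b z := by
      rw [h1]
      have := iot_add_smul b 0 z W
      rw [zero_add] at this
      have h0 : iot b 0 = 0 := by
        rw [← crd_zero b, iot_crd]
      rw [h0, zero_add] at this
      rw [← natCast_zsmul, this]
      push_cast; rfl
    rw [h3, crd_natCast_mul]
  intro i
  rw [h2]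
  simp only [Pi.smul_apply, nsmul_eq_mul]
  exact dvd_mul_right _ _

theorem apz_change (χ : 𝓞 K → ℂ) (hχ : ∀ x, ‖χ x‖ ≤ 1)
    (H : ∀ ε : ℝ, 0 < ε → ∃ N₀ : ℕ, ∀ N : ℕ, N₀ ≤ N → ∀ (n₀ : Fin D → ℤ) (W : ℕ) (L : Fin D → ℕ), 1 ≤ W →
      (∀ i, 1 ≤ L i) → ‖(1 / (2 * (N:ℂ) + 1) ^ D) *
        ∑ n ∈ Fintype.piFinset (fun _ : Fin D => Finset.Icc (-(N:ℤ)) N),
          (prog n₀ W L).indicator (fun n => χ (iot c n)) n‖ ≤ ε) :
    APz (fun n : Fin D → ℕ => χ (iot b (cst n))) := by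
  have hD := D_pos b
  have hDr : (1:ℝ) ≤ D := by exact_mod_cast hD
  intro W hW r
  by_cases hr : ∀ i, r i < W
  swap
  · have h0 : ∀ N : ℕ, (pbox D N).filter (fun n => ∀ i, n i % W = r i) = ∅ := by
      intro N
      rw [Finset.filter_eq_empty_iff]
      intro n _ hn
      apply hr
      intro i
      rw [← hn i]
      exact Nat.mod_lt _ (by omega)
    simp only [h0, Finset.sum_empty, mul_zero]
    exact tendsto_const_nhds
  obtain ⟨C₁, hC₁, hC₁b⟩ := exists_change_bound b c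
  obtain ⟨C₂, hC₂, hC₂b⟩ := exists_change_bound c b
  rw [Metric.tendsto_atTop]
  intro ε hε
  obtain ⟨m, hm⟩ := exists_nat_ge (max (D * 2 ^ (D + 1) * C₁ * (4 / ε)) (2 * C₁ + 1))
  have hm1 : D * 2 ^ (D + 1) * C₁ * (4 / ε) ≤ (m:ℝ) := (le_max_left _ _).trans hm
  have hm2 : 2 * C₁ + 1 ≤ m := by
    have : (2 * (C₁:ℝ) + 1) ≤ m := (le_max_right _ _).trans hm
    exact_mod_cast this
  have hm0 : 0 < m := by omega
  have hmr : (0:ℝ) < m := by exact_mod_cast hm0
  set ε₁ : ℝ := ε / (4 * ((2 * (m:ℝ)) ^ D * (2 * ((C₂:ℝ) + 1) + 1) ^ D)) with hε₁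
  have hε₁0 : 0 < ε₁ := by positivity
  obtain ⟨N₀, hN₀⟩ := H ε₁ hε₁0
  refine ⟨max N₀ (m * W), ?_⟩
  intro N hN
  have hNN : N₀ ≤ N := (le_max_left _ _).trans hN
  have hNW : m * W ≤ N := (le_max_right _ _).trans hN
  have hN0 : 0 < N := lt_of_lt_of_le (Nat.mul_pos hm0 (by omega)) hNW
  have hNr : (0:ℝ) < N := by exact_mod_cast hN0
  have hN1 : (1:ℝ) ≤ N := by exact_mod_cast hN0
  rw [dist_zero_right]
  set S := N / m with hS
  have hSW : W ≤ S := by
    rw [hS, Nat.le_div_iff_mul_le hm0]; rw [mul_comm]; exact hNW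
  have hS1 : 1 ≤ S := hW.trans hSW
  have hSr : (1:ℝ) ≤ S := by exact_mod_cast hS1
  have hmS : m * S ≤ N := Nat.mul_div_le _ _
  have hN2 : (N:ℝ) ≤ 2 * m * S := by
    have h1 : N < m * (S + 1) := by
      rw [hS]; exact Nat.lt_mul_div_succ N hm0
    have h2 : (N:ℝ) < m * (S + 1) := by exact_mod_cast h1
    nlinarith
  set E := C₁ * S with hE
  have hEN : 2 * E ≤ N := by
    calc 2 * E = 2 * C₁ * S := by rw [hE]; ring
      _ ≤ m * S := Nat.mul_le_mul_right _ (by omega)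
      _ ≤ N := hmS
  set M := (C₂ + 1) * N with hM
  have hMN : N₀ ≤ M := by
    calc N₀ ≤ N := hNN
      _ = 1 * N := (one_mul N).symm
      _ ≤ (C₂ + 1) * N := Nat.mul_le_mul_right _ (by omega)
  set F : Lat D → ℂ := fun n => if (∀ i, (W:ℤ) ∣ n i - (r i : ℤ)) then χ (iot b n) else 0 with hF
  have hF1 : ∀ n, ‖F n‖ ≤ 1 := by
    intro n
    rw [hF]; simp only
    split_ifs
    · exact hχ _
    · simp
  have hsumF : ∑ n ∈ (pbox D N).filter (fun n => ∀ i, n i % W = r i), χ (iot b (cst n)) = ∑ n ∈ pZ D N, F n := by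
    rw [← sum_pbox, Finset.sum_filter]
    apply Finset.sum_congr rfl
    intro n _
    rw [hF]; simp only
    have hiff : (∀ i, n i % W = r i) ↔ ∀ i, (W:ℤ) ∣ cst n i - (r i : ℤ) := by
      apply forall_congr'
      intro i
      rw [cst]
      constructor
      · intro h
        rw [← h]; push_cast
        exact Int.dvd_self_sub_emod
      · intro h
        have h1 : ((n i : ℤ)) ≡ (r i : ℤ) [ZMOD W] := (Int.modEq_iff_dvd.mpr (by
          have := (dvd_neg (α := ℤ)).mpr h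
          rwa [neg_sub] at this))
        have h2 : n i ≡ r i [MOD W] := (Int.natCast_modEq_iff).mp h1
        rw [Nat.ModEq, Nat.mod_eq_of_lt (hr i)] at h2
        exact h2
    by_cases hcond : ∀ i, n i % W = r i
    · rw [if_pos hcond, if_pos (hiff.mp hcond)]
    · rw [if_neg hcond, if_neg (fun h => hcond (hiff.mpr h))]
  rw [hsumF]
  -- averaging over shifts
  have hshift : ∀ l ∈ cube D S, ‖∑ n ∈ pZ D N, F n - ∑ n ∈ pZ D N, F (n + crd b (iot c l))‖ ≤
      D * 2 ^ (D + 1) * E / N * (N:ℝ) ^ D := by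
    intro l hl
    refine (shift_box F hF1 N E hEN _ ?_).trans (bd_ineq hD N E hN0 hEN)
    intro i
    have := hC₁b l S (norm_cube_le hl) i
    rw [hE]; push_cast; exact this
  have hinner : ∀ n ∈ pZ D N, ‖∑ l ∈ cube D S, F (n + crd b (iot c l))‖ ≤ ε₁ * (2 * (M:ℝ) + 1) ^ D := by
    intro n hn
    set v := crd c (iot b n) with hv
    set r' := crd c (iot b (fun i => (r i : ℤ))) with hr'
    obtain ⟨n₀, L, hL, hiff⟩ := ap_cube W hW r' v S hSW
    have h1 := hN₀ M hMN n₀ W L hW hL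
    have h2 : ∑ l ∈ cube D S, F (n + crd b (iot c l)) =
        ∑ x ∈ Fintype.piFinset (fun _ : Fin D => Finset.Icc (-(M:ℤ)) M), (prog n₀ W L).indicator (fun n => χ (iot c n)) x := by
      have e1 : ∑ l ∈ cube D S, F (n + crd b (iot c l)) =
          ∑ x ∈ cubeAt v S, (if (∀ i, (W:ℤ) ∣ x i - r' i) then χ (iot c x) else 0) := by
        apply Finset.sum_bij (fun l _ => v + l)
        · intro l hl
          rw [mem_cube] at hl
          rw [mem_cubeAt]
          intro i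
          have := hl i
          simp only [Pi.add_apply]
          constructor <;> linarith [this.1, this.2]
        · intro a _ d _ h; exact add_left_cancel h
        · intro x hx
          refine ⟨x - v, ?_, by abel⟩
          rw [mem_cubeAt] at hx
          rw [mem_cube]
          intro i
          have := hx i
          simp only [Pi.sub_apply]
          constructor <;> linarith [this.1, this.2]
        · intro l _
          rw [hF]; simp only
          have e2 : iot b (n + crd b (iot c l)) = iot c (v + l) := by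
            rw [iot_add, iot_add, iot_crd, hv, iot_crd]
          have e3 : (∀ i, (W:ℤ) ∣ (n + crd b (iot c l)) i - (r i : ℤ)) ↔ ∀ i, (W:ℤ) ∣ (v + l) i - r' i := by
            constructor
            · intro h
              have h3 := dvd_change b c W ((n + crd b (iot c l)) - (fun i => (r i : ℤ))) h
              intro i
              have h4 := h3 i
              rw [iot_sub, crd_sub, e2, crd_iot] at h4
              exact h4
            · intro h
              have h3 := dvd_change c b W ((v + l) - r') h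
              intro i
              have h4 := h3 i
              rw [iot_sub, crd_sub, ← e2, crd_iot, hr', iot_crd, crd_iot] at h4
              exact h4
          rw [e2]
          by_cases hcond : ∀ i, (W:ℤ) ∣ (v + l) i - r' i
          · rw [if_pos (e3.mpr hcond), if_pos hcond]
          · rw [if_neg (fun h => hcond (e3.mp h)), if_neg hcond]
      rw [e1, ← Finset.sum_filter, Finset.sum_indicator_eq_sum_filter]
      apply Finset.sum_congr _ (fun _ _ => rfl)
      ext x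
      rw [Finset.mem_filter, Finset.mem_filter]
      constructor
      · rintro ⟨hx1, hx2⟩
        refine ⟨?_, (hiff x).mpr ⟨hx1, hx2⟩⟩
        rw [Fintype.mem_piFinset]
        intro i
        rw [Finset.mem_Icc]
        rw [mem_cubeAt] at hx1
        have h3 := hx1 i
        have h4 := abs_le.mp (hC₂b n N (norm_le_of_mem_pZ hn) i)
        have h5 : S ≤ N := Nat.div_le_self _ _
        have h6 : (M:ℤ) = C₂ * N + N := by rw [hM]; push_cast; ring
        have h7 : v i = crd c (iot b n) i := rfl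
        have h8 : (S:ℤ) ≤ N := by exact_mod_cast h5
        constructor <;> omega
      · rintro ⟨_, hx⟩
        exact (hiff x).mp hx
    rw [h2]
    have h3 : ‖(2 * (M:ℂ) + 1)‖ = 2 * (M:ℝ) + 1 := by
      have : (2 * (M:ℂ) + 1) = ((2 * (M:ℝ) + 1 : ℝ) : ℂ) := by push_cast; ring
      rw [this, Complex.norm_real, Real.norm_of_nonneg (by positivity)]
    rw [norm_mul, norm_div, norm_one, norm_pow, h3, one_div, inv_mul_le_iff₀ (by positivity)] at h1
    linarith
  set T := ∑ n ∈ pZ D N, F n with hT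
  have hSD : ((S:ℝ) ^ D) * ‖T‖ ≤ (S:ℝ) ^ D * (D * 2 ^ (D + 1) * E / N * (N:ℝ) ^ D) + (N:ℝ) ^ D * (ε₁ * (2 * (M:ℝ) + 1) ^ D) := by
    have h1 : ((S:ℂ) ^ D) * T = ∑ l ∈ cube D S, (T - ∑ n ∈ pZ D N, F (n + crd b (iot c l))) +
        ∑ n ∈ pZ D N, ∑ l ∈ cube D S, F (n + crd b (iot c l)) := by
      rw [Finset.sum_sub_distrib, Finset.sum_const, card_cube, nsmul_eq_mul, Finset.sum_comm (s := pZ D N)]
      push_cast; ring
    have h2 : ‖((S:ℂ) ^ D) * T‖ = ((S:ℝ) ^ D) * ‖T‖ := by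
      rw [norm_mul, norm_pow, Complex.norm_natCast]
    rw [← h2, h1]
    refine (norm_add_le _ _).trans (add_le_add ?_ ?_)
    · refine (norm_sum_le _ _).trans ((Finset.sum_le_sum hshift).trans (le_of_eq ?_))
      rw [Finset.sum_const, card_cube, nsmul_eq_mul]; push_cast; ring
    · refine (norm_sum_le _ _).trans ((Finset.sum_le_sum hinner).trans (le_of_eq ?_))
      rw [Finset.sum_const, card_cubeAt, nsmul_eq_mul]; push_cast; ring
  rw [norm_mul, norm_div, norm_one, norm_pow, Complex.norm_natCast]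
  have hSpos : (0:ℝ) < (S:ℝ) ^ D := by positivity
  have hT1 : ‖T‖ ≤ D * 2 ^ (D + 1) * E / N * (N:ℝ) ^ D + ((N:ℝ) ^ D / (S:ℝ) ^ D) * (ε₁ * (2 * (M:ℝ) + 1) ^ D) := by
    rw [← mul_le_mul_iff_right₀ hSpos]
    refine hSD.trans (le_of_eq ?_)
    field_simp
  have hpart1 : (D:ℝ) * 2 ^ (D + 1) * E / N ≤ ε / 4 := by
    have h1 : (E:ℝ) / N ≤ C₁ / m := by
      rw [div_le_div_iff₀ hNr hmr, hE]
      push_cast
      have : (m:ℝ) * S ≤ N := by exact_mod_cast hmS
      calc (C₁:ℝ) * S * m = C₁ * (m * S) := by ring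
        _ ≤ C₁ * N := by gcongr
    calc (D:ℝ) * 2 ^ (D + 1) * E / N = D * 2 ^ (D + 1) * (E / N) := by ring
      _ ≤ D * 2 ^ (D + 1) * (C₁ / m) := by gcongr
      _ = (D * 2 ^ (D + 1) * C₁ * (4 / ε)) * (ε / 4) / m := by field_simp
      _ ≤ (m:ℝ) * (ε / 4) / m := by gcongr
      _ = ε / 4 := by field_simp
  have hpart2 : ((N:ℝ) ^ D / (S:ℝ) ^ D) * (ε₁ * (2 * (M:ℝ) + 1) ^ D) ≤ ε / 4 * (N:ℝ) ^ D := by
    have h1 : (N:ℝ) ^ D / (S:ℝ) ^ D ≤ (2 * (m:ℝ)) ^ D := by
      rw [← div_pow]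
      apply pow_le_pow_left₀ (by positivity)
      rw [div_le_iff₀ (by linarith)]
      linarith
    have h2 : (2 * (M:ℝ) + 1) ≤ (2 * ((C₂:ℝ) + 1) + 1) * N := by
      rw [hM]; push_cast
      nlinarith
    calc ((N:ℝ) ^ D / (S:ℝ) ^ D) * (ε₁ * (2 * (M:ℝ) + 1) ^ D)
        ≤ (2 * (m:ℝ)) ^ D * (ε₁ * ((2 * ((C₂:ℝ) + 1) + 1) * N) ^ D) := by gcongr
      _ = ε / 4 * (N:ℝ) ^ D := by
          rw [hε₁, mul_pow (2 * ((C₂:ℝ) + 1) + 1) (N:ℝ)]
          field_simp
  calc 1 / (N:ℝ) ^ D * ‖T‖ ≤ 1 / (N:ℝ) ^ D * (ε / 4 * (N:ℝ) ^ D + ε / 4 * (N:ℝ) ^ D) := by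
        gcongr
        refine hT1.trans (add_le_add ?_ hpart2)
        gcongr
    _ = ε / 2 := by field_simp; norm_num
    _ < ε := by linarith

end

end PSarnak
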