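import Pool.Agent.Run7.h492.Kernel

/-!
The model kernel is close to the kernel of the averages.
-/

set_option linter.unusedVariables false
set_option linter.unusedSectionVars false

noncomputable section

open Finset NumberField
open scoped Classical ComplexConjugate

namespace PSarnak

variable {K : Type*} [Field K] [NumberField K] {D : ℕ} (b : Module.Basis (Fin D) ℤ (𝓞 K))

/-- number of multipliers dividing -/
def om (𝒟 : Finset (𝓞 K)) (n : Lat D) : ℝ := ((𝒟.filter (fun δ => δ ∣ iot b n)).card : ℝ)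

lemma om_nonneg (𝒟 : Finset (𝓞 K)) (n : Lat D) : 0 ≤ om b 𝒟 n := Nat.cast_nonneg _

lemma om_eq (𝒟 : Finset (𝓞 K)) (n : Lat D) : om b 𝒟 n = ∑ δ ∈ 𝒟, if δ ∣ iot b n then (1:ℝ) else 0 := by
  rw [om, Finset.card_filter]; push_cast; rfl

lemma count_mem (I : Ideal (𝓞 K)) (hI : I ≠ ⊥) (N : ℕ) (hN : Ideal.absNorm I ≤ N) :
    |(((pZ D N).filter (fun n => iot b n ∈ I)).card : ℝ) - (N:ℝ) ^ D / Ideal.absNorm I| ≤ En D N := by
  have h1 := count_ideal b I hI (fun _ => 1) N hN 0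
  simp only [sub_zero] at h1
  exact h1

lemma sum_om_lower (𝒟 : Finset (𝓞 K)) (h𝒟 : ∀ δ ∈ 𝒟, δ ≠ 0) (N : ℕ) (hNn : ∀ δ ∈ 𝒟, Nn δ ≤ N) :
    (N:ℝ) ^ D * LL 𝒟 - 𝒟.card * En D N ≤ ∑ n ∈ pZ D N, om b 𝒟 n := by
  simp only [om]
  rw [sum_omega]
  have h2 : ∑ δ ∈ 𝒟, ((N:ℝ) ^ D * (1 / Nn δ) - En D N) ≤
      ∑ δ ∈ 𝒟, (((pZ D N).filter (fun n => δ ∣ iot b n)).card : ℝ) := by
    apply Finset.sum_le_sum
    intro δ hδ
    have := (abs_le.mp (count_dvd b (h𝒟 δ hδ) (hNn δ hδ))).1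
    have e : (N:ℝ) ^ D * (1 / Nn δ) = (N:ℝ) ^ D / Nn δ := by ring
    rw [e]; linarith
  refine le_trans (le_of_eq ?_) h2
  rw [Finset.sum_sub_distrib, ← Finset.mul_sum, Finset.sum_const, nsmul_eq_mul]
  rfl

lemma sum_om_sq (C ε : ℝ) (A P : ℕ) (𝒟 : Finset (𝓞 K)) (h : MultSet b C ε A P 𝒟) (N : ℕ)
    (hN : P ^ (2 * A) ≤ N) :
    ∑ n ∈ pZ D N, om b 𝒟 n ^ 2 ≤ (N:ℝ) ^ D * ((1 + ε) * LL 𝒟 ^ 2) + (𝒟.card : ℝ) ^ 2 * En D N := by
  obtain ⟨c, hc1, hc2⟩ := h.tk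
  have h1 : ∀ n : Lat D, om b 𝒟 n ^ 2 = ∑ δ ∈ 𝒟, ∑ δ' ∈ 𝒟, if (δ ∣ iot b n ∧ δ' ∣ iot b n) then (1:ℝ) else 0 := by
    intro n
    rw [om_eq, sq, Finset.sum_mul_sum]
    apply Finset.sum_congr rfl
    intro δ _
    apply Finset.sum_congr rfl
    intro δ' _
    by_cases h1 : δ ∣ iot b n <;> by_cases h2 : δ' ∣ iot b n <;> simp [h1, h2]
  simp_rw [h1]
  have h2 : ∑ n ∈ pZ D N, ∑ δ ∈ 𝒟, ∑ δ' ∈ 𝒟, (if (δ ∣ iot b n ∧ δ' ∣ iot b n) then (1:ℝ) else 0) =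
      ∑ δ ∈ 𝒟, ∑ δ' ∈ 𝒟, (((pZ D N).filter (fun n => δ ∣ iot b n ∧ δ' ∣ iot b n)).card : ℝ) := by
    rw [Finset.sum_comm]
    apply Finset.sum_congr rfl
    intro δ _
    rw [Finset.sum_comm]
    apply Finset.sum_congr rfl
    intro δ' _
    rw [Finset.card_filter]; push_cast; rfl
  rw [h2]
  have h3 : ∀ δ ∈ 𝒟, ∀ δ' ∈ 𝒟, (((pZ D N).filter (fun n => δ ∣ iot b n ∧ δ' ∣ iot b n)).card : ℝ) ≤
      (N:ℝ) ^ D * (1 / Ideal.absNorm (c δ δ')) + En D N := by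
    intro δ hδ δ' hδ'
    obtain ⟨h4, h5⟩ := hc1 δ hδ δ' hδ'
    have h6 : Ideal.absNorm (c δ δ') ≤ N := by
      have h7 : Ideal.span {δ} * Ideal.span {δ'} ≤ c δ δ' := Ideal.mul_le_inf.trans h5
      have h8 := Ideal.absNorm_dvd_absNorm_of_le h7
      rw [map_mul, ← Nn_eq_absNorm, ← Nn_eq_absNorm] at h8
      have h9 := Nat.le_of_dvd (Nat.mul_pos (Nn_pos (h.bal δ hδ).ne) (Nn_pos (h.bal δ' hδ').ne)) h8
      refine h9.trans (le_trans ?_ hN)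
      calc Nn δ * Nn δ' ≤ P ^ A * P ^ A := Nat.mul_le_mul (h.hi δ hδ) (h.hi δ' hδ')
        _ = P ^ (2 * A) := by rw [← pow_add]; congr 1; ring
    have h7 := (abs_le.mp (count_mem b (c δ δ') h4 N h6)).2
    have h8 : (((pZ D N).filter (fun n => δ ∣ iot b n ∧ δ' ∣ iot b n)).card : ℝ) ≤
        ((pZ D N).filter (fun n => iot b n ∈ c δ δ')).card := by
      exact_mod_cast Finset.card_le_card (by
        intro n hn
        rw [Finset.mem_filter] at hn ⊢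
        refine ⟨hn.1, h5 ?_⟩
        rw [Submodule.mem_inf, Ideal.mem_span_singleton, Ideal.mem_span_singleton]
        exact hn.2)
    have e : (N:ℝ) ^ D * (1 / Ideal.absNorm (c δ δ')) = (N:ℝ) ^ D / Ideal.absNorm (c δ δ') := by ring
    rw [e]; linarith
  calc _ ≤ ∑ δ ∈ 𝒟, ∑ δ' ∈ 𝒟, ((N:ℝ) ^ D * (1 / Ideal.absNorm (c δ δ')) + En D N) :=
        Finset.sum_le_sum (fun δ hδ => Finset.sum_le_sum (fun δ' hδ' => h3 δ hδ δ' hδ'))
    _ = (N:ℝ) ^ D * (∑ δ ∈ 𝒟, ∑ δ' ∈ 𝒟, (1:ℝ) / Ideal.absNorm (c δ δ')) + (𝒟.card : ℝ) ^ 2 * En D N := by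
        simp only [Finset.sum_add_distrib, ← Finset.mul_sum, Finset.sum_const, nsmul_eq_mul]
        ring
    _ ≤ _ := by
        have : ∑ δ ∈ 𝒟, ∑ δ' ∈ 𝒟, (1:ℝ) / Ideal.absNorm (c δ δ') ≤ (1 + ε) * LL 𝒟 ^ 2 := hc2
        gcongr

/-- Turan–Kubilius inequality -/
theorem tk_bound (C ε : ℝ) (A P : ℕ) (𝒟 : Finset (𝓞 K)) (h : MultSet b C ε A P 𝒟) (N : ℕ)
    (hP : 0 < P) (hN : P ^ (2 * A) ≤ N) :
    ∑ n ∈ pZ D N, (om b 𝒟 n / LL 𝒟 - 1) ^ 2 ≤ ε * (N:ℝ) ^ D + 3 * (𝒟.card : ℝ) ^ 2 * En D N := by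
  have hL : 1 ≤ LL 𝒟 := h.L1
  have hL0 : 0 < LL 𝒟 := by linarith
  have hE := En_nonneg D N
  have h1 := sum_om_sq b C ε A P 𝒟 h N hN
  have h2 := sum_om_lower b 𝒟 (fun δ hδ => (h.bal δ hδ).ne) N (fun δ hδ => (h.hi δ hδ).trans
    (le_trans (Nat.pow_le_pow_right hP (by omega)) hN))
  have h3 : ∑ n ∈ pZ D N, (om b 𝒟 n / LL 𝒟 - 1) ^ 2 =
      (∑ n ∈ pZ D N, om b 𝒟 n ^ 2) / LL 𝒟 ^ 2 - 2 * (∑ n ∈ pZ D N, om b 𝒟 n) / LL 𝒟 + (N:ℝ) ^ D := by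
    have e : ∀ n ∈ pZ D N, (om b 𝒟 n / LL 𝒟 - 1) ^ 2 = om b 𝒟 n ^ 2 / LL 𝒟 ^ 2 - 2 * om b 𝒟 n / LL 𝒟 + 1 := by
      intro n _; ring
    rw [Finset.sum_congr rfl e, Finset.sum_add_distrib, Finset.sum_sub_distrib, ← Finset.sum_div,
      ← Finset.sum_div, ← Finset.mul_sum, Finset.sum_const, card_cubeAt]
    simp
  rw [h3]
  have h4 : (∑ n ∈ pZ D N, om b 𝒟 n ^ 2) / LL 𝒟 ^ 2 ≤ (N:ℝ) ^ D * (1 + ε) + (𝒟.card : ℝ) ^ 2 * En D N := by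
    rw [div_le_iff₀ (by positivity)]
    refine h1.trans ?_
    have h5 : (𝒟.card : ℝ) ^ 2 * En D N ≤ (𝒟.card : ℝ) ^ 2 * En D N * LL 𝒟 ^ 2 := by
      apply le_mul_of_one_le_right (by positivity)
      exact one_le_pow₀ hL
    linarith
  have h5 : (N:ℝ) ^ D - 𝒟.card * En D N ≤ (∑ n ∈ pZ D N, om b 𝒟 n) / LL 𝒟 := by
    rw [le_div_iff₀ hL0]
    have h6 : (𝒟.card : ℝ) * En D N ≤ 𝒟.card * En D N * LL 𝒟 := le_mul_of_one_le_right (by positivity) hL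
    linarith
  have h6 : (𝒟.card : ℝ) ≤ (𝒟.card : ℝ) ^ 2 := by
    have : 𝒟.card ≤ 𝒟.card ^ 2 := Nat.le_self_pow (by norm_num) _
    exact_mod_cast this
  have h7 : (𝒟.card : ℝ) * En D N ≤ (𝒟.card : ℝ) ^ 2 * En D N := by gcongr
  have h8 : 2 * (∑ n ∈ pZ D N, om b 𝒟 n) / LL 𝒟 = 2 * ((∑ n ∈ pZ D N, om b 𝒟 n) / LL 𝒟) := by ring
  rw [h8]
  linarith

/-- primes above a rational prime -/
def ovr (p : ℕ) : Finset (Ideal (𝓞 K)) := Qdv K (p ^ D) p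

include b in
lemma mem_ovr {p : ℕ} (hp : p.Prime) {I : Ideal (𝓞 K)} :
    I ∈ ovr (K := K) (D := D) p ↔ I.IsPrime ∧ (p : 𝓞 K) ∈ I := by
  have hp0 : (p : 𝓞 K) ≠ 0 := by exact_mod_cast hp.ne_zero
  rw [ovr, Qdv, Finset.mem_filter, mem_prm]
  constructor
  · rintro ⟨⟨_, _, h1⟩, h2⟩; exact ⟨h1, h2⟩
  · rintro ⟨h1, h2⟩
    refine ⟨⟨?_, ?_, h1⟩, h2⟩
    · have h3 : Ideal.span {(p : 𝓞 K)} ≤ I := by
        rw [Ideal.span_singleton_le_iff_mem]; exact h2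
      have h4 := Ideal.absNorm_dvd_absNorm_of_le h3
      rw [absNorm_span_nat b] at h4
      exact Nat.le_of_dvd (pow_pos hp.pos _) h4
    · intro h; rw [h] at h2; exact hp0 (by simpa using h2)

include b in
lemma norm_ovr {p : ℕ} (hp : p.Prime) {I : Ideal (𝓞 K)} (hI : I ∈ ovr (K := K) (D := D) p) :
    I ≠ ⊥ ∧ p ≤ Ideal.absNorm I ∧ Ideal.absNorm I ≤ p ^ D := by
  have h0 := hI
  rw [ovr, Qdv, Finset.mem_filter, mem_prm] at h0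
  refine ⟨h0.1.2.1, ?_, h0.1.1⟩
  have h3 : Ideal.span {(p : 𝓞 K)} ≤ I := by
    rw [Ideal.span_singleton_le_iff_mem]; exact h0.2
  have h4 := Ideal.absNorm_dvd_absNorm_of_le h3
  rw [absNorm_span_nat b, Nat.dvd_prime_pow hp] at h4
  obtain ⟨f, _, hf⟩ := h4
  have h5 := two_le_norm h0.1.2.2 h0.1.2.1
  rw [hf] at h5 ⊢
  have hf0 : f ≠ 0 := by
    rintro rfl; simp at h5
  exact Nat.le_self_pow hf0 p

include b in
lemma card_ovr {p : ℕ} (hp : p.Prime) : (ovr (K := K) (D := D) p).card ≤ D := by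
  set Q' := ovr (K := K) (D := D) p with hQ'
  have hdvd : ∏ I ∈ Q', I ∣ Ideal.span {(p : 𝓞 K)} := by
    apply Finset.prod_primes_dvd
    · intro I hI
      exact prime_of_mem ((mem_ovr b hp).mp hI).1 (norm_ovr b hp hI).1
    · intro I hI; rw [Ideal.dvd_span_singleton]; exact ((mem_ovr b hp).mp hI).2
  have h3 := Ideal.absNorm_dvd_absNorm_of_le (Ideal.dvd_iff_le.mp hdvd)
  rw [absNorm_span_nat b, map_prod] at h3
  have h4 := Nat.le_of_dvd (pow_pos hp.pos _) h3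
  have h5 : p ^ Q'.card ≤ ∏ I ∈ Q', Ideal.absNorm I := by
    rw [← Finset.prod_const]
    exact Finset.prod_le_prod (fun _ _ => Nat.zero_le _) (fun I hI => (norm_ovr b hp hI).2.1)
  exact (Nat.pow_le_pow_iff_right hp.one_lt).mp (h5.trans h4)

include b in
lemma exists_ovr {p : ℕ} (hp : p.Prime) (x : 𝓞 K) (hx : p ∣ Nn x) :
    ∃ I ∈ ovr (K := K) (D := D) p, x ∈ I := by
  rw [Nn_eq_absNorm] at hx
  obtain ⟨I, h1, h2, h3⟩ := Ideal.exists_isMaximal_dvd_of_dvd_absNorm' hp _ hx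
  refine ⟨I, ?_, ?_⟩
  · rw [mem_ovr b hp]
    refine ⟨h1.isPrime, ?_⟩
    have h4 : (p : ℤ) ∈ I.under ℤ := by rw [h2]; exact Ideal.mem_span_singleton_self _
    rw [Ideal.under_def, Ideal.mem_comap] at h4
    simpa using h4
  · rwa [Ideal.dvd_span_singleton] at h3

/-- bad points -/
def badp (𝒟 : Finset (𝓞 K)) (n : Lat D) : Prop :=
  ∃ δ ∈ 𝒟, δ ∣ iot b n ∧ ¬ Nat.Coprime (Nn δ) (Nn (quo δ (iot b n)))

theorem bad_bound (C ε : ℝ) (A P : ℕ) (𝒟 : Finset (𝓞 K)) (h : MultSet b C ε A P 𝒟) (N : ℕ)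
    (hP : 0 < P) (hN : P ^ (2 * A * D) ≤ N) :
    (((pZ D N).filter (fun n => badp b 𝒟 n)).card : ℝ) ≤
      (D:ℝ) ^ 2 * ((N:ℝ) ^ D / P + P ^ A * En D N) := by
  have hD := D_pos b
  have hPr : (0:ℝ) < P := by exact_mod_cast hP
  have hE := En_nonneg D N
  set T := ((Finset.Ioc P (P ^ A)).filter Nat.Prime) with hT
  have h1 : (pZ D N).filter (fun n => badp b 𝒟 n) ⊆
      T.biUnion (fun p => (ovr (K := K) (D := D) p ×ˢ ovr (K := K) (D := D) p).biUnion (fun I =>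
        (pZ D N).filter (fun n => iot b n ∈ I.1 * I.2))) := by
    intro n hn
    rw [Finset.mem_filter] at hn
    obtain ⟨hn1, δ, hδ, hdvd, hco⟩ := hn
    obtain ⟨p, hp, hp1, hp2⟩ := Nat.Prime.not_coprime_iff_dvd.mp hco
    obtain ⟨I, hI, hI2⟩ := exists_ovr b hp _ hp1
    obtain ⟨J, hJ, hJ2⟩ := exists_ovr b hp _ hp2
    rw [Finset.mem_biUnion]
    refine ⟨p, ?_, ?_⟩
    · rw [hT, Finset.mem_filter, Finset.mem_Ioc]
      refine ⟨⟨h.pr δ hδ p hp hp1, ?_⟩, hp⟩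
      exact (Nat.le_of_dvd (Nn_pos (h.bal δ hδ).ne) hp1).trans (h.hi δ hδ)
    · rw [Finset.mem_biUnion]
      refine ⟨(I, J), Finset.mem_product.mpr ⟨hI, hJ⟩, ?_⟩
      rw [Finset.mem_filter]
      refine ⟨hn1, ?_⟩
      rw [← mul_quo hdvd]
      exact Ideal.mul_mem_mul hI2 hJ2
  have h2 : ∀ p ∈ T, (((ovr (K := K) (D := D) p ×ˢ ovr (K := K) (D := D) p).biUnion (fun I =>
        (pZ D N).filter (fun n => iot b n ∈ I.1 * I.2))).card : ℝ) ≤ (D:ℝ) ^ 2 * ((N:ℝ) ^ D * ((p:ℝ) ^ 2)⁻¹ + En D N) := by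
    intro p hp
    rw [hT, Finset.mem_filter, Finset.mem_Ioc] at hp
    obtain ⟨⟨hp1, hp2⟩, hpp⟩ := hp
    have hpr : (0:ℝ) < p := by exact_mod_cast hpp.pos
    have h3 : ∀ I ∈ ovr (K := K) (D := D) p ×ˢ ovr (K := K) (D := D) p,
        (((pZ D N).filter (fun n => iot b n ∈ I.1 * I.2)).card : ℝ) ≤ (N:ℝ) ^ D * ((p:ℝ) ^ 2)⁻¹ + En D N := by
      intro I hI
      rw [Finset.mem_product] at hI
      obtain ⟨a1, a2, a3⟩ := norm_ovr b hpp hI.1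
      obtain ⟨b1, b2, b3⟩ := norm_ovr b hpp hI.2
      have hne : I.1 * I.2 ≠ ⊥ := mul_ne_zero a1 b1
      have hle : Ideal.absNorm (I.1 * I.2) ≤ N := by
        rw [map_mul]
        calc _ ≤ p ^ D * p ^ D := Nat.mul_le_mul a3 b3
          _ = p ^ (2 * D) := by rw [← pow_add]; congr 1; ring
          _ ≤ (P ^ A) ^ (2 * D) := Nat.pow_le_pow_left hp2 _
          _ = P ^ (2 * A * D) := by rw [← pow_mul]; congr 1; ring
          _ ≤ N := hN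
      have h4 := (abs_le.mp (count_mem b (I.1 * I.2) hne N hle)).2
      have h5 : (N:ℝ) ^ D / Ideal.absNorm (I.1 * I.2) ≤ (N:ℝ) ^ D * ((p:ℝ) ^ 2)⁻¹ := by
        rw [div_eq_mul_inv]
        have h6 : (p:ℝ) ^ 2 ≤ Ideal.absNorm (I.1 * I.2) := by
          rw [map_mul]; push_cast
          have c1 : (p:ℝ) ≤ Ideal.absNorm I.1 := by exact_mod_cast a2
          have c2 : (p:ℝ) ≤ Ideal.absNorm I.2 := by exact_mod_cast b2
          nlinarith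
        gcongr
      linarith
    have h4 : (((ovr (K := K) (D := D) p ×ˢ ovr (K := K) (D := D) p).biUnion (fun I =>
        (pZ D N).filter (fun n => iot b n ∈ I.1 * I.2))).card : ℝ) ≤
        ∑ I ∈ ovr (K := K) (D := D) p ×ˢ ovr (K := K) (D := D) p,
          (((pZ D N).filter (fun n => iot b n ∈ I.1 * I.2)).card : ℝ) := by
      exact_mod_cast Finset.card_biUnion_le
    refine h4.trans ((Finset.sum_le_sum h3).trans ?_)
    rw [Finset.sum_const, Finset.card_product, nsmul_eq_mul]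
    have h5 : (((ovr (K := K) (D := D) p).card * (ovr (K := K) (D := D) p).card : ℕ) : ℝ) ≤ (D:ℝ) ^ 2 := by
      have := card_ovr b hpp
      have h6 : (ovr (K := K) (D := D) p).card * (ovr (K := K) (D := D) p).card ≤ D ^ 2 := by
        rw [sq]; exact Nat.mul_le_mul this this
      exact_mod_cast h6
    gcongr
  have h3 : (((pZ D N).filter (fun n => badp b 𝒟 n)).card : ℝ) ≤
      ∑ p ∈ T, (D:ℝ) ^ 2 * ((N:ℝ) ^ D * ((p:ℝ) ^ 2)⁻¹ + En D N) := by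
    calc _ ≤ ((T.biUnion (fun p => (ovr (K := K) (D := D) p ×ˢ ovr (K := K) (D := D) p).biUnion (fun I =>
        (pZ D N).filter (fun n => iot b n ∈ I.1 * I.2)))).card : ℝ) := by
          exact_mod_cast Finset.card_le_card h1
      _ ≤ ∑ p ∈ T, (((ovr (K := K) (D := D) p ×ˢ ovr (K := K) (D := D) p).biUnion (fun I =>
        (pZ D N).filter (fun n => iot b n ∈ I.1 * I.2))).card : ℝ) := by
          exact_mod_cast Finset.card_biUnion_le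
      _ ≤ _ := Finset.sum_le_sum h2
  refine h3.trans ?_
  rw [← Finset.mul_sum, Finset.sum_add_distrib, ← Finset.mul_sum, Finset.sum_const, nsmul_eq_mul]
  have h4 : ∑ p ∈ T, ((p:ℝ) ^ 2)⁻¹ ≤ 1 / P := by
    by_cases hPA : P ≤ P ^ A
    · calc ∑ p ∈ T, ((p:ℝ) ^ 2)⁻¹ ≤ ∑ p ∈ Finset.Ioc P (P ^ A), ((p:ℝ) ^ 2)⁻¹ :=
            Finset.sum_le_sum_of_subset_of_nonneg (Finset.filter_subset _ _) (fun _ _ _ => by positivity)
        _ ≤ (P:ℝ)⁻¹ - ((P ^ A : ℕ) : ℝ)⁻¹ := sum_Ioc_inv_sq_le_sub hP.ne' hPA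
        _ ≤ _ := by
            rw [one_div]
            have : (0:ℝ) ≤ ((P ^ A : ℕ) : ℝ)⁻¹ := by positivity
            linarith
    · have : T = ∅ := by
        rw [hT, Finset.Ioc_eq_empty_of_le (by omega)]; rfl
      rw [this]; simp
  have h5 : (T.card : ℝ) ≤ (P:ℝ) ^ A := by
    have h6 : T.card ≤ P ^ A := by
      calc T.card ≤ (Finset.Ioc P (P ^ A)).card := Finset.card_filter_le _ _
        _ = P ^ A - P := by simp
        _ ≤ P ^ A := Nat.sub_le _ _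
    exact_mod_cast h6
  have h6 : (N:ℝ) ^ D / P = (N:ℝ) ^ D * (1 / P) := by ring
  rw [h6]
  gcongr

lemma kcoef_good (χ : 𝓞 K → ℂ) (hm : ∀ x y, Nat.Coprime (Nn x) (Nn y) → χ (x * y) = χ x * χ y)
    (𝒟 : Finset (𝓞 K)) (n : Lat D) (hn : ¬ badp b 𝒟 n) :
    kcoef b χ 𝒟 n = om b 𝒟 n * χ (iot b n) := by
  have h1 : ∀ δ ∈ 𝒟.filter (fun δ => δ ∣ iot b n), χ δ * χ (quo δ (iot b n)) = χ (iot b n) := by
    intro δ hδ
    rw [Finset.mem_filter] at hδ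
    have h2 : Nat.Coprime (Nn δ) (Nn (quo δ (iot b n))) := by
      by_contra hc
      exact hn ⟨δ, hδ.1, hδ.2, hc⟩
    rw [← hm _ _ h2, mul_quo hδ.2]
  rw [kcoef, Finset.sum_congr rfl h1, Finset.sum_const, nsmul_eq_mul, om]
  push_cast; rfl

theorem kerA_close (χ : 𝓞 K → ℂ) (hχ : ∀ x, ‖χ x‖ ≤ 1)
    (hm : ∀ x y, Nat.Coprime (Nn x) (Nn y) → χ (x * y) = χ x * χ y)
    (C ε : ℝ) (A P : ℕ) (𝒟 : Finset (𝓞 K)) (h : MultSet b C ε A P 𝒟) (N : ℕ)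
    (hP : 0 < P) (hN : P ^ (2 * A * D) ≤ N) :
    nsq (kerN (fun n => χ (iot b (cst n))) N - kerA b χ 𝒟 N) * (2 * (N:ℝ) + 1) ^ D ≤
      3 ^ D * (2 * (ε + 3 * (𝒟.card : ℝ) ^ 2 * (D * 2 ^ D / N)) +
        8 * (D ^ 2 * (1 / P + P ^ A * (D * 2 ^ D / N)))) := by
  have hD := D_pos b
  have hN0 : 0 < N := lt_of_lt_of_le (pow_pos hP _) hN
  have hN' : (0:ℝ) < N := by exact_mod_cast hN0
  have hN1 : (1:ℝ) ≤ N := by exact_mod_cast hN0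
  have hL : 1 ≤ LL 𝒟 := h.L1
  have hL0 : 0 < LL 𝒟 := by linarith
  have hkN : kerN (fun n => χ (iot b (cst n))) N = tp (pZ D N) (fun n => χ (iot b n) / (N:ℂ) ^ D) := by
    rw [kerN, tp]
    exact sum_pbox N (fun n => (χ (iot b n) / (N:ℂ) ^ D) • ee n)
  have hdiff : kerN (fun n => χ (iot b (cst n))) N - kerA b χ 𝒟 N =
      tp (pZ D N) (fun n => (χ (iot b n) - kcoef b χ 𝒟 n / (LL 𝒟 : ℂ)) / (N:ℂ) ^ D) := by
    rw [hkN, kerA]
    ext α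
    rw [ContinuousMap.sub_apply, tp_apply, tp_apply, tp_apply, ← Finset.sum_sub_distrib]
    apply Finset.sum_congr rfl
    intro n _
    rw [← sub_mul, sub_div, div_div]
  rw [hdiff, nsq_tp]
  have hpt : ∀ n ∈ pZ D N, ‖(χ (iot b n) - kcoef b χ 𝒟 n / (LL 𝒟 : ℂ)) / (N:ℂ) ^ D‖ ^ 2 ≤
      (1 / (N:ℝ) ^ (2 * D)) * (2 * (om b 𝒟 n / LL 𝒟 - 1) ^ 2 + 8 * (if badp b 𝒟 n then 1 else 0)) := by
    intro n _
    rw [norm_div, norm_pow, Complex.norm_natCast, div_pow, ← pow_mul, mul_comm D 2, div_eq_mul_inv, mul_comm, ← one_div]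
    apply mul_le_mul_of_nonneg_left _ (by positivity)
    have ho := om_nonneg b 𝒟 n
    split_ifs with hb
    · have h1 : ‖χ (iot b n) - kcoef b χ 𝒟 n / (LL 𝒟 : ℂ)‖ ≤ 1 + om b 𝒟 n / LL 𝒟 := by
        refine (norm_sub_le _ _).trans (add_le_add (hχ _) ?_)
        rw [norm_div, Complex.norm_real, Real.norm_of_nonneg hL0.le]
        have := norm_kcoef_le b χ hχ 𝒟 n
        change _ ≤ om b 𝒟 n at this
        gcongr
      set t := om b 𝒟 n / LL 𝒟 with ht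
      have ht0 : 0 ≤ t := by positivity
      have h2 := norm_nonneg (χ (iot b n) - kcoef b χ 𝒟 n / (LL 𝒟 : ℂ))
      nlinarith [sq_nonneg (t - 3)]
    · rw [kcoef_good b χ hm 𝒟 n hb]
      have h1 : χ (iot b n) - om b 𝒟 n * χ (iot b n) / (LL 𝒟 : ℂ) = -(((om b 𝒟 n / LL 𝒟 - 1 : ℝ)) : ℂ) * χ (iot b n) := by
        push_cast; ring
      rw [h1, norm_mul, norm_neg, Complex.norm_real, Real.norm_eq_abs, mul_pow, sq_abs]
      have h2 : ‖χ (iot b n)‖ ^ 2 ≤ 1 := by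
        have := hχ (iot b n)
        have := norm_nonneg (χ (iot b n))
        nlinarith
      have h3 : 0 ≤ (om b 𝒟 n / LL 𝒟 - 1) ^ 2 := sq_nonneg _
      nlinarith
  have h1 := tk_bound b C ε A P 𝒟 h N hP (le_trans (Nat.pow_le_pow_right hP (by nlinarith)) hN)
  have h2 := bad_bound b C ε A P 𝒟 h N hP hN
  have h3 : ∑ n ∈ pZ D N, ‖(χ (iot b n) - kcoef b χ 𝒟 n / (LL 𝒟 : ℂ)) / (N:ℂ) ^ D‖ ^ 2 ≤
      (1 / (N:ℝ) ^ (2 * D)) * (2 * (ε * (N:ℝ) ^ D + 3 * (𝒟.card : ℝ) ^ 2 * En D N) +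
        8 * ((D:ℝ) ^ 2 * ((N:ℝ) ^ D / P + P ^ A * En D N))) := by
    refine (Finset.sum_le_sum hpt).trans ?_
    rw [← Finset.mul_sum, Finset.sum_add_distrib, ← Finset.mul_sum, ← Finset.mul_sum]
    have h4 : ∑ n ∈ pZ D N, (if badp b 𝒟 n then (1:ℝ) else 0) = (((pZ D N).filter (fun n => badp b 𝒟 n)).card : ℝ) := by
      rw [Finset.card_filter]; push_cast; rfl
    rw [h4]
    gcongr
  rw [En_le hD N hN0] at h3
  calc _ ≤ ((1 / (N:ℝ) ^ (2 * D)) * (2 * (ε * (N:ℝ) ^ D + 3 * (𝒟.card : ℝ) ^ 2 * (D * 2 ^ D / N * (N:ℝ) ^ D)) +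
        8 * ((D:ℝ) ^ 2 * ((N:ℝ) ^ D / P + P ^ A * (D * 2 ^ D / N * (N:ℝ) ^ D))))) * (3 * (N:ℝ)) ^ D := by
        gcongr
        · exact le_trans (Finset.sum_nonneg (fun _ _ => by positivity)) h3
        · linarith
    _ = _ := by
        rw [mul_pow, two_mul D, pow_add]
        field_simp

end PSarnak
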