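import Pool.Agent.Run7.h492.Torus

/-!
Coordinates on rings of integers, the action on the torus and balanced generators.
-/

set_option linter.unusedVariables false
set_option linter.unusedSectionVars false

noncomputable section

open MeasureTheory Finset UnitAddTorus Filter NumberField
open scoped ComplexConjugate ENNReal Classical

namespace PSarnak

local instance instMS20 : MeasureSpace UnitAddCircle := ⟨AddCircle.haarAddCircle⟩

variable {D : ℕ}

/-- the pairing of the lattice with the torus -/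
def pr (n : Lat D) (α : Tor D) : UnitAddCircle := ∑ i, n i • α i

lemma ee_eq_pr (n : Lat D) (α : Tor D) : ee n α = fourier 1 (pr n α) := by
  simp only [ee, mFourier, ContinuousMap.coe_mk, pr, fourier_apply, one_smul]
  rw [← Circle.coeHom_apply]
  have : AddCircle.toCircle (∑ i, n i • α i) = ∏ i, AddCircle.toCircle (n i • α i) := by
    induction (Finset.univ : Finset (Fin D)) using Finset.induction_on with
    | empty => simp
    | insert a s ha ih => rw [Finset.sum_insert ha, Finset.prod_insert ha, AddCircle.toCircle_add, ih]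
  rw [this, map_prod]
  rfl

variable {K : Type*} [Field K] [NumberField K] (b : Module.Basis (Fin D) ℤ (𝓞 K))

/-- coordinates -/
def crd (x : 𝓞 K) : Lat D := b.equivFun x

/-- element with given coordinates -/
def iot (n : Lat D) : 𝓞 K := b.equivFun.symm n

lemma crd_iot (n : Lat D) : crd b (iot b n) = n := b.equivFun.apply_symm_apply n
lemma iot_crd (x : 𝓞 K) : iot b (crd b x) = x := b.equivFun.symm_apply_apply x
lemma crd_add (x y : 𝓞 K) : crd b (x + y) = crd b x + crd b y := map_add _ _ _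
lemma crd_sub (x y : 𝓞 K) : crd b (x - y) = crd b x - crd b y := map_sub _ _ _
lemma crd_zero : crd b (0 : 𝓞 K) = 0 := map_zero _
lemma crd_neg (x : 𝓞 K) : crd b (-x) = -crd b x := map_neg _ _
lemma iot_add (x y : Lat D) : iot b (x + y) = iot b x + iot b y := map_add _ _ _
lemma iot_sub (x y : Lat D) : iot b (x - y) = iot b x - iot b y := map_sub _ _ _
lemma crd_injective : Function.Injective (crd b) := b.equivFun.injective
lemma iot_injective : Function.Injective (iot b) := b.equivFun.symm.injective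
lemma crd_zsmul (n : ℤ) (x : 𝓞 K) : crd b (n • x) = n • crd b x := map_smul b.equivFun n x
lemma crd_sum {ι : Type*} (s : Finset ι) (f : ι → 𝓞 K) : crd b (∑ i ∈ s, f i) = ∑ i ∈ s, crd b (f i) :=
  map_sum b.equivFun f s

lemma iot_eq (n : Lat D) : iot b n = ∑ i, n i • b i := by
  rw [iot, Module.Basis.equivFun_symm_apply]

/-- action of the ring on the torus -/
def sm (x : 𝓞 K) (α : Tor D) : Tor D := fun i => ∑ j, (crd b (x * b i) j) • α j

lemma sm_eq_pr (x : 𝓞 K) (α : Tor D) (i : Fin D) : sm b x α i = pr (crd b (x * b i)) α := rfl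

lemma pr_add_left (n m : Lat D) (α : Tor D) : pr (n + m) α = pr n α + pr m α := by
  simp only [pr, Pi.add_apply, add_smul, Finset.sum_add_distrib]

lemma pr_zero_left (α : Tor D) : pr 0 α = 0 := by simp [pr]

lemma pr_sum_left {ι : Type*} (s : Finset ι) (n : ι → Lat D) (α : Tor D) :
    pr (∑ i ∈ s, n i) α = ∑ i ∈ s, pr (n i) α := by
  induction s using Finset.induction_on with
  | empty => simp [pr_zero_left]
  | insert a s ha ih => rw [Finset.sum_insert ha, Finset.sum_insert ha, pr_add_left, ih]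

lemma pr_zsmul_left (c : ℤ) (n : Lat D) (α : Tor D) : pr (c • n) α = c • pr n α := by
  simp only [pr, Pi.smul_apply, smul_eq_mul, Finset.smul_sum, mul_smul]

lemma pr_add_right (n : Lat D) (α β : Tor D) : pr n (α + β) = pr n α + pr n β := by
  simp only [pr, Pi.add_apply, smul_add, Finset.sum_add_distrib]

lemma pr_sm (n : Lat D) (x : 𝓞 K) (α : Tor D) : pr n (sm b x α) = pr (crd b (x * iot b n)) α := by
  have h1 : crd b (x * iot b n) = ∑ i, n i • crd b (x * b i) := by
    rw [iot_eq, Finset.mul_sum, crd_sum]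
    apply Finset.sum_congr rfl
    intro i _
    rw [mul_smul_comm, crd_zsmul]
  rw [h1, pr_sum_left, pr]
  apply Finset.sum_congr rfl
  intro i _
  rw [pr_zsmul_left, sm_eq_pr]

lemma ee_sm (n : Lat D) (x : 𝓞 K) (α : Tor D) : ee n (sm b x α) = ee (crd b (x * iot b n)) α := by
  rw [ee_eq_pr, ee_eq_pr, pr_sm]

lemma pr_single (i : Fin D) (α : Tor D) : pr (Pi.single i 1) α = α i := by
  rw [pr, Finset.sum_eq_single i]
  · simp
  · intro j _ hj; rw [Pi.single_eq_of_ne hj, zero_smul]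
  · intro h; exact absurd (Finset.mem_univ i) h

lemma crd_basis (i : Fin D) : crd b (b i) = Pi.single i 1 := by
  ext j
  rw [crd, Module.Basis.equivFun_self, Pi.single_apply]
  simp only [eq_comm]

lemma sm_mul (x y : 𝓞 K) (α : Tor D) : sm b (x * y) α = sm b x (sm b y α) := by
  ext i
  rw [sm_eq_pr b x, pr_sm, iot_crd, sm_eq_pr]
  congr 2; ring

lemma sm_one (α : Tor D) : sm b 1 α = α := by
  ext i
  rw [sm_eq_pr, one_mul, crd_basis, pr_single]

lemma sm_add (x y : 𝓞 K) (α : Tor D) : sm b (x + y) α = sm b x α + sm b y α := by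
  ext i
  rw [sm_eq_pr, add_mul, crd_add, pr_add_left]; rfl

lemma sm_add_right (x : 𝓞 K) (α β : Tor D) : sm b x (α + β) = sm b x α + sm b x β := by
  ext i
  rw [sm_eq_pr, pr_add_right]; rfl

lemma sm_zero (α : Tor D) : sm b 0 α = 0 := by
  ext i
  rw [sm_eq_pr, zero_mul, crd_zero, pr_zero_left]; rfl

lemma sm_neg (x : 𝓞 K) (α : Tor D) : sm b (-x) α = - sm b x α := by
  have := sm_add b (-x) x α
  rw [neg_add_cancel, sm_zero] at this
  exact (neg_eq_of_add_eq_zero_left this.symm).symm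

lemma sm_sub (x y : 𝓞 K) (α : Tor D) : sm b (x - y) α = sm b x α - sm b y α := by
  rw [sub_eq_add_neg, sm_add, sm_neg, sub_eq_add_neg]

lemma sm_zero_right (x : 𝓞 K) : sm b x 0 = 0 := by
  have := sm_add_right b x 0 0
  rw [add_zero] at this
  exact left_eq_add.mp this

lemma sm_neg_right (x : 𝓞 K) (α : Tor D) : sm b x (-α) = - sm b x α := by
  have := sm_add_right b x (-α) α
  rw [neg_add_cancel, sm_zero_right] at this
  exact (neg_eq_of_add_eq_zero_left this.symm).symm

lemma sm_sub_right (x : 𝓞 K) (α β : Tor D) : sm b x (α - β) = sm b x α - sm b x β := by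
  rw [sub_eq_add_neg, sm_add_right, sm_neg_right, sub_eq_add_neg]

lemma sm_int (n : ℤ) (α : Tor D) : sm b (n : 𝓞 K) α = n • α := by
  ext i
  have : (n : 𝓞 K) * b i = n • b i := by rw [zsmul_eq_mul]
  rw [sm_eq_pr, this, crd_zsmul, pr_zsmul_left, crd_basis, pr_single]; rfl

lemma sm_nat (n : ℕ) (α : Tor D) : sm b (n : 𝓞 K) α = n • α := by
  have := sm_int b (n : ℤ) α
  push_cast at this
  rw [this]; simp

lemma continuous_sm (x : 𝓞 K) : Continuous (sm b x) := by
  unfold sm
  apply continuous_pi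
  intro i
  apply continuous_finsetSum
  intro j _
  exact (continuous_apply j).zsmul _

/-- substitution -/
def sbst (x : 𝓞 K) (F : C(Tor D, ℂ)) : C(Tor D, ℂ) := F.comp ⟨sm b x, continuous_sm b x⟩

lemma sbst_apply (x : 𝓞 K) (F : C(Tor D, ℂ)) (α : Tor D) : sbst b x F α = F (sm b x α) := rfl

lemma sbst_ee (x : 𝓞 K) (n : Lat D) : sbst b x (ee n) = ee (crd b (x * iot b n)) := by
  ext α
  rw [sbst_apply, ee_sm]

/-! ### norm bounds -/

/-- structure constant bound -/
def Cb : ℝ := 1 + D * ∑ i, ∑ j, ‖crd b (b i * b j)‖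

lemma Cb_pos : 1 ≤ Cb b := by
  rw [Cb]
  have : 0 ≤ (D:ℝ) * ∑ i, ∑ j, ‖crd b (b i * b j)‖ := by positivity
  linarith

lemma norm_crd_mul_le (x y : 𝓞 K) : ‖crd b (x * y)‖ ≤ (∑ i, ∑ j, ‖crd b (b i * b j)‖) * ‖crd b x‖ * ‖crd b y‖ := by
  have h1 : x * y = ∑ i, ∑ j, (crd b x i * crd b y j) • (b i * b j) := by
    conv_lhs => rw [← iot_crd b x, ← iot_crd b y, iot_eq, iot_eq, Finset.sum_mul_sum]
    apply Finset.sum_congr rfl
    intro i _
    apply Finset.sum_congr rfl
    intro j _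
    rw [smul_mul_smul_comm]
  rw [h1, crd_sum]
  simp only [crd_sum, crd_zsmul]
  rw [Finset.sum_mul, Finset.sum_mul]
  refine (norm_sum_le _ _).trans (Finset.sum_le_sum (fun i _ => ?_))
  rw [Finset.sum_mul, Finset.sum_mul]
  refine (norm_sum_le _ _).trans (Finset.sum_le_sum (fun j _ => ?_))
  refine (norm_smul_le _ _).trans ?_
  rw [norm_mul]
  have h2 : ‖crd b x i‖ ≤ ‖crd b x‖ := norm_le_pi_norm _ i
  have h3 : ‖crd b y j‖ ≤ ‖crd b y‖ := norm_le_pi_norm _ j
  calc ‖crd b x i‖ * ‖crd b y j‖ * ‖crd b (b i * b j)‖ ≤ ‖crd b x‖ * ‖crd b y‖ * ‖crd b (b i * b j)‖ := by gcongr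
    _ = _ := by ring

lemma norm_crd_mul_le' (x y : 𝓞 K) : ‖crd b (x * y)‖ ≤ Cb b * ‖crd b x‖ * ‖crd b y‖ := by
  refine (norm_crd_mul_le b x y).trans ?_
  rcases Nat.eq_zero_or_pos D with hD | hD
  · subst hD
    have : crd b x = 0 := by ext i; exact i.elim0
    have h2 := Cb_pos b
    rw [this, norm_zero]; simp only [mul_zero, zero_mul]; positivity
  · have hD' : (1:ℝ) ≤ D := by exact_mod_cast hD
    have h0 : 0 ≤ ∑ i, ∑ j, ‖crd b (b i * b j)‖ := by positivity
    have : ∑ i, ∑ j, ‖crd b (b i * b j)‖ ≤ Cb b := by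
      rw [Cb]; nlinarith
    gcongr

lemma norm_pr_le (n : Lat D) (α : Tor D) : ‖pr n α‖ ≤ D * ‖n‖ * ‖α‖ := by
  rw [pr]
  refine (norm_sum_le _ _).trans ?_
  calc ∑ i, ‖n i • α i‖ ≤ ∑ i : Fin D, ‖n‖ * ‖α‖ := by
        apply Finset.sum_le_sum
        intro i _
        have h1 : ‖n i‖ ≤ ‖n‖ := norm_le_pi_norm _ i
        have h2 : ‖α i‖ ≤ ‖α‖ := norm_le_pi_norm _ i
        refine (norm_zsmul_le _ _).trans ?_
        gcongr
    _ = _ := by simp [Finset.sum_const, Finset.card_univ]; ring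

lemma norm_sm_le (x : 𝓞 K) (α : Tor D) : ‖sm b x α‖ ≤ Cb b * ‖crd b x‖ * ‖α‖ := by
  rw [pi_norm_le_iff_of_nonneg (by have := Cb_pos b; positivity)]
  intro i
  rw [sm_eq_pr]
  refine (norm_pr_le _ _).trans ?_
  have h1 := norm_crd_mul_le b x (b i)
  have h2 : ‖crd b (b i)‖ ≤ 1 := by
    rw [crd_basis, pi_norm_le_iff_of_nonneg zero_le_one]
    intro j
    by_cases hj : j = i
    · subst hj; simp
    · rw [Pi.single_eq_of_ne hj]; simp
  have h3 : ‖crd b (x * b i)‖ ≤ (∑ i, ∑ j, ‖crd b (b i * b j)‖) * ‖crd b x‖ := by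
    refine h1.trans ?_
    calc _ ≤ (∑ i, ∑ j, ‖crd b (b i * b j)‖) * ‖crd b x‖ * 1 := by gcongr
      _ = _ := mul_one _
  calc D * ‖crd b (x * b i)‖ * ‖α‖ ≤ D * ((∑ i, ∑ j, ‖crd b (b i * b j)‖) * ‖crd b x‖) * ‖α‖ := by gcongr
    _ = (D * (∑ i, ∑ j, ‖crd b (b i * b j)‖)) * ‖crd b x‖ * ‖α‖ := by ring
    _ ≤ Cb b * ‖crd b x‖ * ‖α‖ := by
        gcongr
        rw [Cb]; linarith

end PSarnak
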