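import Pool.Agent.Run7.h492.Bump
import Pool.Agent.Run7.h492.Balanced

/-!
Counting in cubes.
-/

set_option linter.unusedVariables false
set_option linter.unusedSectionVars false

noncomputable section

open Finset NumberField
open scoped Classical

namespace PSarnak

variable {D : ℕ}

/-- translated cube -/
def cubeAt (v : Lat D) (S : ℕ) : Finset (Lat D) := Fintype.piFinset (fun i => Finset.Ico (v i) (v i + S))

lemma mem_cubeAt {v : Lat D} {S : ℕ} {n : Lat D} : n ∈ cubeAt v S ↔ ∀ i, v i ≤ n i ∧ n i < v i + S := by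
  simp [cubeAt]

lemma card_cubeAt (v : Lat D) (S : ℕ) : (cubeAt v S).card = S ^ D := by
  simp [cubeAt, Fintype.card_piFinset]

lemma count1 (a : ℤ) (S m : ℕ) (hm : 0 < m) (r : ℤ) (hr0 : 0 ≤ r) (hr : r < m) :
    |(((Finset.Ico a (a + S)).filter (fun t => t % m = r)).card : ℝ) - S / m| ≤ 1 := by
  have hm' : (0:ℤ) < m := by exact_mod_cast hm
  have hmr : (0:ℝ) < m := by exact_mod_cast hm
  have h1 : (Finset.Ico a (a + S)).filter (fun t => t % m = r) =
      (Finset.Ico a (a + S)).filter (fun t => t ≡ r [ZMOD m]) := by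
    apply Finset.filter_congr
    intro t _
    rw [Int.ModEq, Int.emod_eq_of_lt hr0 hr]
  rw [h1]
  have h2 := Int.Ico_filter_modEq_card a (a + S) hm' r
  set c := ((Finset.Ico a (a + S)).filter (fun t => t ≡ r [ZMOD m])).card with hc
  have e1 : ((a + S : ℤ) - r : ℚ) / (m:ℤ) = ((a - r : ℤ) : ℚ) / m + (S:ℚ) / m := by
    push_cast; ring
  have h3 : (⌈(((a + S : ℤ)) - r : ℚ) / (m:ℤ)⌉ : ℤ) ≤ ⌈((a:ℚ) - r) / (m:ℤ)⌉ + ⌈(S:ℚ)/m⌉ := by
    have : (((a + S : ℤ)) - r : ℚ) / (m:ℤ) = ((a:ℚ) - r) / (m:ℤ) + (S:ℚ)/m := by push_cast; ring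
    rw [this]; exact Int.ceil_add_le _ _
  have hmq : (0:ℚ) < m := by exact_mod_cast hm
  have hx1 := Int.ceil_lt_add_one ((((a + S : ℤ)) - r : ℚ) / (m:ℤ))
  have hx2 := Int.le_ceil ((((a + S : ℤ)) - r : ℚ) / (m:ℤ))
  have hy1 := Int.ceil_lt_add_one (((a:ℚ) - r) / (m:ℤ))
  have hy2 := Int.le_ceil (((a:ℚ) - r) / (m:ℤ))
  have hkey : (((a + S : ℤ)) - r : ℚ) / (m:ℤ) = ((a:ℚ) - r) / (m:ℤ) + (S:ℚ)/m := by push_cast; ring
  rw [hkey] at hx1 hx2
  rw [hkey] at h2
  have hSm : (0:ℚ) ≤ (S:ℚ)/m := by positivity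
  have h4 : (c:ℚ) ≤ S / m + 1 ∧ (S:ℚ)/m - 1 ≤ c := by
    have h5 : (c:ℚ) = max ((⌈((a:ℚ) - r) / (m:ℤ) + (S:ℚ)/m⌉ : ℚ) - ⌈((a:ℚ) - r) / (m:ℤ)⌉) 0 := by
      exact_mod_cast h2
    constructor
    · rw [h5]
      apply max_le
      · linarith
      · linarith
    · rw [h5]
      refine le_trans ?_ (le_max_left _ _)
      linarith
  have h6 : (c:ℝ) ≤ S / m + 1 := by
    have := (Rat.cast_le (K := ℝ)).mpr h4.1
    push_cast at this; exact this
  have h7 : (S:ℝ)/m - 1 ≤ c := by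
    have := (Rat.cast_le (K := ℝ)).mpr h4.2
    push_cast at this; exact this
  rw [abs_le]
  constructor <;> linarith

lemma prod_close {ι : Type*} (s : Finset ι) (a : ι → ℝ) (t : ℝ) (ht : 0 ≤ t) (ha : ∀ i ∈ s, |a i - t| ≤ 1) :
    |∏ i ∈ s, a i - t ^ s.card| ≤ s.card * (t + 1) ^ (s.card - 1) := by
  induction s using Finset.induction_on with
  | empty => simp
  | insert x s hx ih =>
    rw [Finset.prod_insert hx, Finset.card_insert_of_notMem hx]
    have ih' := ih (fun i hi => ha i (Finset.mem_insert_of_mem hi))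
    have hax := ha x (Finset.mem_insert_self x s)
    have e1 : a x * ∏ i ∈ s, a i - t ^ (s.card + 1) =
        a x * (∏ i ∈ s, a i - t ^ s.card) + (a x - t) * t ^ s.card := by ring
    rw [e1]
    have h1 : |a x| ≤ t + 1 := by
      rw [abs_le] at hax ⊢
      constructor <;> linarith [hax.1, hax.2]
    have h2 : t ^ s.card ≤ (t + 1) ^ s.card := by gcongr; linarith
    calc |a x * (∏ i ∈ s, a i - t ^ s.card) + (a x - t) * t ^ s.card|
        ≤ |a x| * |∏ i ∈ s, a i - t ^ s.card| + |a x - t| * |t ^ s.card| := by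
          refine (abs_add_le _ _).trans ?_
          rw [abs_mul, abs_mul]
      _ ≤ (t + 1) * (s.card * (t + 1) ^ (s.card - 1)) + 1 * (t + 1) ^ s.card := by
          rw [abs_of_nonneg (pow_nonneg ht s.card)]
          gcongr
      _ ≤ ((s.card + 1 : ℕ) : ℝ) * (t + 1) ^ (s.card + 1 - 1) := by
          rw [Nat.add_sub_cancel]
          rcases Nat.eq_zero_or_pos s.card with h0 | h0
          · rw [h0]; simp
          · obtain ⟨c, hc⟩ : ∃ c, s.card = c + 1 := ⟨s.card - 1, by omega⟩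
            rw [hc, Nat.add_sub_cancel]
            push_cast
            apply le_of_eq; ring

lemma cubeAt_zero (m : ℕ) : cubeAt (0 : Lat D) m = cube D m := by
  ext n; rw [mem_cubeAt, mem_cube]; simp

/-- sums of periodic functions over cubes -/
lemma sum_periodic (f : Lat D → ℝ) (m : ℕ) (hm : 0 < m)
    (hf : ∀ n k : Lat D, f (n + (m:ℤ) • k) = f n) (v : Lat D) (S : ℕ) (hS : m ≤ S) :
    |∑ n ∈ cubeAt v S, f n - ((S:ℝ) / m) ^ D * ∑ r ∈ cube D m, f r| ≤
      (∑ r ∈ cube D m, |f r|) * (D * (2 * ((S:ℝ) / m)) ^ (D - 1)) := by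
  have hm' : (0:ℤ) < m := by exact_mod_cast hm
  have hmr : (0:ℝ) < m := by exact_mod_cast hm
  have hmod : ∀ n : Lat D, f n = f (fun i => n i % m) := by
    intro n
    have := hf (fun i => n i % m) (fun i => n i / m)
    rw [← this]
    congr 1
    ext i
    simp only [Pi.add_apply, Pi.smul_apply, smul_eq_mul]
    exact (Int.emod_add_mul_ediv (n i) m).symm
  have h1 : ∑ n ∈ cubeAt v S, f n =
      ∑ r ∈ cube D m, ∑ n ∈ (cubeAt v S).filter (fun n => (fun i => n i % (m:ℤ)) = r), f n := by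
    rw [Finset.sum_fiberwise_of_maps_to]
    intro n _
    rw [mem_cube]
    intro i
    exact ⟨Int.emod_nonneg _ hm'.ne', Int.emod_lt_of_pos _ hm'⟩
  have h2 : ∀ r ∈ cube D m, ∑ n ∈ (cubeAt v S).filter (fun n => (fun i => n i % (m:ℤ)) = r), f n =
      f r * ∏ i, (((Finset.Ico (v i) (v i + S)).filter (fun t => t % (m:ℤ) = r i)).card : ℝ) := by
    intro r hr
    have e1 : (cubeAt v S).filter (fun n => (fun i => n i % (m:ℤ)) = r) =
        Fintype.piFinset (fun i => (Finset.Ico (v i) (v i + S)).filter (fun t => t % (m:ℤ) = r i)) := by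
      ext n
      rw [Finset.mem_filter, mem_cubeAt, Fintype.mem_piFinset]
      simp only [Finset.mem_filter, Finset.mem_Ico, funext_iff]
      exact forall_and.symm
    rw [e1]
    have e2 : ∀ n ∈ Fintype.piFinset (fun i => (Finset.Ico (v i) (v i + S)).filter (fun t => t % (m:ℤ) = r i)),
        f n = f r := by
      intro n hn
      rw [Fintype.mem_piFinset] at hn
      rw [hmod n]
      congr 1
      ext i
      exact (Finset.mem_filter.mp (hn i)).2
    rw [Finset.sum_congr rfl e2, Finset.sum_const, Fintype.card_piFinset, nsmul_eq_mul]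
    push_cast; ring
  rw [h1, Finset.sum_congr rfl h2, Finset.mul_sum, ← Finset.sum_sub_distrib]
  refine (Finset.abs_sum_le_sum_abs _ _).trans ?_
  rw [Finset.sum_mul]
  apply Finset.sum_le_sum
  intro r hr
  rw [mem_cube] at hr
  have h3 := prod_close Finset.univ
    (fun i => (((Finset.Ico (v i) (v i + S)).filter (fun t => t % (m:ℤ) = r i)).card : ℝ)) ((S:ℝ)/m)
    (by positivity) (fun i _ => count1 (v i) S m hm (r i) (hr i).1 (hr i).2)
  rw [Finset.card_univ, Fintype.card_fin] at h3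
  have h4 : (S:ℝ)/m + 1 ≤ 2 * ((S:ℝ)/m) := by
    have : 1 ≤ (S:ℝ)/m := by
      rw [le_div_iff₀ hmr]; rw [one_mul]; exact_mod_cast hS
    linarith
  calc |f r * ∏ i, (((Finset.Ico (v i) (v i + S)).filter (fun t => t % (m:ℤ) = r i)).card : ℝ) - ((S:ℝ)/m) ^ D * f r|
      = |f r| * |∏ i, (((Finset.Ico (v i) (v i + S)).filter (fun t => t % (m:ℤ) = r i)).card : ℝ) - ((S:ℝ)/m) ^ D| := by
        rw [← abs_mul]; congr 1; ring
    _ ≤ |f r| * (D * ((S:ℝ)/m + 1) ^ (D - 1)) := by gcongr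
    _ ≤ |f r| * (D * (2 * ((S:ℝ) / m)) ^ (D - 1)) := by gcongr

/-- shift invariance of period sums -/
lemma sum_shift (f : Lat D → ℝ) (m : ℕ) (hm : 0 < m)
    (hf : ∀ n k : Lat D, f (n + (m:ℤ) • k) = f n) (y : Lat D) :
    ∑ r ∈ cube D m, f (r + y) = ∑ r ∈ cube D m, f r := by
  have hm' : (0:ℤ) < m := by exact_mod_cast hm
  have hmod : ∀ n : Lat D, f n = f (fun i => n i % m) := by
    intro n
    have := hf (fun i => n i % m) (fun i => n i / m)
    rw [← this]
    congr 1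
    ext i
    simp only [Pi.add_apply, Pi.smul_apply, smul_eq_mul]
    exact (Int.emod_add_mul_ediv (n i) m).symm
  apply Finset.sum_nbij' (fun r => fun i => (r i + y i) % m) (fun r => fun i => (r i - y i) % m)
  · intro r _
    rw [mem_cube]; intro i
    exact ⟨Int.emod_nonneg _ hm'.ne', Int.emod_lt_of_pos _ hm'⟩
  · intro r _
    rw [mem_cube]; intro i
    exact ⟨Int.emod_nonneg _ hm'.ne', Int.emod_lt_of_pos _ hm'⟩
  · intro r hr
    rw [mem_cube] at hr
    ext i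
    simp only [Int.emod_sub_emod, add_sub_cancel_right]
    exact Int.emod_eq_of_lt (hr i).1 (hr i).2
  · intro r hr
    rw [mem_cube] at hr
    ext i
    simp only [Int.emod_add_emod, sub_add_cancel]
    exact Int.emod_eq_of_lt (hr i).1 (hr i).2
  · intro r _
    rw [hmod (r + y)]; rfl

section ideal
variable {K : Type*} [Field K] [NumberField K] (b : Module.Basis (Fin D) ℤ (𝓞 K))

lemma iot_add_smul (n k : Lat D) (m : ℤ) : iot b (n + m • k) = iot b n + m * iot b k := by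
  rw [iot_add]
  congr 1
  rw [iot, map_smul, zsmul_eq_mul]
  rfl

/-- sum over a period of a function on a quotient -/
lemma sum_mod (I : Ideal (𝓞 K)) [Fintype (𝓞 K ⧸ I)] (m : ℕ) (hm : 0 < m) (hmI : (m : 𝓞 K) ∈ I)
    (F : 𝓞 K ⧸ I → ℝ) :
    (Fintype.card (𝓞 K ⧸ I) : ℝ) * ∑ r ∈ cube D m, F (Ideal.Quotient.mk I (iot b r)) =
      (m:ℝ) ^ D * ∑ x, F x := by
  have hper : ∀ n k : Lat D, F (Ideal.Quotient.mk I (iot b (n + (m:ℤ) • k))) = F (Ideal.Quotient.mk I (iot b n)) := by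
    intro n k
    congr 1
    rw [iot_add_smul, map_add]
    have : Ideal.Quotient.mk I (((m:ℤ) : 𝓞 K) * iot b k) = 0 := by
      rw [Ideal.Quotient.eq_zero_iff_mem]
      apply Ideal.mul_mem_right
      simpa using hmI
    rw [this, add_zero]
  have h1 : ∀ x : 𝓞 K ⧸ I, ∑ r ∈ cube D m, F (Ideal.Quotient.mk I (iot b r)) =
      ∑ r ∈ cube D m, F (Ideal.Quotient.mk I (iot b r) + x) := by
    intro x
    obtain ⟨y, rfl⟩ := Ideal.Quotient.mk_surjective x
    have := sum_shift (fun n => F (Ideal.Quotient.mk I (iot b n))) m hm hper (crd b y)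
    rw [← this]
    apply Finset.sum_congr rfl
    intro r _
    rw [iot_add, iot_crd, map_add]
  calc (Fintype.card (𝓞 K ⧸ I) : ℝ) * ∑ r ∈ cube D m, F (Ideal.Quotient.mk I (iot b r))
      = ∑ x : 𝓞 K ⧸ I, ∑ r ∈ cube D m, F (Ideal.Quotient.mk I (iot b r)) := by
        rw [Finset.sum_const, Finset.card_univ, nsmul_eq_mul]
    _ = ∑ x : 𝓞 K ⧸ I, ∑ r ∈ cube D m, F (Ideal.Quotient.mk I (iot b r) + x) :=
        Finset.sum_congr rfl (fun x _ => h1 x)
    _ = ∑ r ∈ cube D m, ∑ x : 𝓞 K ⧸ I, F (Ideal.Quotient.mk I (iot b r) + x) := Finset.sum_comm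
    _ = ∑ r ∈ cube D m, ∑ x : 𝓞 K ⧸ I, F x := by
        apply Finset.sum_congr rfl
        intro r _
        exact Fintype.sum_equiv (Equiv.addLeft (Ideal.Quotient.mk I (iot b r))) _ _ (fun x => rfl)
    _ = (m:ℝ) ^ D * ∑ x, F x := by
        rw [Finset.sum_const, card_cube, nsmul_eq_mul]; push_cast; ring

/-- sum over a cube of a function on a quotient -/
lemma sum_cube_quot (I : Ideal (𝓞 K)) [Fintype (𝓞 K ⧸ I)] (F : 𝓞 K ⧸ I → ℝ) (v : Lat D) (S : ℕ)
    (hS : Fintype.card (𝓞 K ⧸ I) ≤ S) :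
    |∑ n ∈ cubeAt v S, F (Ideal.Quotient.mk I (iot b n)) -
      (S:ℝ) ^ D / Fintype.card (𝓞 K ⧸ I) * ∑ x, F x| ≤ D * 2 ^ D * (S:ℝ) ^ (D - 1) * ∑ x, |F x| := by
  set m := Fintype.card (𝓞 K ⧸ I) with hmdef
  have hm : 0 < m := Fintype.card_pos
  have hmr : (0:ℝ) < m := by exact_mod_cast hm
  have hmI : (m : 𝓞 K) ∈ I := by
    have h1 : (m : 𝓞 K ⧸ I) = 0 := by
      have := card_nsmul_eq_zero (x := (1 : 𝓞 K ⧸ I)) (G := 𝓞 K ⧸ I)
      rw [nsmul_eq_mul, mul_one] at this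
      rw [hmdef]; exact this
    rw [← Ideal.Quotient.eq_zero_iff_mem]
    simpa using h1
  have hper : ∀ n k : Lat D, F (Ideal.Quotient.mk I (iot b (n + (m:ℤ) • k))) = F (Ideal.Quotient.mk I (iot b n)) := by
    intro n k
    congr 1
    rw [iot_add_smul, map_add]
    have : Ideal.Quotient.mk I (((m:ℤ) : 𝓞 K) * iot b k) = 0 := by
      rw [Ideal.Quotient.eq_zero_iff_mem]
      apply Ideal.mul_mem_right
      simpa using hmI
    rw [this, add_zero]
  have h1 := sum_periodic (fun n => F (Ideal.Quotient.mk I (iot b n))) m hm hper v S hS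
  have h2 := sum_mod b I m hm hmI F
  have h3 := sum_mod b I m hm hmI (fun x => |F x|)
  rw [← hmdef] at h2 h3
  have h4 : ((S:ℝ) / m) ^ D * ∑ r ∈ cube D m, F (Ideal.Quotient.mk I (iot b r)) = (S:ℝ) ^ D / m * ∑ x, F x := by
    have : ∑ r ∈ cube D m, F (Ideal.Quotient.mk I (iot b r)) = (m:ℝ) ^ D * (∑ x, F x) / m := by
      rw [← h2]; field_simp
    rw [this, div_pow]; field_simp
  have h5 : (∑ r ∈ cube D m, |F (Ideal.Quotient.mk I (iot b r))|) = (m:ℝ) ^ D * (∑ x, |F x|) / m := by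
    rw [← h3]; field_simp
  rw [h4, h5] at h1
  refine h1.trans ?_
  have hD : 0 < D := D_pos b
  obtain ⟨d, rfl⟩ : ∃ d, D = d + 1 := ⟨D - 1, by omega⟩
  have h6 : 0 ≤ ∑ x, |F x| := Finset.sum_nonneg (fun _ _ => abs_nonneg _)
  rw [Nat.add_sub_cancel]
  calc (m:ℝ) ^ (d + 1) * (∑ x, |F x|) / m * (((d + 1 : ℕ) : ℝ) * (2 * ((S:ℝ) / m)) ^ d)
      = ((d + 1 : ℕ) : ℝ) * 2 ^ d * (S:ℝ) ^ d * ∑ x, |F x| := by
        rw [mul_pow, div_pow, pow_succ]; field_simp
    _ ≤ ((d + 1 : ℕ) : ℝ) * 2 ^ (d + 1) * (S:ℝ) ^ d * ∑ x, |F x| := by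
        gcongr
        · norm_num
        · omega

/-- counting elements of a coset of an ideal in a cube -/
lemma count_ideal (I : Ideal (𝓞 K)) (hI : I ≠ ⊥) (v : Lat D) (S : ℕ) (hS : Ideal.absNorm I ≤ S) (x : 𝓞 K) :
    |(((cubeAt v S).filter (fun n => iot b n - x ∈ I)).card : ℝ) - (S:ℝ) ^ D / Ideal.absNorm I| ≤
      D * 2 ^ D * (S:ℝ) ^ (D - 1) := by
  have : Finite (𝓞 K ⧸ I) := Ideal.finiteQuotientOfFreeOfNeBot I hI
  have := Fintype.ofFinite (𝓞 K ⧸ I)
  have hcard : Fintype.card (𝓞 K ⧸ I) = Ideal.absNorm I := by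
    rw [Ideal.absNorm_apply, Submodule.cardQuot_apply, Nat.card_eq_fintype_card]
  have h1 := sum_cube_quot b I (fun y => if y = Ideal.Quotient.mk I x then 1 else 0) v S (by rw [hcard]; exact hS)
  rw [hcard] at h1
  have h2 : ∑ n ∈ cubeAt v S, (if Ideal.Quotient.mk I (iot b n) = Ideal.Quotient.mk I x then (1:ℝ) else 0) =
      (((cubeAt v S).filter (fun n => iot b n - x ∈ I)).card : ℝ) := by
    rw [Finset.card_filter]
    push_cast
    apply Finset.sum_congr rfl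
    intro n _
    simp only [Ideal.Quotient.eq]
  have h3 : ∀ y : 𝓞 K ⧸ I, |(if y = Ideal.Quotient.mk I x then (1:ℝ) else 0)| = if y = Ideal.Quotient.mk I x then 1 else 0 := by
    intro y; split_ifs <;> simp
  simp_rw [h3] at h1
  rw [h2] at h1
  simpa using h1

end ideal

end PSarnak
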