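import Pool.Agent.Run7.h492.Sieve3

/-!
Equidistribution of unit residues.
-/

set_option linter.unusedVariables false
set_option linter.unusedSectionVars false

noncomputable section

open Finset NumberField
open scoped Classical ComplexConjugate

namespace PSarnak

section general
variable {R : Type*} [CommRing R] [Fintype R]

lemma unit_sum_bound (Ψ : AddChar R ℂ) (l : R) :
    ‖∑ u : Rˣ, Ψ ((u : R) * l)‖ ^ 2 ≤
      (Fintype.card R : ℝ) * (Finset.univ.filter (fun x : R => ∀ v, Ψ (x * l * v) = 1)).card := by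
  set Z := ∑ u : Rˣ, Ψ ((u : R) * l) with hZ
  set A := (Finset.univ.filter (fun x : R => ∀ v, Ψ (x * l * v) = 1)).card with hA
  have h1 : ∀ v : Rˣ, Z = ∑ u : Rˣ, Ψ ((u : R) * l * v) := by
    intro v
    rw [hZ]
    symm
    apply Fintype.sum_equiv (Equiv.mulRight v)
    intro u
    congr 1
    simp only [Equiv.coe_mulRight, Units.val_mul]
    ring
  have h2 : (Fintype.card Rˣ : ℝ) * ‖Z‖ ^ 2 ≤ ∑ v : R, ‖∑ u : Rˣ, Ψ ((u : R) * l * v)‖ ^ 2 := by
    calc (Fintype.card Rˣ : ℝ) * ‖Z‖ ^ 2 = ∑ v : Rˣ, ‖Z‖ ^ 2 := by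
          rw [Finset.sum_const, Finset.card_univ, nsmul_eq_mul]
      _ = ∑ v : Rˣ, ‖∑ u : Rˣ, Ψ ((u : R) * l * v)‖ ^ 2 := by
          apply Finset.sum_congr rfl
          intro v _
          rw [← h1 v]
      _ = ∑ v ∈ (Finset.univ : Finset Rˣ).map ⟨Units.val, Units.val_injective⟩, ‖∑ u : Rˣ, Ψ ((u : R) * l * v)‖ ^ 2 := by
          rw [Finset.sum_map]; rfl
      _ ≤ _ := Finset.sum_le_sum_of_subset_of_nonneg (Finset.subset_univ _) (fun _ _ _ => by positivity)
  have h3 : ((∑ v : R, ‖∑ u : Rˣ, Ψ ((u : R) * l * v)‖ ^ 2 : ℝ) : ℂ) =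
      ∑ u : Rˣ, ∑ u' : Rˣ, ∑ v : R, Ψ (((u : R) - u') * l * v) := by
    push_cast
    have e1 : ∀ v : R, ((‖∑ u : Rˣ, Ψ ((u : R) * l * v)‖ : ℝ) : ℂ) ^ 2 =
        ∑ u : Rˣ, ∑ u' : Rˣ, Ψ (((u : R) - u') * l * v) := by
      intro v
      rw [← Complex.mul_conj', map_sum, Finset.sum_mul_sum]
      apply Finset.sum_congr rfl
      intro u _
      apply Finset.sum_congr rfl
      intro u' _
      rw [← AddChar.map_neg_eq_conj, ← AddChar.map_add_eq_mul]
      congr 1; ring
    simp_rw [e1]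
    rw [Finset.sum_comm]
    apply Finset.sum_congr rfl
    intro u _
    rw [Finset.sum_comm]
  have h4 : ∀ y : R, ∑ v : R, Ψ (y * l * v) = if (∀ v, Ψ (y * l * v) = 1) then (Fintype.card R : ℂ) else 0 := by
    intro y
    set ψ : AddChar R ℂ := ⟨fun v => Ψ (y * l * v), by simp, fun a c => by
      rw [mul_add, AddChar.map_add_eq_mul]⟩ with hψ
    have e1 : ∀ v, ψ v = Ψ (y * l * v) := fun v => rfl
    have e2 := AddChar.sum_eq_ite ψ
    simp_rw [e1] at e2
    rw [e2]
    congr 1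
    rw [eq_iff_iff]
    constructor
    · intro h v
      rw [← e1, h]; rfl
    · intro h
      ext v
      rw [e1, h v]; rfl
  have h5 : ∑ v : R, ‖∑ u : Rˣ, Ψ ((u : R) * l * v)‖ ^ 2 ≤ (Fintype.card Rˣ : ℝ) * ((Fintype.card R : ℝ) * A) := by
    have e1 : (∑ v : R, ‖∑ u : Rˣ, Ψ ((u : R) * l * v)‖ ^ 2 : ℝ) =
        ∑ u : Rˣ, ∑ u' : Rˣ, (if (∀ v, Ψ (((u : R) - u') * l * v) = 1) then (Fintype.card R : ℝ) else 0) := by
      have e2 : ((∑ v : R, ‖∑ u : Rˣ, Ψ ((u : R) * l * v)‖ ^ 2 : ℝ) : ℂ) =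
          ((∑ u : Rˣ, ∑ u' : Rˣ, (if (∀ v, Ψ (((u : R) - u') * l * v) = 1) then (Fintype.card R : ℝ) else 0) : ℝ) : ℂ) := by
        rw [h3]
        push_cast
        apply Finset.sum_congr rfl
        intro u _
        apply Finset.sum_congr rfl
        intro u' _
        rw [h4]
        split_ifs <;> simp
      exact_mod_cast e2
    rw [e1]
    calc _ ≤ ∑ u : Rˣ, (Fintype.card R : ℝ) * A := by
          apply Finset.sum_le_sum
          intro u _
          rw [← Finset.sum_filter, Finset.sum_const, nsmul_eq_mul, mul_comm]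
          have : ((Finset.univ.filter (fun u' : Rˣ => ∀ v, Ψ (((u : R) - u') * l * v) = 1)).card) ≤ A := by
            rw [hA]
            apply Finset.card_le_card_of_injOn (fun u' : Rˣ => (u : R) - (u' : R))
            · intro u' hu'
              rw [Finset.mem_coe, Finset.mem_filter] at hu' ⊢
              exact ⟨Finset.mem_univ _, hu'.2⟩
            · intro a _ c _ h
              simp only [sub_right_inj] at h
              exact Units.ext h
          have : (((Finset.univ.filter (fun u' : Rˣ => ∀ v, Ψ (((u : R) - u') * l * v) = 1)).card : ℕ) : ℝ) ≤ A := by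
            exact_mod_cast this
          gcongr
      _ = _ := by rw [Finset.sum_const, Finset.card_univ, nsmul_eq_mul]
  have hpos : (0:ℝ) < Fintype.card Rˣ := by exact_mod_cast Fintype.card_pos
  exact le_of_mul_le_mul_left (h2.trans h5) hpos

lemma ann_bound (Ψ : AddChar R ℂ) (l : R) :
    (Finset.univ.filter (fun x : R => ∀ v, Ψ (x * l * v) = 1)).card ≤
      (Finset.univ.filter (fun x : R => x * l = 0)).card *
      (Finset.univ.filter (fun y : R => ∀ v, Ψ (y * v) = 1)).card := by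
  apply Finset.card_le_mul_card_image_of_maps_to (f := fun x => x * l)
  · intro x hx
    rw [Finset.mem_filter] at hx ⊢
    exact ⟨Finset.mem_univ _, hx.2⟩
  · intro y hy
    by_cases hne : ((Finset.univ.filter (fun x : R => ∀ v, Ψ (x * l * v) = 1)).filter (fun x => x * l = y)).Nonempty
    · obtain ⟨x₀, hx₀⟩ := hne
      rw [Finset.mem_filter] at hx₀
      apply Finset.card_le_card_of_injOn (fun x => x - x₀)
      · intro x hx
        rw [Finset.mem_coe, Finset.mem_filter] at hx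
        rw [Finset.mem_coe, Finset.mem_filter]
        refine ⟨Finset.mem_univ _, ?_⟩
        rw [sub_mul, hx.2, hx₀.2, sub_self]
      · intro a _ c _ h
        simpa using h
    · rw [Finset.not_nonempty_iff_eq_empty.mp hne]
      simp

lemma ann_card (Ψ : AddChar R ℂ) (q : ℕ) (hq : ∀ k : ℕ, (∀ v, Ψ ((k : R) * v) = 1) → q ∣ k) :
    (Finset.univ.filter (fun y : R => ∀ v, Ψ (y * v) = 1)).card * q ≤ Fintype.card R := by
  set A := Finset.univ.filter (fun y : R => ∀ v, Ψ (y * v) = 1) with hA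
  have hAadd : ∀ x ∈ A, ∀ y ∈ A, x - y ∈ A := by
    intro x hx y hy
    rw [hA, Finset.mem_filter] at hx hy ⊢
    refine ⟨Finset.mem_univ _, fun v => ?_⟩
    have h1 : (x - y) * v = x * v + -(y * v) := by ring
    rw [h1, AddChar.map_add_eq_mul, hx.2 v, one_mul, AddChar.map_neg_eq_conj, hy.2 v, map_one]
  rw [← Finset.card_range q, ← Finset.card_product, ← Finset.card_univ]
  apply Finset.card_le_card_of_injOn (fun x : R × ℕ => x.1 + (x.2 : R))
  · intro x _; exact Finset.mem_coe.mpr (Finset.mem_univ _)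
  · rintro ⟨a, i⟩ hx ⟨a', i'⟩ hx' h
    rw [Finset.mem_coe, Finset.mem_product, Finset.mem_range] at hx hx'
    simp only at h hx hx'
    have key : ∀ (a a' : R) (i i' : ℕ), a ∈ A → a' ∈ A → i < q → i' < q → i ≤ i' → a + i = a' + i' → i = i' := by
      intro a a' i i' ha ha' hi hi' hle h
      have h1 : ((i' - i : ℕ) : R) = a - a' := by
        rw [Nat.cast_sub hle]; linear_combination -h
      have h2 := hAadd a ha a' ha'
      rw [← h1, hA, Finset.mem_filter] at h2
      have h3 := hq _ h2.2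
      have h4 := Nat.eq_zero_of_dvd_of_lt h3 (by omega)
      omega
    have hii : i = i' := by
      rcases le_total i i' with hle | hle
      · exact key a a' i i' hx.1 hx'.1 hx.2 hx'.2 hle h
      · exact (key a' a i' i hx'.1 hx.1 hx'.2 hx.2 hle h.symm).symm
    subst hii
    simp only [add_left_inj] at h
    rw [h]

end general


section spec
variable {K : Type*} [Field K] [NumberField K] {D : ℕ} (b : Module.Basis (Fin D) ℤ (𝓞 K))

lemma pr_nsmul_right (n : Lat D) (k : ℕ) (α : Tor D) : pr n (k • α) = k • pr n α := by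
  induction k with
  | zero => simp [pr]
  | succ k ih => rw [succ_nsmul, pr_add_right, ih, succ_nsmul]

lemma ee_add (n m : Lat D) (α : Tor D) : ee (n + m) α = ee n α * ee m α := by
  simp only [ee, UnitAddTorus.mFourier_add]

lemma ee_zero (α : Tor D) : ee (0 : Lat D) α = 1 := by
  simp only [ee, UnitAddTorus.mFourier_zero]; rfl

lemma ee_nsmul (k : ℕ) (n : Lat D) (α : Tor D) (h : k • α = 0) : ee (k • n) α = 1 := by
  rw [ee_eq_pr]
  have : pr (k • n) α = 0 := by
    have h1 : pr (k • n) α = k • pr n α := by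
      have := pr_zsmul_left (k : ℤ) n α
      simpa using this
    rw [h1, ← pr_nsmul_right, h, pr]; simp
  rw [this]; simp

lemma crd_natCast_mul (q : ℕ) (y : 𝓞 K) : crd b ((q : 𝓞 K) * y) = q • crd b y := by
  have : (q : 𝓞 K) * y = (q : ℤ) • y := by
    rw [zsmul_eq_mul]; push_cast; rfl
  rw [this, crd_zsmul]; simp

lemma char_exists (q : ℕ) (β : Tor D) (hβ : q • β = 0) :
    ∃ Ψ : AddChar (𝓞 K ⧸ Ideal.span {(q : 𝓞 K)}) ℂ, ∀ x : 𝓞 K,
      Ψ (Ideal.Quotient.mk _ x) = ee (crd b x) β := by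
  have key : ∀ x y : 𝓞 K, Ideal.Quotient.mk (Ideal.span {(q : 𝓞 K)}) x = Ideal.Quotient.mk _ y →
      ee (crd b x) β = ee (crd b y) β := by
    intro x y h
    rw [Ideal.Quotient.eq, Ideal.mem_span_singleton'] at h
    obtain ⟨w, hw⟩ := h
    have h1 : x = y + (q : 𝓞 K) * w := by rw [mul_comm, hw]; ring
    rw [h1, crd_add, ee_add, crd_natCast_mul, ee_nsmul _ _ _ hβ, mul_one]
  refine ⟨⟨fun x => ee (crd b (rep _ x)) β, ?_, ?_⟩, ?_⟩
  · rw [key (rep _ 0) 0 (by rw [mk_rep, map_zero]), crd_zero, ee_zero]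
  · intro x y
    rw [key (rep _ (x + y)) (rep _ x + rep _ y) (by rw [mk_rep, map_add, mk_rep, mk_rep]), crd_add, ee_add]
  · intro x
    exact key _ _ (by rw [mk_rep])

lemma cube_inj (q : ℕ) : Set.InjOn (fun r => Ideal.Quotient.mk (Ideal.span {(q : 𝓞 K)}) (iot b r))
    (cube D q : Set (Lat D)) := by
  intro r hr r' hr' h
  simp only at h
  rw [Ideal.Quotient.eq, Ideal.mem_span_singleton'] at h
  obtain ⟨w, hw⟩ := h
  have h1 : r - r' = q • crd b w := by
    rw [← crd_natCast_mul, mul_comm, hw, crd_sub, crd_iot, crd_iot]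
  rw [Finset.mem_coe, mem_cube] at hr hr'
  ext i
  have h2 := congrFun h1 i
  simp only [Pi.sub_apply, Pi.smul_apply, nsmul_eq_mul] at h2
  have h3 := hr i
  have h4 := hr' i
  have h5 : r i % q = r' i % q := by
    have : r i = r' i + q * crd b w i := by linarith
    rw [this, Int.add_mul_emod_self_left]
  rwa [Int.emod_eq_of_lt h3.1 h3.2, Int.emod_eq_of_lt h4.1 h4.2] at h5

lemma cube_surj (q : ℕ) (hq : 0 < q) (x : 𝓞 K ⧸ Ideal.span {(q : 𝓞 K)}) :
    ∃ r ∈ cube D q, Ideal.Quotient.mk (Ideal.span {(q : 𝓞 K)}) (iot b r) = x := by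
  obtain ⟨y, rfl⟩ := Ideal.Quotient.mk_surjective x
  have hq' : (0:ℤ) < q := by exact_mod_cast hq
  refine ⟨fun i => crd b y i % q, ?_, ?_⟩
  · rw [mem_cube]; intro i
    exact ⟨Int.emod_nonneg _ hq'.ne', Int.emod_lt_of_pos _ hq'⟩
  · rw [Ideal.Quotient.eq, Ideal.mem_span_singleton']
    refine ⟨- iot b (fun i => crd b y i / q), ?_⟩
    apply crd_injective b
    rw [mul_comm, crd_natCast_mul, crd_neg, crd_iot, crd_sub, crd_iot]
    ext i
    simp only [Pi.sub_apply, Pi.smul_apply, nsmul_eq_mul, Pi.neg_apply]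
    have := Int.emod_add_mul_ediv (crd b y i) q
    linarith

lemma mem_unitsF (q : ℕ) (r : Lat D) : r ∈ unitsF b q ↔
    r ∈ cube D q ∧ IsUnit (Ideal.Quotient.mk (Ideal.span {(q : 𝓞 K)}) (iot b r)) := by
  rw [unitsF, Finset.mem_filter]

variable (q : ℕ) (hq : 0 < q) [Fintype (𝓞 K ⧸ Ideal.span {(q : 𝓞 K)})]

lemma sum_units_eq {R : Type*} [CommRing R] [Fintype R] {M : Type*} [AddCommMonoid M] (F : R → M) :
    ∑ u : Rˣ, F u = ∑ x ∈ Finset.univ.filter (fun x : R => IsUnit x), F x := by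
  have h : Finset.univ.filter (fun x : R => IsUnit x) =
      (Finset.univ : Finset Rˣ).map ⟨Units.val, Units.val_injective⟩ := by
    ext x
    rw [Finset.mem_filter, Finset.mem_map]
    constructor
    · rintro ⟨_, u, hu⟩
      exact ⟨u, Finset.mem_univ _, hu⟩
    · rintro ⟨u, _, hu⟩
      exact ⟨Finset.mem_univ _, u, hu⟩
  rw [h, Finset.sum_map]; rfl

include hq in
lemma sum_unitsF {M : Type*} [AddCommMonoid M] (F : 𝓞 K ⧸ Ideal.span {(q : 𝓞 K)} → M) :
    ∑ r ∈ unitsF b q, F (Ideal.Quotient.mk _ (iot b r)) = ∑ u : (𝓞 K ⧸ Ideal.span {(q : 𝓞 K)})ˣ, F u := by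
  rw [sum_units_eq]
  apply Finset.sum_bij (fun r _ => Ideal.Quotient.mk _ (iot b r))
  · intro r hr
    rw [mem_unitsF] at hr
    rw [Finset.mem_filter]; exact ⟨Finset.mem_univ _, hr.2⟩
  · intro a ha c hc h
    rw [mem_unitsF] at ha hc
    exact cube_inj b q ha.1 hc.1 h
  · intro x hx
    rw [Finset.mem_filter] at hx
    obtain ⟨r, hr, hrx⟩ := cube_surj b q hq x
    refine ⟨r, ?_, hrx⟩
    rw [mem_unitsF]
    exact ⟨hr, by rw [hrx]; exact hx.2⟩
  · intro r _; rfl

include hq in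
lemma card_mul_zero (l : 𝓞 K) (hl : l ≠ 0) :
    (Finset.univ.filter (fun x : 𝓞 K ⧸ Ideal.span {(q : 𝓞 K)} => x * Ideal.Quotient.mk _ l = 0)).card ≤ Nn l := by
  have hspan : Ideal.span {l} ≠ ⊥ := by
    rw [Ne, Ideal.span_singleton_eq_bot]; exact hl
  have : Finite (𝓞 K ⧸ Ideal.span {l}) := Ideal.finiteQuotientOfFreeOfNeBot _ hspan
  let _ := Fintype.ofFinite (𝓞 K ⧸ Ideal.span {l})
  rw [Nn_eq_absNorm, ← card_quot, ← Finset.card_univ]
  have hex : ∀ x ∈ Finset.univ.filter (fun x : 𝓞 K ⧸ Ideal.span {(q : 𝓞 K)} => x * Ideal.Quotient.mk _ l = 0),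
      ∃ y : 𝓞 K, rep _ x * l = (q : 𝓞 K) * y := by
    intro x hx
    rw [Finset.mem_filter] at hx
    have h1 : Ideal.Quotient.mk (Ideal.span {(q : 𝓞 K)}) (rep _ x * l) = 0 := by
      rw [map_mul, mk_rep]; exact hx.2
    rw [Ideal.Quotient.eq_zero_iff_mem, Ideal.mem_span_singleton] at h1
    exact h1
  choose! y hy using hex
  apply Finset.card_le_card_of_injOn (fun x => Ideal.Quotient.mk (Ideal.span {l}) (y x))
  · intro x _; exact Finset.mem_coe.mpr (Finset.mem_univ _)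
  · intro x hx x' hx' h
    have hx1 := hy x hx
    have hx1' := hy x' hx'
    simp only at h
    rw [Ideal.Quotient.eq, Ideal.mem_span_singleton] at h
    obtain ⟨w, hw⟩ := h
    have h2 : (rep _ x - rep _ x') * l = ((q : 𝓞 K) * w) * l := by
      rw [sub_mul, hx1, hx1', ← mul_sub, hw]; ring
    have h3 := mul_right_cancel₀ hl h2
    rw [← mk_rep _ x, ← mk_rep _ x', Ideal.Quotient.eq, h3]
    exact Ideal.mul_mem_right _ _ (Ideal.mem_span_singleton_self _)

include b hq in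
lemma card_R : Fintype.card (𝓞 K ⧸ Ideal.span {(q : 𝓞 K)}) = q ^ D := by
  rw [card_quot, absNorm_span_nat b]

omit [Fintype (𝓞 K ⧸ Ideal.span {(q : 𝓞 K)})] in
include hq in
/-- bound for the character sums over unit residues -/
theorem unit_char_sum (β : Tor D) (hβ : q • β = 0) (hord : ∀ k : ℕ, k • β = 0 → q ∣ k)
    (l : Lat D) (hl : l ≠ 0) :
    ‖∑ r ∈ unitsF b q, ee l (sm b (iot b r) β)‖ ^ 2 * q ≤ (q:ℝ) ^ (2 * D) * Nn (iot b l) := by
  have hq0 : (q : 𝓞 K) ≠ 0 := by exact_mod_cast hq.ne'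
  have hspan : Ideal.span {(q : 𝓞 K)} ≠ ⊥ := by
    rw [Ne, Ideal.span_singleton_eq_bot]; exact hq0
  have : Finite (𝓞 K ⧸ Ideal.span {(q : 𝓞 K)}) := Ideal.finiteQuotientOfFreeOfNeBot _ hspan
  let _ := Fintype.ofFinite (𝓞 K ⧸ Ideal.span {(q : 𝓞 K)})
  obtain ⟨Ψ, hΨ⟩ := char_exists b q β hβ
  have h1 : ∑ r ∈ unitsF b q, ee l (sm b (iot b r) β) =
      ∑ u : (𝓞 K ⧸ Ideal.span {(q : 𝓞 K)})ˣ, Ψ ((u : 𝓞 K ⧸ Ideal.span {(q : 𝓞 K)}) * Ideal.Quotient.mk _ (iot b l)) := by
    rw [← sum_unitsF b q hq (fun x => Ψ (x * Ideal.Quotient.mk _ (iot b l)))]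
    apply Finset.sum_congr rfl
    intro r _
    rw [← map_mul, hΨ, ee_sm]
  rw [h1]
  have h2 := unit_sum_bound Ψ (Ideal.Quotient.mk _ (iot b l))
  have h3 := ann_bound Ψ (Ideal.Quotient.mk _ (iot b l))
  have hl' : iot b l ≠ 0 := by
    intro h
    apply hl
    have := congrArg (crd b) h
    rwa [crd_iot, crd_zero] at this
  have h4 := card_mul_zero q hq (iot b l) hl'
  have h5 := ann_card Ψ q (by
    intro k hk
    apply hord
    ext i
    have h6 := hk (Ideal.Quotient.mk _ (b i))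
    have h7 : ((k : 𝓞 K ⧸ Ideal.span {(q : 𝓞 K)}) * Ideal.Quotient.mk _ (b i)) = Ideal.Quotient.mk _ ((k : 𝓞 K) * b i) := by
      rw [map_mul, map_natCast]
    rw [h7, hΨ, crd_natCast_mul, crd_basis, ee_eq_pr] at h6
    have h8 : pr (k • (Pi.single i 1 : Lat D)) β = k • β i := by
      have := pr_zsmul_left (k : ℤ) (Pi.single i 1) β
      rw [pr_single] at this
      simpa using this
    rw [h8] at h6
    simp only [fourier_apply, one_smul] at h6
    have h9 : AddCircle.toCircle (k • β i) = AddCircle.toCircle (0 : UnitAddCircle) := by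
      rw [AddCircle.toCircle_zero]
      apply Circle.ext
      rw [Circle.coe_one]
      exact h6
    exact AddCircle.injective_toCircle one_ne_zero h9)
  have hR := card_R b q hq
  rw [hR] at h2 h5
  set X := (Finset.univ.filter (fun x : 𝓞 K ⧸ Ideal.span {(q : 𝓞 K)} => ∀ v, Ψ (x * Ideal.Quotient.mk _ (iot b l) * v) = 1)).card with hX
  set Y := (Finset.univ.filter (fun x : 𝓞 K ⧸ Ideal.span {(q : 𝓞 K)} => x * Ideal.Quotient.mk _ (iot b l) = 0)).card with hY
  set Z := (Finset.univ.filter (fun y : 𝓞 K ⧸ Ideal.span {(q : 𝓞 K)} => ∀ v, Ψ (y * v) = 1)).card with hZ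
  have h3' : (X:ℝ) ≤ Y * Z := by exact_mod_cast h3
  have h4' : (Y:ℝ) ≤ Nn (iot b l) := by exact_mod_cast h4
  have h5' : (Z:ℝ) * q ≤ (q:ℝ) ^ D := by exact_mod_cast h5
  push_cast at h2
  calc _ ≤ ((q:ℝ) ^ D * X) * q := by gcongr
    _ ≤ ((q:ℝ) ^ D * (Y * Z)) * q := by gcongr
    _ = (q:ℝ) ^ D * (Y * (Z * q)) := by ring
    _ ≤ (q:ℝ) ^ D * (Nn (iot b l) * (q:ℝ) ^ D) := by gcongr
    _ = _ := by rw [two_mul, pow_add]; ring

/-- lower bound for the number of unit residues -/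
theorem card_unitsF_lower : ∃ c : ℝ, 0 < c ∧ ∀ q : ℕ, 0 < q →
    c * (q:ℝ) ^ (4 * D) ≤ ((unitsF b q).card : ℝ) ^ 4 * q := by
  have hD := D_pos b
  refine ⟨(1 / 16) ^ (idl K (4 * D)).card, by positivity, ?_⟩
  intro q hq
  have hqr : (1:ℝ) ≤ q := by exact_mod_cast hq
  set Q' := Qdv K (q ^ D) q with hQ'
  have hQ : ∀ p ∈ Q', p.IsPrime ∧ p ≠ ⊥ ∧ (q : 𝓞 K) ∈ p := by
    intro p hp
    have h1 := Finset.mem_filter.mp hp
    have h2 := mem_prm.mp h1.1
    exact ⟨h2.2.2, h2.2.1, h1.2⟩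
  have htop : (⊤ : Ideal (𝓞 K)) ≠ ⊥ := top_ne_bot
  obtain ⟨a1, a2, a3⟩ := ms_prod (⊤ : Ideal (𝓞 K)) htop (fun _ => (1:ℝ)) (fun _ _ _ => rfl) Q'
    (fun p hp => ⟨(hQ p hp).1, (hQ p hp).2.1, by
      rw [Ideal.isCoprime_iff_sup_eq]; simp⟩) up (fun p _ => up_per p)
  have hdvd : (⊤ : Ideal (𝓞 K)) * ∏ p ∈ Q', p ∣ Ideal.span {(q : 𝓞 K)} := by
    rw [Ideal.top_mul]
    apply Finset.prod_primes_dvd
    · intro p hp; exact prime_of_mem (hQ p hp).1 (hQ p hp).2.1
    · intro p hp; rw [Ideal.dvd_span_singleton]; exact (hQ p hp).2.2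
  have hmem : (q : 𝓞 K) ∈ (⊤ : Ideal (𝓞 K)) * ∏ p ∈ Q', p := by
    rw [← Ideal.dvd_span_singleton]; exact hdvd
  have h1 := ms_period b _ a1 _ a2 q hq hmem
  rw [a3, ms_one ⊤ htop] at h1
  have hq0 : (q : 𝓞 K) ≠ 0 := by exact_mod_cast hq.ne'
  have hspan : Ideal.span {(q : 𝓞 K)} ≠ ⊥ := by
    rw [Ne, Ideal.span_singleton_eq_bot]; exact hq0
  -- lower bound for the number of units
  have h2 : ∑ r ∈ cube D q, (1 * ∏ p ∈ Q', up p (iot b r)) ≤ ((unitsF b q).card : ℝ) := by
    rw [unitsF, Finset.card_filter]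
    push_cast
    apply Finset.sum_le_sum
    intro r _
    rw [one_mul]
    split_ifs with hu
    · apply Finset.prod_le_one
      · intro p _; rw [up]; split_ifs <;> norm_num
      · intro p _; rw [up]; split_ifs <;> norm_num
    · have hnu : Ideal.Quotient.mk (Ideal.span {(q : 𝓞 K)}) (iot b r) ∈ nonunits _ := hu
      obtain ⟨M, hM, hrM⟩ := exists_max_ideal_of_mem_nonunits hnu
      set p := M.comap (Ideal.Quotient.mk (Ideal.span {(q : 𝓞 K)})) with hp
      have hpp : p.IsPrime := by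
        have := hM.isPrime
        exact Ideal.comap_isPrime _ _
      have hqp : (q : 𝓞 K) ∈ p := by
        rw [hp, Ideal.mem_comap]
        have : Ideal.Quotient.mk (Ideal.span {(q : 𝓞 K)}) (q : 𝓞 K) = 0 := by
          rw [Ideal.Quotient.eq_zero_iff_mem]; exact Ideal.mem_span_singleton_self _
        rw [this]; exact M.zero_mem
      have hp0 : p ≠ ⊥ := by
        intro h
        rw [h] at hqp
        exact hq0 (by simpa using hqp)
      have hrp : iot b r ∈ p := by rw [hp, Ideal.mem_comap]; exact hrM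
      have hpQ : p ∈ Q' := by
        rw [hQ', Qdv, Finset.mem_filter, mem_prm]
        refine ⟨⟨?_, hp0, hpp⟩, hqp⟩
        have h3 : Ideal.span {(q : 𝓞 K)} ≤ p := by
          rw [Ideal.span_singleton_le_iff_mem]; exact hqp
        have h4 := Ideal.absNorm_dvd_absNorm_of_le h3
        rw [absNorm_span_nat b] at h4
        exact Nat.le_of_dvd (pow_pos hq _) h4
      rw [Finset.prod_eq_zero hpQ]
      rw [up, if_pos hrp]
  have hN : (Ideal.absNorm ((⊤ : Ideal (𝓞 K)) * ∏ p ∈ Q', p) : ℝ) = ∏ p ∈ Q', (Ideal.absNorm p : ℝ) := by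
    rw [Ideal.top_mul, map_prod]; push_cast; rfl
  have hNpos : 0 < ∏ p ∈ Q', (Ideal.absNorm p : ℝ) := by
    apply Finset.prod_pos
    intro p hp
    exact_mod_cast norm_pos_of_ne (hQ p hp).2.1
  have hNle : ∏ p ∈ Q', (Ideal.absNorm p : ℝ) ≤ (q:ℝ) ^ D := by
    have h3 := Ideal.absNorm_dvd_absNorm_of_le (Ideal.dvd_iff_le.mp hdvd)
    rw [absNorm_span_nat b] at h3
    have h4 := Nat.le_of_dvd (pow_pos hq _) h3
    rw [← hN]; exact_mod_cast h4
  rw [hN] at h1
  set W := ∏ p ∈ Q', (1 - 1 / (Ideal.absNorm p : ℝ)) with hW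
  have h3 : W = (∏ p ∈ Q', ms p (up p)) / ∏ p ∈ Q', (Ideal.absNorm p : ℝ) := by
    rw [hW, ← Finset.prod_div_distrib]
    apply Finset.prod_congr rfl
    intro p hp
    have : (Ideal.absNorm p : ℝ) ≠ 0 := by
      have := norm_pos_of_ne (hQ p hp).2.1
      exact_mod_cast this.ne'
    rw [ms_up p (hQ p hp).2.1]
    field_simp
  have h4 : (q:ℝ) ^ D * W ≤ (unitsF b q).card := by
    refine le_trans (le_of_eq ?_) h2
    rw [h3, ← mul_div_assoc, div_eq_iff hNpos.ne', mul_comm (∑ r ∈ cube D q, _), h1]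
    simp
  -- lower bound for W ^ 4
  have hfac : ∀ p ∈ Q', (2:ℝ) ≤ Ideal.absNorm p ∧ 0 < 1 - 1 / (Ideal.absNorm p : ℝ) := by
    intro p hp
    have h5 : (2:ℝ) ≤ Ideal.absNorm p := by exact_mod_cast two_le_norm (hQ p hp).1 (hQ p hp).2.1
    refine ⟨h5, ?_⟩
    have : 1 / (Ideal.absNorm p : ℝ) < 1 := by rw [div_lt_one (by linarith)]; linarith
    linarith
  set A₁ := Q'.filter (fun p => Ideal.absNorm p ≤ 4 * D) with hA₁
  set A₂ := Q'.filter (fun p => ¬ Ideal.absNorm p ≤ 4 * D) with hA₂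
  have hsplit : W = (∏ p ∈ A₁, (1 - 1 / (Ideal.absNorm p : ℝ))) * ∏ p ∈ A₂, (1 - 1 / (Ideal.absNorm p : ℝ)) := by
    rw [hW, hA₁, hA₂]; exact (Finset.prod_filter_mul_prod_filter_not _ _ _).symm
  have hsmall : (1 / 16 : ℝ) ^ (idl K (4 * D)).card ≤ (∏ p ∈ A₁, (1 - 1 / (Ideal.absNorm p : ℝ))) ^ 4 := by
    have h5 : A₁.card ≤ (idl K (4 * D)).card := by
      apply Finset.card_le_card
      intro p hp
      rw [hA₁, Finset.mem_filter] at hp
      rw [mem_idl]; exact ⟨hp.2, (hQ p hp.1).2.1⟩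
    rw [← Finset.prod_pow]
    calc (1 / 16 : ℝ) ^ (idl K (4 * D)).card ≤ (1 / 16 : ℝ) ^ A₁.card :=
          pow_le_pow_of_le_one (by norm_num) (by norm_num) h5
      _ = ∏ p ∈ A₁, (1 / 16 : ℝ) := by rw [Finset.prod_const]
      _ ≤ _ := by
          apply Finset.prod_le_prod (fun _ _ => by norm_num)
          intro p hp
          have h6 := hfac p (Finset.mem_filter.mp hp).1
          have h7 : (1:ℝ) / 2 ≤ 1 - 1 / (Ideal.absNorm p : ℝ) := by
            have : 1 / (Ideal.absNorm p : ℝ) ≤ 1 / 2 := one_div_le_one_div_of_le (by norm_num) h6.1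
            linarith
          calc (1 / 16 : ℝ) = (1 / 2) ^ 4 := by norm_num
            _ ≤ _ := by gcongr
  have hbig : 1 / (q:ℝ) ≤ (∏ p ∈ A₂, (1 - 1 / (Ideal.absNorm p : ℝ))) ^ 4 := by
    have h5 : (1 / (q:ℝ)) ^ D ≤ ((∏ p ∈ A₂, (1 - 1 / (Ideal.absNorm p : ℝ))) ^ 4) ^ D := by
      rw [← pow_mul, ← Finset.prod_pow]
      calc (1 / (q:ℝ)) ^ D = 1 / (q:ℝ) ^ D := by rw [div_pow, one_pow]
        _ ≤ 1 / ∏ p ∈ Q', (Ideal.absNorm p : ℝ) := one_div_le_one_div_of_le hNpos hNle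
        _ ≤ 1 / ∏ p ∈ A₂, (Ideal.absNorm p : ℝ) := by
            apply one_div_le_one_div_of_le
            · apply Finset.prod_pos
              intro p hp
              have := hfac p (Finset.mem_filter.mp hp).1
              linarith
            · have hsp : ∏ p ∈ Q', (Ideal.absNorm p : ℝ) =
                  (∏ p ∈ A₁, (Ideal.absNorm p : ℝ)) * ∏ p ∈ A₂, (Ideal.absNorm p : ℝ) := by
                rw [hA₁, hA₂]; exact (Finset.prod_filter_mul_prod_filter_not _ _ _).symm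
              have hA2pos : 0 ≤ ∏ p ∈ A₂, (Ideal.absNorm p : ℝ) :=
                Finset.prod_nonneg (fun p _ => Nat.cast_nonneg _)
              have hA1one : 1 ≤ ∏ p ∈ A₁, (Ideal.absNorm p : ℝ) := by
                calc (1:ℝ) = ∏ p ∈ A₁, (1:ℝ) := by simp
                  _ ≤ _ := by
                      apply Finset.prod_le_prod (fun _ _ => by norm_num)
                      intro p hp
                      have := hfac p (Finset.mem_filter.mp hp).1
                      linarith [this.1]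
              rw [hsp]
              nlinarith
        _ = ∏ p ∈ A₂, (1 / (Ideal.absNorm p : ℝ)) := by
            rw [Finset.prod_div_distrib, Finset.prod_const_one]
        _ ≤ _ := by
            apply Finset.prod_le_prod
            · intro p _; positivity
            · intro p hp
              have h6 := hfac p (Finset.mem_filter.mp hp).1
              have h7 : 4 * D < Ideal.absNorm p := by
                have := (Finset.mem_filter.mp hp).2; omega
              have h7' : (4 * D : ℝ) + 1 ≤ Ideal.absNorm p := by exact_mod_cast h7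
              have hpos : (0:ℝ) < Ideal.absNorm p := by linarith [h6.1]
              have h8 := one_add_mul_le_pow (a := -(1 / (Ideal.absNorm p : ℝ))) (by linarith [h6.2]) (4 * D)
              rw [← sub_eq_add_neg] at h8
              refine le_trans ?_ h8
              push_cast
              rw [div_le_iff₀ hpos]
              field_simp
              linarith
    exact le_of_pow_le_pow_left₀ hD.ne' (by positivity) h5
  calc (1 / 16 : ℝ) ^ (idl K (4 * D)).card * (q:ℝ) ^ (4 * D)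
      = ((1 / 16 : ℝ) ^ (idl K (4 * D)).card * (1 / q)) * ((q:ℝ) ^ D) ^ 4 * q := by
        rw [← pow_mul]; field_simp; ring_nf
    _ ≤ ((∏ p ∈ A₁, (1 - 1 / (Ideal.absNorm p : ℝ))) ^ 4 * (∏ p ∈ A₂, (1 - 1 / (Ideal.absNorm p : ℝ))) ^ 4) *
        ((q:ℝ) ^ D) ^ 4 * q := by gcongr
    _ = ((q:ℝ) ^ D * W) ^ 4 * q := by rw [hsplit]; ring
    _ ≤ _ := by
        have hW0 : 0 ≤ W := Finset.prod_nonneg (fun p hp => (hfac p hp).2.le)
        gcongr

end spec

end PSarnak
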