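import Pool.Agent.Run7.h492.Equi

/-!
Mean square of a trigonometric polynomial over the unit orbit of a torsion point.
-/

set_option linter.unusedVariables false
set_option linter.unusedSectionVars false

noncomputable section

open Finset NumberField
open scoped Classical ComplexConjugate

namespace PSarnak

variable {K : Type*} [Field K] [NumberField K] {D : ℕ} (b : Module.Basis (Fin D) ℤ (𝓞 K))

lemma cf_norm_sq_le (F : C(Tor D, ℂ)) (n : Lat D) : ‖cf F n‖ ^ 2 ≤ nsq F := by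
  have := sum_cf_le F {n}
  simpa using this

lemma ee_conj_mul (m n : Lat D) (α : Tor D) : ee m α * conj (ee n α) = ee (m - n) α := by
  rw [sub_eq_add_neg, ee_add]
  congr 1
  simp only [ee, UnitAddTorus.mFourier_neg]

theorem unit_rho (M : ℕ) (ρ : C(Tor D, ℂ)) (hρ : IsTP M ρ) (η : ℝ) (hη : 0 < η) (hn : nsq ρ ≤ η) :
    ∃ Q₁ : ℕ, 0 < Q₁ ∧ ∀ q : ℕ, Q₁ < q → ∀ β : Tor D, q • β = 0 → (∀ k : ℕ, k • β = 0 → q ∣ k) →
      ∑ r ∈ unitsF b q, ‖ρ (sm b (iot b r) β)‖ ^ 2 ≤ 2 * η * (unitsF b q).card := by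
  obtain ⟨c, hc, hU⟩ := card_unitsF_lower b
  set B : ℝ := 1 + ∑ l ∈ box D (2 * M), (Nn (iot b l) : ℝ) with hB
  have hB1 : 1 ≤ B := by
    rw [hB]
    have : 0 ≤ ∑ l ∈ box D (2 * M), (Nn (iot b l) : ℝ) := Finset.sum_nonneg (fun _ _ => Nat.cast_nonneg _)
    linarith
  set G : ℝ := ((box D M).card : ℝ) ^ 2 with hG
  have hbox : (1:ℝ) ≤ (box D M).card := by
    rw [card_box]; push_cast
    apply one_le_pow₀; linarith [(Nat.cast_nonneg M : (0:ℝ) ≤ M)]
  have hG1 : 1 ≤ G := by rw [hG]; nlinarith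
  obtain ⟨Q₁, hQ₁⟩ := exists_nat_gt (B ^ 2 * G ^ 4 / c)
  refine ⟨Q₁ + 1, Nat.succ_pos _, ?_⟩
  intro q hq β hβ hord
  have hq0 : 0 < q := by omega
  have hqr : (0:ℝ) < q := by exact_mod_cast hq0
  have hqQ : B ^ 2 * G ^ 4 / c < q := by
    have : (Q₁ : ℝ) < q := by exact_mod_cast (by omega : Q₁ < q)
    linarith
  set U : ℝ := ((unitsF b q).card : ℝ) with hUdef
  have hU0 : 0 ≤ U := Nat.cast_nonneg _
  have hUq := hU q hq0
  -- bound for a nonzero frequency
  have key : ∀ l ∈ box D (2 * M), l ≠ 0 → ‖∑ r ∈ unitsF b q, ee l (sm b (iot b r) β)‖ ≤ U / G := by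
    intro l hl hl0
    have h1 := unit_char_sum b q hq0 β hβ hord l hl0
    set X := ‖∑ r ∈ unitsF b q, ee l (sm b (iot b r) β)‖ with hX
    have hX0 : 0 ≤ X := norm_nonneg _
    have hNB : (Nn (iot b l) : ℝ) ≤ B := by
      have : (Nn (iot b l) : ℝ) ≤ ∑ l ∈ box D (2 * M), (Nn (iot b l) : ℝ) :=
        Finset.single_le_sum (f := fun l => (Nn (iot b l) : ℝ)) (fun _ _ => Nat.cast_nonneg _) hl
      linarith
    have h2 : X ^ 2 * q ≤ (q:ℝ) ^ (2 * D) * B := by
      refine h1.trans ?_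
      gcongr
    have h3 : X ^ 4 * q ^ 2 ≤ (q:ℝ) ^ (4 * D) * B ^ 2 := by
      have : (X ^ 2 * q) ^ 2 ≤ ((q:ℝ) ^ (2 * D) * B) ^ 2 := by gcongr
      calc X ^ 4 * q ^ 2 = (X ^ 2 * q) ^ 2 := by ring
        _ ≤ _ := this
        _ = _ := by rw [mul_pow, ← pow_mul]; ring_nf
    have h4 : (X * G) ^ 4 ≤ U ^ 4 := by
      have h5 : X ^ 4 * q ^ 2 * c ≤ B ^ 2 * (U ^ 4 * q) := by
        calc X ^ 4 * q ^ 2 * c ≤ (q:ℝ) ^ (4 * D) * B ^ 2 * c := by gcongr
          _ = B ^ 2 * (c * (q:ℝ) ^ (4 * D)) := by ring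
          _ ≤ _ := by gcongr
      have h6 : X ^ 4 * q * c ≤ B ^ 2 * U ^ 4 := by
        apply le_of_mul_le_mul_right _ hqr
        calc X ^ 4 * q * c * q = X ^ 4 * q ^ 2 * c := by ring
          _ ≤ _ := h5
          _ = _ := by ring
      have h7 : B ^ 2 * G ^ 4 ≤ q * c := by
        rw [div_lt_iff₀ hc] at hqQ; exact hqQ.le
      have hB2 : 0 < B ^ 2 := by positivity
      apply le_of_mul_le_mul_left _ hB2
      calc B ^ 2 * (X * G) ^ 4 = X ^ 4 * (B ^ 2 * G ^ 4) := by ring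
        _ ≤ X ^ 4 * (q * c) := by gcongr
        _ = X ^ 4 * q * c := by ring
        _ ≤ _ := h6
    have h8 : X * G ≤ U := le_of_pow_le_pow_left₀ (by norm_num) hU0 h4
    rw [le_div_iff₀ (by linarith)]
    exact h8
  -- expand
  have hexp : ((∑ r ∈ unitsF b q, ‖ρ (sm b (iot b r) β)‖ ^ 2 : ℝ) : ℂ) =
      ∑ m ∈ box D M, ∑ n ∈ box D M, cf ρ m * conj (cf ρ n) *
        ∑ r ∈ unitsF b q, ee (m - n) (sm b (iot b r) β) := by
    push_cast
    have e1 : ∀ α : Tor D, ((‖ρ α‖ : ℝ) : ℂ) ^ 2 =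
        ∑ m ∈ box D M, ∑ n ∈ box D M, cf ρ m * conj (cf ρ n) * ee (m - n) α := by
      intro α
      have e2 : ρ α = ∑ n ∈ box D M, cf ρ n * ee n α := by
        conv_lhs => rw [hρ.eq, tp_apply]
      rw [← Complex.mul_conj', e2, map_sum, Finset.sum_mul_sum]
      apply Finset.sum_congr rfl
      intro m _
      apply Finset.sum_congr rfl
      intro n _
      rw [map_mul, ← ee_conj_mul]; ring
    simp_rw [e1]
    rw [Finset.sum_comm]
    apply Finset.sum_congr rfl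
    intro m _
    rw [Finset.sum_comm]
    apply Finset.sum_congr rfl
    intro n _
    rw [Finset.mul_sum]
  have hbound : ∑ r ∈ unitsF b q, ‖ρ (sm b (iot b r) β)‖ ^ 2 ≤
      ∑ m ∈ box D M, ∑ n ∈ box D M, (if m = n then ‖cf ρ m‖ ^ 2 * U else η * (U / G)) := by
    have hcast : ∑ r ∈ unitsF b q, ‖ρ (sm b (iot b r) β)‖ ^ 2 =
        ‖((∑ r ∈ unitsF b q, ‖ρ (sm b (iot b r) β)‖ ^ 2 : ℝ) : ℂ)‖ := by
      rw [Complex.norm_real, Real.norm_of_nonneg]
      exact Finset.sum_nonneg (fun _ _ => by positivity)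
    rw [hcast, hexp]
    refine (norm_sum_le _ _).trans (Finset.sum_le_sum (fun m hm => ?_))
    refine (norm_sum_le _ _).trans (Finset.sum_le_sum (fun n hn' => ?_))
    split_ifs with h
    · subst h
      rw [norm_mul, norm_mul, RCLike.norm_conj, sub_self]
      have : ‖∑ r ∈ unitsF b q, ee (0 : Lat D) (sm b (iot b r) β)‖ = U := by
        simp only [ee_zero, Finset.sum_const, nsmul_eq_mul, mul_one, Complex.norm_natCast]
        rfl
      rw [this, sq]
    · rw [norm_mul, norm_mul, RCLike.norm_conj]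
      have h1 : ‖cf ρ m‖ * ‖cf ρ n‖ ≤ η := by
        have := cf_norm_sq_le ρ m
        have := cf_norm_sq_le ρ n
        nlinarith [sq_nonneg (‖cf ρ m‖ - ‖cf ρ n‖)]
      have h2 := key (m - n) (by
        rw [mem_box] at hm hn' ⊢
        intro i
        have := hm i
        have := hn' i
        simp only [Pi.sub_apply]
        refine (abs_sub _ _).trans ?_
        push_cast; linarith) (sub_ne_zero.mpr h)
      gcongr
  refine hbound.trans ?_
  have hsplit : ∀ m ∈ box D M, ∑ n ∈ box D M, (if m = n then ‖cf ρ m‖ ^ 2 * U else η * (U / G)) ≤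
      ‖cf ρ m‖ ^ 2 * U + (box D M).card * (η * (U / G)) := by
    intro m hm
    have hnn : 0 ≤ η * (U / G) := by positivity
    calc ∑ n ∈ box D M, (if m = n then ‖cf ρ m‖ ^ 2 * U else η * (U / G))
        ≤ ∑ n ∈ box D M, ((if m = n then ‖cf ρ m‖ ^ 2 * U else 0) + η * (U / G)) := by
          apply Finset.sum_le_sum
          intro n _
          split_ifs
          · linarith
          · linarith
      _ = _ := by
          rw [Finset.sum_add_distrib, Finset.sum_ite_eq, if_pos hm, Finset.sum_const, nsmul_eq_mul]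
  refine (Finset.sum_le_sum hsplit).trans ?_
  rw [Finset.sum_add_distrib, ← Finset.sum_mul, Finset.sum_const, nsmul_eq_mul]
  have h1 : ∑ m ∈ box D M, ‖cf ρ m‖ ^ 2 ≤ η := (sum_cf_le ρ _).trans hn
  have h2 : ((box D M).card : ℝ) * ((box D M).card * (η * (U / G))) = η * U := by
    rw [hG]; field_simp
  rw [h2]
  nlinarith

end PSarnak
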