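import Pool.Agent.Run7.h492.Action

/-!
Ergodic part: mean ergodic decomposition, energies, transference.
-/

set_option linter.unusedVariables false
set_option linter.unusedSectionVars false

noncomputable section

open MeasureTheory Finset UnitAddTorus Filter
open scoped ComplexConjugate ENNReal Classical

namespace PSarnak

local instance instMS7 : MeasureSpace UnitAddCircle := ⟨AddCircle.haarAddCircle⟩
local instance instHaar7 : Measure.IsAddHaarMeasure (volume : Measure UnitAddCircle) :=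
  inferInstanceAs (Measure.IsAddHaarMeasure AddCircle.haarAddCircle)

variable {D : ℕ} {X : Type*}

section decomp
variable {E : Type*} [NormedAddCommGroup E] [InnerProductSpace ℂ E] [CompleteSpace E]

lemma decomp_exists (V : Fin D → E →L[ℂ] E) (hV : ∀ i, ‖V i‖ ≤ 1) (y : E)
    (hy : ∀ z : E, (∀ i, V i z = z) → inner ℂ z y = 0) (ε : ℝ) (hε : 0 < ε) :
    ∃ ψ : Fin D → E, ‖y - ∑ i, (ψ i - V i (ψ i))‖ ≤ ε := by
  set L : (Fin D → E) →ₗ[ℂ] E := ∑ i, ((LinearMap.id - (V i : E →ₗ[ℂ] E)) ∘ₗ LinearMap.proj i) with hL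
  have hLa : ∀ ψ, L ψ = ∑ i, (ψ i - V i (ψ i)) := by
    intro ψ
    rw [hL]
    simp [LinearMap.sum_apply]
  set R : Submodule ℂ E := LinearMap.range L with hR
  have h1 : y ∈ Rᗮᗮ := by
    rw [Submodule.mem_orthogonal]
    intro x hx
    apply hy
    intro i
    rw [Submodule.mem_orthogonal] at hx
    have h2 : ∀ z, inner ℂ (V i z) x = inner ℂ z x := by
      intro z
      have h3 := hx (L (Pi.single i z)) ⟨_, rfl⟩
      rw [hLa, Finset.sum_eq_single i] at h3
      · rw [Pi.single_eq_same, inner_sub_left, sub_eq_zero] at h3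
        exact h3.symm
      · intro j _ hj
        rw [Pi.single_eq_of_ne hj]; simp
      · intro h; exact absurd (Finset.mem_univ i) h
    apply eq_of_norm_le_re_inner_eq_norm_sq (𝕜 := ℂ)
    · simpa using (V i).le_of_opNorm_le (hV i) x
    · rw [h2 x, inner_self_eq_norm_sq]
  rw [Submodule.orthogonal_orthogonal_eq_closure] at h1
  have h2 : y ∈ closure (R : Set E) := h1
  rw [Metric.mem_closure_iff] at h2
  obtain ⟨r, ⟨ψ, hψ⟩, hr⟩ := h2 ε hε
  refine ⟨ψ, ?_⟩
  rw [← hLa, hψ, ← dist_eq_norm]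
  exact hr.le

end decomp

lemma continuous_nsq : Continuous (nsq : C(Tor D, ℂ) → ℝ) := by
  have h1 : (nsq : C(Tor D, ℂ) → ℝ) = fun F => ‖ContinuousMap.toLp (E := ℂ) 2 volume ℂ F‖ ^ 2 := by
    ext F
    have h2 : (∫ t, ‖(ContinuousMap.toLp (E := ℂ) 2 volume ℂ F) t‖ ^ 2) = nsq F := by
      apply integral_congr_ae
      filter_upwards [ContinuousMap.coeFn_toLp (p := 2) (𝕜 := ℂ) volume F] with a ha
      rw [ha]
    rw [← h2]
    rw [← @inner_self_eq_norm_sq ℂ, MeasureTheory.L2.inner_def]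
    have : ∀ a, inner ℂ ((ContinuousMap.toLp (E := ℂ) 2 volume ℂ F) a) ((ContinuousMap.toLp (E := ℂ) 2 volume ℂ F) a)
      = ((‖(ContinuousMap.toLp (E := ℂ) 2 volume ℂ F) a‖ ^ 2 : ℝ) : ℂ) := by
      intro a
      rw [inner_self_eq_norm_sq_to_K]; push_cast; rfl
    simp_rw [this]
    rw [integral_complex_ofReal]
    simp
  rw [h1]
  exact ((ContinuousLinearMap.continuous _).norm).pow 2

lemma nsq_sum_le {ι : Type*} (s : Finset ι) (G : ι → C(Tor D, ℂ)) :
    nsq (∑ i ∈ s, G i) ≤ s.card * ∑ i ∈ s, nsq (G i) := by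
  have h1 : (s.card : ℝ) * ∑ i ∈ s, nsq (G i) = ∫ α : Tor D, (s.card : ℝ) * ∑ i ∈ s, ‖G i α‖ ^ 2 := by
    rw [integral_const_mul, integral_finsetSum _ (fun i _ => integrable_cont' (by fun_prop))]
    rfl
  rw [h1, nsq]
  apply integral_mono (integrable_cont' (by fun_prop)) (integrable_cont' (by fun_prop))
  intro α
  simp only [ContinuousMap.sum_apply]
  calc ‖∑ i ∈ s, G i α‖ ^ 2 ≤ (∑ i ∈ s, ‖G i α‖) ^ 2 := by
        gcongr; exact norm_sum_le _ _
    _ = (∑ i ∈ s, 1 * ‖G i α‖) ^ 2 := by simp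
    _ ≤ (∑ i ∈ s, (1:ℝ) ^ 2) * ∑ i ∈ s, ‖G i α‖ ^ 2 := Finset.sum_mul_sq_le_sq_mul_sq _ _ _
    _ = _ := by simp

section energy
variable [MeasurableSpace X] {μ : Measure X} [IsProbabilityMeasure μ]
  (T : Fin D → X → X) (hT : ∀ i, MeasurePreserving (T i) μ μ)

/-- squared norm on `X` -/
def n2 (μ : Measure X) (Φ : X → ℂ) : ℝ := ∫ x, ‖Φ x‖ ^ 2 ∂μ

lemma n2_nonneg (Φ : X → ℂ) : 0 ≤ n2 μ Φ := integral_nonneg (fun _ => by positivity)

lemma n2_Lp (Φ : Lp ℂ 2 μ) : n2 μ Φ = ‖Φ‖ ^ 2 := by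
  rw [← @inner_self_eq_norm_sq ℂ, MeasureTheory.L2.inner_def]
  have : ∀ a, inner ℂ (Φ a) (Φ a) = ((‖Φ a‖ ^ 2 : ℝ) : ℂ) := by
    intro a
    rw [inner_self_eq_norm_sq_to_K]; push_cast; rfl
  simp_rw [this]
  rw [integral_complex_ofReal]
  simp [n2]

include hT

lemma int_act (Φ : X → ℂ) (hΦ : Measurable Φ) (j : Fin D → ℕ) :
    ∫ x, ‖Φ (act T j x)‖ ^ 2 ∂μ = n2 μ Φ := by
  have h1 := act_mp T hT j
  rw [n2]
  conv_rhs => rw [← h1.map_eq]
  rw [integral_map h1.measurable.aemeasurable]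
  exact (by fun_prop : Measurable fun x => ‖Φ x‖ ^ 2).aestronglyMeasurable

lemma integrable_act (Φ : X → ℂ) (hΦ : MemLp Φ 2 μ) (j : Fin D → ℕ) :
    Integrable (fun x => ‖Φ (act T j x)‖ ^ 2) μ := by
  have h1 := hΦ.comp_measurePreserving (act_mp T hT j)
  exact (memLp_two_iff_integrable_sq_norm h1.1).mp h1

lemma integrable_nsq_transf (c : C(Tor D, ℂ)) (J : ℕ) (Φ : X → ℂ) (hΦ : MemLp Φ 2 μ) :
    Integrable (fun x => nsq (c * transf T J Φ x)) μ := by
  have h0 : Integrable (fun x => ‖c‖ ^ 2 * ∑ j ∈ nbox D J, ‖Φ (act T j x)‖ ^ 2) μ := by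
    apply Integrable.const_mul
    apply integrable_finsetSum
    intro j _
    exact integrable_act T hT Φ hΦ j
  refine h0.mono' ?_ ?_
  · apply continuous_nsq.comp_aestronglyMeasurable
    apply AEStronglyMeasurable.const_mul
    have : transf T J Φ = fun x => ∑ j ∈ nbox D J, Φ (act T j x) • ee (-(cst j)) := rfl
    rw [this]
    apply Finset.aestronglyMeasurable_fun_sum
    intro j _
    apply AEStronglyMeasurable.smul_const
    exact (hΦ.comp_measurePreserving (act_mp T hT j)).1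
  · refine Filter.Eventually.of_forall (fun x => ?_)
    rw [Real.norm_of_nonneg (nsq_nonneg _)]
    rw [← nsq_transf]
    exact nsq_mul_le _ _ _ (fun α => c.norm_coe_le_norm α)

lemma int_nsq_transf (J : ℕ) (Φ : X → ℂ) (hΦm : Measurable Φ) (hΦ : MemLp Φ 2 μ) :
    ∫ x, nsq (transf T J Φ x) ∂μ = (J:ℝ) ^ D * n2 μ Φ := by
  simp_rw [nsq_transf]
  rw [integral_finsetSum _ (fun j _ => integrable_act T hT Φ hΦ j)]
  simp_rw [int_act T hT Φ hΦm]
  rw [Finset.sum_const, card_nbox, nsmul_eq_mul]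
  push_cast; ring

/-- transference -/
lemma transference (E : Set X) (hE : MeasurableSet E) (J : ℕ) (G : X → ℝ) (hG : Integrable G μ)
    (h : ∀ x, (((nbox D J).filter (fun j => act T j x ∈ E)).card : ℝ) ≤ G x) :
    μ.real E * (J:ℝ) ^ D ≤ ∫ x, G x ∂μ := by
  have h1 : ∀ x, (((nbox D J).filter (fun j => act T j x ∈ E)).card : ℝ) =
      ∑ j ∈ nbox D J, ((act T j) ⁻¹' E).indicator (fun _ => (1:ℝ)) x := by
    intro x
    rw [Finset.card_filter]
    push_cast
    apply Finset.sum_congr rfl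
    intro j _
    simp only [Set.indicator, Set.mem_preimage]
  have h2 : ∀ j, MeasurableSet ((act T j) ⁻¹' E) := fun j => (act_mp T hT j).measurable hE
  have h3 : ∀ j, ∫ x, ((act T j) ⁻¹' E).indicator (fun _ => (1:ℝ)) x ∂μ = μ.real E := by
    intro j
    rw [integral_indicator_const _ (h2 j)]
    simp only [smul_eq_mul, mul_one]
    rw [measureReal_def, measureReal_def, (act_mp T hT j).measure_preimage hE.nullMeasurableSet]
  have h4 : ∀ j, Integrable (((act T j) ⁻¹' E).indicator (fun _ => (1:ℝ))) μ := by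
    intro j
    exact (integrable_const (1:ℝ)).indicator (h2 j)
  calc μ.real E * (J:ℝ) ^ D = ∑ j ∈ nbox D J, μ.real E := by
        rw [Finset.sum_const, card_nbox, nsmul_eq_mul]; push_cast; ring
    _ = ∫ x, ∑ j ∈ nbox D J, ((act T j) ⁻¹' E).indicator (fun _ => (1:ℝ)) x ∂μ := by
        rw [integral_finsetSum _ (fun j _ => h4 j)]
        simp_rw [h3]
    _ ≤ ∫ x, G x ∂μ := by
        apply integral_mono (integrable_finsetSum _ (fun j _ => h4 j)) hG
        intro x
        simp only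
        rw [← h1]
        exact h x

end energy

lemma limit_lemma (a b : ℝ) (R : ℕ) (e : ℕ → ℝ) (he : Tendsto e atTop (nhds 0))
    (h : ∃ᶠ J : ℕ in atTop, a * ((J - R : ℕ) : ℝ) ^ D ≤ (b + e J) * (J:ℝ) ^ D) : a ≤ b := by
  by_contra hcon
  push Not at hcon
  have h1 : Tendsto (fun J : ℕ => a * (((J - R : ℕ) : ℝ) / J) ^ D - e J) atTop (nhds (a * 1 ^ D - 0)) := by
    apply Tendsto.sub _ he
    apply Tendsto.const_mul
    apply Tendsto.pow
    have h2 : Tendsto (fun J : ℕ => 1 - (R:ℝ) / J) atTop (nhds (1 - 0)) := by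
      apply Tendsto.sub tendsto_const_nhds
      exact tendsto_const_div_atTop_nhds_zero_nat _
    rw [sub_zero] at h2
    refine h2.congr' ?_
    filter_upwards [eventually_ge_atTop (R + 1)] with J hJ
    have hJ' : (0:ℝ) < J := by
      have : 0 < J := by omega
      exact_mod_cast this
    rw [Nat.cast_sub (by omega)]
    field_simp
  rw [one_pow, mul_one, sub_zero] at h1
  have h2 := h1.eventually (lt_mem_nhds hcon)
  apply h
  filter_upwards [h2, eventually_ge_atTop 1] with J hJ hJ1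
  have hJ' : (0:ℝ) < (J:ℝ) ^ D := by
    have : (0:ℝ) < J := by exact_mod_cast hJ1
    positivity
  push Not
  rw [div_pow] at hJ
  have h3 : b + e J < a * (((J - R : ℕ) : ℝ) ^ D / (J:ℝ) ^ D) := by linarith
  calc (b + e J) * (J:ℝ) ^ D < (a * (((J - R : ℕ) : ℝ) ^ D / (J:ℝ) ^ D)) * (J:ℝ) ^ D := by gcongr
    _ = a * ((J - R : ℕ) : ℝ) ^ D := by field_simp

end PSarnak
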