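import Pool.Agent.Run7.h492.Ergodic

/-!
Ergodic part, continued: boundary terms, energies, maximal inequality, decomposition.
-/

set_option linter.unusedVariables false
set_option linter.unusedSectionVars false

noncomputable section

open MeasureTheory Finset UnitAddTorus Filter
open scoped ComplexConjugate ENNReal Classical

namespace PSarnak

local instance instMS8 : MeasureSpace UnitAddCircle := ⟨AddCircle.haarAddCircle⟩
local instance instHaar8 : Measure.IsAddHaarMeasure (volume : Measure UnitAddCircle) :=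
  inferInstanceAs (Measure.IsAddHaarMeasure AddCircle.haarAddCircle)

variable {D : ℕ} {X : Type*}

/-- boundary term -/
def bdry (T : Fin D → X → X) (J W : ℕ) (i : Fin D) (Ψ : X → ℂ) (x : X) : C(Tor D, ℂ) :=
  transf T J (fun y => Ψ ((T i)^[W] y)) x - ee (Pi.single i (W:ℤ)) * transf T J Ψ x

lemma card_slab (J : ℕ) (i : Fin D) (A : Finset ℕ) :
    ((nbox D J).filter (fun j => j i ∈ A)).card * J ≤ A.card * J ^ D := by
  have h1 : (nbox D J).filter (fun j => j i ∈ A) ⊆
      Fintype.piFinset (fun k => if k = i then A else range J) := by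
    intro j hj
    rw [Finset.mem_filter, mem_nbox] at hj
    rw [Fintype.mem_piFinset]
    intro k
    by_cases hk : k = i
    · rw [if_pos hk, hk]; exact hj.2
    · rw [if_neg hk, Finset.mem_range]; exact hj.1 k
  have h2 := Finset.card_le_card h1
  rw [Fintype.card_piFinset] at h2
  have h3 : ∏ k : Fin D, (if k = i then A else range J).card = A.card * J ^ (D - 1) := by
    rw [← Finset.mul_prod_erase _ _ (Finset.mem_univ i), if_pos rfl]
    congr 1
    rw [Finset.prod_congr rfl (g := fun _ => J)]
    · rw [Finset.prod_const, Finset.card_erase_of_mem (Finset.mem_univ i), Finset.card_univ,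
        Fintype.card_fin]
    · intro k hk
      rw [if_neg (Finset.ne_of_mem_erase hk), Finset.card_range]
  rw [h3] at h2
  have h4 : 0 < D := Fin.pos i
  calc _ ≤ A.card * J ^ (D - 1) * J := by gcongr
    _ = A.card * J ^ D := by
        rw [mul_assoc, ← pow_succ]
        congr 2; omega

section bd
variable (T : Fin D → X → X) (hc : ∀ i j x, T i (T j x) = T j (T i x))
include hc

lemma bdry_eq (J W : ℕ) (i : Fin D) (Ψ : X → ℂ) (x : X) :
    bdry T J W i Ψ x = ∑ j ∈ (nbox D J).filter (fun j => J ≤ j i + W),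
        Ψ (act T (Pi.single i W + j) x) • ee (-(cst j))
      - ∑ j ∈ (nbox D J).filter (fun j => j i < W), Ψ (act T j x) • ee (Pi.single i (W:ℤ) - (cst j)) := by
  have h1 : transf T J (fun y => Ψ ((T i)^[W] y)) x =
      ∑ j ∈ nbox D J, Ψ (act T (Pi.single i W + j) x) • ee (-(cst j)) := by
    rw [transf]
    apply Finset.sum_congr rfl
    intro j _
    rw [act_add T hc, act_single]
  have h2 : ee (Pi.single i (W:ℤ)) * transf T J Ψ x =
      ∑ j ∈ nbox D J, Ψ (act T j x) • ee (Pi.single i (W:ℤ) - (cst j)) := by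
    rw [transf, Finset.mul_sum]
    apply Finset.sum_congr rfl
    intro j _
    rw [mul_smul_comm]
    congr 1
    ext α
    simp only [ee, ContinuousMap.mul_apply, sub_eq_add_neg, mFourier_add]
  rw [bdry, h1, h2]
  have q1 := Finset.sum_filter_add_sum_filter_not (nbox D J) (fun j : Fin D → ℕ => J ≤ j i + W)
    (fun j : Fin D → ℕ => Ψ (act T (Pi.single i W + j) x) • ee (-(cst j)))
  have q2 := Finset.sum_filter_add_sum_filter_not (nbox D J) (fun j : Fin D → ℕ => j i < W)
    (fun j : Fin D → ℕ => Ψ (act T j x) • ee (Pi.single i (W:ℤ) - (cst j)))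
  rw [← q1, ← q2]
  have h3 : ∑ j ∈ (nbox D J).filter (fun j => ¬ (J ≤ j i + W)),
      Ψ (act T (Pi.single i W + j) x) • ee (-(cst j)) =
      ∑ j ∈ (nbox D J).filter (fun j => ¬ (j i < W)),
      Ψ (act T j x) • ee (Pi.single i (W:ℤ) - (cst j)) := by
    apply Finset.sum_nbij' (fun j => Pi.single i W + j) (fun j => j - Pi.single i W)
    · intro j hj
      rw [Finset.mem_filter, mem_nbox] at hj ⊢
      refine ⟨?_, ?_⟩
      · intro k
        by_cases hk : k = i
        · subst hk
          simp only [Pi.add_apply, Pi.single_eq_same]; omega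
        · simp only [Pi.add_apply, Pi.single_eq_of_ne hk, zero_add]; exact hj.1 k
      · simp only [Pi.add_apply, Pi.single_eq_same]; omega
    · intro j hj
      rw [Finset.mem_filter, mem_nbox] at hj ⊢
      refine ⟨?_, ?_⟩
      · intro k
        have := hj.1 k
        simp only [Pi.sub_apply]; omega
      · have := hj.1 i
        simp only [Pi.sub_apply, Pi.single_eq_same]; omega
    · intro j hj
      ext k
      simp
    · intro j hj
      rw [Finset.mem_filter, mem_nbox] at hj
      ext k
      by_cases hk : k = i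
      · subst hk
        simp only [Pi.add_apply, Pi.sub_apply, Pi.single_eq_same]; omega
      · simp only [Pi.add_apply, Pi.sub_apply, Pi.single_eq_of_ne hk]; omega
    · intro j hj
      congr 2
      ext k
      by_cases hk : k = i
      · subst hk
        simp only [cst, Pi.neg_apply, Pi.sub_apply, Pi.add_apply, Pi.single_eq_same]
        push_cast; ring
      · simp only [cst, Pi.neg_apply, Pi.sub_apply, Pi.add_apply, Pi.single_eq_of_ne hk]
        push_cast; ring
  rw [h3]
  abel

lemma nsq_bdry_le (J W : ℕ) (i : Fin D) (Ψ : X → ℂ) (x : X) :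
    nsq (bdry T J W i Ψ x) ≤ 2 * ∑ j ∈ (nbox D J).filter (fun j => J ≤ j i + W),
        ‖Ψ (act T (Pi.single i W + j) x)‖ ^ 2
      + 2 * ∑ j ∈ (nbox D J).filter (fun j => j i < W), ‖Ψ (act T j x)‖ ^ 2 := by
  rw [bdry_eq T hc]
  refine (nsq_sub_le _ _).trans ?_
  rw [nsq_inj, nsq_inj]
  · intro a _ b _ hab
    exact cst_injective (sub_right_injective hab)
  · intro a _ b _ hab
    exact cst_injective (neg_injective hab)

variable [MeasurableSpace X] {μ : Measure X} [IsProbabilityMeasure μ]
   (hT : ∀ i, MeasurePreserving (T i) μ μ)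
include hT

lemma int_bdry_le (J W : ℕ) (i : Fin D) (Ψ : X → ℂ) (hΨm : Measurable Ψ) (hΨ : MemLp Ψ 2 μ)
    (hI : Integrable (fun x => nsq (bdry T J W i Ψ x)) μ) :
    (∫ x, nsq (bdry T J W i Ψ x) ∂μ) * J ≤ 4 * W * J ^ D * n2 μ Ψ := by
  have h1 : ∫ x, nsq (bdry T J W i Ψ x) ∂μ ≤
      2 * ((((nbox D J).filter (fun j => J ≤ j i + W)).card : ℝ) * n2 μ Ψ)
       + 2 * ((((nbox D J).filter (fun j => j i < W)).card : ℝ) * n2 μ Ψ) := by
    have hI1 : Integrable (fun x => 2 * ∑ j ∈ (nbox D J).filter (fun j => J ≤ j i + W),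
        ‖Ψ (act T (Pi.single i W + j) x)‖ ^ 2) μ := by
      apply Integrable.const_mul
      exact integrable_finsetSum _ (fun j _ => integrable_act T hT Ψ hΨ _)
    have hI2 : Integrable (fun x => 2 * ∑ j ∈ (nbox D J).filter (fun j => j i < W),
        ‖Ψ (act T j x)‖ ^ 2) μ := by
      apply Integrable.const_mul
      exact integrable_finsetSum _ (fun j _ => integrable_act T hT Ψ hΨ _)
    refine (integral_mono hI (hI1.add hI2) (fun x => nsq_bdry_le T hc J W i Ψ x)).trans ?_
    simp only [Pi.add_apply]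
    rw [integral_add hI1 hI2, integral_const_mul, integral_const_mul,
      integral_finsetSum _ (fun j _ => integrable_act T hT Ψ hΨ _),
      integral_finsetSum _ (fun j _ => integrable_act T hT Ψ hΨ _)]
    simp_rw [int_act T hT Ψ hΨm]
    rw [Finset.sum_const, Finset.sum_const, nsmul_eq_mul, nsmul_eq_mul]
  have h2 := n2_nonneg (μ := μ) Ψ
  have h3 : ((((nbox D J).filter (fun j => J ≤ j i + W)).card : ℝ)) * J ≤ W * J ^ D := by
    have e1 : (nbox D J).filter (fun j => J ≤ j i + W) ⊆
        (nbox D J).filter (fun j => j i ∈ Finset.Ico (J - W) J) := by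
      intro j hj
      rw [Finset.mem_filter] at hj ⊢
      refine ⟨hj.1, ?_⟩
      have := (mem_nbox.mp hj.1) i
      rw [Finset.mem_Ico]; omega
    have e2 := card_slab J i (Finset.Ico (J - W) J)
    have e3 := Finset.card_le_card e1
    have e4 : (Finset.Ico (J - W) J).card ≤ W := by
      rw [Nat.card_Ico]; omega
    have e5 : ((nbox D J).filter (fun j => J ≤ j i + W)).card * J ≤ W * J ^ D := by
      calc _ ≤ ((nbox D J).filter (fun j => j i ∈ Finset.Ico (J - W) J)).card * J := by gcongr
        _ ≤ (Finset.Ico (J - W) J).card * J ^ D := e2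
        _ ≤ W * J ^ D := by gcongr
    exact_mod_cast e5
  have h4 : ((((nbox D J).filter (fun j => j i < W)).card : ℝ)) * J ≤ W * J ^ D := by
    have e2 := card_slab J i (Finset.range W)
    rw [Finset.card_range] at e2
    simp only [Finset.mem_range] at e2
    exact_mod_cast e2
  have hJ : (0:ℝ) ≤ J := Nat.cast_nonneg _
  calc (∫ x, nsq (bdry T J W i Ψ x) ∂μ) * J ≤ (2 * ((((nbox D J).filter (fun j => J ≤ j i + W)).card : ℝ) * n2 μ Ψ)
       + 2 * ((((nbox D J).filter (fun j => j i < W)).card : ℝ) * n2 μ Ψ)) * J := by gcongr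
    _ = 2 * (((((nbox D J).filter (fun j => J ≤ j i + W)).card : ℝ)) * J) * n2 μ Ψ +
        2 * (((((nbox D J).filter (fun j => j i < W)).card : ℝ)) * J) * n2 μ Ψ := by ring
    _ ≤ 2 * (W * J ^ D) * n2 μ Ψ + 2 * (W * J ^ D) * n2 μ Ψ := by gcongr
    _ = _ := by ring

end bd

end PSarnak
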