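import Pool.Agent.Run7.h492.Ergodic2

/-!
Ergodic part, continued: functions orthogonal to periodic functions.
-/

set_option linter.unusedVariables false
set_option linter.unusedSectionVars false

noncomputable section

open MeasureTheory Finset UnitAddTorus Filter
open scoped ComplexConjugate ENNReal Classical

namespace PSarnak

local instance instMS9 : MeasureSpace UnitAddCircle := ⟨AddCircle.haarAddCircle⟩
local instance instHaar9 : Measure.IsAddHaarMeasure (volume : Measure UnitAddCircle) :=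
  inferInstanceAs (Measure.IsAddHaarMeasure AddCircle.haarAddCircle)

variable {D : ℕ} {X : Type*}

lemma nsq_Pf_diff (h : ℕ → ℕ) (k₀ : ℕ) (hk : ∀ i, k₀ ≤ i → ∀ α : Tor D, ‖kp h i α‖ ≤ 2)
    (k₁ K : ℕ) (hK : k₁ ≤ K) (F : C(Tor D, ℂ)) :
    nsq ((Pf h k₀ k₁ - Pf h k₀ K) * F) ≤ nsq (Pf h k₀ k₁ * F) - nsq (Pf h k₀ K * F) := by
  rw [nsq, nsq, nsq, ← integral_sub (integrable_cont' (by fun_prop)) (integrable_cont' (by fun_prop))]
  apply integral_mono (integrable_cont' (by fun_prop)) (integrable_cont' (by fun_prop))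
  intro α
  simp only [ContinuousMap.mul_apply, ContinuousMap.sub_apply, Pf_apply, norm_mul]
  have h1 := PR_nonneg h k₀ hk K α
  have h2 := PR_anti h k₀ hk hK α
  have h3 : ‖(PR h k₀ k₁ α : ℂ) - (PR h k₀ K α : ℂ)‖ = PR h k₀ k₁ α - PR h k₀ K α := by
    rw [← Complex.ofReal_sub, Complex.norm_real, Real.norm_of_nonneg (by linarith)]
  rw [h3, Complex.norm_real, Complex.norm_real, Real.norm_of_nonneg h1,
    Real.norm_of_nonneg (h1.trans h2)]
  have h4 : (PR h k₀ k₁ α - PR h k₀ K α) ^ 2 ≤ PR h k₀ k₁ α ^ 2 - PR h k₀ K α ^ 2 := by nlinarith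
  calc ((PR h k₀ k₁ α - PR h k₀ K α) * ‖F α‖) ^ 2 = (PR h k₀ k₁ α - PR h k₀ K α) ^ 2 * ‖F α‖ ^ 2 := by ring
    _ ≤ (PR h k₀ k₁ α ^ 2 - PR h k₀ K α ^ 2) * ‖F α‖ ^ 2 := by gcongr
    _ = _ := by ring

section
variable [MeasurableSpace X] {μ : Measure X} [IsProbabilityMeasure μ]
  (T : Fin D → X → X) (hT : ∀ i, MeasurePreserving (T i) μ μ)

/-- exceptional event -/
def Ev (w : (Fin D → ℕ) → ℂ) (T : Fin D → X → X) (N : ℕ → ℕ) (Φ : X → ℂ) (ε : ℝ) (k₂ K : ℕ) : Set X :=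
  {x | ∃ k ∈ Finset.Ico k₂ K, ε < ‖avg w T Φ (N k) x‖}

/-- normalised energy -/
def Lam (h : ℕ → ℕ) (T : Fin D → X → X) (μ : Measure X) (Φ : X → ℂ) (k₀ k J : ℕ) : ℝ :=
  (∫ x, nsq (Pf h k₀ k * transf T J Φ x) ∂μ) / (J:ℝ) ^ D

include hT

lemma measurable_avg (w : (Fin D → ℕ) → ℂ) (Φ : X → ℂ) (hΦ : Measurable Φ) (N : ℕ) :
    Measurable (avg w T Φ N) := by
  unfold avg
  apply Measurable.const_mul
  apply Finset.measurable_sum
  intro n _
  exact (hΦ.comp (act_mp T hT n).measurable).const_mul _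

lemma measurable_Ev (w : (Fin D → ℕ) → ℂ) (N : ℕ → ℕ) (Φ : X → ℂ) (hΦ : Measurable Φ) (ε : ℝ)
    (k₂ K : ℕ) : MeasurableSet (Ev w T N Φ ε k₂ K) := by
  have : Ev w T N Φ ε k₂ K = ⋃ k ∈ Finset.Ico k₂ K, {x | ε < ‖avg w T Φ (N k) x‖} := by
    ext x; simp [Ev]
  rw [this]
  apply Finset.measurableSet_biUnion
  intro k _
  exact measurableSet_lt measurable_const (measurable_avg T hT w Φ hΦ (N k)).norm

lemma integrable_bdry (J W : ℕ) (i : Fin D) (Ψ : X → ℂ) (hΨ : MemLp Ψ 2 μ) :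
    Integrable (fun x => nsq (bdry T J W i Ψ x)) μ := by
  have hΨ2 : MemLp (fun y => Ψ ((T i)^[W] y)) 2 μ := hΨ.comp_measurePreserving ((hT i).iterate W)
  have h1 := integrable_nsq_transf T hT 1 J _ hΨ2
  have h2 := integrable_nsq_transf T hT (ee (Pi.single i (W:ℤ))) J _ hΨ
  have h3 := (h1.const_mul 2).add (h2.const_mul 2)
  have hm : ∀ Φ : X → ℂ, MemLp Φ 2 μ → AEStronglyMeasurable (fun x => transf T J Φ x) μ := by
    intro Φ hΦ
    have : (fun x => transf T J Φ x) = fun x => ∑ j ∈ nbox D J, Φ (act T j x) • ee (-(cst j)) := rfl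
    rw [this]
    apply Finset.aestronglyMeasurable_fun_sum
    intro j _
    apply AEStronglyMeasurable.smul_const
    exact (hΦ.comp_measurePreserving (act_mp T hT j)).1
  refine h3.mono' ?_ ?_
  · apply continuous_nsq.comp_aestronglyMeasurable
    exact (hm _ hΨ2).sub ((hm _ hΨ).const_mul _)
  · refine Filter.Eventually.of_forall (fun x => ?_)
    rw [Real.norm_of_nonneg (nsq_nonneg _), bdry]
    refine (nsq_sub_le _ _).trans ?_
    simp

lemma Lam_nonneg (h : ℕ → ℕ) (Φ : X → ℂ) (k₀ k J : ℕ) : 0 ≤ Lam h T μ Φ k₀ k J := by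
  rw [Lam]
  apply div_nonneg (integral_nonneg (fun x => nsq_nonneg _)) (by positivity)

lemma Lam_le (h : ℕ → ℕ) (k₀ : ℕ) (hk : ∀ i, k₀ ≤ i → ∀ α : Tor D, ‖kp h i α‖ ≤ 2)
    (Φ : X → ℂ) (hΦm : Measurable Φ) (hΦ : MemLp Φ 2 μ) (k J : ℕ) :
    Lam h T μ Φ k₀ k J ≤ n2 μ Φ := by
  have h1 : ∫ x, nsq (Pf h k₀ k * transf T J Φ x) ∂μ ≤ (J:ℝ) ^ D * n2 μ Φ := by
    rw [← int_nsq_transf T hT J Φ hΦm hΦ]
    apply integral_mono (integrable_nsq_transf T hT _ J Φ hΦ)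
    · have := integrable_nsq_transf T hT 1 J Φ hΦ
      simpa using this
    · intro x
      refine (nsq_mul_le _ _ 1 (norm_Pf_le h k₀ hk k)).trans (le_of_eq (by ring))
  have h2 := n2_nonneg (μ := μ) Φ
  rw [Lam]
  by_cases hJ : (J:ℝ) ^ D = 0
  · rw [hJ, div_zero]; exact h2
  · have hJ' : 0 < (J:ℝ) ^ D := lt_of_le_of_ne (by positivity) (Ne.symm hJ)
    rw [div_le_iff₀ hJ']; linarith

lemma exists_k1 (h : ℕ → ℕ) (k₀ : ℕ) (hk : ∀ i, k₀ ≤ i → ∀ α : Tor D, ‖kp h i α‖ ≤ 2)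
    (Φ : X → ℂ) (hΦm : Measurable Φ) (hΦ : MemLp Φ 2 μ) (δ : ℝ) (hδ : 0 < δ) :
    ∃ k₁ ≥ k₀, ∀ K ≥ k₁, ∃ᶠ J : ℕ in atTop, Lam h T μ Φ k₀ k₁ J - Lam h T μ Φ k₀ K J ≤ δ := by
  by_contra hcon
  push Not at hcon
  have key : ∀ m : ℕ, ∃ K ≥ k₀, ∀ᶠ J : ℕ in atTop, (m:ℝ) * δ ≤ Lam h T μ Φ k₀ k₀ J - Lam h T μ Φ k₀ K J := by
    intro m
    induction m with
    | zero => exact ⟨k₀, le_refl _, by simp⟩
    | succ m ih =>
      obtain ⟨K, hK, hev⟩ := ih
      obtain ⟨K', hK', hev'⟩ := hcon K hK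
      refine ⟨K', by omega, ?_⟩
      filter_upwards [hev, hev'] with J h1 h2
      push_cast; linarith
  obtain ⟨m, hm⟩ := exists_nat_gt (n2 μ Φ / δ)
  obtain ⟨K, hK, hev⟩ := key m
  obtain ⟨J, hJ⟩ := hev.exists
  have h1 := Lam_le T hT h k₀ hk Φ hΦm hΦ k₀ J
  have h2 := Lam_nonneg T hT h Φ k₀ K J (μ := μ)
  rw [div_lt_iff₀ hδ] at hm
  linarith

end

lemma int4 [MeasurableSpace X] {μ : Measure X} (A B C E : X → ℝ) (hA : Integrable A μ)
    (hB : Integrable B μ) (hC : Integrable C μ) (hE : Integrable E μ) :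
    ∫ x, (A x + B x + C x + E x) ∂μ = ∫ x, A x ∂μ + ∫ x, B x ∂μ + ∫ x, C x ∂μ + ∫ x, E x ∂μ := by
  have h1 := integral_add ((hA.add hB).add hC) hE
  have h2 := integral_add (hA.add hB) hC
  have h3 := integral_add hA hB
  simp only [Pi.add_apply] at h1 h2 h3
  rw [h1, h2, h3]

section perp
variable [MeasurableSpace X] {μ : Measure X} [IsProbabilityMeasure μ]
  (T : Fin D → X → X) (hc : ∀ i j x, T i (T j x) = T j (T i x))
  (hT : ∀ i, MeasurePreserving (T i) μ μ)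

include hc hT

theorem perp_case (hD : 0 < D) (h N : ℕ → ℕ) (hs : Super h)
    (hN : ∀ᶠ k : ℕ in atTop, (h k) ^ 4 ≤ N k)
    (w : (Fin D → ℕ) → ℂ) (hw : ∀ n, ‖w n‖ ≤ 1)
    (happ : ∀ ε : ℝ, 0 < ε → ∃ C : ℝ, 0 ≤ C ∧ ∃ a, Approx D h N (fun k => kerN w (N k)) ε C a)
    (Φ : Lp ℂ 2 μ)
    (hΦ : ∀ W : ℕ, 1 ≤ W → ∀ z : Lp ℂ 2 μ,
      (∀ i, Lp.compMeasurePreserving ((T i)^[W]) ((hT i).iterate W) z = z) → inner ℂ z Φ = 0)
    (ε : ℝ) (hε : 0 < ε) :
    ∃ k₂, ∀ K ≥ k₂, μ.real (Ev w T N Φ ε k₂ K) ≤ ε * (n2 μ Φ + 4) := by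
  have hΦm : Measurable (Φ : X → ℂ) := (Lp.stronglyMeasurable Φ).measurable
  have hΦ2 : MemLp (Φ : X → ℂ) 2 μ := Lp.memLp Φ
  obtain ⟨Cst, hCst, k₀, hkp, H⟩ := theoremH hD h N hs hN (fun k => kerN w (N k)) (3 ^ D)
    (by positivity) (Filter.Eventually.of_forall (fun k => kerN_isTP w (N k)))
    (Filter.Eventually.of_forall (fun k => nsq_kerN w hw (N k))) happ ε hε
  set δ : ℝ := ε / (Cst + 1) with hδ
  have hδ0 : 0 < δ := by positivity
  have hδ1 : Cst * δ ≤ ε := by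
    rw [hδ, mul_div_assoc', div_le_iff₀ (by positivity)]
    nlinarith
  obtain ⟨k₁, hk₁, hk₁J⟩ := exists_k1 T hT h k₀ hkp Φ hΦm hΦ2 δ hδ0
  obtain ⟨W, hW, H1⟩ := H k₁ hk₁
  -- decomposition
  set V : Fin D → Lp ℂ 2 μ →L[ℂ] Lp ℂ 2 μ := fun i =>
    (Lp.compMeasurePreservingₗᵢ ℂ ((T i)^[W]) ((hT i).iterate W)).toContinuousLinearMap with hV
  have hVa : ∀ i z, V i z = Lp.compMeasurePreserving ((T i)^[W]) ((hT i).iterate W) z := fun i z => rfl
  obtain ⟨ψ, hψ⟩ := decomp_exists V (fun i => LinearIsometry.norm_toContinuousLinearMap_le _) Φ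
    (fun z hz => hΦ W hW z (fun i => by rw [← hVa]; exact hz i)) (Real.sqrt δ) (by positivity)
  have hψm : ∀ i, Measurable (ψ i : X → ℂ) := fun i => (Lp.stronglyMeasurable (ψ i)).measurable
  have hψ2 : ∀ i, MemLp (ψ i : X → ℂ) 2 μ := fun i => Lp.memLp (ψ i)
  set R : X → ℂ := fun x => Φ x - ∑ i, (ψ i x - ψ i ((T i)^[W] x)) with hR
  have hRae : R =ᵐ[μ] (Φ - ∑ i, (ψ i - V i (ψ i)) : Lp ℂ 2 μ) := by
    have e1 : ∀ i, ((V i (ψ i) : Lp ℂ 2 μ) : X → ℂ) =ᵐ[μ] (ψ i : X → ℂ) ∘ (T i)^[W] := fun i =>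
      Lp.coeFn_compMeasurePreserving (ψ i) ((hT i).iterate W)
    have e2 := ae_all_iff.mpr e1
    have e3 := ae_all_iff.mpr (fun i => Lp.coeFn_sub (ψ i) (V i (ψ i)))
    have e4 := Lp.coeFn_sub Φ (∑ i, (ψ i - V i (ψ i)))
    have e5 : ((∑ i, (ψ i - V i (ψ i)) : Lp ℂ 2 μ) : X → ℂ) =ᵐ[μ] fun x => ∑ i, ((ψ i - V i (ψ i) : Lp ℂ 2 μ) : X → ℂ) x := by
      have : ∀ s : Finset (Fin D), ((∑ i ∈ s, (ψ i - V i (ψ i)) : Lp ℂ 2 μ) : X → ℂ) =ᵐ[μ]
          fun x => ∑ i ∈ s, ((ψ i - V i (ψ i) : Lp ℂ 2 μ) : X → ℂ) x := by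
        intro s
        induction s using Finset.induction_on with
        | empty =>
          simp only [Finset.sum_empty]
          exact Lp.coeFn_zero ℂ 2 μ
        | insert a s ha ih =>
          rw [Finset.sum_insert ha]
          filter_upwards [Lp.coeFn_add (ψ a - V a (ψ a)) (∑ i ∈ s, (ψ i - V i (ψ i))), ih] with x h1 h2
          rw [h1, Pi.add_apply, h2, Finset.sum_insert ha]
      exact this _
    filter_upwards [e2, e3, e4, e5] with x h2 h3 h4 h5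
    rw [h4, Pi.sub_apply, h5]
    simp only [hR]
    congr 1
    apply Finset.sum_congr rfl
    intro i _
    rw [h3 i, Pi.sub_apply, h2 i]
    rfl
  have hRm : Measurable R := by
    apply hΦm.sub
    apply Finset.measurable_sum
    intro i _
    exact (hψm i).sub ((hψm i).comp ((hT i).iterate W).measurable)
  have hR2 : MemLp R 2 μ := (memLp_congr_ae hRae).mpr (Lp.memLp _)
  have hRn : n2 μ R ≤ δ := by
    have e1 : n2 μ R = n2 μ ((Φ - ∑ i, (ψ i - V i (ψ i)) : Lp ℂ 2 μ) : X → ℂ) := by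
      rw [n2, n2]
      apply integral_congr_ae
      filter_upwards [hRae] with x hx
      rw [hx]
    rw [e1, n2_Lp]
    calc ‖Φ - ∑ i, (ψ i - V i (ψ i))‖ ^ 2 ≤ (Real.sqrt δ) ^ 2 := by gcongr
      _ = δ := Real.sq_sqrt hδ0.le
  -- M
  set Sψ : ℝ := ∑ i, n2 μ (ψ i : X → ℂ) with hSψ
  have hSψ0 : 0 ≤ Sψ := Finset.sum_nonneg (fun i _ => n2_nonneg _)
  set M : ℝ := (Sψ + 1) / ε with hM
  have hM0 : 0 < M := by positivity
  have hMS : M⁻¹ * Sψ ≤ ε := by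
    rw [hM, inv_div, div_mul_eq_mul_div, div_le_iff₀ (by positivity)]
    nlinarith
  obtain ⟨k₂, hk₂, H2⟩ := H1 M hM0
  refine ⟨k₂, ?_⟩
  intro K hK
  set Rm : ℕ := (Finset.range K).sup N with hRmdef
  have hNR : ∀ k, k < K → N k ≤ Rm := fun k hk => Finset.le_sup (Finset.mem_range.mpr hk)
  have hev := hk₁J K (by omega)
  set E := Ev w T N Φ ε k₂ K with hE
  apply limit_lemma (D := D) _ _ Rm
    (fun J => Cst * (2 * (D * ∑ i, 4 * W * n2 μ (ψ i : X → ℂ))) / (J:ℝ))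
    (tendsto_const_div_atTop_nhds_zero_nat _)
  refine (hev.and_eventually (eventually_ge_atTop 1)).mono ?_
  rintro J ⟨hJ, hJ1⟩
  have hJ0 : (0:ℝ) < J := by exact_mod_cast hJ1
  have hJD : (0:ℝ) < (J:ℝ) ^ D := by positivity
  set G : X → ℝ := fun x => ε * nsq (transf T J Φ x)
    + Cst * (nsq (Pf h k₀ k₁ * transf T J Φ x) - nsq (Pf h k₀ K * transf T J Φ x))
    + Cst * (2 * nsq (transf T J R x) + 2 * (D * ∑ i, nsq (bdry T J W i (ψ i) x)))
    + M⁻¹ * ∑ i, nsq (transf T J (ψ i) x) with hG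
  have i1 : Integrable (fun x => nsq (transf T J Φ x)) μ := by
    simpa using integrable_nsq_transf T hT 1 J _ hΦ2
  have i2 := integrable_nsq_transf T hT (Pf h k₀ k₁) J _ hΦ2
  have i3 := integrable_nsq_transf T hT (Pf h k₀ K) J _ hΦ2
  have i4 : Integrable (fun x => nsq (transf T J R x)) μ := by
    simpa using integrable_nsq_transf T hT 1 J _ hR2
  have i5 : ∀ i, Integrable (fun x => nsq (bdry T J W i (ψ i) x)) μ := fun i =>
    integrable_bdry T hT J W i _ (hψ2 i)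
  have i6 : ∀ i, Integrable (fun x => nsq (transf T J (ψ i) x)) μ := fun i => by
    simpa using integrable_nsq_transf T hT 1 J _ (hψ2 i)
  have i7 : Integrable (fun x => ∑ i, nsq (bdry T J W i (ψ i) x)) μ :=
    integrable_finsetSum _ (fun i _ => i5 i)
  have i8 : Integrable (fun x => ∑ i, nsq (transf T J (ψ i) x)) μ :=
    integrable_finsetSum _ (fun i _ => i6 i)
  have hGi : Integrable G μ := by
    apply Integrable.add
    · apply Integrable.add
      · apply Integrable.add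
        · exact i1.const_mul _
        · exact (i2.sub i3).const_mul _
      · exact ((i4.const_mul _).add ((i7.const_mul _).const_mul _)).const_mul _
    · exact i8.const_mul _
  have hpt : ∀ x, (((nbox D (J - Rm)).filter (fun j => act T j x ∈ E)).card : ℝ) ≤ G x := by
    intro x
    set S : Finset (Lat D) := ((nbox D (J - Rm)).filter (fun j => act T j x ∈ E)).image (fun j => -(cst j)) with hS
    have hScard : S.card = ((nbox D (J - Rm)).filter (fun j => act T j x ∈ E)).card := by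
      apply Finset.card_image_of_injective
      intro a b hab
      exact cst_injective (neg_injective hab)
    have h1 := H2 K hK (transf T J Φ x) (fun i => transf T J (ψ i) x) S ?_
    · rw [← hScard]
      refine h1.trans ?_
      rw [hG]
      simp only
      have e1 := nsq_Pf_diff h k₀ hkp k₁ K (by omega) (transf T J Φ x)
      have e2 : transf T J Φ x - ∑ i, (1 - ee (Pi.single i (W : ℤ))) * transf T J (ψ i) x =
          transf T J R x - ∑ i, bdry T J W i (ψ i) x := by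
        have e3 : transf T J R x = transf T J Φ x -
            ∑ i, (transf T J (ψ i) x - transf T J (fun y => ψ i ((T i)^[W] y)) x) := by
          rw [hR, transf_sub, transf_sum]
          congr 1
          apply Finset.sum_congr rfl
          intro i _
          rw [transf_sub]
        rw [e3]
        simp only [bdry, sub_mul, one_mul, Finset.sum_sub_distrib]
        abel
      have e4 : nsq (transf T J Φ x - ∑ i, (1 - ee (Pi.single i (W : ℤ))) * transf T J (ψ i) x) ≤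
          2 * nsq (transf T J R x) + 2 * (D * ∑ i, nsq (bdry T J W i (ψ i) x)) := by
        rw [e2]
        refine (nsq_sub_le _ _).trans ?_
        have := nsq_sum_le Finset.univ (fun i => bdry T J W i (ψ i) x)
        rw [Finset.card_univ, Fintype.card_fin] at this
        linarith
      have e5 := mul_le_mul_of_nonneg_left e1 hCst
      have e6 := mul_le_mul_of_nonneg_left e4 hCst
      linarith
    · intro n hn
      rw [hS, Finset.mem_image] at hn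
      obtain ⟨j, hj, rfl⟩ := hn
      rw [Finset.mem_filter, mem_nbox] at hj
      obtain ⟨k, hk, hlt⟩ := hj.2
      refine ⟨k, hk, ?_⟩
      rw [cf_kerN_transf w T hc]
      · exact hlt
      · intro i
        have := hj.1 i
        have := hNR k (Finset.mem_Ico.mp hk).2
        omega
  have hmain := transference T hT E (measurable_Ev T hT w N Φ hΦm ε k₂ K) (J - Rm) G hGi hpt
  refine hmain.trans ?_
  have hint : ∫ x, G x ∂μ = ε * ((J:ℝ) ^ D * n2 μ Φ)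
      + Cst * ((J:ℝ) ^ D * (Lam h T μ Φ k₀ k₁ J - Lam h T μ Φ k₀ K J))
      + Cst * (2 * ((J:ℝ) ^ D * n2 μ R) + 2 * (D * ∑ i, ∫ x, nsq (bdry T J W i (ψ i) x) ∂μ))
      + M⁻¹ * ((J:ℝ) ^ D * Sψ) := by
    refine (int4 (fun x => ε * nsq (transf T J Φ x))
      (fun x => Cst * (nsq (Pf h k₀ k₁ * transf T J Φ x) - nsq (Pf h k₀ K * transf T J Φ x)))
      (fun x => Cst * (2 * nsq (transf T J R x) + 2 * (D * ∑ i, nsq (bdry T J W i (ψ i) x))))
      (fun x => M⁻¹ * ∑ i, nsq (transf T J (ψ i) x)) (i1.const_mul _) ((i2.sub i3).const_mul _)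
      (((i4.const_mul _).add ((i7.const_mul _).const_mul _)).const_mul _) (i8.const_mul _)).trans ?_
    rw [integral_const_mul, integral_const_mul, integral_const_mul, integral_const_mul]
    rw [integral_sub i2 i3, integral_add (i4.const_mul _) ((i7.const_mul _).const_mul _)]
    rw [integral_const_mul, integral_const_mul, integral_const_mul,
      integral_finsetSum _ (fun i _ => i5 i), integral_finsetSum _ (fun i _ => i6 i)]
    rw [int_nsq_transf T hT J Φ hΦm hΦ2, int_nsq_transf T hT J R hRm hR2]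
    have : ∀ i, ∫ x, nsq (transf T J (ψ i) x) ∂μ = (J:ℝ) ^ D * n2 μ (ψ i : X → ℂ) := fun i =>
      int_nsq_transf T hT J _ (hψm i) (hψ2 i)
    simp_rw [this]
    have hL1 : ∀ k, ∫ x, nsq (Pf h k₀ k * transf T J Φ x) ∂μ = (J:ℝ) ^ D * Lam h T μ Φ k₀ k J := by
      intro k
      rw [Lam, mul_div_cancel₀ _ hJD.ne']
    rw [← Finset.mul_sum, hL1, hL1, hSψ]
    ring
  rw [hint]
  have hb : ∑ i, ∫ x, nsq (bdry T J W i (ψ i) x) ∂μ ≤ (∑ i, 4 * W * n2 μ (ψ i : X → ℂ)) / J * (J:ℝ) ^ D := by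
    rw [Finset.sum_div, Finset.sum_mul]
    apply Finset.sum_le_sum
    intro i _
    have := int_bdry_le T hc hT J W i (ψ i) (hψm i) (hψ2 i) (i5 i)
    rw [div_mul_eq_mul_div, le_div_iff₀ hJ0]
    linarith
  have f1 : Cst * (2 * (D * ∑ i, ∫ x, nsq (bdry T J W i (ψ i) x) ∂μ)) ≤
      Cst * (2 * (D * ((∑ i, 4 * W * n2 μ (ψ i : X → ℂ)) / J * (J:ℝ) ^ D))) := by gcongr
  have f2 : Cst * ((J:ℝ) ^ D * (Lam h T μ Φ k₀ k₁ J - Lam h T μ Φ k₀ K J)) ≤ Cst * ((J:ℝ) ^ D * δ) := by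
    gcongr
  have f3 : Cst * (2 * ((J:ℝ) ^ D * n2 μ R)) ≤ Cst * (2 * ((J:ℝ) ^ D * δ)) := by gcongr
  have f4 : Cst * ((J:ℝ) ^ D * δ) ≤ ε * (J:ℝ) ^ D := by
    calc Cst * ((J:ℝ) ^ D * δ) = (Cst * δ) * (J:ℝ) ^ D := by ring
      _ ≤ _ := by gcongr
  have f5 : M⁻¹ * ((J:ℝ) ^ D * Sψ) ≤ ε * (J:ℝ) ^ D := by
    calc M⁻¹ * ((J:ℝ) ^ D * Sψ) = (M⁻¹ * Sψ) * (J:ℝ) ^ D := by ring
      _ ≤ _ := by gcongr
  calc _ ≤ ε * ((J:ℝ) ^ D * n2 μ Φ) + ε * (J:ℝ) ^ D + 2 * (ε * (J:ℝ) ^ D) +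
        Cst * (2 * (D * ((∑ i, 4 * W * n2 μ (ψ i : X → ℂ)) / J * (J:ℝ) ^ D))) + ε * (J:ℝ) ^ D := by
        linarith
    _ = _ := by ring

end perp

end PSarnak
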