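import Pool.Agent.Run7.h492.Ergodic3

/-!
Ergodic part, conclusion: almost everywhere convergence.
-/

set_option linter.unusedVariables false
set_option linter.unusedSectionVars false

noncomputable section

open MeasureTheory Finset UnitAddTorus Filter
open scoped ComplexConjugate ENNReal Classical

namespace PSarnak

local instance instMS10 : MeasureSpace UnitAddCircle := ⟨AddCircle.haarAddCircle⟩
local instance instHaar10 : Measure.IsAddHaarMeasure (volume : Measure UnitAddCircle) :=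
  inferInstanceAs (Measure.IsAddHaarMeasure AddCircle.haarAddCircle)

variable {D : ℕ} {X : Type*}

lemma ae_tendsto_of [MeasurableSpace X] {μ : Measure X} (f : ℕ → X → ℂ)
    (h : ∀ l : ℝ, 0 < l → ∀ δ : ℝ, 0 < δ → μ {x | ¬ ∀ᶠ k in atTop, ‖f k x‖ ≤ l} ≤ ENNReal.ofReal δ) :
    ∀ᵐ x ∂μ, Tendsto (fun k => f k x) atTop (nhds 0) := by
  have h1 : ∀ m : ℕ, ∀ᵐ x ∂μ, ∀ᶠ k in atTop, ‖f k x‖ ≤ 1 / ((m:ℝ) + 1) := by
    intro m
    rw [ae_iff]
    have h2 : ∀ δ : NNReal, 0 < δ →  μ {x | ¬ ∀ᶠ k in atTop, ‖f k x‖ ≤ 1 / ((m:ℝ) + 1)} ≤ 0 + (δ : ℝ≥0∞) := by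
      intro δ hδ
      rw [zero_add]
      have := h (1 / ((m:ℝ) + 1)) (by positivity) δ (by exact_mod_cast hδ)
      rwa [ENNReal.ofReal_coe_nnreal] at this
    have h3 := ENNReal.le_of_forall_pos_le_add (a := μ {x | ¬ ∀ᶠ k in atTop, ‖f k x‖ ≤ 1 / ((m:ℝ) + 1)})
      (b := 0) (fun δ hδ _ => h2 δ hδ)
    exact le_antisymm h3 zero_le
  rw [← ae_all_iff] at h1
  filter_upwards [h1] with x hx
  rw [tendsto_zero_iff_norm_tendsto_zero, Metric.tendsto_atTop]
  intro ε hε
  obtain ⟨m, hm⟩ := exists_nat_one_div_lt hε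
  obtain ⟨K, hK⟩ := eventually_atTop.mp (hx m)
  refine ⟨K, fun k hk => ?_⟩
  rw [Real.dist_eq, sub_zero, abs_norm]
  exact lt_of_le_of_lt (hK k hk) hm

section
variable [MeasurableSpace X] {μ : Measure X} [IsProbabilityMeasure μ]
  (T : Fin D → X → X) (hc : ∀ i j x, T i (T j x) = T j (T i x))
  (hT : ∀ i, MeasurePreserving (T i) μ μ)

lemma measure_of_Ev (w : (Fin D → ℕ) → ℂ) (N : ℕ → ℕ) (Φ : X → ℂ) (ε : ℝ) (k₂ : ℕ) (B : ℝ)
    (h : ∀ K ≥ k₂, μ.real (Ev w T N Φ ε k₂ K) ≤ B) :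
    μ {x | ¬ ∀ᶠ k in atTop, ‖avg w T Φ (N k) x‖ ≤ ε} ≤ ENNReal.ofReal B := by
  have hmono : Monotone (fun K => Ev w T N Φ ε k₂ K) := by
    intro K K' hK x hx
    obtain ⟨k, hk, hlt⟩ := hx
    refine ⟨k, ?_, hlt⟩
    rw [Finset.mem_Ico] at hk ⊢
    omega
  have hsub : {x | ¬ ∀ᶠ k in atTop, ‖avg w T Φ (N k) x‖ ≤ ε} ⊆ ⋃ K, Ev w T N Φ ε k₂ K := by
    intro x hx
    rw [Set.mem_ofPred_eq, eventually_atTop] at hx
    push Not at hx
    obtain ⟨k, hk, hlt⟩ := hx k₂
    rw [Set.mem_iUnion]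
    refine ⟨k + 1, k, ?_, hlt⟩
    rw [Finset.mem_Ico]; omega
  refine (measure_mono hsub).trans ?_
  rw [hmono.measure_iUnion]
  apply iSup_le
  intro K
  have h1 : μ (Ev w T N Φ ε k₂ K) ≤ μ (Ev w T N Φ ε k₂ (max K k₂)) :=
    measure_mono (hmono (le_max_left _ _))
  refine h1.trans ?_
  have h2 := h (max K k₂) (le_max_right _ _)
  rw [measureReal_def] at h2
  rw [← ENNReal.ofReal_toReal (measure_ne_top μ (Ev w T N Φ ε k₂ (max K k₂)))]
  exact ENNReal.ofReal_le_ofReal h2

include hT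

lemma avg_congr_ae (w : (Fin D → ℕ) → ℂ) (Φ Ψ : X → ℂ) (h : Φ =ᵐ[μ] Ψ) :
    ∀ᵐ x ∂μ, ∀ N, avg w T Φ N x = avg w T Ψ N x := by
  have h1 : ∀ n : Fin D → ℕ, ∀ᵐ x ∂μ, Φ (act T n x) = Ψ (act T n x) := fun n =>
    (act_mp T hT n).quasiMeasurePreserving.ae_eq_comp h
  rw [← ae_all_iff] at h1
  filter_upwards [h1] with x hx
  intro N
  simp only [avg]
  simp_rw [hx]

omit hT in
lemma avg_add (w : (Fin D → ℕ) → ℂ) (Φ Ψ : X → ℂ) (N : ℕ) (x : X) :
    avg w T (fun y => Φ y + Ψ y) N x = avg w T Φ N x + avg w T Ψ N x := by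
  simp only [avg, mul_add, Finset.sum_add_distrib]

include hc

lemma weak_max (w : (Fin D → ℕ) → ℂ) (hw : ∀ n, ‖w n‖ ≤ 1) (N : ℕ → ℕ) (Φ : X → ℂ)
    (hΦm : Measurable Φ) (hΦ : MemLp Φ 2 μ) (l : ℝ) (hl : 0 < l) (k₂ K : ℕ) :
    μ.real (Ev w T N Φ l k₂ K) ≤ 5 ^ D * 3 ^ D * n2 μ Φ / l ^ 2 := by
  set Rm : ℕ := (Finset.range K).sup N with hRmdef
  have hNR : ∀ k, k < K → N k ≤ Rm := fun k hk => Finset.le_sup (Finset.mem_range.mpr hk)
  apply limit_lemma (D := D) _ _ Rm (fun J => 0) tendsto_const_nhds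
  apply Filter.Eventually.frequently
  filter_upwards [eventually_ge_atTop 1] with J hJ
  set E := Ev w T N Φ l k₂ K with hE
  have i1 : Integrable (fun x => nsq (transf T J Φ x)) μ := by
    simpa using integrable_nsq_transf T hT 1 J _ hΦ
  have hpt : ∀ x, (((nbox D (J - Rm)).filter (fun j => act T j x ∈ E)).card : ℝ) ≤
      5 ^ D * 3 ^ D / l ^ 2 * nsq (transf T J Φ x) := by
    intro x
    set S : Finset (Lat D) := ((nbox D (J - Rm)).filter (fun j => act T j x ∈ E)).image (fun j => -(cst j)) with hS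
    have hScard : S.card = ((nbox D (J - Rm)).filter (fun j => act T j x ∈ E)).card := by
      apply Finset.card_image_of_injective
      intro a b hab
      exact cst_injective (neg_injective hab)
    rw [← hScard]
    have h1 := max_principle (Finset.Ico k₂ K) (fun k => kerN w (N k)) N (3 ^ D) (by positivity)
      (fun k _ => kerN_isTP w (N k)) (fun k _ => nsq_kerN w hw (N k)) (transf T J Φ x) l hl S ?_
    · refine h1.trans (le_of_eq (by ring))
    · intro n hn
      rw [hS, Finset.mem_image] at hn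
      obtain ⟨j, hj, rfl⟩ := hn
      rw [Finset.mem_filter, mem_nbox] at hj
      obtain ⟨k, hk, hlt⟩ := hj.2
      refine ⟨k, hk, ?_⟩
      rw [cf_kerN_transf w T hc]
      · exact hlt
      · intro i
        have := hj.1 i
        have := hNR k (Finset.mem_Ico.mp hk).2
        omega
  have hmain := transference T hT E (measurable_Ev T hT w N Φ hΦm l k₂ K) (J - Rm) _
    (i1.const_mul _) hpt
  refine hmain.trans ?_
  rw [integral_const_mul, int_nsq_transf T hT J Φ hΦm hΦ]
  apply le_of_eq; ring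

/-- periodic functions -/
lemma periodic_case (w : (Fin D → ℕ) → ℂ)
    (hAP : ∀ W : ℕ, 1 ≤ W → ∀ r : Fin D → ℕ, Tendsto (fun N : ℕ => (1 / (N:ℂ) ^ D) *
      ∑ n ∈ (pbox D N).filter (fun n => ∀ i, n i % W = r i), w n) atTop (nhds 0))
    (W : ℕ) (hW : 1 ≤ W) (z : X → ℂ) (hz : ∀ i, (fun x => z ((T i)^[W] x)) =ᵐ[μ] z) :
    ∀ᵐ x ∂μ, Tendsto (fun N => avg w T z N x) atTop (nhds 0) := by
  have h1 : ∀ i, ∀ m : Fin D → ℕ, ∀ᵐ x ∂μ, z ((T i)^[W] (act T m x)) = z (act T m x) := by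
    intro i m
    exact (act_mp T hT m).quasiMeasurePreserving.ae_eq_comp (hz i)
  have h2 := ae_all_iff.mpr (fun i => ae_all_iff.mpr (h1 i))
  filter_upwards [h2] with x hx
  have h3 : ∀ i (a : ℕ) (m : Fin D → ℕ), z (act T (Pi.single i (W * a) + m) x) = z (act T m x) := by
    intro i a m
    induction a with
    | zero => simp
    | succ a ih =>
      have : (Pi.single i (W * (a + 1)) + m : Fin D → ℕ) = Pi.single i W + (Pi.single i (W * a) + m) := by
        rw [← add_assoc, ← Pi.single_add]; congr 2; ring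
      rw [this, act_add T hc, act_single, hx, ih]
  have h4 : ∀ (r m : Fin D → ℕ), z (act T (m + fun i => W * r i) x) = z (act T m x) := by
    intro r m
    have h5 : ∀ s : Finset (Fin D), z (act T (∑ i ∈ s, Pi.single i (W * r i) + m) x) = z (act T m x) := by
      intro s
      induction s using Finset.induction_on with
      | empty => simp
      | insert a s ha ih => rw [Finset.sum_insert ha, add_assoc, h3, ih]
    have h6 := h5 Finset.univ
    rw [Finset.univ_sum_single (fun i => W * r i)] at h6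
    rw [add_comm]; exact h6
  have h7 : ∀ n : Fin D → ℕ, z (act T n x) = z (act T (fun i => n i % W) x) := by
    intro n
    rw [← h4 (fun i => n i / W) (fun i => n i % W)]
    congr 2
    ext i
    simp only [Pi.add_apply]
    exact (Nat.mod_add_div (n i) W).symm
  have h8 : ∀ N, avg w T z N x = ∑ r ∈ nbox D W, z (act T r x) * ((1 / (N:ℂ) ^ D) *
      ∑ n ∈ (pbox D N).filter (fun n => ∀ i, n i % W = r i), w n) := by
    intro N
    rw [avg]
    have h9 : ∑ n ∈ pbox D N, w n * z (act T n x) =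
        ∑ r ∈ nbox D W, ∑ n ∈ (pbox D N).filter (fun n => (fun i => n i % W) = r), w n * z (act T n x) := by
      rw [Finset.sum_fiberwise_of_maps_to]
      intro n _
      rw [mem_nbox]
      intro i
      exact Nat.mod_lt _ hW
    rw [h9, Finset.mul_sum]
    apply Finset.sum_congr rfl
    intro r _
    have h10 : (pbox D N).filter (fun n => (fun i => n i % W) = r) =
        (pbox D N).filter (fun n => ∀ i, n i % W = r i) := by
      apply Finset.filter_congr
      intro n _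
      constructor
      · intro h i; rw [← h]
      · intro h; ext i; exact h i
    have h12 : ∑ n ∈ (pbox D N).filter (fun n => ∀ i, n i % W = r i), w n * z (act T n x) =
        (∑ n ∈ (pbox D N).filter (fun n => ∀ i, n i % W = r i), w n) * z (act T r x) := by
      rw [Finset.sum_mul]
      apply Finset.sum_congr rfl
      intro n hn
      rw [Finset.mem_filter] at hn
      have h11 : (fun i => n i % W) = r := by ext i; exact hn.2 i
      rw [h7 n, h11]
    rw [h10, h12]; ring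
  simp_rw [h8]
  rw [show (0:ℂ) = ∑ r ∈ nbox D W, z (act T r x) * 0 by simp]
  apply tendsto_finsetSum
  intro r _
  exact (hAP W hW r).const_mul _

end

end PSarnak
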