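import Pool.Agent.Run7.h492.Ergodic4

/-!
Ergodic part, conclusion.
-/

set_option linter.unusedVariables false
set_option linter.unusedSectionVars false

noncomputable section

open MeasureTheory Finset UnitAddTorus Filter
open scoped ComplexConjugate ENNReal Classical

namespace PSarnak

local instance instMS11 : MeasureSpace UnitAddCircle := ⟨AddCircle.haarAddCircle⟩
local instance instHaar11 : Measure.IsAddHaarMeasure (volume : Measure UnitAddCircle) :=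
  inferInstanceAs (Measure.IsAddHaarMeasure AddCircle.haarAddCircle)

variable {D : ℕ} {X : Type*}

/-- the averages over arithmetic progressions tend to zero -/
def APz (w : (Fin D → ℕ) → ℂ) : Prop :=
  ∀ W : ℕ, 1 ≤ W → ∀ r : Fin D → ℕ, Tendsto (fun N : ℕ => (1 / (N:ℂ) ^ D) *
      ∑ n ∈ (pbox D N).filter (fun n => ∀ i, n i % W = r i), w n) atTop (nhds 0)

/-- approximability along a sequence of scales -/
def GoodSeq (w : (Fin D → ℕ) → ℂ) (N : ℕ → ℕ) : Prop :=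
  ∃ h : ℕ → ℕ, Super h ∧ (∀ᶠ k : ℕ in atTop, (h k) ^ 4 ≤ N k) ∧
    ∀ ε : ℝ, 0 < ε → ∃ C : ℝ, 0 ≤ C ∧ ∃ a, Approx D h N (fun k => kerN w (N k)) ε C a

section
variable [MeasurableSpace X] {μ : Measure X} [IsProbabilityMeasure μ]
  (T : Fin D → X → X) (hc : ∀ i j x, T i (T j x) = T j (T i x))
  (hT : ∀ i, MeasurePreserving (T i) μ μ)

/-- periodic vectors -/
def InvW (hT : ∀ i, MeasurePreserving (T i) μ μ) (W : ℕ) : Submodule ℂ (Lp ℂ 2 μ) :=
  ⨅ i, LinearMap.eqLocus (Lp.compMeasurePreservingₗ (μ := μ) (μb := μ) (p := 2) (E := ℂ) ℂ ((T i)^[W]) ((hT i).iterate W))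
    LinearMap.id

lemma mem_InvW (W : ℕ) (z : Lp ℂ 2 μ) : z ∈ InvW T hT W ↔
    ∀ i, Lp.compMeasurePreserving ((T i)^[W]) ((hT i).iterate W) z = z := by
  rw [InvW, Submodule.mem_iInf]
  rfl

include hc hT

theorem lac_case (hD : 0 < D) (N : ℕ → ℕ) (hNt : Tendsto N atTop atTop)
    (w : (Fin D → ℕ) → ℂ) (hw : ∀ n, ‖w n‖ ≤ 1) (hAP : APz w) (hG : GoodSeq w N)
    (Φ : Lp ℂ 2 μ) :
    ∀ᵐ x ∂μ, Tendsto (fun k => avg w T Φ (N k) x) atTop (nhds 0) := by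
  obtain ⟨h, hs, hN, happ⟩ := hG
  set S : Submodule ℂ (Lp ℂ 2 μ) := ⨆ W : {W : ℕ // 1 ≤ W}, InvW T hT W with hS
  set P : Lp ℂ 2 μ := (S.topologicalClosure.orthogonalProjectionOnto Φ : Lp ℂ 2 μ) with hP
  have hPmem : P ∈ S.topologicalClosure := Submodule.coe_mem _
  have hperp : Φ - P ∈ S.topologicalClosureᗮ := Submodule.sub_starProjection_mem_orthogonal _
  have hperp2 : ∀ W : ℕ, 1 ≤ W → ∀ z : Lp ℂ 2 μ,
      (∀ i, Lp.compMeasurePreserving ((T i)^[W]) ((hT i).iterate W) z = z) → inner ℂ z (Φ - P) = 0 := by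
    intro W hW z hz
    rw [Submodule.mem_orthogonal] at hperp
    apply hperp
    apply Submodule.le_topologicalClosure
    exact Submodule.mem_iSup_of_mem (⟨W, hW⟩ : {W : ℕ // 1 ≤ W}) ((mem_InvW T hT W z).mpr hz)
  -- the orthogonal part
  have hA : ∀ᵐ x ∂μ, Tendsto (fun k => avg w T (Φ - P : Lp ℂ 2 μ) (N k) x) atTop (nhds 0) := by
    apply ae_tendsto_of
    intro l hl δ hδ
    have hn := n2_nonneg (μ := μ) ((Φ - P : Lp ℂ 2 μ) : X → ℂ)
    set ε : ℝ := min l (δ / (n2 μ ((Φ - P : Lp ℂ 2 μ) : X → ℂ) + 4)) with hε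
    have hε0 : 0 < ε := by positivity
    obtain ⟨k₂, hk₂⟩ := perp_case T hc hT hD h N hs hN w hw happ (Φ - P) hperp2 ε hε0
    have h1 := measure_of_Ev T w N _ ε k₂ _ hk₂
    have h2 : {x | ¬ ∀ᶠ k in atTop, ‖avg w T (Φ - P : Lp ℂ 2 μ) (N k) x‖ ≤ l} ⊆
        {x | ¬ ∀ᶠ k in atTop, ‖avg w T (Φ - P : Lp ℂ 2 μ) (N k) x‖ ≤ ε} := by
      intro x hx h3
      apply hx
      filter_upwards [h3] with k hk
      exact hk.trans (min_le_left _ _)
    refine (measure_mono h2).trans (h1.trans ?_)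
    apply ENNReal.ofReal_le_ofReal
    have h4 : ε ≤ δ / (n2 μ ((Φ - P : Lp ℂ 2 μ) : X → ℂ) + 4) := min_le_right _ _
    rwa [le_div_iff₀ (by positivity)] at h4
  -- the span of periodic functions
  have hB : ∀ v ∈ S, ∀ᵐ x ∂μ, Tendsto (fun n => avg w T v n x) atTop (nhds 0) := by
    intro v hv
    rw [hS] at hv
    induction hv using Submodule.iSup_induction' with
    | mem i z hz =>
      rw [mem_InvW] at hz
      apply periodic_case T hc hT w hAP i i.2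
      intro j
      have h1 := Lp.coeFn_compMeasurePreserving z ((hT j).iterate i)
      rw [hz j] at h1
      exact h1.symm
    | zero =>
      have h1 := avg_congr_ae T hT w ((0 : Lp ℂ 2 μ) : X → ℂ) (fun _ => 0) (Lp.coeFn_zero ℂ 2 μ)
      filter_upwards [h1] with x hx
      simp_rw [hx]
      simp [avg]
    | add x y _ _ hx hy =>
      have h1 := avg_congr_ae T hT w ((x + y : Lp ℂ 2 μ) : X → ℂ) (fun t => x t + y t) (Lp.coeFn_add x y)
      filter_upwards [h1, hx, hy] with t h1 h2 h3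
      simp_rw [h1, avg_add]
      simpa using h2.add h3
  -- conclusion
  apply ae_tendsto_of
  intro l hl δ hδ
  have hl3 : 0 < l / 3 := by positivity
  set η : ℝ := δ * (l / 3) ^ 2 / (5 ^ D * 3 ^ D) with hη
  have hη0 : 0 < η := by positivity
  have hcl : P ∈ closure (S : Set (Lp ℂ 2 μ)) := hPmem
  rw [Metric.mem_closure_iff] at hcl
  obtain ⟨v, hv, hvd⟩ := hcl (Real.sqrt η) (by positivity)
  have hvn : n2 μ ((P - v : Lp ℂ 2 μ) : X → ℂ) ≤ η := by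
    rw [n2_Lp, ← dist_eq_norm]
    calc (dist P v) ^ 2 ≤ (Real.sqrt η) ^ 2 := by gcongr
      _ = η := Real.sq_sqrt hη0.le
  have hC : μ {x | ¬ ∀ᶠ k in atTop, ‖avg w T (P - v : Lp ℂ 2 μ) (N k) x‖ ≤ l / 3} ≤ ENNReal.ofReal δ := by
    apply measure_of_Ev T w N _ (l / 3) 0 δ
    intro K hK
    refine (weak_max T hc hT w hw N _ (Lp.stronglyMeasurable (P - v)).measurable (Lp.memLp _) (l / 3)
      hl3 0 K).trans ?_
    calc 5 ^ D * 3 ^ D * n2 μ ((P - v : Lp ℂ 2 μ) : X → ℂ) / (l / 3) ^ 2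
        ≤ 5 ^ D * 3 ^ D * η / (l / 3) ^ 2 := by gcongr
      _ = δ := by rw [hη]; field_simp
  have h5 : ∀ᵐ x ∂μ, ∀ n, avg w T Φ n x = avg w T (Φ - P : Lp ℂ 2 μ) n x +
      avg w T (P - v : Lp ℂ 2 μ) n x + avg w T v n x := by
    have e1 : (Φ : X → ℂ) =ᵐ[μ] fun t => (((Φ - P : Lp ℂ 2 μ) : X → ℂ) t + ((P - v : Lp ℂ 2 μ) : X → ℂ) t)
        + (v : X → ℂ) t := by
      filter_upwards [Lp.coeFn_sub Φ P, Lp.coeFn_sub P v] with t h1 h2
      rw [h1, h2]; simp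
    have e2 := avg_congr_ae T hT w _ _ e1
    filter_upwards [e2] with x hx
    intro n
    rw [hx n, avg_add, avg_add]
  have h6 : μ {x | ¬ (∀ n, avg w T Φ n x = avg w T (Φ - P : Lp ℂ 2 μ) n x +
      avg w T (P - v : Lp ℂ 2 μ) n x + avg w T v n x)} = 0 := h5
  have h7 : μ {x | ¬ Tendsto (fun k => avg w T (Φ - P : Lp ℂ 2 μ) (N k) x) atTop (nhds 0)} = 0 := hA
  have h8 : μ {x | ¬ Tendsto (fun n => avg w T v n x) atTop (nhds 0)} = 0 := hB v hv
  have h9 : {x | ¬ ∀ᶠ k in atTop, ‖avg w T Φ (N k) x‖ ≤ l} ⊆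
      (({x | ¬ (∀ n, avg w T Φ n x = avg w T (Φ - P : Lp ℂ 2 μ) n x +
      avg w T (P - v : Lp ℂ 2 μ) n x + avg w T v n x)} ∪
      {x | ¬ Tendsto (fun k => avg w T (Φ - P : Lp ℂ 2 μ) (N k) x) atTop (nhds 0)}) ∪
      {x | ¬ Tendsto (fun n => avg w T v n x) atTop (nhds 0)}) ∪
      {x | ¬ ∀ᶠ k in atTop, ‖avg w T (P - v : Lp ℂ 2 μ) (N k) x‖ ≤ l / 3} := by
    intro x hx
    by_contra hcon
    simp only [Set.mem_union, not_or] at hcon
    obtain ⟨⟨⟨c1, c2⟩, c3⟩, c4⟩ := hcon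
    have c1' := not_not.mp c1
    have c2' := not_not.mp c2
    have c3' := not_not.mp c3
    have c4' := not_not.mp c4
    apply hx
    have t2 := (tendsto_zero_iff_norm_tendsto_zero.mp c2').eventually (ge_mem_nhds hl3)
    have t3 := (tendsto_zero_iff_norm_tendsto_zero.mp (c3'.comp hNt)).eventually (ge_mem_nhds hl3)
    filter_upwards [t2, t3, c4'] with k k2 k3 k4
    rw [c1' (N k)]
    refine (norm_add₃_le).trans ?_
    simp only [Function.comp] at k3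
    linarith
  refine (measure_mono h9).trans ?_
  refine (measure_union_le _ _).trans ?_
  have h10 := measure_union_le (μ := μ) ({x | ¬ (∀ n, avg w T Φ n x = avg w T (Φ - P : Lp ℂ 2 μ) n x +
      avg w T (P - v : Lp ℂ 2 μ) n x + avg w T v n x)} ∪
      {x | ¬ Tendsto (fun k => avg w T (Φ - P : Lp ℂ 2 μ) (N k) x) atTop (nhds 0)})
      {x | ¬ Tendsto (fun n => avg w T v n x) atTop (nhds 0)}
  have h11 := measure_union_le (μ := μ) {x | ¬ (∀ n, avg w T Φ n x = avg w T (Φ - P : Lp ℂ 2 μ) n x +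
      avg w T (P - v : Lp ℂ 2 μ) n x + avg w T v n x)}
      {x | ¬ Tendsto (fun k => avg w T (Φ - P : Lp ℂ 2 μ) (N k) x) atTop (nhds 0)}
  rw [h6, h7, add_zero] at h11
  have h12 : μ ((({x | ¬ (∀ n, avg w T Φ n x = avg w T (Φ - P : Lp ℂ 2 μ) n x +
      avg w T (P - v : Lp ℂ 2 μ) n x + avg w T v n x)} ∪
      {x | ¬ Tendsto (fun k => avg w T (Φ - P : Lp ℂ 2 μ) (N k) x) atTop (nhds 0)}) ∪
      {x | ¬ Tendsto (fun n => avg w T v n x) atTop (nhds 0)})) ≤ 0 := by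
    refine h10.trans ?_
    rw [h8, add_zero]
    exact h11
  calc _ ≤ 0 + ENNReal.ofReal δ := add_le_add h12 hC
    _ = ENNReal.ofReal δ := zero_add _

/-- the sequence `⌊(1+θ)^k⌋` -/
def lacN (θ : ℝ) (k : ℕ) : ℕ := ⌊(1 + θ) ^ k⌋₊

theorem ergodic_main (hD : 0 < D)
    (w : (Fin D → ℕ) → ℂ) (hw : ∀ n, ‖w n‖ ≤ 1) (hAP : APz w)
    (hG : ∀ m : ℕ, GoodSeq w (fun k => ⌊(1 + 1 / ((m:ℝ) + 1)) ^ k⌋₊))
    (Φ : X → ℂ) (hΦ : MemLp Φ ∞ μ) :
    ∀ᵐ x ∂μ, Tendsto (fun n => avg w T Φ n x) atTop (nhds 0) := by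
  have hΦ2 : MemLp Φ 2 μ := hΦ.mono_exponent le_top
  set Ψ : Lp ℂ 2 μ := hΦ2.toLp Φ with hΨ
  have hΨae : (Ψ : X → ℂ) =ᵐ[μ] Φ := MemLp.coeFn_toLp _
  have hlac : ∀ m : ℕ, ∀ᵐ x ∂μ, Tendsto (fun k => avg w T Ψ (⌊(1 + 1 / ((m:ℝ) + 1)) ^ k⌋₊) x) atTop (nhds 0) := by
    intro m
    apply lac_case T hc hT hD (fun k => ⌊(1 + 1 / ((m:ℝ) + 1)) ^ k⌋₊) _ w hw hAP (hG m)
    apply tendsto_nat_floor_atTop.comp
    apply tendsto_pow_atTop_atTop_of_one_lt
    have : (0:ℝ) < 1 / ((m:ℝ) + 1) := by positivity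
    linarith
  obtain ⟨C, hC0, hC⟩ : ∃ C : ℝ, 0 ≤ C ∧ ∀ᵐ x ∂μ, ‖Φ x‖ ≤ C := by
    have h1 := ae_le_eLpNormEssSup (f := Φ) (μ := μ)
    have h2 : eLpNormEssSup Φ μ < ∞ := by
      have := hΦ.2
      rwa [eLpNorm_exponent_top] at this
    refine ⟨(eLpNormEssSup Φ μ).toReal, ENNReal.toReal_nonneg, ?_⟩
    filter_upwards [h1] with x hx
    have h3 := ENNReal.toReal_mono h2.ne hx
    simpa using h3
  have hC2 : ∀ᵐ x ∂μ, ∀ n : Fin D → ℕ, ‖Φ (act T n x)‖ ≤ C := by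
    rw [ae_all_iff]
    intro n
    exact (act_mp T hT n).quasiMeasurePreserving.ae hC
  have hcongr := avg_congr_ae T hT w _ _ hΨae
  filter_upwards [ae_all_iff.mpr hlac, hC2, hcongr] with x hx hxC hxe
  rw [tendsto_zero_iff_norm_tendsto_zero, Metric.tendsto_atTop]
  intro ε hε
  obtain ⟨m, hm⟩ := exists_nat_one_div_lt (show 0 < ε / (3 * (C * D + 1)) by positivity)
  set θ : ℝ := 1 / ((m:ℝ) + 1) with hθ
  have hθ0 : 0 < θ := by positivity
  have h1 := (tendsto_zero_iff_norm_tendsto_zero.mp (hx m)).eventually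
    (ge_mem_nhds (show (0:ℝ) < ε / 3 by positivity))
  obtain ⟨k₀, hk₀⟩ := eventually_atTop.mp h1
  obtain ⟨n₁, hn₁⟩ := exists_nat_gt (3 * (C * D + 1) / ε)
  obtain ⟨n₂, hn₂⟩ := exists_nat_gt ((1 + θ) ^ (k₀ + 1))
  refine ⟨max n₁ n₂ + 1, fun n hn => ?_⟩
  rw [Real.dist_eq, sub_zero, abs_norm]
  have hnn1 : n₁ < n := by have := le_max_left n₁ n₂; omega
  have hnn2 : n₂ < n := by have := le_max_right n₁ n₂; omega
  have hn0 : (0:ℝ) < n := by
    have : 0 < n := by omega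
    exact_mod_cast this
  have hn1 : (1:ℝ) ≤ n := by
    have : 1 ≤ n := by omega
    exact_mod_cast this
  obtain ⟨k, hk1, hk2⟩ := exists_nat_pow_near hn1 (show 1 < 1 + θ by linarith)
  have hkk : k₀ ≤ k := by
    by_contra hcon
    push Not at hcon
    have e1 : (1 + θ) ^ (k + 1) ≤ (1 + θ) ^ (k₀ + 1) := pow_le_pow_right₀ (by linarith) (by omega)
    have e2 : (n₂ : ℝ) < n := by exact_mod_cast hnn2
    linarith
  set Nk : ℕ := ⌊(1 + θ) ^ k⌋₊ with hNk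
  have hNk1 : Nk ≤ n := by
    rw [hNk]
    apply Nat.floor_le_of_le
    exact hk1
  have hNk2 : (n:ℝ) / (1 + θ) - 1 ≤ Nk := by
    have e1 := Nat.lt_floor_add_one ((1 + θ) ^ k)
    have e2 : (n:ℝ) / (1 + θ) ≤ (1 + θ) ^ k := by
      rw [div_le_iff₀ (by positivity), ← pow_succ]
      exact hk2.le
    linarith
  have hsmall := hk₀ k hkk
  rw [hxe] at hsmall
  have hsub : pbox D Nk ⊆ pbox D n := by
    intro j hj
    rw [mem_pbox] at hj ⊢
    intro i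
    exact ⟨(hj i).1, (hj i).2.trans hNk1⟩
  have hsplit : avg w T Φ n x = ((Nk:ℂ) / n) ^ D * avg w T Φ Nk x +
      (1 / (n:ℂ) ^ D) * ∑ j ∈ pbox D n \ pbox D Nk, w j * Φ (act T j x) := by
    rw [avg, avg, ← Finset.sum_sdiff hsub, mul_add, add_comm]
    congr 1
    by_cases hz : Nk = 0
    · have : pbox D Nk = ∅ := by
        rw [hz, Finset.eq_empty_iff_forall_notMem]
        intro j hj
        have := mem_pbox.mp hj ⟨0, hD⟩
        omega
      rw [this]; simp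
    · have hz' : (Nk : ℂ) ≠ 0 := by exact_mod_cast hz
      have hn' : (n : ℂ) ≠ 0 := by
        have : n ≠ 0 := by omega
        exact_mod_cast this
      rw [div_pow]
      field_simp
  have hratio : 1 - ((Nk:ℝ) / n) ^ D ≤ D * (θ + 1 / n) := by
    have e1 : 1 - (θ + 1 / n) ≤ (Nk:ℝ) / n := by
      rw [le_div_iff₀ hn0]
      have e3 : (n:ℝ) * (1 - θ) ≤ n / (1 + θ) := by
        rw [le_div_iff₀ (by positivity)]
        have : 0 ≤ (n:ℝ) * θ ^ 2 := by positivity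
        nlinarith
      have e4 : (1 - (θ + 1 / (n:ℝ))) * n = n * (1 - θ) - 1 := by field_simp; ring
      rw [e4]; linarith
    have e2 : 0 ≤ (Nk:ℝ) / n := by positivity
    have e5 : (Nk:ℝ) / n ≤ 1 := by
      rw [div_le_one hn0]; exact_mod_cast hNk1
    have e6 := one_add_mul_le_pow (a := (Nk:ℝ) / n - 1) (by linarith) D
    rw [add_sub_cancel] at e6
    have e7 : (D:ℝ) * ((Nk:ℝ) / n - 1) ≥ (D:ℝ) * (-(θ + 1 / n)) := by
      apply mul_le_mul_of_nonneg_left _ (Nat.cast_nonneg _)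
      linarith
    linarith
  have hcard : ((pbox D n \ pbox D Nk).card : ℝ) = (n:ℝ) ^ D - (Nk:ℝ) ^ D := by
    rw [Finset.card_sdiff_of_subset hsub, card_pbox, card_pbox, Nat.cast_sub (Nat.pow_le_pow_left hNk1 D)]
    push_cast; ring
  have hb1 : ‖((Nk:ℂ) / n) ^ D * avg w T Φ Nk x‖ ≤ ε / 3 := by
    rw [norm_mul]
    have e1 : ‖((Nk:ℂ) / n) ^ D‖ ≤ 1 := by
      rw [norm_pow, norm_div, Complex.norm_natCast, Complex.norm_natCast]
      apply pow_le_one₀ (by positivity)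
      rw [div_le_one hn0]; exact_mod_cast hNk1
    calc _ ≤ 1 * ‖avg w T Φ Nk x‖ := by gcongr
      _ ≤ _ := by rw [one_mul]; exact hsmall
  have hb2 : ‖(1 / (n:ℂ) ^ D) * ∑ j ∈ pbox D n \ pbox D Nk, w j * Φ (act T j x)‖ ≤
      C * (D * (θ + 1 / n)) := by
    rw [norm_mul, norm_div, norm_one, norm_pow, Complex.norm_natCast]
    have e1 : ‖∑ j ∈ pbox D n \ pbox D Nk, w j * Φ (act T j x)‖ ≤ ((n:ℝ) ^ D - (Nk:ℝ) ^ D) * C := by
      rw [← hcard, ← nsmul_eq_mul, ← Finset.sum_const]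
      refine (norm_sum_le _ _).trans (Finset.sum_le_sum ?_)
      intro j _
      rw [norm_mul]
      calc ‖w j‖ * ‖Φ (act T j x)‖ ≤ 1 * C := by
            have := hw j
            have := hxC j
            gcongr
        _ = C := one_mul _
    calc 1 / (n:ℝ) ^ D * ‖∑ j ∈ pbox D n \ pbox D Nk, w j * Φ (act T j x)‖
        ≤ 1 / (n:ℝ) ^ D * (((n:ℝ) ^ D - (Nk:ℝ) ^ D) * C) := by gcongr
      _ = C * (1 - ((Nk:ℝ) / n) ^ D) := by rw [div_pow]; field_simp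
      _ ≤ _ := by gcongr
  rw [hsplit]
  refine lt_of_le_of_lt (norm_add_le _ _) ?_
  have hfin1 : C * (D * θ) < ε / 3 := by
    have : θ < ε / (3 * (C * D + 1)) := hm
    rw [lt_div_iff₀ (by positivity)] at this
    nlinarith
  have hfin2 : C * (D * (1 / n)) < ε / 3 := by
    have e1 : 3 * (C * D + 1) / ε < n := by
      have : (n₁ : ℝ) < n := by exact_mod_cast hnn1
      linarith
    rw [div_lt_iff₀ hε] at e1
    have e2 : C * (D * (1 / (n:ℝ))) = (C * D) / n := by ring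
    rw [e2, div_lt_iff₀ hn0]
    nlinarith
  have : C * (D * (θ + 1 / n)) = C * (D * θ) + C * (D * (1 / n)) := by ring
  linarith

end

end PSarnak
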