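import Pool.Agent.Run7.h492.Assemble

/-!
The pointwise theorem.
-/

set_option linter.unusedVariables false
set_option linter.unusedSectionVars false

noncomputable section

open Finset NumberField Filter MeasureTheory
open scoped Classical ComplexConjugate ENNReal

namespace PSarnak

section seq

lemma exists_h (θ : ℝ) (hθ : 1 < θ) : ∃ h : ℕ → ℕ, Super h ∧ ∀ k : ℕ, (h k) ^ 4 ≤ ⌊θ ^ k⌋₊ := by
  refine ⟨fun k => Nat.sqrt (Nat.sqrt ⌊θ ^ k⌋₊), ?_, ?_⟩
  · intro p C
    set C' : ℝ := |C| + 1 with hC'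
    have hC'1 : 1 ≤ C' := by rw [hC']; linarith [abs_nonneg C]
    have hCC' : C ≤ C' := by rw [hC']; linarith [le_abs_self C]
    set c : ℝ := 16 * C' ^ 4 * 3 ^ (4 * p) with hc
    have hc0 : 0 < c := by positivity
    have h1 := tendsto_pow_const_div_const_pow_of_one_lt (4 * p) hθ
    have h2 := h1.eventually (gt_mem_nhds (show (0:ℝ) < 1 / c by positivity))
    filter_upwards [h2, eventually_ge_atTop 1] with k hk hk1
    have hkr : (1:ℝ) ≤ k := by exact_mod_cast hk1
    have hθk : 0 < θ ^ k := by positivity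
    rw [div_lt_div_iff₀ hθk hc0, one_mul] at hk
    -- lower bound for h
    set n := ⌊θ ^ k⌋₊ with hn
    set s := Nat.sqrt n with hs
    set h := Nat.sqrt s with hh
    have e1 : n < (s + 1) ^ 2 := Nat.lt_succ_sqrt' n
    have e2 : s < (h + 1) ^ 2 := Nat.lt_succ_sqrt' s
    have e3 : n + 1 ≤ (h + 1) ^ 4 := by
      have e4 : (s + 1) ^ 2 ≤ ((h + 1) ^ 2) ^ 2 := Nat.pow_le_pow_left e2 2
      have e5 : ((h + 1) ^ 2) ^ 2 = (h + 1) ^ 4 := by ring
      omega
    have e6 : θ ^ k < ((h:ℝ) + 1) ^ 4 := by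
      have e7 : θ ^ k < (n:ℝ) + 1 := Nat.lt_floor_add_one _
      have e8 : (n:ℝ) + 1 ≤ ((h:ℝ) + 1) ^ 4 := by exact_mod_cast e3
      linarith
    have e9 : (C' * ((k:ℝ) + 2) ^ p + 1) ^ 4 ≤ θ ^ k := by
      have f1 : 1 ≤ C' * ((k:ℝ) + 2) ^ p := one_le_mul_of_one_le_of_one_le hC'1 (one_le_pow₀ (by linarith))
      have f2 : ((k:ℝ) + 2) ^ p ≤ (3 * k) ^ p := by
        apply pow_le_pow_left₀ (by positivity); linarith
      calc (C' * ((k:ℝ) + 2) ^ p + 1) ^ 4 ≤ (2 * (C' * (3 * k) ^ p)) ^ 4 := by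
            apply pow_le_pow_left₀ (by positivity)
            have : C' * ((k:ℝ) + 2) ^ p ≤ C' * (3 * k) ^ p := by gcongr
            linarith
        _ = (k:ℝ) ^ (4 * p) * c := by
            rw [hc, mul_pow, mul_pow, mul_pow]
            rw [mul_pow, ← pow_mul, ← pow_mul, mul_comm p 4]
            ring
        _ ≤ θ ^ k := hk.le
    have e10 : C' * ((k:ℝ) + 2) ^ p + 1 < (h:ℝ) + 1 :=
      lt_of_pow_lt_pow_left₀ 4 (by positivity) (lt_of_le_of_lt e9 e6)
    have e11 : C * ((k:ℝ) + 2) ^ p ≤ C' * ((k:ℝ) + 2) ^ p := by gcongr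
    linarith
  · intro k
    have e1 := Nat.sqrt_le' (⌊θ ^ k⌋₊)
    have e2 := Nat.sqrt_le' (Nat.sqrt ⌊θ ^ k⌋₊)
    calc (Nat.sqrt (Nat.sqrt ⌊θ ^ k⌋₊)) ^ 4 = ((Nat.sqrt (Nat.sqrt ⌊θ ^ k⌋₊)) ^ 2) ^ 2 := by ring
      _ ≤ (Nat.sqrt ⌊θ ^ k⌋₊) ^ 2 := Nat.pow_le_pow_left e2 2
      _ ≤ _ := e1

end seq

section goodseq
variable {K : Type*} [Field K] [NumberField K] {D : ℕ} (b : Module.Basis (Fin D) ℤ (𝓞 K))

theorem goodSeq_mult (χ : 𝓞 K → ℂ) (hχ : ∀ x, ‖χ x‖ ≤ 1)
    (hm : ∀ x y, Nat.Coprime (Nn x) (Nn y) → χ (x * y) = χ x * χ y) (m : ℕ) :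
    GoodSeq (fun n => χ (iot b (cst n))) (fun k => ⌊(1 + 1 / ((m:ℝ) + 1)) ^ k⌋₊) := by
  have hθ : (1:ℝ) < 1 + 1 / ((m:ℝ) + 1) := by
    have : (0:ℝ) < 1 / ((m:ℝ) + 1) := by positivity
    linarith
  obtain ⟨h, h1, h2⟩ := exists_h _ hθ
  refine ⟨h, h1, Eventually.of_forall h2, ?_⟩
  intro ε hε
  exact exists_approx b χ hχ hm h _ h1 (Eventually.of_forall h2) ε hε

end goodseq

section comm
variable {D : ℕ} {X : Type*}

/-- words -/
def wd (T : Fin D → X → X) (u : List (Fin D)) (x : X) : X := u.foldr (fun i y => T i y) x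

lemma wd_append (T : Fin D → X → X) (u : List (Fin D)) (i : Fin D) (x : X) :
    wd T u (T i x) = wd T (u ++ [i]) x := by
  rw [wd, wd, List.foldr_append]; rfl

lemma wd_mp [MeasurableSpace X] {μ : Measure X} (T : Fin D → X → X) (hT : ∀ i, MeasurePreserving (T i) μ μ)
    (u : List (Fin D)) : MeasurePreserving (wd T u) μ μ := by
  induction u with
  | nil => exact MeasurePreserving.id μ
  | cons j l ih => exact (hT j).comp ih

/-- maps commuting almost everywhere agree almost everywhere with maps commuting everywhere -/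
theorem exists_comm [MeasurableSpace X] {μ : Measure X} (T : Fin D → X → X)
    (hc : ∀ i j, ∀ᵐ x ∂μ, T i (T j x) = T j (T i x)) (hT : ∀ i, MeasurePreserving (T i) μ μ) :
    ∃ T' : Fin D → X → X, (∀ i j x, T' i (T' j x) = T' j (T' i x)) ∧ (∀ i, MeasurePreserving (T' i) μ μ) ∧
      ∀ᵐ x ∂μ, ∀ n : Fin D → ℕ, act T' n x = act T n x := by
  have hall : ∀ᵐ x ∂μ, ∀ i j, T i (T j x) = T j (T i x) := by
    rw [ae_all_iff]; intro i
    rw [ae_all_iff]; intro j
    exact hc i j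
  obtain ⟨G, hGm, hG1, hG2⟩ : ∃ G : Set X, MeasurableSet G ∧ (∀ x ∈ G, ∀ i j, T i (T j x) = T j (T i x)) ∧ μ Gᶜ = 0 := by
    rw [ae_iff] at hall
    refine ⟨(toMeasurable μ {x | ¬ ∀ i j, T i (T j x) = T j (T i x)})ᶜ, (measurableSet_toMeasurable _ _).compl, ?_, ?_⟩
    · intro x hx
      by_contra hcon
      exact hx (subset_toMeasurable μ _ hcon)
    · rw [compl_compl, measure_toMeasurable]; exact hall
  set X' : Set X := ⋂ u : List (Fin D), (wd T u) ⁻¹' G with hX'
  have hX'm : MeasurableSet X' := MeasurableSet.iInter (fun u => (wd_mp T hT u).measurable hGm)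
  have hX'ae : ∀ᵐ x ∂μ, x ∈ X' := by
    rw [hX']
    have : ∀ᵐ x ∂μ, ∀ u : List (Fin D), x ∈ (wd T u) ⁻¹' G := by
      rw [ae_all_iff]
      intro u
      rw [ae_iff]
      have h1 : {x | ¬ x ∈ (wd T u) ⁻¹' G} = (wd T u) ⁻¹' Gᶜ := rfl
      rw [h1, (wd_mp T hT u).measure_preimage hGm.compl.nullMeasurableSet, hG2]
    filter_upwards [this] with x hx
    exact Set.mem_iInter.mpr hx
  have hinv : ∀ x ∈ X', ∀ i, T i x ∈ X' := by
    intro x hx i
    rw [hX', Set.mem_iInter] at hx ⊢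
    intro u
    have := hx (u ++ [i])
    rw [Set.mem_preimage, wd_append]
    exact this
  have hcomm : ∀ x ∈ X', ∀ i j, T i (T j x) = T j (T i x) := by
    intro x hx i j
    rw [hX', Set.mem_iInter] at hx
    exact hG1 x (hx []) i j
  set T' : Fin D → X → X := fun i x => if x ∈ X' then T i x else x with hT'
  have hTin : ∀ x ∈ X', ∀ i, T' i x = T i x := by
    intro x hx i
    rw [hT']; simp only [if_pos hx]
  have hTout : ∀ x, x ∉ X' → ∀ i, T' i x = x := by
    intro x hx i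
    rw [hT']; simp only [if_neg hx]
  refine ⟨T', ?_, ?_, ?_⟩
  · intro i j x
    by_cases hx : x ∈ X'
    · rw [hTin x hx, hTin x hx, hTin _ (hinv x hx j), hTin _ (hinv x hx i), hcomm x hx]
    · simp only [hTout x hx]
  · intro i
    have hae : T' i =ᵐ[μ] T i := by
      filter_upwards [hX'ae] with x hx
      exact hTin x hx i
    refine ⟨?_, ?_⟩
    · exact Measurable.ite hX'm (hT i).measurable measurable_id
    · rw [Measure.map_congr hae, (hT i).map_eq]
  · filter_upwards [hX'ae] with x hx n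
    have hiter : ∀ (i : Fin D) (a : ℕ) (y : X), y ∈ X' → (T' i)^[a] y = (T i)^[a] y ∧ (T i)^[a] y ∈ X' := by
      intro i a
      induction a with
      | zero => intro y hy; exact ⟨rfl, hy⟩
      | succ a ih =>
        intro y hy
        rw [Function.iterate_succ_apply, Function.iterate_succ_apply, hTin y hy]
        exact ih _ (hinv y hy i)
    have hfold : ∀ l : List (Fin D), l.foldr (fun i y => (T' i)^[n i] y) x = l.foldr (fun i y => (T i)^[n i] y) x ∧
        l.foldr (fun i y => (T i)^[n i] y) x ∈ X' := by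
      intro l
      induction l with
      | nil => exact ⟨rfl, hx⟩
      | cons j l ih =>
        rw [List.foldr_cons, List.foldr_cons, ih.1]
        exact hiter j (n j) _ ih.2
    exact (hfold _).1

end comm

section main
variable {K : Type*} [Field K] [NumberField K] {D : ℕ} (b : Module.Basis (Fin D) ℤ (𝓞 K))
variable {X : Type*} [MeasurableSpace X]

theorem pointwise_main (χ : 𝓞 K → ℂ) (hχ : ∀ x, ‖χ x‖ ≤ 1)
    (hm : ∀ x y, Nat.Coprime (Nn x) (Nn y) → χ (x * y) = χ x * χ y)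
    (hAP : APz (fun n : Fin D → ℕ => χ (iot b (cst n))))
    (μ : Measure X) [IsProbabilityMeasure μ] (T : Fin D → X → X)
    (hc : ∀ i j, ∀ᵐ x ∂μ, T i (T j x) = T j (T i x)) (hT : ∀ i, MeasurePreserving (T i) μ μ)
    (Φ : X → ℂ) (hΦ : MemLp Φ ∞ μ) :
    ∀ᵐ x ∂μ, Tendsto (fun N : ℕ => (1 / (N : ℂ) ^ D) *
      ∑ n ∈ Fintype.piFinset (fun _ : Fin D => Finset.Icc 1 N), χ (iot b (cst n)) * Φ (act T n x))
      atTop (nhds 0) := by
  obtain ⟨T', hc', hT', hact⟩ := exists_comm T hc hT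
  have h1 := ergodic_main T' hc' hT' (D_pos b) (fun n => χ (iot b (cst n))) (fun n => hχ _) hAP
    (goodSeq_mult b χ hχ hm) Φ hΦ
  filter_upwards [h1, hact] with x hx hax
  refine hx.congr (fun N => ?_)
  rw [avg, pbox]
  congr 1
  apply Finset.sum_congr rfl
  intro n _
  rw [hax]

end main

section ap
variable {D : ℕ}

/-- one residue class of a box as an arithmetic progression -/
lemma ap_box (W : ℕ) (hW : 1 ≤ W) (r : Fin D → ℕ) (hr : ∀ i, r i < W) (N : ℕ) (hN : W ≤ N) :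
    ∃ (n₀ : Fin D → ℤ) (L : Fin D → ℕ), (∀ i, 1 ≤ L i) ∧
      ∀ n : Fin D → ℤ, ((∀ i, -(N:ℤ) ≤ n i ∧ n i ≤ N) ∧ ∃ k : Fin D → ℕ, (∀ i, k i < L i) ∧ ∀ i, n i = n₀ i + W * k i) ↔
        ∀ i, (1 ≤ n i ∧ n i ≤ N) ∧ n i % W = r i := by
  have hWz : (0:ℤ) < W := by exact_mod_cast hW
  set a : Fin D → ℕ := fun i => if r i = 0 then W else r i with ha
  have ha1 : ∀ i, 1 ≤ a i ∧ a i ≤ N ∧ (a i : ℤ) % W = r i ∧ a i ≤ W := by
    intro i
    rw [ha]; simp only
    split_ifs with h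
    · rw [h]; refine ⟨hW, hN, ?_, le_rfl⟩; simp
    · have := hr i
      refine ⟨by omega, by omega, ?_, by omega⟩
      rw [Int.emod_eq_of_lt (by positivity) (by exact_mod_cast this)]
  refine ⟨fun i => (a i : ℤ), fun i => (N - a i) / W + 1, fun i => Nat.le_add_left 1 _, ?_⟩
  intro n
  constructor
  · rintro ⟨_, k, hk, hn⟩ i
    obtain ⟨h1, h2, h3, h4⟩ := ha1 i
    have h5 : k i < (N - a i) / W + 1 := hk i
    have h6 : k i ≤ (N - a i) / W := by omega
    have h7 : W * k i ≤ N - a i := by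
      calc W * k i ≤ W * ((N - a i) / W) := Nat.mul_le_mul_left _ h6
        _ ≤ N - a i := Nat.mul_div_le _ _
    have h8 : a i + W * k i ≤ N := by omega
    have h9 : n i = ((a i + W * k i : ℕ) : ℤ) := by rw [hn i]; push_cast; ring
    refine ⟨⟨?_, ?_⟩, ?_⟩
    · rw [h9]; exact_mod_cast (by omega : 1 ≤ a i + W * k i)
    · rw [h9]; exact_mod_cast h8
    · rw [hn i, Int.add_mul_emod_self_left]; exact h3
  · intro h
    refine ⟨fun i => ⟨by have := (h i).1; omega, (h i).1.2⟩, fun i => ((n i - a i) / W).toNat, ?_, ?_⟩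
    · intro i
      obtain ⟨⟨h1, h2⟩, h3⟩ := h i
      obtain ⟨g1, g2, g3, g4⟩ := ha1 i
      simp only
      have h4 : (n i - a i) / W ≤ ((N - a i : ℕ) : ℤ) / W := by
        apply Int.ediv_le_ediv hWz
        rw [Nat.cast_sub g2]; omega
      have h5 : ((n i - a i) / W).toNat ≤ (N - a i) / W := by
        rw [Int.toNat_le]; push_cast; exact_mod_cast h4
      omega
    · intro i
      obtain ⟨⟨h1, h2⟩, h3⟩ := h i
      obtain ⟨g1, g2, g3, g4⟩ := ha1 i
      have h4 : (W:ℤ) ∣ n i - a i := by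
        apply Int.dvd_of_emod_eq_zero
        rw [Int.sub_emod, h3, g3]; simp
      have h5 : (a i : ℤ) ≤ n i := by
        obtain ⟨c, hc⟩ := h4
        by_contra hlt
        rw [not_le] at hlt
        have h6 : (W:ℤ) * c < 0 := by omega
        have h7 : c < 0 := by
          by_contra h8
          rw [not_lt] at h8
          have := mul_nonneg hWz.le h8
          omega
        have h9 : (W:ℤ) * c ≤ -W := by nlinarith
        have h10 : (a i : ℤ) ≤ W := by exact_mod_cast g4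
        omega
      have h6 : 0 ≤ (n i - a i) / W := Int.ediv_nonneg (by omega) hWz.le
      have h7 : ((((n i - a i) / W).toNat : ℕ) : ℤ) = (n i - a i) / W := Int.toNat_of_nonneg h6
      rw [h7, Int.mul_ediv_cancel' h4]; ring

/-- progression with constant step -/
def prog (n₀ : Fin D → ℤ) (W : ℕ) (L : Fin D → ℕ) : Set (Fin D → ℤ) :=
  {n | ∃ k : Fin D → ℕ, (∀ i, k i < L i) ∧ ∀ i, n i = n₀ i + (W : ℤ) * (k i : ℤ)}

theorem apz_of (w : (Fin D → ℤ) → ℂ)
    (H : ∀ ε : ℝ, 0 < ε → ∃ N₀ : ℕ, ∀ N : ℕ, N₀ ≤ N → ∀ (n₀ : Fin D → ℤ) (W : ℕ) (L : Fin D → ℕ), 1 ≤ W →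
      (∀ i, 1 ≤ L i) → ‖(1 / (2 * (N:ℂ) + 1) ^ D) *
        ∑ n ∈ Fintype.piFinset (fun _ : Fin D => Finset.Icc (-(N:ℤ)) N), (prog n₀ W L).indicator w n‖ ≤ ε) :
    APz (fun n : Fin D → ℕ => w (cst n)) := by
  intro W hW r
  by_cases hr : ∀ i, r i < W
  swap
  · have h0 : ∀ N : ℕ, (pbox D N).filter (fun n => ∀ i, n i % W = r i) = ∅ := by
      intro N
      rw [Finset.filter_eq_empty_iff]
      intro n _ hn
      apply hr
      intro i
      rw [← hn i]
      exact Nat.mod_lt _ (by omega)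
    simp only [h0, Finset.sum_empty, mul_zero]
    exact tendsto_const_nhds
  rw [Metric.tendsto_atTop]
  intro ε hε
  obtain ⟨N₀, hN₀⟩ := H (ε / (2 * 3 ^ D)) (by positivity)
  refine ⟨max N₀ W, ?_⟩
  intro N hN
  have hNN : N₀ ≤ N := (le_max_left _ _).trans hN
  have hNW : W ≤ N := (le_max_right _ _).trans hN
  have hN0 : 0 < N := by omega
  have hNr : (1:ℝ) ≤ N := by exact_mod_cast hN0
  rw [dist_zero_right]
  obtain ⟨n₀, L, hL, hiff⟩ := ap_box W hW r hr N hNW
  have h1 := hN₀ N hNN n₀ W L hW hL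
  have h2 : ∑ n ∈ Fintype.piFinset (fun _ : Fin D => Finset.Icc (-(N:ℤ)) N), (prog n₀ W L).indicator w n =
      ∑ n ∈ (pbox D N).filter (fun n => ∀ i, n i % W = r i), w (cst n) := by
    rw [Finset.sum_indicator_eq_sum_filter]
    symm
    apply Finset.sum_bij (fun n _ => cst n)
    · intro n hn
      rw [Finset.mem_filter, mem_pbox] at hn
      have h3 := (hiff (cst n)).mpr (by
        intro i
        have := hn.1 i
        refine ⟨⟨?_, ?_⟩, ?_⟩
        · rw [cst]; omega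
        · rw [cst]; omega
        · rw [cst]; exact_mod_cast hn.2 i)
      rw [Finset.mem_filter, Fintype.mem_piFinset]
      refine ⟨fun i => ?_, h3.2⟩
      rw [Finset.mem_Icc]; exact h3.1 i
    · intro a _ c _ h; exact cst_injective h
    · intro n hn
      rw [Finset.mem_filter, Fintype.mem_piFinset] at hn
      have h3 := (hiff n).mp ⟨fun i => by have := hn.1 i; rwa [Finset.mem_Icc] at this, hn.2⟩
      have hcst : cst (fun i => (n i).toNat) = n := by
        ext i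
        rw [cst]
        have := (h3 i).1
        omega
      refine ⟨fun i => (n i).toNat, ?_, hcst⟩
      rw [Finset.mem_filter, mem_pbox]
      constructor
      · intro i
        have := (h3 i).1
        constructor <;> omega
      · intro i
        have h4 := (h3 i).2
        have h5 : ((n i).toNat : ℤ) = n i := congrFun hcst i
        rw [← h5] at h4
        exact_mod_cast h4
    · intro n _; rfl
  rw [h2] at h1
  set S := ∑ n ∈ (pbox D N).filter (fun n => ∀ i, n i % W = r i), w (cst n) with hS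
  rw [norm_mul, norm_div, norm_one, norm_pow] at h1 ⊢
  have h3 : ‖(2 * (N:ℂ) + 1)‖ = 2 * (N:ℝ) + 1 := by
    have : (2 * (N:ℂ) + 1) = ((2 * (N:ℝ) + 1 : ℝ) : ℂ) := by push_cast; ring
    rw [this, Complex.norm_real, Real.norm_of_nonneg (by positivity)]
  rw [h3] at h1
  rw [Complex.norm_natCast]
  calc 1 / (N:ℝ) ^ D * ‖S‖ = ((2 * (N:ℝ) + 1) ^ D / (N:ℝ) ^ D) * (1 / (2 * (N:ℝ) + 1) ^ D * ‖S‖) := by
        field_simp
    _ ≤ 3 ^ D * (ε / (2 * 3 ^ D)) := by
        have h4 : (2 * (N:ℝ) + 1) ^ D / (N:ℝ) ^ D ≤ 3 ^ D := by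
          rw [← div_pow]
          apply pow_le_pow_left₀ (by positivity)
          rw [div_le_iff₀ (by linarith)]
          linarith
        gcongr
    _ = ε / 2 := by field_simp
    _ < ε := by linarith

end ap

end PSarnak
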