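import Pool.Agent.Run7.h492.Multip

/-!
Sets of multipliers: existence.
-/

set_option linter.unusedVariables false
set_option linter.unusedSectionVars false

noncomputable section

open Finset NumberField Filter
open scoped Classical nonZeroDivisors

namespace PSarnak

variable {K : Type*} [Field K] [NumberField K] {D : ℕ} (b : Module.Basis (Fin D) ℤ (𝓞 K))

/-- a set of multipliers -/
structure MultSet (b : Module.Basis (Fin D) ℤ (𝓞 K)) (C ε : ℝ) (A P : ℕ) (𝒟 : Finset (𝓞 K)) : Prop where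
  bal : ∀ δ ∈ 𝒟, Bal b C δ
  lo : ∀ δ ∈ 𝒟, P ^ D ≤ Nn δ
  hi : ∀ δ ∈ 𝒟, Nn δ ≤ P ^ A
  pr : ∀ δ ∈ 𝒟, ∀ p : ℕ, p.Prime → p ∣ Nn δ → P < p
  L1 : 1 ≤ ∑ δ ∈ 𝒟, (1:ℝ) / Nn δ
  tk : ∃ c : 𝓞 K → 𝓞 K → Ideal (𝓞 K),
    (∀ δ ∈ 𝒟, ∀ δ' ∈ 𝒟, c δ δ' ≠ ⊥ ∧ Ideal.span {δ} ⊓ Ideal.span {δ'} ≤ c δ δ') ∧
    ∑ δ ∈ 𝒟, ∑ δ' ∈ 𝒟, (1:ℝ) / Ideal.absNorm (c δ δ') ≤ (1 + ε) * (∑ δ ∈ 𝒟, (1:ℝ) / Nn δ) ^ 2

/-- class of an ideal -/
def cls (I : Ideal (𝓞 K)) : ClassGroup (𝓞 K) :=
  if h : I ≠ ⊥ then ClassGroup.mk0 ⟨I, mem_nonZeroDivisors_of_ne_zero h⟩ else 1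

lemma cls_prod {ι : Type*} (s : Finset ι) (t : ι → Ideal (𝓞 K)) (ht : ∀ i ∈ s, t i ≠ ⊥) :
    cls (∏ i ∈ s, t i) = ∏ i ∈ s, cls (t i) := by
  induction s using Finset.induction_on with
  | empty =>
    simp only [Finset.prod_empty]
    have h1 : (1 : Ideal (𝓞 K)) ≠ ⊥ := one_ne_zero
    rw [cls, dif_pos h1]
    exact map_one _
  | insert a s ha ih =>
    rw [Finset.prod_insert ha, Finset.prod_insert ha]
    rw [← ih (fun i hi => ht i (Finset.mem_insert_of_mem hi))]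
    have h1 : t a ≠ ⊥ := ht a (Finset.mem_insert_self _ _)
    have h2 : ∏ i ∈ s, t i ≠ ⊥ := by
      apply Finset.prod_ne_zero_iff.mpr
      intro i hi; exact ht i (Finset.mem_insert_of_mem hi)
    have h3 : t a * ∏ i ∈ s, t i ≠ ⊥ := mul_ne_zero h1 h2
    rw [cls, cls, cls, dif_pos h1, dif_pos h2, dif_pos h3, ← map_mul]
    rfl

lemma principal_of_cls {I : Ideal (𝓞 K)} (hI : I ≠ ⊥) (h : cls I = 1) : ∃ x : 𝓞 K, x ≠ 0 ∧ Ideal.span {x} = I := by
  rw [cls, dif_pos hI, ClassGroup.mk0_eq_one_iff] at h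
  obtain ⟨x, hx⟩ := h
  refine ⟨x, ?_, hx.symm⟩
  rintro rfl
  apply hI
  rw [hx]; simp

lemma inf_norm_bound (p q : Ideal (𝓞 K)) (hp : p.IsPrime) (hp0 : p ≠ ⊥) (hq : q.IsPrime) (hq0 : q ≠ ⊥) :
    (1:ℝ) / Ideal.absNorm (p ⊓ q) ≤ (if p = q then (1:ℝ) / Ideal.absNorm p else 0) +
      (1 / Ideal.absNorm p) * (1 / Ideal.absNorm q) := by
  by_cases h : p = q
  · subst h
    rw [inf_idem, if_pos rfl]
    have : (0:ℝ) ≤ (1 / Ideal.absNorm p) * (1 / Ideal.absNorm p) := by positivity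
    linarith
  · rw [if_neg h, zero_add]
    have := hp.isMaximal hp0
    have := hq.isMaximal hq0
    rw [← Ideal.mul_eq_inf_of_isCoprime (Ideal.isCoprime_of_isMaximal h), map_mul]
    push_cast
    rw [one_div_mul_one_div]

include b in
lemma norm_le_pow {p : Ideal (𝓞 K)} (hp : p.IsPrime) (hp0 : p ≠ ⊥) (r : ℕ) (hr : r.Prime)
    (h : r ∣ Ideal.absNorm p) : Ideal.absNorm p ≤ r ^ D := by
  -- some prime number lies in `p`
  have h1 : ∃ q : ℕ, q.Prime ∧ (q : 𝓞 K) ∈ p := by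
    have h2 : ((Ideal.absNorm p : ℕ) : 𝓞 K) ∈ p := Ideal.absNorm_mem p
    have h3 := norm_pos_of_ne hp0
    have h4 : ∀ n : ℕ, 0 < n → (n : 𝓞 K) ∈ p → ∃ q : ℕ, q.Prime ∧ (q : 𝓞 K) ∈ p := by
      intro n
      induction n using Nat.strong_induction_on with
      | _ n ih =>
        intro hn hmem
        by_cases hn1 : n = 1
        · subst hn1
          exfalso
          apply hp.ne_top
          rw [Ideal.eq_top_iff_one]
          simpa using hmem
        · obtain ⟨q, hq, m, hm⟩ := Nat.exists_prime_and_dvd hn1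
          rw [hm] at hmem
          push_cast at hmem
          rcases hp.mem_or_mem hmem with h5 | h5
          · exact ⟨q, hq, h5⟩
          · have hm0 : 0 < m := by
              rcases Nat.eq_zero_or_pos m with h6 | h6
              · rw [h6, mul_zero] at hm; omega
              · exact h6
            apply ih m _ hm0 h5
            rw [hm]
            have := hq.two_le
            nlinarith
    exact h4 _ h3 h2
  obtain ⟨q, hq, hqp⟩ := h1
  have h2 : Ideal.absNorm p ∣ q ^ D := by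
    have h3 : Ideal.span {(q : 𝓞 K)} ≤ p := by
      rw [Ideal.span_singleton_le_iff_mem]; exact hqp
    have h4 := Ideal.absNorm_dvd_absNorm_of_le h3
    rwa [Ideal.absNorm_span_natCast, RingOfIntegers.rank, finrank_eq b] at h4
  have h3 : r = q := by
    have h4 : r ∣ q := hr.dvd_of_dvd_pow (h.trans h2)
    exact (Nat.prime_dvd_prime_iff_eq hr hq).mp h4
  rw [h3]
  exact Nat.le_of_dvd (pow_pos hq.pos _) h2

theorem exists_mult : ∃ C : ℝ, 1 ≤ C ∧ ∀ ε : ℝ, 0 < ε → ∃ A P₀ : ℕ, 2 ≤ P₀ ∧ ∀ P : ℕ, P₀ ≤ P →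
    ∃ 𝒟 : Finset (𝓞 K), MultSet b C ε A P 𝒟 := by
  obtain ⟨C₀, hC₀, hbal⟩ := exists_balanced b
  refine ⟨C₀, hC₀, ?_⟩
  intro ε hε
  have hD := D_pos b
  set h := Fintype.card (ClassGroup (𝓞 K)) with hh
  have hh0 : 0 < h := Fintype.card_pos
  -- choice of T
  obtain ⟨T, hT1, hT⟩ : ∃ T : ℝ, 1 ≤ T ∧ (1 + 1 / T) ^ h ≤ 1 + ε := by
    have h1 : Tendsto (fun n : ℕ => (1 + 1 / ((n:ℝ) + 1)) ^ h) atTop (nhds ((1 + 0) ^ h)) := by
      apply Tendsto.pow
      apply Tendsto.add tendsto_const_nhds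
      exact tendsto_one_div_add_atTop_nhds_zero_nat
    rw [add_zero, one_pow] at h1
    obtain ⟨n, hn⟩ := (h1.eventually (ge_mem_nhds (show (1:ℝ) < 1 + ε by linarith))).exists
    exact ⟨n + 1, by simp, hn⟩
  obtain ⟨A₁, n₁, hA₁, hn₁, hrange⟩ := range_many K (h * (h * (T + 1)))
  refine ⟨D * A₁ * h, n₁, hn₁, ?_⟩
  intro P hP
  have hP2 : 2 ≤ P := hn₁.trans hP
  set n := P ^ D with hn
  have hPn : P ≤ n := Nat.le_self_pow (by omega) P
  have hr := hrange n (hP.trans hPn)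
  set Q := prm K (n ^ A₁) \ prm K n with hQ
  have hQp : ∀ p ∈ Q, p.IsPrime ∧ p ≠ ⊥ ∧ n < Ideal.absNorm p ∧ Ideal.absNorm p ≤ n ^ A₁ := by
    intro p hp
    rw [hQ, Finset.mem_sdiff, mem_prm] at hp
    refine ⟨hp.1.2.2, hp.1.2.1, ?_, hp.1.1⟩
    by_contra hcon
    push Not at hcon
    exact hp.2 (mem_prm.mpr ⟨hcon, hp.1.2⟩)
  -- pigeonhole on classes
  obtain ⟨c, hc⟩ : ∃ c : ClassGroup (𝓞 K), h * (T + 1) ≤ ∑ p ∈ Q.filter (fun p => cls p = c), (1:ℝ) / Ideal.absNorm p := by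
    have h1 := Finset.sum_fiberwise Q cls (fun p => (1:ℝ) / Ideal.absNorm p)
    have h2 : ∑ c : ClassGroup (𝓞 K), (h * (T + 1)) ≤ ∑ c : ClassGroup (𝓞 K), ∑ p ∈ Q.filter (fun p => cls p = c), (1:ℝ) / Ideal.absNorm p := by
      rw [h1, Finset.sum_const, Finset.card_univ, nsmul_eq_mul, ← hh]
      exact hr
    obtain ⟨c, _, hc⟩ := Finset.exists_le_of_sum_le Finset.univ_nonempty h2
    exact ⟨c, hc⟩
  obtain ⟨S, hS1, hS2, hS3⟩ := greedy (fun p : Ideal (𝓞 K) => (1:ℝ) / Ideal.absNorm p) T (by linarith) h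
    (Q.filter (fun p => cls p = c)) (by
      intro p hp
      rw [Finset.mem_filter] at hp
      have h1 := norm_pos_of_ne (hQp p hp.1).2.1
      have h2 : (1:ℝ) ≤ Ideal.absNorm p := by exact_mod_cast h1
      rw [div_le_one (by linarith)]; exact h2) hc
  have hSp : ∀ i, ∀ p ∈ S i, p.IsPrime ∧ p ≠ ⊥ ∧ n < Ideal.absNorm p ∧ Ideal.absNorm p ≤ n ^ A₁ ∧ cls p = c := by
    intro i p hp
    have h1 := Finset.mem_filter.mp (hS1 i hp)
    obtain ⟨a1, a2, a3, a4⟩ := hQp p h1.1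
    exact ⟨a1, a2, a3, a4, h1.2⟩
  have hex : ∀ t ∈ Fintype.piFinset S, ∃ δ : 𝓞 K, Bal b C₀ δ ∧ Ideal.span {δ} = ∏ i, t i := by
    intro t ht
    rw [Fintype.mem_piFinset] at ht
    have h1 : ∏ i, t i ≠ ⊥ := Finset.prod_ne_zero_iff.mpr (fun i _ => (hSp i _ (ht i)).2.1)
    have h2 : cls (∏ i, t i) = 1 := by
      rw [cls_prod _ _ (fun i _ => (hSp i _ (ht i)).2.1)]
      rw [Finset.prod_congr rfl (fun i _ => (hSp i _ (ht i)).2.2.2.2), Finset.prod_const, Finset.card_univ,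
        Fintype.card_fin, hh, pow_card_eq_one]
    obtain ⟨x, hx, hxs⟩ := principal_of_cls h1 h2
    obtain ⟨u, hu⟩ := hbal x hx
    refine ⟨_, hu, ?_⟩
    rw [← hxs]
    exact Ideal.span_singleton_mul_left_unit u.isUnit x
  choose! gen hgen using hex
  have hinj : Set.InjOn gen (Fintype.piFinset S : Set (Fin h → Ideal (𝓞 K))) := by
    intro t ht t' ht' heq
    have ht1 := Fintype.mem_piFinset.mp ht
    have ht1' := Fintype.mem_piFinset.mp ht'
    have h1 := (hgen t ht).2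
    have h2 := (hgen t' ht').2
    rw [heq, h2] at h1
    ext1 i
    have h3 : t i ∣ ∏ j, t' j := by
      rw [h1]; exact Finset.dvd_prod_of_mem _ (Finset.mem_univ i)
    have h4 := prime_of_mem (hSp i _ (ht1 i)).1 (hSp i _ (ht1 i)).2.1
    obtain ⟨j, _, hj⟩ := (Prime.dvd_finsetProd_iff h4 _).mp h3
    have h5 := prime_of_mem (hSp j _ (ht1' j)).1 (hSp j _ (ht1' j)).2.1
    have h6 : t i = t' j := by
      rw [Prime.dvd_prime_iff_associated h4 h5, associated_iff_eq] at hj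
      exact hj
    have h7 : i = j := by
      by_contra hij
      exact Finset.disjoint_left.mp (hS2 i j hij) (ht1 i) (h6 ▸ ht1' j)
    rw [h6, h7]
  have hNn : ∀ t ∈ Fintype.piFinset S, Nn (gen t) = ∏ i, Ideal.absNorm (t i) := by
    intro t ht
    rw [Nn_eq_absNorm, (hgen t ht).2, map_prod]
  set 𝒟 : Finset (𝓞 K) := (Fintype.piFinset S).image gen with h𝒟
  have hsum : ∀ f : 𝓞 K → ℝ, ∑ δ ∈ 𝒟, f δ = ∑ t ∈ Fintype.piFinset S, f (gen t) := by
    intro f
    rw [h𝒟, Finset.sum_image hinj]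
  have hL : ∑ δ ∈ 𝒟, (1:ℝ) / Nn δ = ∏ i, ∑ p ∈ S i, (1:ℝ) / Ideal.absNorm p := by
    rw [hsum, Finset.prod_univ_sum]
    apply Finset.sum_congr rfl
    intro t ht
    rw [hNn t ht]
    push_cast
    rw [Finset.prod_div_distrib, Finset.prod_const_one]
  refine ⟨𝒟, ?_, ?_, ?_, ?_, ?_, ?_⟩
  · intro δ hδ
    rw [h𝒟, Finset.mem_image] at hδ
    obtain ⟨t, ht, rfl⟩ := hδ
    exact (hgen t ht).1
  · intro δ hδ
    rw [h𝒟, Finset.mem_image] at hδ
    obtain ⟨t, ht, rfl⟩ := hδ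
    rw [hNn t ht, ← hn]
    have ht1 := Fintype.mem_piFinset.mp ht
    have i₀ : Fin h := ⟨0, hh0⟩
    rw [← Finset.mul_prod_erase _ _ (Finset.mem_univ i₀)]
    have h1 : 1 ≤ ∏ i ∈ Finset.univ.erase i₀, Ideal.absNorm (t i) := by
      apply Finset.one_le_prod'
      intro i _
      exact norm_pos_of_ne (hSp i _ (ht1 i)).2.1
    have h2 := (hSp i₀ _ (ht1 i₀)).2.2.1
    calc n ≤ Ideal.absNorm (t i₀) * 1 := by omega
      _ ≤ _ := Nat.mul_le_mul_left _ h1
  · intro δ hδ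
    rw [h𝒟, Finset.mem_image] at hδ
    obtain ⟨t, ht, rfl⟩ := hδ
    rw [hNn t ht]
    have ht1 := Fintype.mem_piFinset.mp ht
    calc ∏ i, Ideal.absNorm (t i) ≤ ∏ i : Fin h, n ^ A₁ :=
          Finset.prod_le_prod' (fun i _ => (hSp i _ (ht1 i)).2.2.2.1)
      _ = P ^ (D * A₁ * h) := by
          rw [Finset.prod_const, Finset.card_univ, Fintype.card_fin, hn, ← pow_mul, ← pow_mul,
            mul_assoc]
  · intro δ hδ r hr hrd
    rw [h𝒟, Finset.mem_image] at hδ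
    obtain ⟨t, ht, rfl⟩ := hδ
    rw [hNn t ht] at hrd
    have ht1 := Fintype.mem_piFinset.mp ht
    obtain ⟨i, _, hi⟩ := (Prime.dvd_finsetProd_iff (Nat.prime_iff.mp hr) _).mp hrd
    have h1 := norm_le_pow b (hSp i _ (ht1 i)).1 (hSp i _ (ht1 i)).2.1 r hr hi
    have h2 := (hSp i _ (ht1 i)).2.2.1
    have h3 : P ^ D < r ^ D := by rw [← hn]; omega
    exact lt_of_pow_lt_pow_left₀ D (Nat.zero_le _) h3
  · rw [hL]
    calc (1:ℝ) = ∏ i : Fin h, (1:ℝ) := by simp
      _ ≤ _ := Finset.prod_le_prod (fun _ _ => zero_le_one) (fun i _ => hT1.trans (hS3 i))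
  · set inv : 𝓞 K → (Fin h → Ideal (𝓞 K)) := Function.invFunOn gen (Fintype.piFinset S : Set (Fin h → Ideal (𝓞 K))) with hinv
    have hinv1 : ∀ t ∈ Fintype.piFinset S, inv (gen t) = t := by
      intro t ht
      apply hinj (Function.invFunOn_mem ⟨t, ht, rfl⟩) ht
      exact Function.invFunOn_eq ⟨t, ht, rfl⟩
    refine ⟨fun δ δ' => ∏ i, (inv δ i ⊓ inv δ' i), ?_, ?_⟩
    · intro δ hδ δ' hδ'
      rw [h𝒟, Finset.mem_image] at hδ hδ'
      obtain ⟨t, ht, rfl⟩ := hδ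
      obtain ⟨t', ht', rfl⟩ := hδ'
      simp only
      rw [hinv1 t ht, hinv1 t' ht']
      have ht1 := Fintype.mem_piFinset.mp ht
      have ht1' := Fintype.mem_piFinset.mp ht'
      constructor
      · apply Finset.prod_ne_zero_iff.mpr
        intro i _ h0
        have h1 : t i * t' i ≤ t i ⊓ t' i := Ideal.mul_le_inf
        rw [h0] at h1
        have h2 : t i * t' i = ⊥ := le_bot_iff.mp h1
        exact mul_ne_zero (hSp i _ (ht1 i)).2.1 (hSp i _ (ht1' i)).2.1 h2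
      · have hcop : ((Finset.univ : Finset (Fin h)) : Set (Fin h)).Pairwise (Function.onFun IsCoprime (fun i => t i ⊓ t' i)) := by
          intro i _ j _ hij
          have hne : ∀ p ∈ S i, ∀ q ∈ S j, IsCoprime p q := by
            intro p hp q hq
            have m1 := (hSp i _ hp).1.isMaximal (hSp i _ hp).2.1
            have m2 := (hSp j _ hq).1.isMaximal (hSp j _ hq).2.1
            apply Ideal.isCoprime_of_isMaximal
            intro heq
            exact Finset.disjoint_left.mp (hS2 i j hij) hp (heq ▸ hq)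
          have h1 : IsCoprime (t i * t' i) (t j * t' j) := by
            apply IsCoprime.mul_left
            · exact IsCoprime.mul_right (hne _ (ht1 i) _ (ht1 j)) (hne _ (ht1 i) _ (ht1' j))
            · exact IsCoprime.mul_right (hne _ (ht1' i) _ (ht1 j)) (hne _ (ht1' i) _ (ht1' j))
          rw [Ideal.isCoprime_iff_sup_eq] at h1
          show IsCoprime (t i ⊓ t' i) (t j ⊓ t' j)
          rw [Ideal.isCoprime_iff_sup_eq, eq_top_iff, ← h1]
          exact sup_le_sup Ideal.mul_le_inf Ideal.mul_le_inf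
        rw [Ideal.prod_eq_iInf_of_pairwise_isCoprime hcop]
        apply le_iInf₂
        intro i _
        apply inf_le_inf
        · rw [(hgen t ht).2]
          exact Ideal.le_of_dvd (Finset.dvd_prod_of_mem _ (Finset.mem_univ i))
        · rw [(hgen t' ht').2]
          exact Ideal.le_of_dvd (Finset.dvd_prod_of_mem _ (Finset.mem_univ i))
    · have h1 : ∑ δ ∈ 𝒟, ∑ δ' ∈ 𝒟, (1:ℝ) / Ideal.absNorm (∏ i, (inv δ i ⊓ inv δ' i)) =
          ∏ i, ∑ p ∈ S i, ∑ q ∈ S i, (1:ℝ) / Ideal.absNorm (p ⊓ q) := by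
        rw [Finset.prod_univ_sum, hsum]
        apply Finset.sum_congr rfl
        intro t ht
        rw [hsum, Finset.prod_univ_sum]
        apply Finset.sum_congr rfl
        intro t' ht'
        rw [hinv1 t ht, hinv1 t' ht', map_prod]
        push_cast
        rw [Finset.prod_div_distrib, Finset.prod_const_one]
      rw [h1, hL, ← Finset.prod_pow]
      have h2 : ∀ i : Fin h, ∑ p ∈ S i, ∑ q ∈ S i, (1:ℝ) / Ideal.absNorm (p ⊓ q) ≤
          (1 + 1 / T) * (∑ p ∈ S i, (1:ℝ) / Ideal.absNorm p) ^ 2 := by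
        intro i
        set s := ∑ p ∈ S i, (1:ℝ) / Ideal.absNorm p with hs
        have hsT : T ≤ s := hS3 i
        have hT0 : 0 < T := by linarith
        calc ∑ p ∈ S i, ∑ q ∈ S i, (1:ℝ) / Ideal.absNorm (p ⊓ q)
            ≤ ∑ p ∈ S i, ∑ q ∈ S i, ((if p = q then (1:ℝ) / Ideal.absNorm p else 0) +
              (1 / Ideal.absNorm p) * (1 / Ideal.absNorm q)) := by
              apply Finset.sum_le_sum
              intro p hp
              apply Finset.sum_le_sum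
              intro q hq
              exact inf_norm_bound p q (hSp i _ hp).1 (hSp i _ hp).2.1 (hSp i _ hq).1 (hSp i _ hq).2.1
          _ = s + s ^ 2 := by
              simp_rw [Finset.sum_add_distrib]
              congr 1
              · rw [hs]
                apply Finset.sum_congr rfl
                intro p hp
                rw [Finset.sum_ite_eq]; simp [hp]
              · rw [sq, hs, Finset.sum_mul_sum]
          _ ≤ (1 + 1 / T) * s ^ 2 := by
              have : s ≤ 1 / T * s ^ 2 := by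
                rw [one_div, inv_mul_eq_div, le_div_iff₀ hT0]
                nlinarith
              linarith
      calc ∏ i, ∑ p ∈ S i, ∑ q ∈ S i, (1:ℝ) / Ideal.absNorm (p ⊓ q)
          ≤ ∏ i : Fin h, ((1 + 1 / T) * (∑ p ∈ S i, (1:ℝ) / Ideal.absNorm p) ^ 2) := by
            apply Finset.prod_le_prod
            · intro i _
              exact Finset.sum_nonneg (fun _ _ => Finset.sum_nonneg (fun _ _ => by positivity))
            · intro i _; exact h2 i
        _ = (1 + 1 / T) ^ h * ∏ i, (∑ p ∈ S i, (1:ℝ) / Ideal.absNorm p) ^ 2 := by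
            rw [Finset.prod_mul_distrib, Finset.prod_const, Finset.card_univ, Fintype.card_fin]
        _ ≤ _ := by
            apply mul_le_mul_of_nonneg_right hT
            exact Finset.prod_nonneg (fun _ _ => by positivity)

end PSarnak
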