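import Pool.Agent.Run7.h492.Equi2
import Pool.Agent.Run7.h492.Multip2
import Pool.Agent.Run7.h492.Ergodic5

/-!
The model kernel built from multipliers.
-/

set_option linter.unusedVariables false
set_option linter.unusedSectionVars false

noncomputable section

open Finset NumberField
open scoped Classical ComplexConjugate

namespace PSarnak

variable {K : Type*} [Field K] [NumberField K] {D : ℕ} (b : Module.Basis (Fin D) ℤ (𝓞 K))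

/-- quotient of elements -/
def quo (δ x : 𝓞 K) : 𝓞 K := if h : δ ∣ x then h.choose else 0

lemma mul_quo {δ x : 𝓞 K} (h : δ ∣ x) : δ * quo δ x = x := by
  rw [quo, dif_pos h]; exact h.choose_spec.symm

lemma quo_mul {δ : 𝓞 K} (hδ : δ ≠ 0) (y : 𝓞 K) : quo δ (δ * y) = y :=
  mul_left_cancel₀ hδ (mul_quo (dvd_mul_right δ y))

variable (D) in
/-- the box `[1,N]^D` -/
abbrev pZ (N : ℕ) : Finset (Lat D) := cubeAt (fun _ => (1:ℤ)) N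

lemma sum_pbox {M : Type*} [AddCommMonoid M] (N : ℕ) (F : Lat D → M) :
    ∑ n ∈ pbox D N, F (cst n) = ∑ n ∈ pZ D N, F n := by
  apply Finset.sum_bij (fun n _ => cst n)
  · intro n hn
    rw [mem_pbox] at hn
    rw [mem_cubeAt]
    intro i
    have := hn i
    simp only [cst]
    constructor <;> omega
  · intro a _ c _ h; exact cst_injective h
  · intro n hn
    rw [mem_cubeAt] at hn
    refine ⟨fun i => (n i).toNat, ?_, ?_⟩
    · rw [mem_pbox]; intro i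
      have := hn i
      constructor <;> omega
    · ext i
      have := hn i
      simp only [cst]; omega
  · intro n _; rfl

/-- dilated region -/
def mreg (N : ℕ) (δ : 𝓞 K) : Finset (Lat D) :=
  ((pZ D N).filter (fun n => δ ∣ iot b n)).image (fun n => crd b (quo δ (iot b n)))

lemma mem_mreg {N : ℕ} {δ : 𝓞 K} (hδ : δ ≠ 0) {m : Lat D} :
    m ∈ mreg b N δ ↔ crd b (δ * iot b m) ∈ pZ D N := by
  rw [mreg, Finset.mem_image]
  constructor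
  · rintro ⟨n, hn, rfl⟩
    rw [Finset.mem_filter] at hn
    rw [iot_crd, mul_quo hn.2, crd_iot]
    exact hn.1
  · intro h
    refine ⟨crd b (δ * iot b m), ?_, ?_⟩
    · rw [Finset.mem_filter]
      refine ⟨h, ?_⟩
      rw [iot_crd]; exact dvd_mul_right _ _
    · rw [iot_crd, quo_mul hδ, crd_iot]

lemma sum_mreg {M : Type*} [AddCommMonoid M] {N : ℕ} {δ : 𝓞 K} (hδ : δ ≠ 0) (F : Lat D → M) :
    ∑ m ∈ mreg b N δ, F m = ∑ n ∈ (pZ D N).filter (fun n => δ ∣ iot b n), F (crd b (quo δ (iot b n))) := by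
  rw [mreg, Finset.sum_image]
  intro n hn n' hn' h
  rw [Finset.mem_coe, Finset.mem_filter] at hn hn'
  have h1 := crd_injective b h
  apply iot_injective b
  rw [← mul_quo hn.2, ← mul_quo hn'.2, h1]

lemma card_mreg {N : ℕ} {δ : 𝓞 K} (hδ : δ ≠ 0) :
    (mreg b N δ).card = ((pZ D N).filter (fun n => δ ∣ iot b n)).card := by
  have := sum_mreg b (N := N) hδ (fun _ => (1:ℕ))
  simpa using this

/-- error term constant -/
def En (D N : ℕ) : ℝ := D * 2 ^ D * (N:ℝ) ^ (D - 1)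

lemma En_nonneg (D N : ℕ) : 0 ≤ En D N := by rw [En]; positivity

lemma En_le (hD : 0 < D) (N : ℕ) (hN : 0 < N) : En D N = (D * 2 ^ D / N) * (N:ℝ) ^ D := by
  have hN' : (0:ℝ) < N := by exact_mod_cast hN
  obtain ⟨d, rfl⟩ : ∃ d, D = d + 1 := ⟨D - 1, by omega⟩
  rw [En, Nat.add_sub_cancel, pow_succ (N:ℝ) d]
  field_simp

lemma count_dvd {N : ℕ} {δ : 𝓞 K} (hδ : δ ≠ 0) (hN : Nn δ ≤ N) :
    |(((pZ D N).filter (fun n => δ ∣ iot b n)).card : ℝ) - (N:ℝ) ^ D / Nn δ| ≤ En D N := by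
  have h0 : Ideal.span {δ} ≠ ⊥ := by rw [Ne, Ideal.span_singleton_eq_bot]; exact hδ
  have h1 := count_ideal b (Ideal.span {δ}) h0 (fun _ => 1) N (by rw [← Nn_eq_absNorm]; exact hN) 0
  rw [← Nn_eq_absNorm] at h1
  simp only [sub_zero, Ideal.mem_span_singleton] at h1
  exact h1

/-- normalising sum -/
def LL (𝒟 : Finset (𝓞 K)) : ℝ := ∑ δ ∈ 𝒟, (1:ℝ) / Nn δ

/-- coefficient of the kernel -/
def kcoef (χ : 𝓞 K → ℂ) (𝒟 : Finset (𝓞 K)) (n : Lat D) : ℂ :=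
  ∑ δ ∈ 𝒟.filter (fun δ => δ ∣ iot b n), χ δ * χ (quo δ (iot b n))

/-- the model kernel -/
def kerA (χ : 𝓞 K → ℂ) (𝒟 : Finset (𝓞 K)) (N : ℕ) : C(Tor D, ℂ) :=
  tp (pZ D N) (fun n => kcoef b χ 𝒟 n / ((LL 𝒟 : ℂ) * (N:ℂ) ^ D))

/-- dilated sum -/
def gd (χ : 𝓞 K → ℂ) (N : ℕ) (δ : 𝓞 K) : C(Tor D, ℂ) := tp (mreg b N δ) (fun m => χ (iot b m))

lemma sbst_tp (δ : 𝓞 K) (s : Finset (Lat D)) (a : Lat D → ℂ) :
    sbst b δ (tp s a) = ∑ m ∈ s, a m • ee (crd b (δ * iot b m)) := by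
  ext α
  rw [sbst_apply, tp_apply, ContinuousMap.sum_apply]
  apply Finset.sum_congr rfl
  intro m _
  rw [ee_sm]; rfl

lemma kerA_eq (χ : 𝓞 K → ℂ) (𝒟 : Finset (𝓞 K)) (h𝒟 : ∀ δ ∈ 𝒟, δ ≠ 0) (N : ℕ) :
    kerA b χ 𝒟 N = ∑ δ ∈ 𝒟, (χ δ / ((LL 𝒟 : ℂ) * (N:ℂ) ^ D)) • sbst b δ (gd b χ N δ) := by
  ext α
  rw [kerA, tp_apply, ContinuousMap.sum_apply]
  have h1 : ∀ δ ∈ 𝒟, ((χ δ / ((LL 𝒟 : ℂ) * (N:ℂ) ^ D)) • sbst b δ (gd b χ N δ)) α =
      ∑ n ∈ pZ D N, if δ ∣ iot b n then (χ δ * χ (quo δ (iot b n))) / ((LL 𝒟 : ℂ) * (N:ℂ) ^ D) * ee n α else 0 := by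
    intro δ hδ
    rw [ContinuousMap.smul_apply, gd, sbst_tp, sum_mreg b (h𝒟 δ hδ), ContinuousMap.sum_apply, smul_eq_mul,
      Finset.mul_sum, ← Finset.sum_filter]
    apply Finset.sum_congr rfl
    intro n hn
    rw [Finset.mem_filter] at hn
    rw [iot_crd, mul_quo hn.2, crd_iot, ContinuousMap.smul_apply, smul_eq_mul]
    ring
  rw [Finset.sum_congr rfl h1, Finset.sum_comm]
  apply Finset.sum_congr rfl
  intro n _
  rw [← Finset.sum_filter, kcoef, Finset.sum_div, Finset.sum_mul]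

lemma pZ_subset_box (N : ℕ) : pZ D N ⊆ box D N := by
  intro n hn
  rw [mem_cubeAt] at hn
  rw [mem_box]
  intro i
  have := hn i
  rw [abs_le]; constructor <;> omega

lemma kerA_isTP (χ : 𝓞 K → ℂ) (𝒟 : Finset (𝓞 K)) (N : ℕ) : IsTP N (kerA b χ 𝒟 N) :=
  isTP_tp_of_subset (pZ_subset_box N) _

lemma norm_kcoef_le (χ : 𝓞 K → ℂ) (hχ : ∀ x, ‖χ x‖ ≤ 1) (𝒟 : Finset (𝓞 K)) (n : Lat D) :
    ‖kcoef b χ 𝒟 n‖ ≤ (𝒟.filter (fun δ => δ ∣ iot b n)).card := by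
  rw [kcoef]
  refine (norm_sum_le _ _).trans ?_
  calc _ ≤ ∑ δ ∈ 𝒟.filter (fun δ => δ ∣ iot b n), (1:ℝ) := by
        apply Finset.sum_le_sum
        intro δ _
        rw [norm_mul]
        have h1 := hχ δ
        have h2 := hχ (quo δ (iot b n))
        have h3 := norm_nonneg (χ δ)
        nlinarith [norm_nonneg (χ (quo δ (iot b n)))]
    _ = _ := by simp

lemma sum_omega (𝒟 : Finset (𝓞 K)) (N : ℕ) :
    ∑ n ∈ pZ D N, ((𝒟.filter (fun δ => δ ∣ iot b n)).card : ℝ) =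
      ∑ δ ∈ 𝒟, (((pZ D N).filter (fun n => δ ∣ iot b n)).card : ℝ) := by
  simp only [Finset.card_filter]
  push_cast
  rw [Finset.sum_comm]

/-- uniform bound of the kernel -/
theorem kerA_bd (χ : 𝓞 K → ℂ) (hχ : ∀ x, ‖χ x‖ ≤ 1) (𝒟 : Finset (𝓞 K)) (h𝒟 : ∀ δ ∈ 𝒟, δ ≠ 0)
    (hL : 1 ≤ LL 𝒟) (N : ℕ) (hN : 0 < N) (hNn : ∀ δ ∈ 𝒟, Nn δ ≤ N) (α : Tor D) :
    ‖kerA b χ 𝒟 N α‖ ≤ 1 + 𝒟.card * (D * 2 ^ D / N) := by
  have hN' : (0:ℝ) < N := by exact_mod_cast hN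
  have hD := D_pos b
  rw [kerA, tp_apply]
  refine (norm_sum_le _ _).trans ?_
  have h1 : ∀ n ∈ pZ D N, ‖kcoef b χ 𝒟 n / ((LL 𝒟 : ℂ) * (N:ℂ) ^ D) * ee n α‖ ≤
      ((𝒟.filter (fun δ => δ ∣ iot b n)).card : ℝ) / (LL 𝒟 * (N:ℝ) ^ D) := by
    intro n _
    rw [norm_mul, ee_norm_apply, mul_one, norm_div, norm_mul, norm_pow, Complex.norm_natCast,
      Complex.norm_real, Real.norm_of_nonneg (by linarith : 0 ≤ LL 𝒟)]
    have := norm_kcoef_le b χ hχ 𝒟 n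
    gcongr
  refine (Finset.sum_le_sum h1).trans ?_
  rw [← Finset.sum_div, sum_omega, div_le_iff₀ (by positivity)]
  have h2 : ∑ δ ∈ 𝒟, (((pZ D N).filter (fun n => δ ∣ iot b n)).card : ℝ) ≤
      ∑ δ ∈ 𝒟, ((N:ℝ) ^ D * (1 / Nn δ) + En D N) := by
    apply Finset.sum_le_sum
    intro δ hδ
    have := (abs_le.mp (count_dvd b (h𝒟 δ hδ) (hNn δ hδ))).2
    have e : (N:ℝ) ^ D * (1 / Nn δ) = (N:ℝ) ^ D / Nn δ := by ring
    rw [e]; linarith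
  refine h2.trans ?_
  rw [Finset.sum_add_distrib, ← Finset.mul_sum, Finset.sum_const, nsmul_eq_mul, En_le hD N hN]
  change (N:ℝ) ^ D * LL 𝒟 + _ ≤ _
  have h3 : (0:ℝ) ≤ 𝒟.card * (D * 2 ^ D / N) := by positivity
  have h4 : (𝒟.card : ℝ) * (D * 2 ^ D / N * (N:ℝ) ^ D) ≤ 𝒟.card * (D * 2 ^ D / N) * (LL 𝒟 * (N:ℝ) ^ D) := by
    calc (𝒟.card : ℝ) * (D * 2 ^ D / N * (N:ℝ) ^ D) = 𝒟.card * (D * 2 ^ D / N) * (1 * (N:ℝ) ^ D) := by ring
      _ ≤ _ := by gcongr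
  calc _ ≤ (N:ℝ) ^ D * LL 𝒟 + 𝒟.card * (D * 2 ^ D / N) * (LL 𝒟 * (N:ℝ) ^ D) := by linarith
    _ = _ := by ring

end PSarnak
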