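import Pool.Agent.Run7.h492.Minor2

/-!
Major arc bounds for the model kernel, part one: analytic lemmas.
-/

set_option linter.unusedVariables false
set_option linter.unusedSectionVars false

noncomputable section

open Finset NumberField MeasureTheory
open scoped Classical ComplexConjugate

namespace PSarnak

local instance instMajA : MeasureSpace UnitAddCircle := ⟨AddCircle.haarAddCircle⟩

variable {K : Type*} [Field K] [NumberField K] {D : ℕ} (b : Module.Basis (Fin D) ℤ (𝓞 K))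

lemma nsq_fiber {ι : Type*} (s : Finset ι) (φ : ι → Lat D) (v : ι → ℂ) (B : ℝ)
    (hB : ∀ n, ((s.filter (fun i => φ i = n)).card : ℝ) ≤ B) :
    nsq (∑ i ∈ s, v i • ee (φ i)) ≤ B * ∑ i ∈ s, ‖v i‖ ^ 2 := by
  have h1 : (∑ i ∈ s, v i • ee (φ i)) = tp (s.image φ) (fun n => ∑ i ∈ s.filter (fun i => φ i = n), v i) := by
    ext α
    rw [tp_apply, ContinuousMap.sum_apply]
    rw [← Finset.sum_fiberwise_of_maps_to (fun i hi => Finset.mem_image_of_mem φ hi)]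
    apply Finset.sum_congr rfl
    intro n _
    rw [Finset.sum_mul]
    apply Finset.sum_congr rfl
    intro i hi
    rw [Finset.mem_filter] at hi
    rw [ContinuousMap.smul_apply, smul_eq_mul, hi.2]
  rw [h1, nsq_tp]
  calc ∑ n ∈ s.image φ, ‖∑ i ∈ s.filter (fun i => φ i = n), v i‖ ^ 2
      ≤ ∑ n ∈ s.image φ, B * ∑ i ∈ s.filter (fun i => φ i = n), ‖v i‖ ^ 2 := by
        apply Finset.sum_le_sum
        intro n _
        calc ‖∑ i ∈ s.filter (fun i => φ i = n), v i‖ ^ 2 ≤ (∑ i ∈ s.filter (fun i => φ i = n), ‖v i‖) ^ 2 := by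
              gcongr; exact norm_sum_le _ _
          _ ≤ ((s.filter (fun i => φ i = n)).card : ℝ) * ∑ i ∈ s.filter (fun i => φ i = n), ‖v i‖ ^ 2 :=
              sq_sum_le_card_mul_sum_sq
          _ ≤ _ := by
              have := hB n
              gcongr
    _ = _ := by
        rw [← Finset.mul_sum]
        congr 1
        exact Finset.sum_fiberwise_of_maps_to (fun i hi => Finset.mem_image_of_mem φ hi) _

/-- multiplication of a dilated function by a bump of long period -/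
theorem phiT_sbst (δ : 𝓞 K) (hδ : δ ≠ 0) (H : ℕ) (hH : Nn δ ≤ H) (β : Tor D) (M : ℕ) (G : C(Tor D, ℂ))
    (hG : IsTP M G) : nsq (phiT H β * sbst b δ G) ≤ (1 / Nn δ + D * 2 ^ D / H) * nsq G := by
  have hD := D_pos b
  have hN := Nn_pos hδ
  have hH0 : 0 < H := lt_of_lt_of_le hN hH
  have hHr : (0:ℝ) < H := by exact_mod_cast hH0
  obtain ⟨g, hg⟩ := hG
  have h1 : phiT H β * sbst b δ G = ∑ p ∈ cube D H ×ˢ box D M,
      ((((H : ℂ) ^ D)⁻¹ * ee (-p.1) β) * g p.2) • ee (p.1 + crd b (δ * iot b p.2)) := by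
    rw [hg, sbst_tp, phiT, tp, Finset.sum_mul_sum, ← Finset.sum_product']
    apply Finset.sum_congr rfl
    intro p _
    ext α
    simp only [ContinuousMap.mul_apply, ContinuousMap.smul_apply, smul_eq_mul, ee_add]
    ring
  have hspan : Ideal.span {δ} ≠ ⊥ := by rw [Ne, Ideal.span_singleton_eq_bot]; exact hδ
  have hfib : ∀ n : Lat D, (((cube D H ×ˢ box D M).filter (fun p => p.1 + crd b (δ * iot b p.2) = n)).card : ℝ) ≤
      (H:ℝ) ^ D * (1 / Nn δ + D * 2 ^ D / H) := by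
    intro n
    have h2 : ((cube D H ×ˢ box D M).filter (fun p => p.1 + crd b (δ * iot b p.2) = n)).card ≤
        ((cubeAt (0 : Lat D) H).filter (fun l => iot b l - iot b n ∈ Ideal.span {δ})).card := by
      apply Finset.card_le_card_of_injOn (fun p => p.1)
      · rintro ⟨l, m⟩ hp
        rw [Finset.mem_coe, Finset.mem_filter, Finset.mem_product] at hp
        simp only [Finset.mem_coe, Finset.mem_filter, cubeAt_zero]
        refine ⟨hp.1.1, ?_⟩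
        have h3 : iot b l - iot b n = -(δ * iot b m) := by
          rw [← iot_sub]
          have h4 : l - n = - crd b (δ * iot b m) := by rw [← hp.2]; abel
          rw [h4, ← crd_neg, iot_crd]
        rw [h3, neg_mem_iff]
        exact Ideal.mul_mem_right _ _ (Ideal.mem_span_singleton_self _)
      · rintro ⟨l, m⟩ hp ⟨l', m'⟩ hp' h
        rw [Finset.mem_coe, Finset.mem_filter] at hp hp'
        simp only at h hp hp'
        subst h
        have h3 : crd b (δ * iot b m) = crd b (δ * iot b m') := by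
          have := hp.2.trans hp'.2.symm
          exact add_left_cancel this
        have h4 := mul_left_cancel₀ hδ (crd_injective b h3)
        rw [iot_injective b h4]
    have h3 := (abs_le.mp (count_ideal b (Ideal.span {δ}) hspan (0 : Lat D) H (by rw [← Nn_eq_absNorm]; exact hH) (iot b n))).2
    rw [← Nn_eq_absNorm] at h3
    have h4 := En_le hD H hH0
    rw [En] at h4
    have h5 : (((cube D H ×ˢ box D M).filter (fun p => p.1 + crd b (δ * iot b p.2) = n)).card : ℝ) ≤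
      ((cubeAt (0 : Lat D) H).filter (fun l => iot b l - iot b n ∈ Ideal.span {δ})).card := by exact_mod_cast h2
    have h6 : (H:ℝ) ^ D * (1 / Nn δ + D * 2 ^ D / H) = (H:ℝ) ^ D / Nn δ + D * 2 ^ D / H * (H:ℝ) ^ D := by ring
    rw [h6, ← h4]
    linarith
  rw [h1]
  refine (nsq_fiber _ _ _ _ hfib).trans (le_of_eq ?_)
  have h2 : ∑ p ∈ cube D H ×ˢ box D M, ‖(((H : ℂ) ^ D)⁻¹ * ee (-p.1) β) * g p.2‖ ^ 2 =
      ((H:ℝ) ^ D)⁻¹ * nsq G := by
    have h3 : nsq G = ∑ m ∈ box D M, ‖g m‖ ^ 2 := by rw [hg, nsq_tp]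
    rw [h3, Finset.sum_product]
    have h4 : ∀ l ∈ cube D H, ∑ m ∈ box D M, ‖(((H : ℂ) ^ D)⁻¹ * ee (-(l, m).1) β) * g (l, m).2‖ ^ 2 =
        (((H:ℝ) ^ D)⁻¹) ^ 2 * ∑ m ∈ box D M, ‖g m‖ ^ 2 := by
      intro l _
      rw [Finset.mul_sum]
      apply Finset.sum_congr rfl
      intro m _
      rw [norm_mul, norm_mul, ee_norm_apply, norm_inv, norm_pow, Complex.norm_natCast, mul_one, mul_pow]
    rw [Finset.sum_congr rfl h4, Finset.sum_const, card_cube, nsmul_eq_mul]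
    push_cast
    field_simp
  rw [h2]
  field_simp

/-- comparison of bumps -/
lemma phiT_compare (δ : 𝓞 K) (H H' : ℕ) (hH : 0 < H) (hH' : 0 < H') (β α : Tor D) :
    ‖phiT H β α * (1 - phiT H' (sm b δ β) (sm b δ α))‖ ≤ Real.pi * D * Cb b * ‖crd b δ‖ * H' / H := by
  have hHr : (0:ℝ) < H := by exact_mod_cast hH
  have hCb := Cb_pos b
  have h1 := phiT_near H' hH' (sm b δ β) (sm b δ α)
  rw [← sm_sub_right] at h1
  have h2 := norm_sm_le b δ (α - β)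
  have h3 := phiT_decay H β α
  rw [norm_mul]
  have h4 : ‖phiT H β α‖ * ‖α - β‖ ≤ 1 / (2 * H) := by
    rw [le_div_iff₀ (by positivity)]
    calc _ = ‖phiT H β α‖ * (2 * H * ‖α - β‖) := by ring
      _ ≤ 1 := h3
  calc ‖phiT H β α‖ * ‖1 - phiT H' (sm b δ β) (sm b δ α)‖
      ≤ ‖phiT H β α‖ * (2 * Real.pi * D * H' * (Cb b * ‖crd b δ‖ * ‖α - β‖)) := by
        have hpi := Real.pi_pos
        gcongr
        exact h1.trans (by gcongr)
    _ = (2 * Real.pi * D * H' * Cb b * ‖crd b δ‖) * (‖phiT H β α‖ * ‖α - β‖) := by ring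
    _ ≤ (2 * Real.pi * D * H' * Cb b * ‖crd b δ‖) * (1 / (2 * H)) := by
        have hpi := Real.pi_pos
        gcongr
    _ = _ := by field_simp

lemma pr_sub_right (n : Lat D) (α β : Tor D) : pr n (α - β) = pr n α - pr n β := by
  have h := pr_add_right n (α - β) β
  rw [sub_add_cancel] at h
  rw [h]; abel

lemma lip_tp (M : ℕ) (ρ : C(Tor D, ℂ)) (hρ : IsTP M ρ) :
    ∃ Lc : ℝ, 0 ≤ Lc ∧ ∀ α β : Tor D, ‖ρ α - ρ β‖ ≤ Lc * ‖α - β‖ := by
  obtain ⟨a, ha⟩ := hρ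
  refine ⟨∑ n ∈ box D M, ‖a n‖ * (2 * Real.pi * (D * ‖n‖)), ?_, ?_⟩
  · have := Real.pi_pos
    positivity
  · intro α β
    rw [ha, tp_apply, tp_apply, ← Finset.sum_sub_distrib, Finset.sum_mul]
    refine (norm_sum_le _ _).trans (Finset.sum_le_sum (fun n _ => ?_))
    rw [← mul_sub, norm_mul, mul_assoc]
    apply mul_le_mul_of_nonneg_left _ (norm_nonneg _)
    have h1 : ee n α - ee n β = ee n β * (fourier 1 (pr n (α - β)) - 1) := by
      have h2 : pr n α = pr n β + pr n (α - β) := by rw [pr_sub_right]; abel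
      rw [ee_eq_pr, ee_eq_pr, h2]
      simp only [fourier_apply, one_smul, AddCircle.toCircle_add, Circle.coe_mul]
      ring
    rw [h1, norm_mul, ee_norm_apply, one_mul]
    refine ((fourier_one_sub_one_bounds _).2).trans ?_
    have := norm_pr_le n (α - β)
    have hpi := Real.pi_pos
    calc 2 * Real.pi * ‖pr n (α - β)‖ ≤ 2 * Real.pi * (D * ‖n‖ * ‖α - β‖) := by gcongr
      _ = _ := by ring

lemma kap_rho (A : Finset (Tor D)) (s : ℝ) (hs : 0 < s) (hA : Sep A s) (H : ℕ) (hH : 0 < H)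
    (ρ : C(Tor D, ℂ)) (hρ1 : ∀ α, ‖ρ α‖ ≤ 1) (Lc : ℝ) (hLc : 0 ≤ Lc)
    (hLip : ∀ α β : Tor D, ‖ρ α - ρ β‖ ≤ Lc * ‖α - β‖) (α : Tor D) :
    ‖kap A H α * ρ α‖ ^ 2 ≤ 4 * ∑ β ∈ A, ‖ρ β‖ ^ 2 * ‖phiT H β α‖ ^ 2 +
      (4 * (A.card / (H * s)) ^ 2 + 2 * (A.card * Lc / (2 * H)) ^ 2) := by
  have hHr : (0:ℝ) < H := by exact_mod_cast hH
  have h1 : kap A H α * ρ α = ∑ β ∈ A, ρ β * phiT H β α + ∑ β ∈ A, (ρ α - ρ β) * phiT H β α := by
    rw [kap_apply, Finset.sum_mul, ← Finset.sum_add_distrib]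
    apply Finset.sum_congr rfl
    intro β _
    ring
  have h2 := weighted_norm_le A s hs hA H hH (fun β => ρ β) (fun β _ => hρ1 β) α
  have h3 : ‖∑ β ∈ A, (ρ α - ρ β) * phiT H β α‖ ≤ A.card * Lc / (2 * H) := by
    calc ‖∑ β ∈ A, (ρ α - ρ β) * phiT H β α‖ ≤ ∑ β ∈ A, Lc / (2 * H) := by
          refine (norm_sum_le _ _).trans (Finset.sum_le_sum (fun β _ => ?_))
          rw [norm_mul, le_div_iff₀ (by positivity)]
          calc ‖ρ α - ρ β‖ * ‖phiT H β α‖ * (2 * H) ≤ (Lc * ‖α - β‖) * ‖phiT H β α‖ * (2 * H) := by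
                have := hLip α β
                gcongr
            _ = Lc * (‖phiT H β α‖ * (2 * H * ‖α - β‖)) := by ring
            _ ≤ Lc * 1 := by
                have := phiT_decay H β α
                gcongr
            _ = Lc := mul_one _
      _ = _ := by rw [Finset.sum_const, nsmul_eq_mul]; ring
  rw [h1]
  set x := ∑ β ∈ A, ρ β * phiT H β α
  set y := ∑ β ∈ A, (ρ α - ρ β) * phiT H β α
  have h4 : ‖x + y‖ ^ 2 ≤ 2 * ‖x‖ ^ 2 + 2 * ‖y‖ ^ 2 := by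
    have := norm_add_le x y
    nlinarith [norm_nonneg (x + y), norm_nonneg x, norm_nonneg y, sq_nonneg (‖x‖ - ‖y‖)]
  have h5 : ‖y‖ ^ 2 ≤ (A.card * Lc / (2 * H)) ^ 2 := by gcongr
  linarith

/-- convexity -/
lemma kerA_sq_le (χ : 𝓞 K → ℂ) (hχ : ∀ x, ‖χ x‖ ≤ 1) (𝒟 : Finset (𝓞 K)) (h𝒟 : ∀ δ ∈ 𝒟, δ ≠ 0)
    (hL : 1 ≤ LL 𝒟) (N : ℕ) (hN : 0 < N) (α : Tor D) :
    ‖kerA b χ 𝒟 N α‖ ^ 2 ≤ 1 / (N:ℝ) ^ (2 * D) * ∑ δ ∈ 𝒟, (Nn δ : ℝ) * ‖sbst b δ (gd b χ N δ) α‖ ^ 2 := by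
  have hNr : (0:ℝ) < N := by exact_mod_cast hN
  have hL0 : 0 < LL 𝒟 := by linarith
  rw [kerA_eq b χ 𝒟 h𝒟 N, ContinuousMap.sum_apply]
  have h1 : ∀ δ ∈ 𝒟, ‖((χ δ / ((LL 𝒟 : ℂ) * (N:ℂ) ^ D)) • sbst b δ (gd b χ N δ)) α‖ ≤
      (1 / Real.sqrt (Nn δ)) * (Real.sqrt (Nn δ) * ‖sbst b δ (gd b χ N δ) α‖ / (LL 𝒟 * (N:ℝ) ^ D)) := by
    intro δ hδ
    have h2 : (0:ℝ) < Nn δ := by exact_mod_cast Nn_pos (h𝒟 δ hδ)
    have h3 : 0 < Real.sqrt (Nn δ) := Real.sqrt_pos.mpr h2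
    rw [ContinuousMap.smul_apply, norm_smul, norm_div, norm_mul, norm_pow, Complex.norm_natCast,
      Complex.norm_real, Real.norm_of_nonneg hL0.le]
    have h4 : (1 / Real.sqrt (Nn δ)) * (Real.sqrt (Nn δ) * ‖sbst b δ (gd b χ N δ) α‖ / (LL 𝒟 * (N:ℝ) ^ D)) =
        1 / (LL 𝒟 * (N:ℝ) ^ D) * ‖sbst b δ (gd b χ N δ) α‖ := by
      field_simp
    rw [h4]
    have := hχ δ
    gcongr
  calc ‖∑ δ ∈ 𝒟, ((χ δ / ((LL 𝒟 : ℂ) * (N:ℂ) ^ D)) • sbst b δ (gd b χ N δ)) α‖ ^ 2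
      ≤ (∑ δ ∈ 𝒟, (1 / Real.sqrt (Nn δ)) * (Real.sqrt (Nn δ) * ‖sbst b δ (gd b χ N δ) α‖ / (LL 𝒟 * (N:ℝ) ^ D))) ^ 2 := by
        gcongr
        exact (norm_sum_le _ _).trans (Finset.sum_le_sum h1)
    _ ≤ (∑ δ ∈ 𝒟, (1 / Real.sqrt (Nn δ)) ^ 2) *
        ∑ δ ∈ 𝒟, (Real.sqrt (Nn δ) * ‖sbst b δ (gd b χ N δ) α‖ / (LL 𝒟 * (N:ℝ) ^ D)) ^ 2 :=
        Finset.sum_mul_sq_le_sq_mul_sq _ _ _
    _ = LL 𝒟 * ((1 / (LL 𝒟 ^ 2 * (N:ℝ) ^ (2 * D))) * ∑ δ ∈ 𝒟, (Nn δ : ℝ) * ‖sbst b δ (gd b χ N δ) α‖ ^ 2) := by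
        congr 1
        · rw [LL]
          apply Finset.sum_congr rfl
          intro δ _
          rw [div_pow, one_pow, Real.sq_sqrt (Nat.cast_nonneg _)]
        · rw [Finset.mul_sum]
          apply Finset.sum_congr rfl
          intro δ _
          rw [div_pow, mul_pow, Real.sq_sqrt (Nat.cast_nonneg _), mul_pow, ← pow_mul, mul_comm D 2]
          ring
    _ = (1 / LL 𝒟) * (1 / (N:ℝ) ^ (2 * D) * ∑ δ ∈ 𝒟, (Nn δ : ℝ) * ‖sbst b δ (gd b χ N δ) α‖ ^ 2) := by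
        field_simp
    _ ≤ 1 * _ := by
        gcongr
        rw [div_le_one hL0]; exact hL
    _ = _ := one_mul _

end PSarnak
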