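import Pool.Agent.Run7.h492.MajA

/-!
Major arc bounds for the model kernel, part two: reduction to sums over torsion points.
-/

set_option linter.unusedVariables false
set_option linter.unusedSectionVars false

noncomputable section

open Finset NumberField MeasureTheory
open scoped Classical ComplexConjugate

namespace PSarnak

local instance instMajB : MeasureSpace UnitAddCircle := ⟨AddCircle.haarAddCircle⟩

variable {K : Type*} [Field K] [NumberField K] {D : ℕ} (b : Module.Basis (Fin D) ℤ (𝓞 K))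

lemma nsq_le_sum {ι : Type*} (s : Finset ι) (c : ι → ℝ) (G : ι → C(Tor D, ℂ)) (F : C(Tor D, ℂ))
    (h : ∀ α, ‖F α‖ ^ 2 ≤ ∑ i ∈ s, c i * ‖G i α‖ ^ 2) : nsq F ≤ ∑ i ∈ s, c i * nsq (G i) := by
  have h1 : ∑ i ∈ s, c i * nsq (G i) = ∫ α, ∑ i ∈ s, c i * ‖G i α‖ ^ 2 := by
    rw [integral_finsetSum]
    · apply Finset.sum_congr rfl
      intro i _
      rw [nsq, integral_const_mul]
    · intro i _
      exact integrable_cont' (by fun_prop)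
  rw [h1, nsq]
  apply integral_mono (integrable_cont' (by fun_prop)) (integrable_cont' (by fun_prop))
  exact h

lemma nsq_two {F G₁ G₂ : C(Tor D, ℂ)} (c₁ c₂ : ℝ) (h : ∀ α, ‖F α‖ ^ 2 ≤ c₁ * ‖G₁ α‖ ^ 2 + c₂ * ‖G₂ α‖ ^ 2) :
    nsq F ≤ c₁ * nsq G₁ + c₂ * nsq G₂ := by
  have := nsq_le_sum (Finset.univ : Finset (Fin 2)) ![c₁, c₂] ![G₁, G₂] F (by
    intro α
    rw [Fin.sum_univ_two]
    exact h α)
  rw [Fin.sum_univ_two] at this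
  exact this

lemma stepA (χ : 𝓞 K → ℂ) (hχ : ∀ x, ‖χ x‖ ≤ 1) (𝒟 : Finset (𝓞 K)) (h𝒟 : ∀ δ ∈ 𝒟, δ ≠ 0)
    (hL : 1 ≤ LL 𝒟) (N : ℕ) (hN : 0 < N) (κ ρ : C(Tor D, ℂ)) :
    nsq (kerA b χ 𝒟 N * κ * ρ) ≤ 1 / (N:ℝ) ^ (2 * D) *
      ∑ δ ∈ 𝒟, (Nn δ : ℝ) * nsq (sbst b δ (gd b χ N δ) * κ * ρ) := by
  have h := nsq_le_sum 𝒟 (fun δ => 1 / (N:ℝ) ^ (2 * D) * (Nn δ : ℝ)) (fun δ => sbst b δ (gd b χ N δ) * κ * ρ)
    (kerA b χ 𝒟 N * κ * ρ) (by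
      intro α
      have h1 := kerA_sq_le b χ hχ 𝒟 h𝒟 hL N hN α
      simp only [ContinuousMap.mul_apply, norm_mul, mul_pow]
      calc ‖kerA b χ 𝒟 N α‖ ^ 2 * ‖κ α‖ ^ 2 * ‖ρ α‖ ^ 2
          ≤ (1 / (N:ℝ) ^ (2 * D) * ∑ δ ∈ 𝒟, (Nn δ : ℝ) * ‖sbst b δ (gd b χ N δ) α‖ ^ 2) * ‖κ α‖ ^ 2 * ‖ρ α‖ ^ 2 := by
            gcongr
        _ = _ := by
            rw [Finset.mul_sum, Finset.sum_mul, Finset.sum_mul]
            apply Finset.sum_congr rfl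
            intro δ _
            ring)
  refine h.trans (le_of_eq ?_)
  rw [Finset.mul_sum]
  apply Finset.sum_congr rfl
  intro δ _
  ring

lemma stepB (F : C(Tor D, ℂ)) (A : Finset (Tor D)) (s : ℝ) (hs : 0 < s) (hA : Sep A s) (H : ℕ) (hH : 0 < H)
    (ρ : C(Tor D, ℂ)) (hρ1 : ∀ α, ‖ρ α‖ ≤ 1) (Lc : ℝ) (hLc : 0 ≤ Lc)
    (hLip : ∀ α β : Tor D, ‖ρ α - ρ β‖ ≤ Lc * ‖α - β‖) :
    nsq (F * kap A H * ρ) ≤ 4 * ∑ β ∈ A, ‖ρ β‖ ^ 2 * nsq (F * phiT H β) +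
      (4 * (A.card / (H * s)) ^ 2 + 2 * (A.card * Lc / (2 * H)) ^ 2) * nsq F := by
  set e := (4 * ((A.card : ℝ) / (H * s)) ^ 2 + 2 * (A.card * Lc / (2 * H)) ^ 2) with he
  have h := nsq_le_sum (insertNone A) (fun i => match i with | none => e | some β => 4 * ‖ρ β‖ ^ 2)
    (fun i => match i with | none => F | some β => F * phiT H β) (F * kap A H * ρ) (by
      intro α
      rw [Finset.sum_insertNone]
      have h1 := kap_rho A s hs hA H hH ρ hρ1 Lc hLc hLip α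
      have h2 : ‖(F * kap A H * ρ) α‖ ^ 2 = ‖F α‖ ^ 2 * ‖kap A H α * ρ α‖ ^ 2 := by
        simp only [ContinuousMap.mul_apply, norm_mul]; ring
      rw [h2]
      calc ‖F α‖ ^ 2 * ‖kap A H α * ρ α‖ ^ 2 ≤ ‖F α‖ ^ 2 * (4 * ∑ β ∈ A, ‖ρ β‖ ^ 2 * ‖phiT H β α‖ ^ 2 + e) := by gcongr
        _ = e * ‖F α‖ ^ 2 + ∑ β ∈ A, 4 * ‖ρ β‖ ^ 2 * ‖(F * phiT H β) α‖ ^ 2 := by
            rw [mul_add, mul_comm (‖F α‖ ^ 2) e, add_comm]
            congr 1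
            rw [Finset.mul_sum, Finset.mul_sum]
            apply Finset.sum_congr rfl
            intro β _
            rw [ContinuousMap.mul_apply, norm_mul]; ring)
  rw [Finset.sum_insertNone] at h
  refine h.trans (le_of_eq ?_)
  rw [add_comm]
  congr 1
  rw [Finset.mul_sum]
  apply Finset.sum_congr rfl
  intro β _
  simp only
  ring

lemma stepC (δ : 𝓞 K) (g : C(Tor D, ℂ)) (H H' : ℕ) (hH : 0 < H) (hH' : 0 < H') (β : Tor D) (e₁ : ℝ)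
    (he : Real.pi * D * Cb b * ‖crd b δ‖ * H' / H ≤ e₁) :
    nsq (sbst b δ g * phiT H β) ≤ 2 * nsq (phiT H β * sbst b δ (g * phiT H' (sm b δ β))) +
      2 * e₁ ^ 2 * nsq (sbst b δ g) := by
  apply nsq_two
  intro α
  have h1 := (phiT_compare b δ H H' hH hH' β α).trans he
  have h2 : (sbst b δ g * phiT H β) α = (phiT H β * sbst b δ (g * phiT H' (sm b δ β))) α +
      (phiT H β α * (1 - phiT H' (sm b δ β) (sm b δ α))) * sbst b δ g α := by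
    simp only [ContinuousMap.mul_apply, sbst_apply]; ring
  rw [h2]
  set x := (phiT H β * sbst b δ (g * phiT H' (sm b δ β))) α
  set y := phiT H β α * (1 - phiT H' (sm b δ β) (sm b δ α))
  have h3 : ‖x + y * sbst b δ g α‖ ^ 2 ≤ 2 * ‖x‖ ^ 2 + 2 * ‖y * sbst b δ g α‖ ^ 2 := by
    have := norm_add_le x (y * sbst b δ g α)
    nlinarith [norm_nonneg (x + y * sbst b δ g α), norm_nonneg x, norm_nonneg (y * sbst b δ g α),
      sq_nonneg (‖x‖ - ‖y * sbst b δ g α‖)]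
  have h4 : ‖y * sbst b δ g α‖ ^ 2 ≤ e₁ ^ 2 * ‖sbst b δ g α‖ ^ 2 := by
    rw [norm_mul, mul_pow]
    gcongr
  linarith

lemma nsq_sbst_gd (χ : 𝓞 K → ℂ) (hχ : ∀ x, ‖χ x‖ ≤ 1) (N : ℕ) (δ : 𝓞 K) (hδ : δ ≠ 0) :
    nsq (sbst b δ (gd b χ N δ)) ≤ (N:ℝ) ^ D := by
  rw [gd, sbst_tp, nsq_inj]
  · calc ∑ m ∈ mreg b N δ, ‖χ (iot b m)‖ ^ 2 ≤ ∑ m ∈ mreg b N δ, (1:ℝ) := by
          apply Finset.sum_le_sum
          intro m _
          have := hχ (iot b m)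
          have := norm_nonneg (χ (iot b m))
          nlinarith
      _ = ((mreg b N δ).card : ℝ) := by simp
      _ ≤ (N:ℝ) ^ D := by
          rw [card_mreg b hδ]
          have : ((pZ D N).filter (fun n => δ ∣ iot b n)).card ≤ N ^ D := by
            rw [← card_cubeAt (fun _ => (1:ℤ)) N]
            exact Finset.card_filter_le _ _
          exact_mod_cast this
  · intro m _ m' _ h
    exact iot_injective b (mul_left_cancel₀ hδ (crd_injective b h))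

lemma gd_isTP (χ : 𝓞 K → ℂ) (N : ℕ) (δ : 𝓞 K) (M : ℕ) (hM : mreg b N δ ⊆ box D M) : IsTP M (gd b χ N δ) :=
  isTP_tp_of_subset hM _

/-- reduction -/
theorem maj_reduce (χ : 𝓞 K → ℂ) (hχ : ∀ x, ‖χ x‖ ≤ 1) (𝒟 : Finset (𝓞 K)) (h𝒟 : ∀ δ ∈ 𝒟, δ ≠ 0)
    (hL : 1 ≤ LL 𝒟) (N : ℕ) (hN : 0 < N) (M₀ : ℕ) (hM₀ : ∀ δ ∈ 𝒟, mreg b N δ ⊆ box D M₀)
    (A : Finset (Tor D)) (s : ℝ) (hs : 0 < s) (hA : Sep A s)
    (H H' : ℕ) (hH : 0 < H) (hH' : 0 < H') (hHN : ∀ δ ∈ 𝒟, (Nn δ : ℝ) * (D * 2 ^ D) ≤ H) (Bn : ℝ)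
    (hBn : ∀ δ ∈ 𝒟, (Nn δ : ℝ) ≤ Bn)
    (ρ : C(Tor D, ℂ)) (hρ1 : ∀ α, ‖ρ α‖ ≤ 1) (Lc : ℝ) (hLc : 0 ≤ Lc)
    (hLip : ∀ α β : Tor D, ‖ρ α - ρ β‖ ≤ Lc * ‖α - β‖) (e₁ : ℝ)
    (he : ∀ δ ∈ 𝒟, Real.pi * D * Cb b * ‖crd b δ‖ * H' / H ≤ e₁) :
    nsq (kerA b χ 𝒟 N * kap A H * ρ) ≤ 1 / (N:ℝ) ^ (2 * D) *
      (16 * ∑ δ ∈ 𝒟, ∑ β ∈ A, ‖ρ β‖ ^ 2 * nsq (gd b χ N δ * phiT H' (sm b δ β)) +
        𝒟.card * (Bn * (8 * A.card * e₁ ^ 2 +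
          (4 * (A.card / (H * s)) ^ 2 + 2 * (A.card * Lc / (2 * H)) ^ 2)) * (N:ℝ) ^ D)) := by
  have hD := D_pos b
  have hNr : (0:ℝ) < N := by exact_mod_cast hN
  have hHr : (0:ℝ) < H := by exact_mod_cast hH
  refine (stepA b χ hχ 𝒟 h𝒟 hL N hN (kap A H) ρ).trans ?_
  apply mul_le_mul_of_nonneg_left _ (by positivity)
  set e₂ := (4 * ((A.card : ℝ) / (H * s)) ^ 2 + 2 * (A.card * Lc / (2 * H)) ^ 2) with he₂
  have he₂0 : 0 ≤ e₂ := by positivity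
  have key : ∀ δ ∈ 𝒟, (Nn δ : ℝ) * nsq (sbst b δ (gd b χ N δ) * kap A H * ρ) ≤
      16 * ∑ β ∈ A, ‖ρ β‖ ^ 2 * nsq (gd b χ N δ * phiT H' (sm b δ β)) +
        Bn * (8 * A.card * e₁ ^ 2 + e₂) * (N:ℝ) ^ D := by
    intro δ hδ
    have hNδ : (0:ℝ) < Nn δ := by exact_mod_cast Nn_pos (h𝒟 δ hδ)
    set F := sbst b δ (gd b χ N δ) with hF
    have hFN := nsq_sbst_gd b χ hχ N δ (h𝒟 δ hδ)
    have hF0 := nsq_nonneg F
    have h1 := stepB F A s hs hA H hH ρ hρ1 Lc hLc hLip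
    have h2 : ∀ β ∈ A, ‖ρ β‖ ^ 2 * nsq (F * phiT H β) ≤
        (4 / Nn δ) * (‖ρ β‖ ^ 2 * nsq (gd b χ N δ * phiT H' (sm b δ β))) + 2 * e₁ ^ 2 * nsq F := by
      intro β _
      have h3 := stepC b δ (gd b χ N δ) H H' hH hH' β e₁ (he δ hδ)
      have hHle : Nn δ ≤ H := by
        have h5 := hHN δ hδ
        have h6 : (1:ℝ) ≤ D * 2 ^ D := by
          have h7 : (1:ℝ) ≤ D := by exact_mod_cast hD
          have h8 : (1:ℝ) ≤ 2 ^ D := one_le_pow₀ (by norm_num)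
          nlinarith
        have h9 : (Nn δ : ℝ) ≤ H := by nlinarith
        exact_mod_cast h9
      have h4 := phiT_sbst b δ (h𝒟 δ hδ) H hHle β (M₀ + H') (gd b χ N δ * phiT H' (sm b δ β))
        ((gd_isTP b χ N δ M₀ (hM₀ δ hδ)).mul (phiT_isTP H' _))
      have h5 : (1 / (Nn δ : ℝ) + D * 2 ^ D / H) ≤ 2 / Nn δ := by
        have h6 : (D:ℝ) * 2 ^ D / H ≤ 1 / Nn δ := by
          rw [div_le_div_iff₀ hHr hNδ]
          have := hHN δ hδ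
          linarith
        have h7 : (2:ℝ) / Nn δ = 1 / Nn δ + 1 / Nn δ := by ring
        rw [h7]; linarith
      have h6 := nsq_nonneg (gd b χ N δ * phiT H' (sm b δ β))
      have h7 : nsq (F * phiT H β) ≤ (4 / Nn δ) * nsq (gd b χ N δ * phiT H' (sm b δ β)) + 2 * e₁ ^ 2 * nsq F := by
        calc nsq (F * phiT H β) ≤ 2 * nsq (phiT H β * sbst b δ (gd b χ N δ * phiT H' (sm b δ β))) + 2 * e₁ ^ 2 * nsq F := h3
          _ ≤ 2 * ((2 / Nn δ) * nsq (gd b χ N δ * phiT H' (sm b δ β))) + 2 * e₁ ^ 2 * nsq F := by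
              gcongr
              exact h4.trans (by gcongr)
          _ = _ := by ring
      have h8 : ‖ρ β‖ ^ 2 ≤ 1 := by
        have := hρ1 β
        have := norm_nonneg (ρ β)
        nlinarith
      calc ‖ρ β‖ ^ 2 * nsq (F * phiT H β) ≤ ‖ρ β‖ ^ 2 * ((4 / Nn δ) * nsq (gd b χ N δ * phiT H' (sm b δ β)) + 2 * e₁ ^ 2 * nsq F) := by
            gcongr
        _ = (4 / Nn δ) * (‖ρ β‖ ^ 2 * nsq (gd b χ N δ * phiT H' (sm b δ β))) + ‖ρ β‖ ^ 2 * (2 * e₁ ^ 2 * nsq F) := by ring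
        _ ≤ _ := by
            have h9 : 0 ≤ 2 * e₁ ^ 2 * nsq F := by positivity
            nlinarith
    have h3 : nsq (F * kap A H * ρ) ≤ (16 / Nn δ) * ∑ β ∈ A, ‖ρ β‖ ^ 2 * nsq (gd b χ N δ * phiT H' (sm b δ β)) +
        (8 * A.card * e₁ ^ 2 + e₂) * nsq F := by
      refine h1.trans ?_
      have h4 := Finset.sum_le_sum h2
      rw [Finset.sum_add_distrib, ← Finset.mul_sum, Finset.sum_const, nsmul_eq_mul] at h4
      calc _ ≤ 4 * ((4 / Nn δ) * ∑ β ∈ A, ‖ρ β‖ ^ 2 * nsq (gd b χ N δ * phiT H' (sm b δ β)) +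
            A.card * (2 * e₁ ^ 2 * nsq F)) + e₂ * nsq F := by gcongr
        _ = _ := by ring
    calc (Nn δ : ℝ) * nsq (F * kap A H * ρ) ≤ (Nn δ : ℝ) * ((16 / Nn δ) *
          ∑ β ∈ A, ‖ρ β‖ ^ 2 * nsq (gd b χ N δ * phiT H' (sm b δ β)) + (8 * A.card * e₁ ^ 2 + e₂) * nsq F) := by gcongr
      _ = 16 * ∑ β ∈ A, ‖ρ β‖ ^ 2 * nsq (gd b χ N δ * phiT H' (sm b δ β)) +
          (Nn δ : ℝ) * (8 * A.card * e₁ ^ 2 + e₂) * nsq F := by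
          field_simp
      _ ≤ _ := by
          have h5 := hBn δ hδ
          have h5' : 0 ≤ Bn := hNδ.le.trans h5
          gcongr
  refine (Finset.sum_le_sum key).trans (le_of_eq ?_)
  rw [Finset.sum_add_distrib, ← Finset.mul_sum, Finset.sum_const, nsmul_eq_mul]

end PSarnak
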