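import Pool.Agent.Run7.h492.MajB

/-!
Major arc bounds for the model kernel, part three: removing the dependence of the region
on the multiplier.
-/

set_option linter.unusedVariables false
set_option linter.unusedSectionVars false

noncomputable section

open Finset NumberField MeasureTheory
open scoped Classical ComplexConjugate

namespace PSarnak

local instance instMajC : MeasureSpace UnitAddCircle := ⟨AddCircle.haarAddCircle⟩

variable {K : Type*} [Field K] [NumberField K] {D : ℕ} (b : Module.Basis (Fin D) ℤ (𝓞 K))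

lemma cf_phiT_mul (H : ℕ) (β : Tor D) (G : C(Tor D, ℂ)) (n : Lat D) :
    cf (phiT H β * G) n = ∑ l ∈ cube D H, (((H : ℂ) ^ D)⁻¹ * ee (-l) β) * cf G (n - l) := by
  rw [phiT, cf_tp_mul]

/-- window meets region and complement -/
def bdS (N : ℕ) (δ : 𝓞 K) (M H : ℕ) : Finset (Lat D) := (box D M).filter (fun n =>
  (∃ l ∈ cube D H, n - l ∈ mreg b N δ) ∧ ∃ l ∈ cube D H, n - l ∉ mreg b N δ)

lemma pow_sub_pow_le' (a c : ℝ) (hc : 0 ≤ c) (hca : c ≤ a) (ha : 0 < a) (d : ℕ) :
    a ^ d - c ^ d ≤ d * a ^ d * ((a - c) / a) := by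
  have h1 : (1:ℝ) + d * (-((a - c) / a)) ≤ (1 + (-((a - c) / a))) ^ d := by
    apply one_add_mul_le_pow
    have : (a - c) / a ≤ 1 := by rw [div_le_one ha]; linarith
    linarith
  have h2 : 1 + (-((a - c) / a)) = c / a := by field_simp; ring
  rw [h2, div_pow] at h1
  have h3 : 0 < a ^ d := by positivity
  rw [le_div_iff₀ h3] at h1
  linarith

lemma norm_cube_le {H : ℕ} {l : Lat D} (hl : l ∈ cube D H) : ‖l‖ ≤ H := by
  rw [pi_norm_le_iff_of_nonneg (Nat.cast_nonneg _)]
  intro i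
  have := mem_cube.mp hl i
  rw [Int.norm_eq_abs, abs_of_nonneg (by exact_mod_cast this.1)]
  exact_mod_cast this.2.le

lemma card_bdS (N : ℕ) (hN : 0 < N) (δ : 𝓞 K) (hδ : δ ≠ 0) (M H E : ℕ)
    (hE : Cb b * ‖crd b δ‖ * H ≤ E) (hEN : 2 * E ≤ N) :
    ((bdS b N δ M H).card : ℝ) ≤ D * 2 ^ (D + 1) * E / N * (N:ℝ) ^ D := by
  have hD := D_pos b
  have hNr : (0:ℝ) < N := by exact_mod_cast hN
  have hCb := Cb_pos b
  set outer : Finset (Lat D) := cubeAt (fun _ => 1 - (E:ℤ)) (N + 2 * E) with hout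
  set inner : Finset (Lat D) := cubeAt (fun _ => 1 + (E:ℤ)) (N - 2 * E) with hin
  have hEb : ∀ l ∈ cube D H, ∀ i, |crd b (δ * iot b l) i| ≤ (E:ℤ) := by
    intro l hl i
    have h1 : ‖crd b (δ * iot b l)‖ ≤ E := by
      refine (norm_crd_mul_le' b δ (iot b l)).trans ?_
      rw [crd_iot]
      refine le_trans ?_ hE
      have := norm_cube_le hl
      gcongr
    have h2 := (norm_le_pi_norm (crd b (δ * iot b l)) i).trans h1
    rw [Int.norm_eq_abs] at h2
    exact_mod_cast h2
  have h1 : (bdS b N δ M H).card ≤ (outer \ inner).card := by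
    apply Finset.card_le_card_of_injOn (fun n => crd b (δ * iot b n))
    · intro n hn
      rw [Finset.mem_coe, bdS, Finset.mem_filter] at hn
      obtain ⟨_, ⟨l, hl, hl2⟩, ⟨l', hl', hl2'⟩⟩ := hn
      rw [mem_mreg b hδ, iot_sub, mul_sub, crd_sub, mem_cubeAt] at hl2 hl2'
      rw [Finset.mem_coe, Finset.mem_sdiff, hout, hin, mem_cubeAt, mem_cubeAt]
      constructor
      · intro i
        have h3 := hl2 i
        have h4 := abs_le.mp (hEb l hl i)
        simp only [Pi.sub_apply] at h3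
        push_cast
        constructor <;> linarith [h3.1, h3.2, h4.1, h4.2]
      · intro hc
        apply hl2'
        intro i
        have h3 := hc i
        have h4 := abs_le.mp (hEb l' hl' i)
        simp only [Pi.sub_apply]
        have h5 : ((N - 2 * E : ℕ) : ℤ) = (N:ℤ) - 2 * E := by push_cast [Nat.cast_sub hEN]; rfl
        rw [h5] at h3
        constructor <;> linarith [h3.1, h3.2, h4.1, h4.2]
    · intro n _ n' _ h
      exact iot_injective b (mul_left_cancel₀ hδ (crd_injective b h))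
  have h2 : inner ⊆ outer := by
    intro x hx
    rw [hout, mem_cubeAt]
    rw [hin, mem_cubeAt] at hx
    intro i
    have h3 := hx i
    have h5 : ((N - 2 * E : ℕ) : ℤ) = (N:ℤ) - 2 * E := by push_cast [Nat.cast_sub hEN]; rfl
    rw [h5] at h3
    push_cast
    constructor <;> linarith [h3.1, h3.2, (Nat.cast_nonneg E : (0:ℤ) ≤ E)]
  rw [Finset.card_sdiff_of_subset h2, hout, hin, card_cubeAt, card_cubeAt] at h1
  have h3 : ((bdS b N δ M H).card : ℝ) ≤ ((N:ℝ) + 2 * E) ^ D - ((N:ℝ) - 2 * E) ^ D := by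
    have h4 : (N - 2 * E) ^ D ≤ (N + 2 * E) ^ D := Nat.pow_le_pow_left (by omega) _
    have h5 : ((bdS b N δ M H).card : ℝ) ≤ (((N + 2 * E) ^ D - (N - 2 * E) ^ D : ℕ) : ℝ) := by exact_mod_cast h1
    rw [Nat.cast_sub h4] at h5
    push_cast [Nat.cast_sub hEN] at h5
    exact h5
  have hENr : 2 * (E:ℝ) ≤ N := by exact_mod_cast hEN
  have hE0 : (0:ℝ) ≤ E := Nat.cast_nonneg _
  have h4 := pow_sub_pow_le' ((N:ℝ) + 2 * E) ((N:ℝ) - 2 * E) (by linarith) (by linarith) (by linarith) D
  refine h3.trans (h4.trans ?_)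
  have h5 : ((N:ℝ) + 2 * E - (N - 2 * E)) / (N + 2 * E) ≤ 4 * E / N := by
    have : (N:ℝ) + 2 * E - (N - 2 * E) = 4 * E := by ring
    rw [this]
    gcongr
    linarith
  -- more careful: (N+2E)^D * (4E/(N+2E))
  obtain ⟨d, rfl⟩ : ∃ d, D = d + 1 := ⟨D - 1, by omega⟩
  have h6 : ((N:ℝ) + 2 * E) ^ (d + 1) * (((N:ℝ) + 2 * E - (N - 2 * E)) / (N + 2 * E)) =
      ((N:ℝ) + 2 * E) ^ d * (4 * E) := by
    rw [pow_succ]; field_simp; ring
  rw [mul_assoc, h6]
  calc ((d + 1 : ℕ) : ℝ) * (((N:ℝ) + 2 * E) ^ d * (4 * E)) ≤ ((d + 1 : ℕ) : ℝ) * ((2 * (N:ℝ)) ^ d * (4 * E)) := by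
        gcongr; linarith
    _ = _ := by
        rw [mul_pow]; field_simp; ring

/-- removing the dependence of the region on the multiplier -/
theorem bdry_mreg (χ : 𝓞 K → ℂ) (hχ : ∀ x, ‖χ x‖ ≤ 1) (N : ℕ) (hN : 0 < N) (δ : 𝓞 K) (hδ : δ ≠ 0)
    (M : ℕ) (hM : mreg b N δ ⊆ box D M) (H E : ℕ) (hH : 0 < H)
    (hE : Cb b * ‖crd b δ‖ * H ≤ E) (hEN : 2 * E ≤ N) (β : Tor D) :
    nsq (gd b χ N δ * phiT H β) ≤ nsq (tp (box D M) (fun m => χ (iot b m)) * phiT H β) +
      D * 2 ^ (D + 1) * E / N * (N:ℝ) ^ D := by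
  have hHr : (0:ℝ) < H := by exact_mod_cast hH
  set g := gd b χ N δ with hg
  set gj := tp (box D M) (fun m => χ (iot b m)) with hgj
  rw [mul_comm g, mul_comm gj]
  have hTP : IsTP (H + M) (phiT H β * g) := (phiT_isTP H β).mul (gd_isTP b χ N δ M hM)
  have h1 : nsq (phiT H β * g) = ∑ n ∈ box D (H + M), ‖cf (phiT H β * g) n‖ ^ 2 := by
    conv_lhs => rw [hTP.eq]
    rw [nsq_tp]
  have hcg : ∀ n, cf g n = if n ∈ mreg b N δ then χ (iot b n) else 0 := fun n => cf_tp _ _ _
  have hcgj : ∀ n, cf gj n = if n ∈ box D M then χ (iot b n) else 0 := fun n => cf_tp _ _ _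
  have h2 : ∀ n ∈ box D (H + M), ‖cf (phiT H β * g) n‖ ^ 2 ≤
      ‖cf (phiT H β * gj) n‖ ^ 2 + (if n ∈ bdS b N δ (H + M) H then 1 else 0) := by
    intro n hn
    by_cases c1 : ∃ l ∈ cube D H, n - l ∈ mreg b N δ
    · by_cases c2 : ∃ l ∈ cube D H, n - l ∉ mreg b N δ
      · have h3 : n ∈ bdS b N δ (H + M) H := by
          rw [bdS, Finset.mem_filter]; exact ⟨hn, c1, c2⟩
        rw [if_pos h3]
        have h4 : ‖cf (phiT H β * g) n‖ ≤ 1 := by
          rw [cf_phiT_mul]
          refine (norm_sum_le _ _).trans ?_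
          calc ∑ l ∈ cube D H, ‖(((H : ℂ) ^ D)⁻¹ * ee (-l) β) * cf g (n - l)‖ ≤
              ∑ l ∈ cube D H, ((H:ℝ) ^ D)⁻¹ := by
                apply Finset.sum_le_sum
                intro l _
                rw [norm_mul, norm_mul, ee_norm_apply, mul_one, norm_inv, norm_pow, Complex.norm_natCast, hcg]
                have : ‖(if n - l ∈ mreg b N δ then χ (iot b (n - l)) else 0)‖ ≤ 1 := by
                  split_ifs
                  · exact hχ _
                  · simp
                calc _ ≤ ((H:ℝ) ^ D)⁻¹ * 1 := by gcongr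
                  _ = _ := mul_one _
            _ = 1 := by
                rw [Finset.sum_const, card_cube, nsmul_eq_mul]
                push_cast
                field_simp
        have := norm_nonneg (cf (phiT H β * g) n)
        nlinarith [sq_nonneg (‖cf (phiT H β * gj) n‖)]
      · push Not at c2
        have h3 : cf (phiT H β * g) n = cf (phiT H β * gj) n := by
          rw [cf_phiT_mul, cf_phiT_mul]
          apply Finset.sum_congr rfl
          intro l hl
          rw [hcg, hcgj, if_pos (c2 l hl), if_pos (hM (c2 l hl))]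
        rw [h3]
        have : (0:ℝ) ≤ (if n ∈ bdS b N δ (H + M) H then 1 else 0) := by split_ifs <;> norm_num
        linarith
    · push Not at c1
      have h3 : cf (phiT H β * g) n = 0 := by
        rw [cf_phiT_mul]
        apply Finset.sum_eq_zero
        intro l hl
        rw [hcg, if_neg (c1 l hl), mul_zero]
      rw [h3]
      have : (0:ℝ) ≤ (if n ∈ bdS b N δ (H + M) H then 1 else 0) := by split_ifs <;> norm_num
      have := sq_nonneg (‖cf (phiT H β * gj) n‖)
      simp only [norm_zero]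
      rw [zero_pow two_ne_zero]
      linarith
  rw [h1]
  refine (Finset.sum_le_sum h2).trans ?_
  rw [Finset.sum_add_distrib]
  apply add_le_add
  · exact sum_cf_le _ _
  · rw [← Finset.sum_filter, Finset.sum_const, nsmul_eq_mul, mul_one]
    refine le_trans ?_ (card_bdS b N hN δ hδ (H + M) H E hE hEN)
    exact_mod_cast Finset.card_le_card (by
      intro n hn
      rw [Finset.mem_filter] at hn
      exact hn.2)

/-- summing over all torsion points -/
lemma sum_bumps (g : C(Tor D, ℂ)) (A : Finset (Tor D)) (s : ℝ) (hs : 0 < s) (hA : Sep A s) (H : ℕ) (hH : 0 < H) :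
    ∑ β ∈ A, nsq (g * phiT H β) ≤ (1 + A.card / (H * s) ^ 2) * nsq g := by
  have h1 : ∑ β ∈ A, nsq (g * phiT H β) = ∫ α, ∑ β ∈ A, ‖(g * phiT H β) α‖ ^ 2 := by
    rw [integral_finsetSum]
    · rfl
    · intro i _
      exact integrable_cont' (by fun_prop)
  rw [h1, nsq, ← integral_const_mul]
  apply integral_mono (integrable_cont' (by fun_prop)) (integrable_cont' (by fun_prop))
  intro α
  have h2 := sumsq_le A s hs hA H hH α
  have h3 : ∑ β ∈ A, ‖(g * phiT H β) α‖ ^ 2 = (∑ β ∈ A, ‖phiT H β α‖ ^ 2) * ‖g α‖ ^ 2 := by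
    rw [Finset.sum_mul]
    apply Finset.sum_congr rfl
    intro β _
    rw [ContinuousMap.mul_apply, norm_mul]; ring
  simp only
  rw [h3]
  gcongr

end PSarnak
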