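import Pool.Agent.Run7.h492.MajC

/-!
Major arc bounds for the model kernel, part four: sums over multipliers.
-/

set_option linter.unusedVariables false
set_option linter.unusedSectionVars false

noncomputable section

open Finset NumberField
open scoped Classical ComplexConjugate

namespace PSarnak

variable {K : Type*} [Field K] [NumberField K] {D : ℕ} (b : Module.Basis (Fin D) ℤ (𝓞 K))

lemma sm_nsmul_right (x : 𝓞 K) (k : ℕ) (α : Tor D) : sm b x (k • α) = k • sm b x α := by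
  rw [← sm_nat b k α, ← sm_mul, mul_comm, sm_mul, sm_nat]

lemma exists_mul_eq_Nn (δ : 𝓞 K) : ∃ y : 𝓞 K, y * δ = (Nn δ : 𝓞 K) := by
  have h1 : ((Ideal.absNorm (Ideal.span {δ}) : ℕ) : 𝓞 K) ∈ Ideal.span {δ} := Ideal.absNorm_mem _
  rw [Ideal.mem_span_singleton', ← Nn_eq_absNorm] at h1
  exact h1

lemma coprime_of_large (m q P : ℕ) (hq : 0 < q) (hqP : q ≤ P) (hm : ∀ p : ℕ, p.Prime → p ∣ m → P < p) :
    Nat.Coprime q m := by
  apply Nat.Coprime.symm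
  rw [Nat.coprime_iff_gcd_eq_one]
  by_contra h
  obtain ⟨p, hp, hpd⟩ := Nat.exists_prime_and_dvd h
  have h1 := hm p hp (hpd.trans (Nat.gcd_dvd_left _ _))
  have h2 := Nat.le_of_dvd hq (hpd.trans (Nat.gcd_dvd_right _ _))
  omega

lemma order_eq (δ : 𝓞 K) (β : Tor D) (hco : Nat.Coprime (addOrderOf β) (Nn δ)) (k : ℕ) :
    k • sm b δ β = 0 ↔ k • β = 0 := by
  constructor
  · intro h
    obtain ⟨y, hy⟩ := exists_mul_eq_Nn δ
    have h1 : (Nn δ * k) • β = 0 := by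
      rw [mul_smul, ← sm_nat b (Nn δ), ← hy, sm_mul, sm_nsmul_right, h, sm_zero_right]
    rw [← addOrderOf_dvd_iff_nsmul_eq_zero] at h1 ⊢
    exact hco.dvd_of_dvd_mul_left h1
  · intro h
    rw [← sm_nsmul_right, h, sm_zero_right]

lemma addOrderOf_sm (δ : 𝓞 K) (β : Tor D) (hco : Nat.Coprime (addOrderOf β) (Nn δ)) :
    addOrderOf (sm b δ β) = addOrderOf β := by
  apply Nat.dvd_antisymm
  · rw [addOrderOf_dvd_iff_nsmul_eq_zero, order_eq b δ β hco]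
    exact addOrderOf_nsmul_eq_zero β
  · rw [addOrderOf_dvd_iff_nsmul_eq_zero, ← order_eq b δ β hco]
    exact addOrderOf_nsmul_eq_zero _

lemma rat_order {Q : ℕ} {β : Tor D} (h : β ∈ rat D Q) : 0 < addOrderOf β ∧ addOrderOf β ≤ Q := by
  rw [mem_rat] at h
  obtain ⟨q, h1, h2, h3⟩ := h
  have h4 := addOrderOf_dvd_of_nsmul_eq_zero h3
  exact ⟨Nat.pos_of_dvd_of_pos h4 h1, (Nat.le_of_dvd h1 h4).trans h2⟩

lemma notrat_order {Q : ℕ} {β : Tor D} (h0 : 0 < addOrderOf β) (h : β ∉ rat D Q) : Q < addOrderOf β := by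
  by_contra hc
  apply h
  rw [mem_rat]
  exact ⟨addOrderOf β, h0, by omega, addOrderOf_nsmul_eq_zero β⟩

lemma exists_inv (q : ℕ) (hq : 0 < q) (δ : 𝓞 K) (hco : Nat.Coprime q (Nn δ)) :
    ∃ s ∈ unitsF b q, iot b s * δ - 1 ∈ Ideal.span {(q : 𝓞 K)} := by
  obtain ⟨y, hy⟩ := exists_mul_eq_Nn δ
  have h1 : IsCoprime (q : ℤ) (Nn δ : ℤ) := Nat.isCoprime_iff_coprime.mpr hco
  obtain ⟨u, v, huv⟩ := h1
  have h2 : ((v : 𝓞 K) * y) * δ - 1 ∈ Ideal.span {(q : 𝓞 K)} := by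
    rw [Ideal.mem_span_singleton']
    refine ⟨-(u : 𝓞 K), ?_⟩
    have h3 : (u : 𝓞 K) * (q : 𝓞 K) + (v : 𝓞 K) * (Nn δ : 𝓞 K) = 1 := by exact_mod_cast congrArg (Int.cast (R := 𝓞 K)) huv
    rw [mul_assoc, hy]
    linear_combination -h3
  obtain ⟨s, hs, hs2⟩ := cube_surj b q hq (Ideal.Quotient.mk _ ((v : 𝓞 K) * y))
  have h3 : iot b s * δ - 1 ∈ Ideal.span {(q : 𝓞 K)} := by
    rw [← Ideal.Quotient.eq_zero_iff_mem, map_sub, map_mul, hs2, ← map_mul, ← map_sub,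
      Ideal.Quotient.eq_zero_iff_mem]
    exact h2
  refine ⟨s, ?_, h3⟩
  rw [mem_unitsF]
  refine ⟨hs, ?_⟩
  rw [← Ideal.Quotient.eq_zero_iff_mem, map_sub, map_mul, map_one, sub_eq_zero] at h3
  exact IsUnit.of_mul_eq_one _ h3

theorem wj_bound : ∃ Cs : ℝ, 0 < Cs ∧ ∀ (M : ℕ) (ρ : C(Tor D, ℂ)), IsTP M ρ → ∀ η : ℝ, 0 < η → nsq ρ ≤ η →
    ∃ Q₁ : ℕ, 0 < Q₁ ∧ ∀ (𝒢 : Finset (𝓞 K)) (P z Q R : ℕ),
      (∀ δ ∈ 𝒢, δ ≠ 0 ∧ ∀ p : ℕ, p.Prime → p ∣ Nn δ → P < p) → Q ≤ P → z ≤ P → 1 ≤ z →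
      z ^ 5 * Q ^ (2 * D) ≤ R → (∀ δ ∈ 𝒢, crd b δ ∈ box D R) → ∀ β' : Tor D,
      (∑ δ ∈ 𝒢, ∑ β ∈ (rat D Q \ rat D Q₁).filter (fun β => sm b δ β = β'), ‖ρ β‖ ^ 2) * Real.log z ≤
        2 * Cs * η * (R:ℝ) ^ D := by
  obtain ⟨Cs, hCs, hsv⟩ := sieve_bound b
  refine ⟨Cs, hCs, ?_⟩
  intro M ρ hρ η hη hn
  obtain ⟨Q₁, hQ₁, hQ⟩ := unit_rho b M ρ hρ η hη hn
  refine ⟨Q₁, hQ₁, ?_⟩
  intro 𝒢 P z Q R h𝒢 hQP hzP hz hzR hR β'
  set A' := rat D Q \ rat D Q₁ with hA'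
  by_cases hex : ∃ δ₁ ∈ 𝒢, ∃ β₁ ∈ A', sm b δ₁ β₁ = β'
  swap
  · have h0 : (∑ δ ∈ 𝒢, ∑ β ∈ A'.filter (fun β => sm b δ β = β'), ‖ρ β‖ ^ 2) = 0 := by
      apply Finset.sum_eq_zero
      intro δ hδ
      apply Finset.sum_eq_zero
      intro β hβ
      rw [Finset.mem_filter] at hβ
      exact absurd ⟨δ, hδ, β, hβ.1, hβ.2⟩ hex
    rw [h0, zero_mul]
    positivity
  obtain ⟨δ₁, hδ₁, β₁, hβ₁, hδβ⟩ := hex
  have hA'o : ∀ β ∈ A', 0 < addOrderOf β ∧ addOrderOf β ≤ Q ∧ Q₁ < addOrderOf β := by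
    intro β hβ
    rw [hA', Finset.mem_sdiff] at hβ
    obtain ⟨h1, h2⟩ := rat_order hβ.1
    exact ⟨h1, h2, notrat_order h1 hβ.2⟩
  have hco : ∀ δ ∈ 𝒢, ∀ β ∈ A', Nat.Coprime (addOrderOf β) (Nn δ) := by
    intro δ hδ β hβ
    obtain ⟨h1, h2, h3⟩ := hA'o β hβ
    exact coprime_of_large _ _ P h1 (h2.trans hQP) (h𝒢 δ hδ).2
  set q := addOrderOf β' with hq
  have hqβ : ∀ δ ∈ 𝒢, ∀ β ∈ A', sm b δ β = β' → addOrderOf β = q := by
    intro δ hδ β hβ h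
    rw [hq, ← h, addOrderOf_sm b δ β (hco δ hδ β hβ)]
  obtain ⟨hq0, hqQ, hQ₁q⟩ := hA'o β₁ hβ₁
  rw [hqβ δ₁ hδ₁ β₁ hβ₁ hδβ] at hq0 hqQ hQ₁q
  have hcoq : ∀ δ ∈ 𝒢, Nat.Coprime q (Nn δ) := fun δ hδ =>
    coprime_of_large _ _ P hq0 (hqQ.trans hQP) (h𝒢 δ hδ).2
  have hs : ∀ δ : 𝓞 K, ∃ s : Lat D, δ ∈ 𝒢 → s ∈ unitsF b q ∧ iot b s * δ - 1 ∈ Ideal.span {(q : 𝓞 K)} := by
    intro δ
    by_cases hδ : δ ∈ 𝒢
    · obtain ⟨s, h1, h2⟩ := exists_inv b q hq0 δ (hcoq δ hδ)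
      exact ⟨s, fun _ => ⟨h1, h2⟩⟩
    · exact ⟨0, fun h => absurd h hδ⟩
  choose s hs using hs
  -- the inner sum has at most one term
  have hinner : ∀ δ ∈ 𝒢, ∑ β ∈ A'.filter (fun β => sm b δ β = β'), ‖ρ β‖ ^ 2 ≤ ‖ρ (sm b (iot b (s δ)) β')‖ ^ 2 := by
    intro δ hδ
    have h1 : A'.filter (fun β => sm b δ β = β') ⊆ {sm b (iot b (s δ)) β'} := by
      intro β hβ
      rw [Finset.mem_filter] at hβ
      rw [Finset.mem_singleton, ← hβ.2, ← sm_mul]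
      obtain ⟨w, hw⟩ := Ideal.mem_span_singleton'.mp (hs δ hδ).2
      have h2 : iot b (s δ) * δ = 1 + w * (q : 𝓞 K) := by rw [hw]; ring
      rw [h2, sm_add, sm_one, sm_mul, sm_nat]
      have h3 : q • β = 0 := by
        rw [← hqβ δ hδ β hβ.1 hβ.2]; exact addOrderOf_nsmul_eq_zero β
      rw [h3, sm_zero_right, add_zero]
    calc _ ≤ ∑ β ∈ ({sm b (iot b (s δ)) β'} : Finset (Tor D)), ‖ρ β‖ ^ 2 :=
          Finset.sum_le_sum_of_subset_of_nonneg h1 (fun _ _ _ => by positivity)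
      _ = _ := by rw [Finset.sum_singleton]
  -- number of multipliers in a residue class
  have hclass : ∀ t ∈ unitsF b q, ((𝒢.filter (fun δ => s δ = t)).card : ℝ) * ((unitsF b q).card * Real.log z) ≤ Cs * (R:ℝ) ^ D := by
    intro t _
    by_cases hne : (𝒢.filter (fun δ => s δ = t)).Nonempty
    swap
    · rw [Finset.not_nonempty_iff_eq_empty.mp hne]
      simp only [Finset.card_empty, Nat.cast_zero, zero_mul]
      positivity
    obtain ⟨δ₀, hδ₀⟩ := hne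
    rw [Finset.mem_filter] at hδ₀
    have h1 := hsv z q R hz hq0 ((Nat.mul_le_mul_left _ (Nat.pow_le_pow_left hqQ _)).trans hzR) δ₀
      ((𝒢.filter (fun δ => s δ = t)).image (crd b)) (by
        intro n hn
        rw [Finset.mem_image] at hn
        obtain ⟨δ, hδ, rfl⟩ := hn
        exact hR δ (Finset.mem_filter.mp hδ).1) (by
        intro n hn
        rw [Finset.mem_image] at hn
        obtain ⟨δ, hδ, rfl⟩ := hn
        rw [Finset.mem_filter] at hδ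
        rw [iot_crd]
        constructor
        · have h2 := (hs δ hδ.1).2
          have h3 := (hs δ₀ hδ₀.1).2
          rw [hδ.2] at h2
          rw [hδ₀.2] at h3
          -- t (δ - δ₀) ∈ (q)
          have h4 : iot b t * (δ - δ₀) ∈ Ideal.span {(q : 𝓞 K)} := by
            have := Ideal.sub_mem _ h2 h3
            have e : iot b t * δ - 1 - (iot b t * δ₀ - 1) = iot b t * (δ - δ₀) := by ring
            rwa [e] at this
          have h5 : δ - δ₀ = δ * (iot b t * (δ - δ₀)) - (iot b t * δ - 1) * (δ - δ₀) := by ring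
          rw [h5]
          exact Ideal.sub_mem _ (Ideal.mul_mem_left _ _ h4) (Ideal.mul_mem_right _ _ h2)
        · intro p hp hδp
          rw [Pq, Finset.mem_filter, mem_prm] at hp
          obtain ⟨⟨h2, h3, h4⟩, _⟩ := hp
          have h5 := two_le_norm h4 h3
          obtain ⟨r, hr, hrd⟩ := Nat.exists_prime_and_dvd (by omega : Ideal.absNorm p ≠ 1)
          have h6 : Ideal.absNorm p ∣ Nn δ := by
            rw [Nn_eq_absNorm]
            exact Ideal.absNorm_dvd_absNorm_of_le ((Ideal.span_singleton_le_iff_mem _).mpr hδp)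
          have h7 := (h𝒢 δ hδ.1).2 r hr (hrd.trans h6)
          have h8 := Nat.le_of_dvd (by omega) hrd
          omega)
    rw [Finset.card_image_of_injective _ (crd_injective b)] at h1
    exact h1
  have hUpos : (0:ℝ) < (unitsF b q).card := by
    have : 0 < (unitsF b q).card := Finset.card_pos.mpr ⟨s δ₁, (hs δ₁ hδ₁).1⟩
    exact_mod_cast this
  have hlog : 0 ≤ Real.log z := Real.log_nonneg (by exact_mod_cast hz)
  have hU := hQ q hQ₁q β' (addOrderOf_nsmul_eq_zero β') (fun k hk => addOrderOf_dvd_of_nsmul_eq_zero hk)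
  have h1 : (∑ δ ∈ 𝒢, ∑ β ∈ A'.filter (fun β => sm b δ β = β'), ‖ρ β‖ ^ 2) ≤
      ∑ t ∈ unitsF b q, ‖ρ (sm b (iot b t) β')‖ ^ 2 * ((𝒢.filter (fun δ => s δ = t)).card : ℝ) := by
    calc _ ≤ ∑ δ ∈ 𝒢, ‖ρ (sm b (iot b (s δ)) β')‖ ^ 2 := Finset.sum_le_sum hinner
      _ = ∑ t ∈ unitsF b q, ∑ δ ∈ 𝒢.filter (fun δ => s δ = t), ‖ρ (sm b (iot b (s δ)) β')‖ ^ 2 :=
          (Finset.sum_fiberwise_of_maps_to (fun δ hδ => (hs δ hδ).1) _).symm
      _ = _ := by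
          apply Finset.sum_congr rfl
          intro t _
          rw [Finset.sum_congr rfl (fun δ hδ => by rw [(Finset.mem_filter.mp hδ).2] : ∀ δ ∈ 𝒢.filter (fun δ => s δ = t),
            ‖ρ (sm b (iot b (s δ)) β')‖ ^ 2 = ‖ρ (sm b (iot b t) β')‖ ^ 2), Finset.sum_const, nsmul_eq_mul]
          ring
  apply le_of_mul_le_mul_right _ hUpos
  calc (∑ δ ∈ 𝒢, ∑ β ∈ A'.filter (fun β => sm b δ β = β'), ‖ρ β‖ ^ 2) * Real.log z * (unitsF b q).card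
      ≤ (∑ t ∈ unitsF b q, ‖ρ (sm b (iot b t) β')‖ ^ 2 * ((𝒢.filter (fun δ => s δ = t)).card : ℝ)) * Real.log z * (unitsF b q).card := by
        gcongr
    _ = ∑ t ∈ unitsF b q, ‖ρ (sm b (iot b t) β')‖ ^ 2 * (((𝒢.filter (fun δ => s δ = t)).card : ℝ) * ((unitsF b q).card * Real.log z)) := by
        rw [Finset.sum_mul, Finset.sum_mul]
        apply Finset.sum_congr rfl
        intro t _
        ring
    _ ≤ ∑ t ∈ unitsF b q, ‖ρ (sm b (iot b t) β')‖ ^ 2 * (Cs * (R:ℝ) ^ D) := by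
        apply Finset.sum_le_sum
        intro t ht
        have := hclass t ht
        gcongr
    _ = (∑ t ∈ unitsF b q, ‖ρ (sm b (iot b t) β')‖ ^ 2) * (Cs * (R:ℝ) ^ D) := by rw [Finset.sum_mul]
    _ ≤ (2 * η * (unitsF b q).card) * (Cs * (R:ℝ) ^ D) := by gcongr
    _ = _ := by ring

end PSarnak
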