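import Pool.Agent.Run7.h492.MajD

/-!
Major arc bounds for the model kernel, part five: conclusion.
-/

set_option linter.unusedVariables false
set_option linter.unusedSectionVars false

noncomputable section

open Finset NumberField
open scoped Classical ComplexConjugate

namespace PSarnak

variable {K : Type*} [Field K] [NumberField K] {D : ℕ} (b : Module.Basis (Fin D) ℤ (𝓞 K))

lemma rat_sm {Q : ℕ} {β : Tor D} (h : β ∈ rat D Q) (δ : 𝓞 K) : sm b δ β ∈ rat D Q := by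
  rw [mem_rat] at h ⊢
  obtain ⟨q, h1, h2, h3⟩ := h
  exact ⟨q, h1, h2, by rw [← sm_nsmul_right, h3, sm_zero_right]⟩

/-- sum over one dyadic group -/
lemma group_major (Cs : ℝ) (hCs : 0 < Cs) (𝒢 : Finset (𝓞 K)) (ρ g : C(Tor D, ℂ)) (η : ℝ) (hη : 0 < η)
    (Q Q₁ z R H : ℕ) (hQ : 0 < Q) (hH : 0 < H)
    (hw : ∀ β' : Tor D, (∑ δ ∈ 𝒢, ∑ β ∈ (rat D Q \ rat D Q₁).filter (fun β => sm b δ β = β'), ‖ρ β‖ ^ 2) * Real.log z ≤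
        2 * Cs * η * (R:ℝ) ^ D)
    (hHQ : ((rat D Q).card : ℝ) / (H * (1 / (Q:ℝ) ^ 2)) ^ 2 ≤ 1) :
    (∑ δ ∈ 𝒢, ∑ β ∈ rat D Q \ rat D Q₁, ‖ρ β‖ ^ 2 * nsq (g * phiT H (sm b δ β))) * Real.log z ≤
      4 * Cs * η * (R:ℝ) ^ D * nsq g := by
  have hQr : (0:ℝ) < Q := by exact_mod_cast hQ
  have h1 : ∑ δ ∈ 𝒢, ∑ β ∈ rat D Q \ rat D Q₁, ‖ρ β‖ ^ 2 * nsq (g * phiT H (sm b δ β)) =
      ∑ β' ∈ rat D Q, nsq (g * phiT H β') *
        ∑ δ ∈ 𝒢, ∑ β ∈ (rat D Q \ rat D Q₁).filter (fun β => sm b δ β = β'), ‖ρ β‖ ^ 2 := by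
    have e1 : ∀ δ ∈ 𝒢, ∑ β ∈ rat D Q \ rat D Q₁, ‖ρ β‖ ^ 2 * nsq (g * phiT H (sm b δ β)) =
        ∑ β' ∈ rat D Q, nsq (g * phiT H β') * ∑ β ∈ (rat D Q \ rat D Q₁).filter (fun β => sm b δ β = β'), ‖ρ β‖ ^ 2 := by
      intro δ _
      rw [← Finset.sum_fiberwise_of_maps_to (fun β hβ => rat_sm b (Finset.mem_sdiff.mp hβ).1 δ)]
      apply Finset.sum_congr rfl
      intro β' _
      rw [Finset.mul_sum]
      apply Finset.sum_congr rfl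
      intro β hβ
      rw [(Finset.mem_filter.mp hβ).2]; ring
    rw [Finset.sum_congr rfl e1, Finset.sum_comm]
    apply Finset.sum_congr rfl
    intro β' _
    rw [Finset.mul_sum]
  rw [h1, Finset.sum_mul]
  have h2 := sum_bumps g (rat D Q) (1 / (Q:ℝ) ^ 2) (by positivity) (sep_rat Q hQ) H hH
  have hg := nsq_nonneg g
  calc ∑ β' ∈ rat D Q, (nsq (g * phiT H β') *
        ∑ δ ∈ 𝒢, ∑ β ∈ (rat D Q \ rat D Q₁).filter (fun β => sm b δ β = β'), ‖ρ β‖ ^ 2) * Real.log z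
      ≤ ∑ β' ∈ rat D Q, nsq (g * phiT H β') * (2 * Cs * η * (R:ℝ) ^ D) := by
        apply Finset.sum_le_sum
        intro β' _
        rw [mul_assoc]
        exact mul_le_mul_of_nonneg_left (hw β') (nsq_nonneg _)
    _ = (∑ β' ∈ rat D Q, nsq (g * phiT H β')) * (2 * Cs * η * (R:ℝ) ^ D) := by rw [Finset.sum_mul]
    _ ≤ (2 * nsq g) * (2 * Cs * η * (R:ℝ) ^ D) := by
        gcongr
        refine h2.trans ?_
        gcongr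
        linarith
    _ = _ := by ring

lemma nsq_full_le (χ : 𝓞 K → ℂ) (hχ : ∀ x, ‖χ x‖ ≤ 1) (M : ℕ) :
    nsq (tp (box D M) (fun m => χ (iot b m))) ≤ (2 * (M:ℝ) + 1) ^ D := by
  rw [nsq_tp]
  calc ∑ m ∈ box D M, ‖χ (iot b m)‖ ^ 2 ≤ ∑ m ∈ box D M, (1:ℝ) := by
        apply Finset.sum_le_sum
        intro m _
        have := hχ (iot b m)
        have := norm_nonneg (χ (iot b m))
        nlinarith
    _ = _ := by rw [Finset.sum_const, card_box]; push_cast; ring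

/-- main term -/
theorem main_term (C : ℝ) (hC : 1 ≤ C) : ∃ C₅ : ℝ, 0 < C₅ ∧ ∀ (M : ℕ) (ρ : C(Tor D, ℂ)), IsTP M ρ →
    (∀ α, ‖ρ α‖ ≤ 1) → ∀ η : ℝ, 0 < η → nsq ρ ≤ η →
    ∃ Q₁ : ℕ, 0 < Q₁ ∧ ∀ (χ : 𝓞 K → ℂ), (∀ x, ‖χ x‖ ≤ 1) → ∀ (ε : ℝ) (A P : ℕ) (𝒟 : Finset (𝓞 K)),
      MultSet b C ε A P 𝒟 → ∀ (N Q z J H E : ℕ), 0 < P → 0 < Q → Q ≤ P → z ≤ P → 2 ≤ z →
      z ^ 5 * Q ^ (2 * D) ≤ P → P ^ A < 2 ^ J → P ^ A ≤ N → 0 < H →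
      ((rat D Q).card : ℝ) / (H * (1 / (Q:ℝ) ^ 2)) ^ 2 ≤ 1 →
      (∀ δ ∈ 𝒟, Cb b * ‖crd b δ‖ * H ≤ E) → 2 * E ≤ N →
      ∑ δ ∈ 𝒟, ∑ β ∈ rat D Q \ rat D Q₁, ‖ρ β‖ ^ 2 * nsq (gd b χ N δ * phiT H (sm b δ β)) ≤
        (C₅ * (J / Real.log z) * η + 𝒟.card * (rat D Q).card * (D * 2 ^ (D + 1) * E / N)) * (N:ℝ) ^ D := by
  obtain ⟨Cs, hCs, hwj⟩ := wj_bound b
  have hD := D_pos b
  refine ⟨4 * Cs * (6 * C ^ 2) ^ D, by positivity, ?_⟩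
  intro M ρ hρ hρ1 η hη hn
  obtain ⟨Q₁, hQ₁, hw⟩ := hwj M ρ hρ η hη hn
  refine ⟨Q₁, hQ₁, ?_⟩
  intro χ hχ ε A P 𝒟 h N Q z J H E hP hQ hQP hzP hz hzQ hJ hN hH hHQ hE hEN
  have hN0 : 0 < N := lt_of_lt_of_le (pow_pos hP _) hN
  have hNr : (0:ℝ) < N := by exact_mod_cast hN0
  have hlog : 0 < Real.log z := Real.log_pos (by exact_mod_cast hz)
  have hj𝒟 : ∀ δ ∈ 𝒟, Nat.log (2 ^ D) (Nn δ) ∈ Finset.range J := by
    intro δ hδ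
    rw [Finset.mem_range]
    apply Nat.log_lt_of_lt_pow (Nn_pos (h.bal δ hδ).ne).ne'
    calc Nn δ ≤ P ^ A := h.hi δ hδ
      _ < 2 ^ J := hJ
      _ ≤ (2 ^ D) ^ J := Nat.pow_le_pow_left (Nat.le_self_pow hD.ne' 2) _
  set Bd : ℝ := D * 2 ^ (D + 1) * E / N * (N:ℝ) ^ D with hBd
  have hBd0 : 0 ≤ Bd := by positivity
  have hmain : ∀ j ∈ Finset.range J, ∑ δ ∈ grp D 𝒟 j, ∑ β ∈ rat D Q \ rat D Q₁,
      ‖ρ β‖ ^ 2 * nsq (gd b χ N δ * phiT H (sm b δ β)) ≤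
      4 * Cs * (6 * C ^ 2) ^ D * (1 / Real.log z) * η * (N:ℝ) ^ D + (grp D 𝒟 j).card * ((rat D Q).card * Bd) := by
    intro j _
    by_cases hne : (grp D 𝒟 j).Nonempty
    swap
    · rw [Finset.not_nonempty_iff_eq_empty] at hne
      rw [hne, Finset.sum_empty]
      positivity
    obtain ⟨δ₀, hδ₀⟩ := hne
    have hmem : ∀ δ ∈ grp D 𝒟 j, δ ∈ 𝒟 ∧ (2:ℝ) ^ j ≤ Rr D δ ∧ Rr D δ < 2 ^ (j + 1) := by
      intro δ hδ
      rw [grp, Finset.mem_filter] at hδ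
      exact ⟨hδ.1, grp_bounds hD (h.bal δ hδ.1).ne hδ.2⟩
    have hPj : (P:ℝ) < 2 ^ (j + 1) := by
      obtain ⟨h1, h2, h3⟩ := hmem δ₀ hδ₀
      refine lt_of_le_of_lt ?_ h3
      apply le_of_pow_le_pow_left₀ hD.ne' (Rr_pos (h.bal δ₀ h1).ne).le
      rw [Rr_pow hD]; exact_mod_cast h.lo δ₀ h1
    have hjA : (2:ℝ) ^ j ≤ (P:ℝ) ^ A := by
      obtain ⟨h1, h2, h3⟩ := hmem δ₀ hδ₀
      have h4 : (1:ℝ) ≤ 2 ^ j := one_le_pow₀ (by norm_num)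
      calc (2:ℝ) ^ j ≤ ((2:ℝ) ^ j) ^ D := le_self_pow₀ h4 hD.ne'
        _ ≤ Rr D δ₀ ^ D := by gcongr
        _ = Nn δ₀ := Rr_pow hD _
        _ ≤ _ := by exact_mod_cast h.hi δ₀ h1
    have h2j : (0:ℝ) < 2 ^ j := by positivity
    have h2j1 : (1:ℝ) ≤ 2 ^ j := one_le_pow₀ (by norm_num)
    set x : ℝ := (2:ℝ) ^ j with hx
    set M' := ⌊C * N / 2 ^ j⌋₊ with hM'
    set R := ⌊C * 2 ^ (j + 1)⌋₊ with hR
    have hMsub : ∀ δ ∈ grp D 𝒟 j, mreg b N δ ⊆ box D M' := fun δ hδ =>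
      mreg_subset b C (by linarith) (h.bal δ (hmem δ hδ).1) N j (hmem δ hδ).2.1
    have hRsub : ∀ δ ∈ grp D 𝒟 j, crd b δ ∈ box D R := by
      intro δ hδ
      apply crd_mem_box_of_norm
      obtain ⟨h1, h2, h3⟩ := hmem δ hδ
      calc ‖crd b δ‖ ≤ C * Rr D δ := (h.bal δ h1).up
        _ ≤ C * 2 ^ (j + 1) := by gcongr
    have hNx : 1 ≤ (N:ℝ) / x := by
      rw [one_le_div h2j]
      refine hjA.trans ?_
      exact_mod_cast hN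
    have hMle : 2 * (M':ℝ) + 1 ≤ 3 * C * N / x := by
      have h1 : (M':ℝ) ≤ C * N / x := Nat.floor_le (by positivity)
      have h2 : 1 ≤ C * N / x := by
        rw [mul_div_assoc]; nlinarith
      have h3 : 3 * C * N / x = 3 * (C * N / x) := by ring
      rw [h3]; linarith
    have hRle : (R:ℝ) ≤ 2 * C * x := by
      have h1 : (R:ℝ) ≤ C * 2 ^ (j + 1) := Nat.floor_le (by positivity)
      rw [pow_succ] at h1
      linarith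
    have hPR : P ≤ R := by
      have h1 : P < 2 ^ (j + 1) := by exact_mod_cast hPj
      have h2 : 2 ^ (j + 1) ≤ R := by
        rw [hR]
        apply Nat.le_floor
        push_cast
        have : (0:ℝ) < 2 ^ (j + 1) := by positivity
        nlinarith
      omega
    set g := tp (box D M') (fun m => χ (iot b m)) with hg
    have hgm := group_major b Cs hCs (grp D 𝒟 j) ρ g η hη Q Q₁ z R H hQ hH
      (hw (grp D 𝒟 j) P z Q R (fun δ hδ => ⟨(h.bal δ (hmem δ hδ).1).ne, h.pr δ (hmem δ hδ).1⟩) hQP hzP (by omega)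
        (hzQ.trans hPR) hRsub) hHQ
    have hng := nsq_full_le b χ hχ M'
    have hstep : ∑ δ ∈ grp D 𝒟 j, ∑ β ∈ rat D Q \ rat D Q₁, ‖ρ β‖ ^ 2 * nsq (gd b χ N δ * phiT H (sm b δ β)) ≤
        ∑ δ ∈ grp D 𝒟 j, ∑ β ∈ rat D Q \ rat D Q₁, (‖ρ β‖ ^ 2 * nsq (g * phiT H (sm b δ β)) + Bd) := by
      apply Finset.sum_le_sum
      intro δ hδ
      apply Finset.sum_le_sum
      intro β _
      have h1 := bdry_mreg b χ hχ N hN0 δ (h.bal δ (hmem δ hδ).1).ne M' (hMsub δ hδ) H E hH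
        (hE δ (hmem δ hδ).1) hEN (sm b δ β)
      have h2 : ‖ρ β‖ ^ 2 ≤ 1 := by
        have := hρ1 β
        have := norm_nonneg (ρ β)
        nlinarith
      have h3 : 0 ≤ ‖ρ β‖ ^ 2 := by positivity
      calc ‖ρ β‖ ^ 2 * nsq (gd b χ N δ * phiT H (sm b δ β)) ≤ ‖ρ β‖ ^ 2 * (nsq (g * phiT H (sm b δ β)) + Bd) := by gcongr
        _ = ‖ρ β‖ ^ 2 * nsq (g * phiT H (sm b δ β)) + ‖ρ β‖ ^ 2 * Bd := by ring
        _ ≤ _ := by nlinarith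
    refine hstep.trans ?_
    simp only [Finset.sum_add_distrib, Finset.sum_const, nsmul_eq_mul]
    apply add_le_add
    · have h1 : ∑ δ ∈ grp D 𝒟 j, ∑ β ∈ rat D Q \ rat D Q₁, ‖ρ β‖ ^ 2 * nsq (g * phiT H (sm b δ β)) ≤
          4 * Cs * η * (R:ℝ) ^ D * nsq g / Real.log z := by
        rw [le_div_iff₀ hlog]; exact hgm
      refine h1.trans ?_
      calc 4 * Cs * η * (R:ℝ) ^ D * nsq g / Real.log z
          ≤ 4 * Cs * η * (2 * C * x) ^ D * (3 * C * N / x) ^ D / Real.log z := by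
            have h2 : (R:ℝ) ^ D ≤ (2 * C * x) ^ D := by gcongr
            have h3 : nsq g ≤ (3 * C * N / x) ^ D := hng.trans (by gcongr)
            have h4 := nsq_nonneg g
            gcongr
        _ = 4 * Cs * η * ((2 * C * x) * (3 * C * N / x)) ^ D / Real.log z := by
            rw [mul_pow (2 * C * x) (3 * C * N / x)]; ring
        _ = 4 * Cs * η * (6 * C ^ 2 * N) ^ D / Real.log z := by
            congr 3; field_simp; norm_num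
        _ = _ := by rw [mul_pow]; ring
    · have h1 : ((rat D Q \ rat D Q₁).card : ℝ) ≤ (rat D Q).card := by
        exact_mod_cast Finset.card_le_card Finset.sdiff_subset
      gcongr
  have hsplit : ∑ δ ∈ 𝒟, ∑ β ∈ rat D Q \ rat D Q₁, ‖ρ β‖ ^ 2 * nsq (gd b χ N δ * phiT H (sm b δ β)) =
      ∑ j ∈ Finset.range J, ∑ δ ∈ grp D 𝒟 j, ∑ β ∈ rat D Q \ rat D Q₁, ‖ρ β‖ ^ 2 * nsq (gd b χ N δ * phiT H (sm b δ β)) :=
    (Finset.sum_fiberwise_of_maps_to hj𝒟 _).symm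
  rw [hsplit]
  refine (Finset.sum_le_sum hmain).trans (le_of_eq ?_)
  rw [Finset.sum_add_distrib, Finset.sum_const, Finset.card_range, nsmul_eq_mul, ← Finset.sum_mul]
  have hcard : ∑ j ∈ Finset.range J, ((grp D 𝒟 j).card : ℝ) = 𝒟.card := by
    have := Finset.card_eq_sum_card_fiberwise hj𝒟
    rw [this]; push_cast; rfl
  rw [hcard, hBd]
  ring

/-- the major arc estimate -/
theorem kerA_major (C : ℝ) (hC : 1 ≤ C) : ∃ C₅ : ℝ, 0 < C₅ ∧ ∃ C₆ : ℝ, 0 < C₆ ∧ ∀ (M : ℕ) (ρ : C(Tor D, ℂ)), IsTP M ρ →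
    (∀ α, ‖ρ α‖ ≤ 1) → ∀ η : ℝ, 0 < η → nsq ρ ≤ η →
    ∃ Q₁ : ℕ, 0 < Q₁ ∧ ∃ Lc : ℝ, 0 ≤ Lc ∧ ∀ (χ : 𝓞 K → ℂ), (∀ x, ‖χ x‖ ≤ 1) →
      ∀ (ε : ℝ) (A P : ℕ) (𝒟 : Finset (𝓞 K)), MultSet b C ε A P 𝒟 → ∀ (N Q z J h : ℕ) (Z : ℝ), 0 < P → 0 < Q → Q ≤ P →
      z ≤ P → 2 ≤ z → z ^ 5 * Q ^ (2 * D) ≤ P → P ^ A < 2 ^ J → P ^ A ≤ N → 1 ≤ Z → (𝒟.card : ℝ) ≤ Z →
      C * (P:ℝ) ^ A ≤ Z → (Q:ℝ) ^ (D + 1) ≤ Z → C₆ * Z ^ 3 ≤ h → h ^ 2 ≤ N →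
      nsq (kerA b χ 𝒟 N * kap (rat D Q \ rat D Q₁) (h ^ 2) * ρ) * (2 * (N:ℝ) + 1) ^ D ≤
        C₅ * (J / Real.log z) * η + C₆ * (1 + Lc ^ 2) * Z ^ 6 / h := by
  obtain ⟨C₅, hC₅, hmt⟩ := main_term b C hC
  have hD := D_pos b
  have hCb := Cb_pos b
  set C₆ : ℝ := 3 ^ D * (32 * D * 2 ^ (D + 1) * Cb b + 8 * (Real.pi * D * Cb b) ^ 2 + 4 + 1) + 4 * Cb b * D * 2 ^ D with hC₆
  have hpi := Real.pi_pos
  have hC₆0 : 0 < C₆ := by positivity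
  refine ⟨3 ^ D * (16 * C₅), by positivity, C₆, hC₆0, ?_⟩
  intro M ρ hρ hρ1 η hη hn
  obtain ⟨Q₁, hQ₁, hm⟩ := hmt M ρ hρ hρ1 η hη hn
  obtain ⟨Lc, hLc, hLip⟩ := lip_tp M ρ hρ
  refine ⟨Q₁, hQ₁, Lc, hLc, ?_⟩
  intro χ hχ ε A P 𝒟 hM N Q z J h Z hP hQ hQP hzP hz hzQ hJ hN hZ h𝒟Z hPZ hQZ hhZ hhN
  have hN0 : 0 < N := lt_of_lt_of_le (pow_pos hP _) hN
  have hNr : (0:ℝ) < N := by exact_mod_cast hN0
  have hDr : (1:ℝ) ≤ D := by exact_mod_cast hD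
  have h2D : (1:ℝ) ≤ 2 ^ D := one_le_pow₀ (by norm_num)
  have hC₆4 : 4 * Cb b * D * 2 ^ D ≤ C₆ := by
    rw [hC₆]; have : 0 ≤ 3 ^ D * (32 * D * 2 ^ (D + 1) * Cb b + 8 * (Real.pi * D * Cb b) ^ 2 + 4 + 1) := by positivity
    linarith
  have hC₆1 : 4 ≤ C₆ := by
    refine le_trans ?_ hC₆4
    have h1 : 1 ≤ Cb b * D * 2 ^ D := one_le_mul_of_one_le_of_one_le (one_le_mul_of_one_le_of_one_le hCb hDr) h2D
    linarith
  have hZ3 : Z ≤ Z ^ 3 := le_self_pow₀ hZ (by norm_num)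
  have hhr : (1:ℝ) ≤ h := by nlinarith
  have hh0 : 0 < h := by
    have : (0:ℝ) < h := by linarith
    exact_mod_cast this
  have hhr0 : (0:ℝ) < h := by linarith
  have hhNr : (h:ℝ) ^ 2 ≤ N := by exact_mod_cast hhN
  have hNδ : ∀ δ ∈ 𝒟, (Nn δ : ℝ) ≤ Z := by
    intro δ hδ
    have h1 : (Nn δ : ℝ) ≤ (P:ℝ) ^ A := by exact_mod_cast hM.hi δ hδ
    have h2 : (0:ℝ) ≤ (P:ℝ) ^ A := by positivity
    nlinarith
  have hcrd : ∀ δ ∈ 𝒟, ‖crd b δ‖ ≤ Z := by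
    intro δ hδ
    refine ((hM.bal δ hδ).up).trans (le_trans ?_ hPZ)
    have h1 : Rr D δ ≤ (Nn δ : ℝ) := by
      have h2 : (1:ℝ) ≤ Nn δ := by exact_mod_cast Nn_pos (hM.bal δ hδ).ne
      rw [Rr]
      calc (Nn δ : ℝ) ^ ((1:ℝ) / D) ≤ (Nn δ : ℝ) ^ (1:ℝ) := by
            apply Real.rpow_le_rpow_of_exponent_le h2
            rw [div_le_one (by linarith)]; exact hDr
        _ = _ := Real.rpow_one _
    have h2 : (Nn δ : ℝ) ≤ (P:ℝ) ^ A := by exact_mod_cast hM.hi δ hδ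
    have := h1.trans h2
    gcongr
  have hratZ : ((rat D Q).card : ℝ) ≤ Z := by
    have h1 : ((rat D Q).card : ℝ) ≤ (Q:ℝ) ^ (D + 1) := by exact_mod_cast card_rat_le Q
    linarith
  have hQr1 : (1:ℝ) ≤ Q := by exact_mod_cast hQ
  have hQ2 : (Q:ℝ) ^ 2 ≤ Z := (pow_le_pow_right₀ hQr1 (by omega)).trans hQZ
  set A' := rat D Q \ rat D Q₁ with hA'
  have hA'Z : (A'.card : ℝ) ≤ Z := by
    refine le_trans ?_ hratZ
    exact_mod_cast Finset.card_le_card Finset.sdiff_subset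
  set E := ⌈Cb b * Z * h⌉₊ with hE
  have hEge : Cb b * Z * h ≤ E := Nat.le_ceil _
  have hCZh : 1 ≤ Cb b * Z * h := one_le_mul_of_one_le_of_one_le (one_le_mul_of_one_le_of_one_le hCb hZ) hhr
  have hEle : (E:ℝ) ≤ 2 * Cb b * Z * h := by
    have : (E:ℝ) < Cb b * Z * h + 1 := Nat.ceil_lt_add_one (by linarith)
    linarith
  have h4Cb : 4 * Cb b * Z ≤ h := by
    have h1 : 4 * Cb b ≤ C₆ := by
      refine le_trans ?_ hC₆4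
      have : 1 ≤ (D:ℝ) * 2 ^ D := one_le_mul_of_one_le_of_one_le hDr h2D
      nlinarith
    calc 4 * Cb b * Z ≤ C₆ * Z ^ 3 := by gcongr
      _ ≤ h := hhZ
  have hEN : 2 * E ≤ N := by
    have h1 : 2 * (E:ℝ) ≤ N := by nlinarith
    exact_mod_cast h1
  have hEd : ∀ δ ∈ 𝒟, Cb b * ‖crd b δ‖ * h ≤ E := by
    intro δ hδ
    refine le_trans ?_ hEge
    have := hcrd δ hδ
    gcongr
  have hZh : Z ^ 3 ≤ (h:ℝ) := by nlinarith [pow_nonneg (by linarith : (0:ℝ) ≤ Z) 3]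
  have hHQ : ((rat D Q).card : ℝ) / ((h:ℝ) * (1 / (Q:ℝ) ^ 2)) ^ 2 ≤ 1 := by
    rw [div_le_one (by positivity)]
    have h1 : ((rat D Q).card : ℝ) * ((Q:ℝ) ^ 2) ^ 2 ≤ (h:ℝ) ^ 2 := by
      calc ((rat D Q).card : ℝ) * ((Q:ℝ) ^ 2) ^ 2 ≤ Z * Z ^ 2 := by gcongr
        _ = Z ^ 3 := by ring
        _ ≤ h := hZh
        _ ≤ (h:ℝ) ^ 2 := by nlinarith
    rw [mul_pow, one_div, inv_pow, ← div_eq_mul_inv, le_div_iff₀ (by positivity)]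
    exact h1
  have hW := hm χ hχ ε A P 𝒟 hM N Q z J h E hP hQ hQP hzP hz hzQ hJ hN hh0 hHQ hEd hEN
  rw [← hA'] at hW
  have hsep : Sep A' (1 / (Q:ℝ) ^ 2) := (sep_rat Q hQ).mono Finset.sdiff_subset
  -- apply the reduction
  set e₁ : ℝ := Real.pi * D * Cb b * Z / h with he₁
  have hred := maj_reduce b χ hχ 𝒟 (fun δ hδ => (hM.bal δ hδ).ne) hM.L1 N hN0 (⌊C * N⌋₊) (by
      intro δ hδ
      have h1 : (2:ℝ) ^ 0 ≤ Rr D δ := by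
        rw [pow_zero, Rr]
        apply Real.one_le_rpow
        · exact_mod_cast Nn_pos (hM.bal δ hδ).ne
        · positivity
      have := mreg_subset b C (by linarith) (hM.bal δ hδ) N 0 h1
      rwa [pow_zero, div_one] at this)
    A' (1 / (Q:ℝ) ^ 2) (by positivity) hsep (h ^ 2) h (by positivity) hh0 (by
      intro δ hδ
      have h1 := hNδ δ hδ
      push_cast
      calc (Nn δ : ℝ) * (D * 2 ^ D) ≤ Z * (D * 2 ^ D) := by gcongr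
        _ ≤ h := by
            calc Z * (D * 2 ^ D) = 1 * D * 2 ^ D * Z := by ring
              _ ≤ 4 * Cb b * D * 2 ^ D * Z ^ 3 := by
                  gcongr; linarith
              _ ≤ C₆ * Z ^ 3 := by gcongr
              _ ≤ h := hhZ
        _ ≤ (h:ℝ) ^ 2 := by nlinarith) Z hNδ ρ hρ1 Lc hLc hLip e₁ (by
      intro δ hδ
      have h1 := hcrd δ hδ
      rw [he₁]
      push_cast
      have h2 : Real.pi * D * Cb b * ‖crd b δ‖ * h / (h:ℝ) ^ 2 = Real.pi * D * Cb b * ‖crd b δ‖ / h := by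
        field_simp
      rw [h2]
      gcongr)
  push_cast at hred
  set W := ∑ δ ∈ 𝒟, ∑ β ∈ A', ‖ρ β‖ ^ 2 * nsq (gd b χ N δ * phiT h (sm b δ β)) with hWdef
  have hsmall : (𝒟.card : ℝ) * (Z * (8 * A'.card * e₁ ^ 2 +
          (4 * (A'.card / ((h:ℝ) ^ 2 * (1 / (Q:ℝ) ^ 2))) ^ 2 + 2 * (A'.card * Lc / (2 * (h:ℝ) ^ 2)) ^ 2)) * (N:ℝ) ^ D) ≤
      (8 * (Real.pi * D * Cb b) ^ 2 + 4 + Lc ^ 2) * (Z ^ 6 / h) * (N:ℝ) ^ D := by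
    have a1 : 8 * (A'.card : ℝ) * e₁ ^ 2 ≤ 8 * (Real.pi * D * Cb b) ^ 2 * (Z ^ 3 / h) := by
      calc 8 * (A'.card : ℝ) * e₁ ^ 2 ≤ 8 * Z * e₁ ^ 2 := by gcongr
        _ = 8 * (Real.pi * D * Cb b) ^ 2 * (Z ^ 3 / (h:ℝ) ^ 2) := by rw [he₁]; field_simp
        _ ≤ _ := by
            have : (h:ℝ) ≤ (h:ℝ) ^ 2 := by nlinarith
            gcongr
    have a2 : 4 * ((A'.card : ℝ) / ((h:ℝ) ^ 2 * (1 / (Q:ℝ) ^ 2))) ^ 2 ≤ 4 * (Z ^ 4 / h) := by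
      have : (A'.card : ℝ) / ((h:ℝ) ^ 2 * (1 / (Q:ℝ) ^ 2)) = A'.card * (Q:ℝ) ^ 2 / (h:ℝ) ^ 2 := by field_simp
      rw [this]
      have h3 : (A'.card : ℝ) * (Q:ℝ) ^ 2 / (h:ℝ) ^ 2 ≤ Z * Z / (h:ℝ) ^ 2 := by gcongr
      calc 4 * ((A'.card : ℝ) * (Q:ℝ) ^ 2 / (h:ℝ) ^ 2) ^ 2 ≤ 4 * (Z * Z / (h:ℝ) ^ 2) ^ 2 := by gcongr
        _ = 4 * (Z ^ 4 / (h:ℝ) ^ 4) := by ring
        _ ≤ _ := by
            have : (h:ℝ) ≤ (h:ℝ) ^ 4 := le_self_pow₀ hhr (by norm_num)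
            gcongr
    have a3 : 2 * ((A'.card : ℝ) * Lc / (2 * (h:ℝ) ^ 2)) ^ 2 ≤ Lc ^ 2 * (Z ^ 2 / h) := by
      calc 2 * ((A'.card : ℝ) * Lc / (2 * (h:ℝ) ^ 2)) ^ 2 ≤ 2 * (Z * Lc / (2 * (h:ℝ) ^ 2)) ^ 2 := by gcongr
        _ = Lc ^ 2 * (Z ^ 2 / (2 * (h:ℝ) ^ 4)) := by field_simp
        _ ≤ _ := by
            have : (h:ℝ) ≤ (h:ℝ) ^ 4 := le_self_pow₀ hhr (by norm_num)
            have h5 : (h:ℝ) ≤ 2 * (h:ℝ) ^ 4 := by linarith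
            gcongr
    have a4 : 8 * (A'.card : ℝ) * e₁ ^ 2 + (4 * (A'.card / ((h:ℝ) ^ 2 * (1 / (Q:ℝ) ^ 2))) ^ 2 +
        2 * (A'.card * Lc / (2 * (h:ℝ) ^ 2)) ^ 2) ≤ (8 * (Real.pi * D * Cb b) ^ 2 + 4 + Lc ^ 2) * (Z ^ 4 / h) := by
      have b1 : Z ^ 3 / (h:ℝ) ≤ Z ^ 4 / h :=
        div_le_div_of_nonneg_right (pow_le_pow_right₀ hZ (by norm_num)) hhr0.le
      have b2 : Z ^ 2 / (h:ℝ) ≤ Z ^ 4 / h :=
        div_le_div_of_nonneg_right (pow_le_pow_right₀ hZ (by norm_num)) hhr0.le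
      calc _ ≤ 8 * (Real.pi * D * Cb b) ^ 2 * (Z ^ 4 / h) + (4 * (Z ^ 4 / h) + Lc ^ 2 * (Z ^ 4 / h)) := by
            apply add_le_add
            · exact a1.trans (by gcongr)
            · apply add_le_add a2
              exact a3.trans (by gcongr)
        _ = _ := by ring
    calc _ ≤ Z * (Z * ((8 * (Real.pi * D * Cb b) ^ 2 + 4 + Lc ^ 2) * (Z ^ 4 / h)) * (N:ℝ) ^ D) := by gcongr
      _ = _ := by ring
  have hW2 : 16 * W ≤ (16 * C₅ * (J / Real.log z) * η + 32 * D * 2 ^ (D + 1) * Cb b * (Z ^ 6 / h)) * (N:ℝ) ^ D := by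
    have c1 : (𝒟.card : ℝ) * (rat D Q).card * (D * 2 ^ (D + 1) * E / N) ≤ 2 * D * 2 ^ (D + 1) * Cb b * (Z ^ 6 / h) := by
      have c2 : (E:ℝ) / N ≤ 2 * Cb b * Z / h := by
        rw [div_le_div_iff₀ hNr hhr0]
        calc (E:ℝ) * h ≤ (2 * Cb b * Z * h) * h := by gcongr
          _ = 2 * Cb b * Z * (h:ℝ) ^ 2 := by ring
          _ ≤ _ := by gcongr
      calc (𝒟.card : ℝ) * (rat D Q).card * (D * 2 ^ (D + 1) * E / N) =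
            (𝒟.card : ℝ) * (rat D Q).card * (D * 2 ^ (D + 1) * (E / N)) := by ring
        _ ≤ Z * Z * (D * 2 ^ (D + 1) * (2 * Cb b * Z / h)) := by gcongr
        _ = 2 * D * 2 ^ (D + 1) * Cb b * (Z ^ 3 / h) := by ring
        _ ≤ _ := by
            have b3 : Z ^ 3 / (h:ℝ) ≤ Z ^ 6 / h :=
              div_le_div_of_nonneg_right (pow_le_pow_right₀ hZ (by norm_num)) hhr0.le
            gcongr
    calc 16 * W ≤ 16 * ((C₅ * (J / Real.log z) * η + 𝒟.card * (rat D Q).card * (D * 2 ^ (D + 1) * E / N)) * (N:ℝ) ^ D) := by gcongr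
      _ ≤ 16 * ((C₅ * (J / Real.log z) * η + 2 * D * 2 ^ (D + 1) * Cb b * (Z ^ 6 / h)) * (N:ℝ) ^ D) := by gcongr
      _ = _ := by ring
  have hfin : nsq (kerA b χ 𝒟 N * kap A' (h ^ 2) * ρ) ≤ 1 / (N:ℝ) ^ (2 * D) *
      (((16 * C₅ * (J / Real.log z) * η + 32 * D * 2 ^ (D + 1) * Cb b * (Z ^ 6 / h)) +
        (8 * (Real.pi * D * Cb b) ^ 2 + 4 + Lc ^ 2) * (Z ^ 6 / h)) * (N:ℝ) ^ D) := by
    refine hred.trans ?_
    gcongr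
    rw [add_mul]
    exact add_le_add hW2 hsmall
  have hlog : 0 < Real.log z := Real.log_pos (by exact_mod_cast hz)
  set T := ((16 * C₅ * (J / Real.log z) * η + 32 * D * 2 ^ (D + 1) * Cb b * (Z ^ 6 / h)) +
        (8 * (Real.pi * D * Cb b) ^ 2 + 4 + Lc ^ 2) * (Z ^ 6 / h)) with hT
  have hT0 : 0 ≤ T := by positivity
  calc nsq (kerA b χ 𝒟 N * kap A' (h ^ 2) * ρ) * (2 * (N:ℝ) + 1) ^ D
      ≤ (1 / (N:ℝ) ^ (2 * D) * (T * (N:ℝ) ^ D)) * (3 * (N:ℝ)) ^ D := by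
        have hN1 : (1:ℝ) ≤ N := by exact_mod_cast hN0
        gcongr
        linarith
    _ = 3 ^ D * T := by
        rw [mul_pow, two_mul D, pow_add]
        field_simp
    _ ≤ _ := by
        have hx : 0 ≤ Z ^ 6 / (h:ℝ) := by positivity
        have h1 : 3 ^ D * (32 * D * 2 ^ (D + 1) * Cb b + 8 * (Real.pi * D * Cb b) ^ 2 + 4 + Lc ^ 2) ≤ C₆ * (1 + Lc ^ 2) := by
          have h2 : (0:ℝ) ≤ 32 * D * 2 ^ (D + 1) * Cb b + 8 * (Real.pi * D * Cb b) ^ 2 + 4 := by positivity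
          have h3 : 0 ≤ 4 * Cb b * D * 2 ^ D := by positivity
          have h4 : (0:ℝ) < 3 ^ D := by positivity
          rw [hC₆]
          nlinarith [mul_nonneg h4.le (mul_nonneg h2 (sq_nonneg Lc)), mul_nonneg h3 (sq_nonneg Lc), sq_nonneg Lc]
        calc 3 ^ D * T = 3 ^ D * (16 * C₅) * (J / Real.log z) * η +
              (3 ^ D * (32 * D * 2 ^ (D + 1) * Cb b + 8 * (Real.pi * D * Cb b) ^ 2 + 4 + Lc ^ 2)) * (Z ^ 6 / h) := by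
              rw [hT]; ring
          _ ≤ 3 ^ D * (16 * C₅) * (J / Real.log z) * η + (C₆ * (1 + Lc ^ 2)) * (Z ^ 6 / h) := by gcongr
          _ = _ := by ring

end PSarnak
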