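import Pool.Agent.Run7.h492.Torus

/-!
Hardy-Littlewood maximal inequality on the lattice and two counting principles.
-/

set_option linter.unusedVariables false

noncomputable section

open MeasureTheory Finset UnitAddTorus
open scoped ComplexConjugate ENNReal

namespace PSarnak

local instance instMS2 : MeasureSpace UnitAddCircle := ⟨AddCircle.haarAddCircle⟩

variable {D : ℕ}

lemma dist_le_iff_sub_mem_box {n b : Lat D} {M : ℕ} : dist n b ≤ (M : ℝ) ↔ b - n ∈ box D M := by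
  rw [dist_pi_le_iff (by positivity), mem_box]
  apply forall_congr'
  intro i
  rw [Int.dist_eq, Pi.sub_apply, abs_sub_comm]
  constructor
  · intro h
    exact_mod_cast h
  · intro h
    exact_mod_cast h

/-- Hardy-Littlewood maximal inequality (weak type) for finite sets of points -/
lemma hl_maximal (g : Lat D → ℝ) (hg : ∀ n, 0 ≤ g n) (A : ℝ)
    (hA : ∀ s : Finset (Lat D), ∑ n ∈ s, g n ≤ A) (lam : ℝ) (hlam : 0 < lam) (R : ℕ)
    (S : Finset (Lat D))
    (hS : ∀ n ∈ S, ∃ M : ℕ, M ≤ R ∧ lam * (2 * M + 1) ^ D < ∑ m ∈ box D M, g (n - m)) :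
    (S.card : ℝ) * lam ≤ 5 ^ D * A := by
  classical
  choose! M hM using hS
  obtain ⟨u, hut, hdisj, hcov⟩ := Vitali.exists_disjoint_subfamily_covering_enlargement_closedBall
    (α := Lat D) (S : Set (Lat D)) id (fun n => (M n : ℝ)) (R : ℝ)
    (fun a ha => by exact_mod_cast (hM a ha).1) 5 (by norm_num)
  have hufin : u.Finite := (S.finite_toSet).subset hut
  obtain ⟨U, rfl⟩ := hufin.exists_finset_coe
  have hUS : U ⊆ S := by exact_mod_cast hut
  let sb : Lat D → ℕ → Finset (Lat D) := fun b m => (box D m).image (fun k => b - k)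
  have hsb : ∀ b m (n : Lat D), n ∈ sb b m ↔ dist n b ≤ (m : ℝ) := by
    intro b m n
    rw [dist_le_iff_sub_mem_box]
    simp only [sb, Finset.mem_image]
    constructor
    · rintro ⟨k, hk, rfl⟩
      simpa using hk
    · intro h
      exact ⟨b - n, h, by abel⟩
  have hcard : ∀ b m, (sb b m).card ≤ (2 * m + 1) ^ D := by
    intro b m
    exact (Finset.card_image_le).trans (le_of_eq (card_box m))
  have hS1 : S ⊆ U.biUnion (fun b => sb b (5 * M b)) := by
    intro a ha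
    obtain ⟨b, hb, hab⟩ := hcov a (by exact_mod_cast ha)
    rw [Finset.mem_biUnion]
    refine ⟨b, by exact_mod_cast hb, ?_⟩
    rw [hsb]
    have : a ∈ Metric.closedBall (id a) ((M a : ℝ)) := Metric.mem_closedBall_self (by positivity)
    have h2 := hab this
    rw [Metric.mem_closedBall] at h2
    push_cast
    exact h2
  have h1 : (S.card : ℝ) ≤ ∑ b ∈ U, (5:ℝ) ^ D * (2 * M b + 1) ^ D := by
    have h2 : S.card ≤ ∑ b ∈ U, (sb b (5 * M b)).card :=
      (Finset.card_le_card hS1).trans Finset.card_biUnion_le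
    have h3 : (S.card : ℝ) ≤ ∑ b ∈ U, ((sb b (5 * M b)).card : ℝ) := by exact_mod_cast h2
    refine h3.trans (Finset.sum_le_sum ?_)
    intro b hb
    have h4 := hcard b (5 * M b)
    have h5 : ((sb b (5 * M b)).card : ℝ) ≤ ((2 * (5 * M b : ℕ) + 1 : ℕ) : ℝ) ^ D := by
      exact_mod_cast h4
    refine h5.trans ?_
    rw [← mul_pow]
    apply pow_le_pow_left₀ (by positivity)
    push_cast
    nlinarith [(Nat.cast_nonneg (M b) : (0:ℝ) ≤ M b)]
  have hdis : (U : Set (Lat D)).PairwiseDisjoint (fun b => sb b (M b)) := by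
    intro b hb c hc hbc
    rw [Function.onFun, Finset.disjoint_left]
    intro n hn1 hn2
    rw [hsb] at hn1 hn2
    have := hdisj hb hc hbc
    rw [Function.onFun, Set.disjoint_left] at this
    exact this (a := n) (by simpa [Metric.mem_closedBall] using hn1)
      (by simpa [Metric.mem_closedBall] using hn2)
  have h2 : ∑ b ∈ U, ∑ m ∈ box D (M b), g (b - m) ≤ A := by
    have h3 : ∀ b ∈ U, ∑ m ∈ box D (M b), g (b - m) = ∑ n ∈ sb b (M b), g n := by
      intro b _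
      simp only [sb]
      rw [Finset.sum_image]
      intro x _ y _ hxy
      simpa using hxy
    rw [Finset.sum_congr rfl h3, ← Finset.sum_biUnion hdis]
    exact hA _
  have h3 : ∑ b ∈ U, lam * (2 * (M b : ℝ) + 1) ^ D ≤ A := by
    refine le_trans (Finset.sum_le_sum ?_) h2
    intro b hb
    exact ((hM b (hUS hb)).2).le
  rw [← Finset.mul_sum] at h1 h3
  calc (S.card : ℝ) * lam ≤ (5 ^ D * ∑ b ∈ U, (2 * (M b:ℝ) + 1) ^ D) * lam := by gcongr
    _ = 5 ^ D * (lam * ∑ b ∈ U, (2 * (M b:ℝ) + 1) ^ D) := by ring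
    _ ≤ 5 ^ D * A := by gcongr

/-- maximal principle for a family of kernels -/
lemma max_principle {ι : Type*} (I : Finset ι) (c : ι → C(Tor D, ℂ)) (M : ι → ℕ) (B : ℝ)
    (hB0 : 0 ≤ B)
    (hc : ∀ k ∈ I, IsTP (M k) (c k)) (hB : ∀ k ∈ I, nsq (c k) * (2 * M k + 1) ^ D ≤ B)
    (F : C(Tor D, ℂ)) (lam : ℝ) (hlam : 0 < lam) (S : Finset (Lat D))
    (hS : ∀ n ∈ S, ∃ k ∈ I, lam < ‖cf (c k * F) n‖) :
    (S.card : ℝ) ≤ 5 ^ D * B * nsq F / lam ^ 2 := by
  classical
  have key : ∀ n ∈ S, ∃ k ∈ I, lam ^ 2 * (2 * M k + 1) ^ D <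
      B * ∑ m ∈ box D (M k), ‖cf F (n - m)‖ ^ 2 := by
    intro n hn
    obtain ⟨k, hk, hlt⟩ := hS n hn
    refine ⟨k, hk, ?_⟩
    have h1 := norm_cf_tp_mul_sq_le (box D (M k)) (cf (c k)) F n
    rw [← (hc k hk).eq] at h1
    have h2 : nsq (c k) = ∑ m ∈ box D (M k), ‖cf (c k) m‖ ^ 2 := by
      conv_lhs => rw [(hc k hk).eq]
      rw [nsq_tp]
    rw [← h2] at h1
    have h3 : lam ^ 2 < nsq (c k) * ∑ m ∈ box D (M k), ‖cf F (n - m)‖ ^ 2 :=
      lt_of_lt_of_le (by gcongr) h1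
    have h4 : 0 ≤ ∑ m ∈ box D (M k), ‖cf F (n - m)‖ ^ 2 :=
      Finset.sum_nonneg (fun _ _ => by positivity)
    calc lam ^ 2 * (2 * M k + 1) ^ D
        < (nsq (c k) * ∑ m ∈ box D (M k), ‖cf F (n - m)‖ ^ 2) * (2 * M k + 1) ^ D := by gcongr
      _ = (nsq (c k) * (2 * M k + 1) ^ D) * ∑ m ∈ box D (M k), ‖cf F (n - m)‖ ^ 2 := by ring
      _ ≤ B * ∑ m ∈ box D (M k), ‖cf F (n - m)‖ ^ 2 :=
          mul_le_mul_of_nonneg_right (hB k hk) h4
  rcases eq_or_lt_of_le hB0 with hB1 | hB1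
  · have : S = ∅ := by
      rw [Finset.eq_empty_iff_forall_notMem]
      intro n hn
      obtain ⟨k, hk, h⟩ := key n hn
      rw [← hB1] at h
      have : 0 ≤ lam ^ 2 * (2 * M k + 1) ^ D := by positivity
      linarith
    rw [this]
    have := nsq_nonneg F
    simp only [Finset.card_empty, Nat.cast_zero]
    positivity
  · have hne : ∀ n ∈ S, ∃ M' : ℕ, M' ≤ I.sup M ∧ (lam ^ 2 / B) * (2 * M' + 1) ^ D <
        ∑ m ∈ box D M', ‖cf F (n - m)‖ ^ 2 := by
      intro n hn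
      obtain ⟨k, hk, h⟩ := key n hn
      refine ⟨M k, Finset.le_sup hk, ?_⟩
      rw [div_mul_eq_mul_div, div_lt_iff₀ hB1]
      linarith
    have h5 := hl_maximal (fun n => ‖cf F n‖ ^ 2) (fun n => by positivity) (nsq F)
      (fun s => sum_cf_le F s) (lam ^ 2 / B) (by positivity) _ S hne
    rw [le_div_iff₀ (by positivity)]
    rw [mul_div_assoc', div_le_iff₀ hB1] at h5
    linarith

/-- L2 principle for a family of kernels -/
lemma l2_principle {ι : Type*} (I : Finset ι) (c : ι → C(Tor D, ℂ)) (e : ι → ℝ) (B : ℝ)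
    (hc : ∀ k ∈ I, ∀ α, ‖c k α‖ ≤ e k) (hB : ∑ k ∈ I, e k ^ 2 ≤ B)
    (F : C(Tor D, ℂ)) (lam : ℝ) (hlam : 0 < lam) (S : Finset (Lat D))
    (hS : ∀ n ∈ S, ∃ k ∈ I, lam < ‖cf (c k * F) n‖) :
    (S.card : ℝ) ≤ B * nsq F / lam ^ 2 := by
  classical
  rw [le_div_iff₀ (by positivity)]
  have h1 : (S.card : ℝ) * lam ^ 2 ≤ ∑ n ∈ S, ∑ k ∈ I, ‖cf (c k * F) n‖ ^ 2 := by
    rw [← nsmul_eq_mul, ← Finset.sum_const]
    apply Finset.sum_le_sum
    intro n hn
    obtain ⟨k, hk, hlt⟩ := hS n hn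
    refine le_trans ?_ (Finset.single_le_sum (fun _ _ => by positivity) hk)
    gcongr
  refine h1.trans ?_
  rw [Finset.sum_comm]
  calc ∑ k ∈ I, ∑ n ∈ S, ‖cf (c k * F) n‖ ^ 2 ≤ ∑ k ∈ I, e k ^ 2 * nsq F := by
        apply Finset.sum_le_sum
        intro k hk
        exact (sum_cf_le _ _).trans (nsq_mul_le _ _ _ (hc k hk))
    _ = (∑ k ∈ I, e k ^ 2) * nsq F := by rw [Finset.sum_mul]
    _ ≤ _ := by
        have := nsq_nonneg F
        gcongr

end PSarnak
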