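import Pool.Agent.Run7.h492.Bump
import Pool.Agent.Run7.h492.Maximal

/-!
Major arc kernels at each scale and the energy multipliers.
-/

set_option linter.unusedVariables false

noncomputable section

open MeasureTheory Finset UnitAddTorus Filter
open scoped ComplexConjugate ENNReal Classical

namespace PSarnak

local instance instMS4 : MeasureSpace UnitAddCircle := ⟨AddCircle.haarAddCircle⟩

variable {D : ℕ}

/-- bound for the orders of the rational points used at scale `k` -/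
def Qk (D k : ℕ) : ℕ := k ^ (4 * D)

/-- rational points used at scale `k` -/
def Ak (D k : ℕ) : Finset (Tor D) := rat D (Qk D k)

/-- major arc kernel at scale `k`; `h k` is about the fourth root of `N k` -/
def kp (h : ℕ → ℕ) (k : ℕ) : C(Tor D, ℂ) := kap (Ak D k) ((h k) ^ 2)

/-- error quantity -/
def er (D : ℕ) (h : ℕ → ℕ) (k : ℕ) : ℝ := (Qk D k : ℝ) ^ (D + 3) / (h k : ℝ) ^ 2

/-- superpolynomial growth -/
def Super (h : ℕ → ℕ) : Prop := ∀ (p : ℕ) (C : ℝ), ∀ᶠ k : ℕ in atTop, C * ((k:ℝ) + 2) ^ p ≤ (h k : ℝ)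

lemma card_Ak_le (k : ℕ) : ((Ak D k).card : ℝ) ≤ (Qk D k : ℝ) ^ (D + 1) := by
  have := card_rat_le (D := D) (Qk D k)
  rw [Ak]
  exact_mod_cast this

lemma er_bound (h : ℕ → ℕ) (k : ℕ) (hk : 0 < k) (hh : 0 < h k) :
    ((Ak D k).card : ℝ) / (((h k) ^ 2 : ℕ) * (1 / (Qk D k : ℝ) ^ 2)) ≤ er D h k := by
  have hQ : (0:ℝ) < Qk D k := by
    have : 0 < Qk D k := by rw [Qk]; positivity
    exact_mod_cast this
  have hh' : (0:ℝ) < h k := by exact_mod_cast hh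
  rw [er, div_le_div_iff₀ (by positivity) (by positivity)]
  have h1 := card_Ak_le (D := D) k
  push_cast
  calc ((Ak D k).card : ℝ) * (h k : ℝ) ^ 2 ≤ (Qk D k : ℝ) ^ (D + 1) * (h k : ℝ) ^ 2 := by gcongr
    _ = (Qk D k : ℝ) ^ (D + 3) * ((h k : ℝ) ^ 2 * (1 / (Qk D k : ℝ) ^ 2)) := by
        rw [pow_add, pow_add]; field_simp

lemma er_nonneg (h : ℕ → ℕ) (k : ℕ) : 0 ≤ er D h k := by rw [er]; positivity

lemma Super.eventually_ge {h : ℕ → ℕ} (hs : Super h) (C : ℝ) : ∀ᶠ k : ℕ in atTop, C ≤ (h k : ℝ) := by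
  filter_upwards [hs 0 C] with k hk
  simpa using hk

lemma Qk_le (k : ℕ) : (Qk D k : ℝ) ≤ ((k:ℝ) + 2) ^ (4 * D) := by
  rw [Qk]; push_cast
  apply pow_le_pow_left₀ (by positivity); linarith

/-- main smallness statement: any polynomial divided by `h` is small -/
lemma Super.small {h : ℕ → ℕ} (hs : Super h) (p : ℕ) (C : ℝ) (hC : 0 ≤ C) (η : ℝ) (hη : 0 < η) :
    ∀ᶠ k : ℕ in atTop, C * ((k:ℝ) + 2) ^ p / h k ≤ η / (((k:ℝ) + 1) * (k + 2)) := by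
  filter_upwards [hs (p + 2) (C / η), hs.eventually_ge 1] with k hk hk1
  have hk1' : (0:ℝ) < h k := by linarith
  rw [div_le_div_iff₀ hk1' (by positivity)]
  rw [div_mul_eq_mul_div, div_le_iff₀ hη] at hk
  calc C * ((k:ℝ) + 2) ^ p * (((k:ℝ) + 1) * (k + 2)) ≤ C * ((k:ℝ) + 2) ^ p * (((k:ℝ) + 2) * (k + 2)) := by
        gcongr; linarith
    _ = C * ((k:ℝ) + 2) ^ (p + 2) := by ring
    _ ≤ η * h k := by linarith

lemma er_small {h : ℕ → ℕ} (hs : Super h) (C : ℝ) (hC : 0 ≤ C) (η : ℝ) (hη : 0 < η) :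
    ∀ᶠ k : ℕ in atTop, C * er D h k ≤ η / (((k:ℝ) + 1) * (k + 2)) := by
  filter_upwards [hs.small (4 * D * (D + 3)) C hC η hη, hs.eventually_ge 1] with k hk hk1
  refine le_trans ?_ hk
  have hk1' : (0:ℝ) < h k := by linarith
  rw [er, ← mul_div_assoc]
  rw [div_le_div_iff₀ (by positivity) hk1']
  calc C * (Qk D k : ℝ) ^ (D + 3) * h k ≤ C * (((k:ℝ) + 2) ^ (4 * D)) ^ (D + 3) * h k := by
        gcongr; exact Qk_le k
    _ = C * ((k:ℝ) + 2) ^ (4 * D * (D + 3)) * (h k * 1) := by rw [← pow_mul]; ring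
    _ ≤ C * ((k:ℝ) + 2) ^ (4 * D * (D + 3)) * (h k * h k) := by gcongr
    _ = _ := by ring

lemma sum_telescope (f : ℕ → ℝ) (c : ℝ) (k₀ K : ℕ) (hc : 0 ≤ c)
    (hf : ∀ i, k₀ ≤ i → f i ≤ c / (((i:ℝ) + 1) * (i + 2))) :
    ∑ i ∈ Finset.Ico k₀ K, f i ≤ c / (k₀ + 1) := by
  have key : ∀ K, ∑ i ∈ Finset.Ico k₀ K, c / (((i:ℝ) + 1) * (i + 2)) ≤ c / (k₀ + 1) := by
    intro K
    by_cases hK : k₀ ≤ K
    · have h2 : ∀ K, k₀ ≤ K → ∑ i ∈ Finset.Ico k₀ K, c / (((i:ℝ) + 1) * (i + 2))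
          = c / (k₀ + 1) - c / (K + 1) := by
        intro K hK
        induction K, hK using Nat.le_induction with
        | base => simp
        | succ K hK ih =>
          rw [Finset.sum_Ico_succ_top hK, ih]
          push_cast
          field_simp
          ring
      rw [h2 K hK]
      have : 0 ≤ c / ((K:ℝ) + 1) := by positivity
      linarith
    · rw [Finset.Ico_eq_empty (by omega)]
      simp; positivity
  refine le_trans (Finset.sum_le_sum ?_) (key K)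
  intro i hi
  rw [Finset.mem_Ico] at hi
  exact hf i hi.1

/-- basic bound for the kernel -/
lemma kp_norm_le (h : ℕ → ℕ) (k : ℕ) (hk : 0 < k) (hh : 0 < h k) (α : Tor D) :
    ‖kp h k α‖ ≤ 1 + er D h k := by
  have hQ : 0 < Qk D k := by rw [Qk]; positivity
  have hQ' : (0:ℝ) < Qk D k := by exact_mod_cast hQ
  have h1 := kap_norm_le (Ak D k) (1 / (Qk D k : ℝ) ^ 2) (by positivity) (sep_rat _ hQ) ((h k)^2)
    (by positivity) α
  refine h1.trans ?_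
  have := er_bound (D := D) h k hk hh
  linarith

lemma kp_isTP (h : ℕ → ℕ) (k : ℕ) : IsTP ((h k) ^ 2) (kp (D := D) h k) := kap_isTP _ _

lemma nsq_kp_le (hD : 0 < D) (h : ℕ → ℕ) (k : ℕ) (hh : 0 < h k) :
    nsq (kp (D := D) h k) ≤ (Qk D k : ℝ) ^ (2 * (D + 1)) / h k := by
  have hh' : (1:ℝ) ≤ h k := by exact_mod_cast hh
  refine (nsq_kap_le (Ak D k) ((h k)^2) (by positivity)).trans ?_
  have h1 := card_Ak_le (D := D) k
  rw [pow_mul', sq ((Qk D k : ℝ) ^ (D+1)), ← sq]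
  rw [div_le_div_iff₀ (by positivity) (by positivity)]
  have h2 : (h k : ℝ) ≤ (((h k)^2 : ℕ) : ℝ) ^ D := by
    push_cast
    rw [← pow_mul]
    calc (h k : ℝ) = (h k : ℝ) ^ 1 := by ring
      _ ≤ (h k : ℝ) ^ (2 * D) := pow_le_pow_right₀ hh' (by omega)
  calc ((Ak D k).card : ℝ) ^ 2 * h k ≤ ((Qk D k : ℝ) ^ (D+1)) ^ 2 * h k := by gcongr
    _ ≤ _ := by gcongr

/-- close to a rational point the kernel is close to one -/
lemma kp_near (h : ℕ → ℕ) (k : ℕ) (hk : 0 < k) (hh : 0 < h k)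
    (hh2 : 2 * (Qk D k : ℝ) ^ 2 < (h k : ℝ) ^ 3) (α : Tor D)
    (hα : ∃ q : ℕ, 1 ≤ q ∧ q ≤ Qk D k ∧ ‖q • α‖ ≤ 1 / (h k : ℝ) ^ 3) :
    ‖1 - kp h k α‖ ≤ 2 * Real.pi * D / h k + er D h k := by
  have hQ : 0 < Qk D k := by rw [Qk]; positivity
  have hQ' : (0:ℝ) < Qk D k := by exact_mod_cast hQ
  have hh' : (0:ℝ) < h k := by exact_mod_cast hh
  obtain ⟨q, hq1, hq2, hq3⟩ := hα
  have hq' : (1:ℝ) ≤ q := by exact_mod_cast hq1
  have : ∀ i, ∃ t₀ : UnitAddCircle, q • t₀ = 0 ∧ ‖α i - t₀‖ ≤ 1 / (h k : ℝ) ^ 3 := by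
    intro i
    obtain ⟨t₀, h1, h2⟩ := exists_near_torsion q hq1 (α i)
    refine ⟨t₀, h1, h2.trans ?_⟩
    have h3 : ‖q • α i‖ ≤ ‖q • α‖ := norm_le_pi_norm (q • α) i
    calc ‖q • α i‖ / q ≤ ‖q • α i‖ / 1 := by gcongr
      _ = ‖q • α i‖ := by rw [div_one]
      _ ≤ _ := h3.trans hq3
  choose β hβ1 hβ2 using this
  have hβA : (β : Tor D) ∈ Ak D k := by
    rw [Ak, mem_rat]
    exact ⟨q, hq1, hq2, by ext i; simpa using hβ1 i⟩
  have hdist : ‖α - β‖ ≤ 1 / (h k : ℝ) ^ 3 := by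
    rw [pi_norm_le_iff_of_nonneg (by positivity)]
    intro i; exact hβ2 i
  have h4 : ‖α - β‖ < (1 / (Qk D k : ℝ) ^ 2) / 2 := by
    refine lt_of_le_of_lt hdist ?_
    rw [div_div]
    apply one_div_lt_one_div_of_lt (by positivity)
    linarith
  have h5 := kap_close (Ak D k) (1 / (Qk D k : ℝ) ^ 2) (by positivity) (sep_rat _ hQ) ((h k)^2)
    (by positivity) α β hβA h4
  refine h5.trans ?_
  apply add_le_add _ (er_bound (D := D) h k hk hh)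
  push_cast
  calc 2 * Real.pi * D * (h k : ℝ) ^ 2 * ‖α - β‖ ≤ 2 * Real.pi * D * (h k : ℝ) ^ 2 * (1 / (h k : ℝ) ^ 3) := by
        gcongr
    _ = _ := by field_simp

/-- real energy multiplier -/
def PR (h : ℕ → ℕ) (k₀ K : ℕ) (α : Tor D) : ℝ :=
  ∏ i ∈ Finset.Ico k₀ K, (1 - ‖kp h i α‖ ^ 2 / 4) ^ ((i + 1) ^ 2)

/-- energy multiplier as a continuous function -/
def Pf (h : ℕ → ℕ) (k₀ K : ℕ) : C(Tor D, ℂ) :=
  ∏ i ∈ Finset.Ico k₀ K, (1 - (1/4 : ℂ) • (kp h i * cnj (kp h i))) ^ ((i + 1) ^ 2)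

lemma Pf_apply (h : ℕ → ℕ) (k₀ K : ℕ) (α : Tor D) : Pf h k₀ K α = (PR h k₀ K α : ℂ) := by
  rw [Pf, PR, ContinuousMap.prod_apply]
  push_cast
  apply Finset.prod_congr rfl
  intro i _
  have h1 : (1 - (1/4 : ℂ) * (kp h i α * cnj (kp h i) α)) = 1 - (‖kp h i α‖ : ℂ) ^ 2 / 4 := by
    rw [cnj_apply, Complex.mul_conj, Complex.normSq_eq_norm_sq]
    push_cast; ring
  rw [← h1]
  simp

lemma Pf_isTP (h : ℕ → ℕ) (k₀ K : ℕ) : ∃ M, IsTP M (Pf (D := D) h k₀ K) := by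
  rw [Pf]
  induction Finset.Ico k₀ K using Finset.induction_on with
  | empty => exact ⟨0, by simpa using isTP_one 0⟩
  | insert a s ha ih =>
    obtain ⟨M, hM⟩ := ih
    rw [Finset.prod_insert ha]
    refine ⟨_, IsTP.mul (IsTP.pow (M := (h a)^2 + (h a)^2) ?_ _) hM⟩
    apply IsTP.sub (isTP_one _)
    exact ((kp_isTP h a).mul (kp_isTP h a).cnj).smul _

section PRbounds

variable (h : ℕ → ℕ) (k₀ : ℕ) (hk : ∀ i, k₀ ≤ i → ∀ α : Tor D, ‖kp h i α‖ ≤ 2)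
include hk

lemma fac_mem (i : ℕ) (hi : k₀ ≤ i) (α : Tor D) :
    0 ≤ 1 - ‖kp h i α‖ ^ 2 / 4 ∧ 1 - ‖kp h i α‖ ^ 2 / 4 ≤ 1 := by
  have := hk i hi α
  constructor
  · nlinarith [norm_nonneg (kp h i α)]
  · nlinarith [norm_nonneg (kp h i α)]

lemma PR_nonneg (K : ℕ) (α : Tor D) : 0 ≤ PR h k₀ K α := by
  apply Finset.prod_nonneg
  intro i hi
  rw [Finset.mem_Ico] at hi
  exact pow_nonneg (fac_mem h k₀ hk i hi.1 α).1 _

lemma PR_le_one (K : ℕ) (α : Tor D) : PR h k₀ K α ≤ 1 := by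
  apply Finset.prod_le_one
  · intro i hi
    rw [Finset.mem_Ico] at hi
    exact pow_nonneg (fac_mem h k₀ hk i hi.1 α).1 _
  · intro i hi
    rw [Finset.mem_Ico] at hi
    exact pow_le_one₀ (fac_mem h k₀ hk i hi.1 α).1 (fac_mem h k₀ hk i hi.1 α).2

lemma PR_anti {K K' : ℕ} (hK : K ≤ K') (α : Tor D) : PR h k₀ K' α ≤ PR h k₀ K α := by
  by_cases h1 : k₀ ≤ K
  · rw [PR, PR, ← Finset.prod_Ico_consecutive _ h1 hK]
    have h2 : ∏ i ∈ Finset.Ico K K', (1 - ‖kp h i α‖ ^ 2 / 4) ^ ((i + 1) ^ 2) ≤ 1 := by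
      apply Finset.prod_le_one
      · intro i hi
        rw [Finset.mem_Ico] at hi
        exact pow_nonneg (fac_mem h k₀ hk i (by omega) α).1 _
      · intro i hi
        rw [Finset.mem_Ico] at hi
        exact pow_le_one₀ (fac_mem h k₀ hk i (by omega) α).1 (fac_mem h k₀ hk i (by omega) α).2
    have h3 := PR_nonneg h k₀ hk K α
    rw [PR] at h3
    nlinarith
  · have h2 : PR h k₀ K α = 1 := by
      rw [PR, Finset.Ico_eq_empty (by omega)]; simp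
    rw [h2]
    exact PR_le_one h k₀ hk K' α

end PRbounds

end PSarnak
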