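import Mathlib

/-!
Weak Mertens estimates for prime ideals.
-/

set_option linter.unusedVariables false
set_option linter.unusedSectionVars false

noncomputable section

open Finset NumberField Filter
open scoped Classical nonZeroDivisors

namespace PSarnak

variable (K : Type*) [Field K] [NumberField K]

/-- nonzero ideals of norm at most `n` -/
def idl (n : ℕ) : Finset (Ideal (𝓞 K)) :=
  ((Ideal.finite_setOfPred_absNorm_le (S := 𝓞 K) n).toFinset).filter (fun I => I ≠ ⊥)

variable {K}

lemma mem_idl {n : ℕ} {I : Ideal (𝓞 K)} : I ∈ idl K n ↔ Ideal.absNorm I ≤ n ∧ I ≠ ⊥ := by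
  simp [idl]

lemma norm_pos_of_ne {I : Ideal (𝓞 K)} (hI : I ≠ ⊥) : 0 < Ideal.absNorm I :=
  Nat.pos_of_ne_zero (fun h => hI (Ideal.absNorm_eq_zero_iff.mp h))

variable (K)

lemma idl_mono {m n : ℕ} (h : m ≤ n) : idl K m ⊆ idl K n := by
  intro I hI
  rw [mem_idl] at hI ⊢
  exact ⟨hI.1.trans h, hI.2⟩

lemma idl_zero : idl K 0 = ∅ := by
  rw [Finset.eq_empty_iff_forall_notMem]
  intro I hI
  rw [mem_idl] at hI
  have := norm_pos_of_ne hI.2
  omega

lemma card_idl_eq (n : ℕ) : Nat.card {I : (Ideal (𝓞 K))⁰ // (Ideal.absNorm (I : Ideal (𝓞 K)) : ℝ) ≤ (n:ℝ)} =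
    (idl K n).card := by
  have e : {I : (Ideal (𝓞 K))⁰ // (Ideal.absNorm (I : Ideal (𝓞 K)) : ℝ) ≤ (n:ℝ)} ≃ {I // I ∈ idl K n} := by
    refine ⟨fun I => ⟨I.1.1, ?_⟩, fun I => ⟨⟨I.1, ?_⟩, ?_⟩, fun I => rfl, fun I => rfl⟩
    · rw [mem_idl]
      exact ⟨by exact_mod_cast I.2, nonZeroDivisors.ne_zero I.1.2⟩
    · rw [mem_nonZeroDivisors_iff_ne_zero]
      exact (mem_idl.mp I.2).2
    · have := (mem_idl.mp I.2).1
      exact_mod_cast this
  rw [Nat.card_congr e, Nat.card_eq_fintype_card, Fintype.card_coe]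

theorem idl_bounds : ∃ c C : ℝ, 0 < c ∧ 0 < C ∧ ∀ n : ℕ, 1 ≤ n →
    c * n ≤ ((idl K n).card : ℝ) ∧ ((idl K n).card : ℝ) ≤ C * n := by
  set κ : ℝ := (2 ^ InfinitePlace.nrRealPlaces K * (2 * Real.pi) ^ InfinitePlace.nrComplexPlaces K *
    Units.regulator K * classNumber K) / (Units.torsionOrder K * Real.sqrt |discr K|) with hκ
  have hκ0 : 0 < κ := by
    have h1 := Units.regulator_pos K
    have h2 : (0:ℝ) < classNumber K := by exact_mod_cast (classNumber_pos K)
    have h3 : (0:ℝ) < Units.torsionOrder K := by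
      have := (Units.torsionOrder_pos K)
      exact_mod_cast this
    have h4 : (0:ℝ) < Real.sqrt |discr K| := by
      apply Real.sqrt_pos.mpr
      have := discr_ne_zero K
      have h5 : (0:ℝ) < |((discr K : ℤ) : ℝ)| := abs_pos.mpr (by exact_mod_cast this)
      exact_mod_cast h5
    positivity
  have h1 := NumberField.Ideal.tendsto_norm_le_div_atTop₀ K
  have h2 := h1.comp (tendsto_natCast_atTop_atTop (R := ℝ))
  have h3 : Tendsto (fun n : ℕ => ((idl K n).card : ℝ) / n) atTop (nhds κ) := by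
    refine h2.congr (fun n => ?_)
    simp only [Function.comp]
    rw [card_idl_eq]
  have h4 := h3.eventually (lt_mem_nhds (show κ / 2 < κ by linarith))
  have h5 := h3.eventually (gt_mem_nhds (show κ < 2 * κ by linarith))
  obtain ⟨n₀, hn₀⟩ := eventually_atTop.mp (h4.and h5)
  have hone : ∀ n : ℕ, 1 ≤ n → 1 ≤ (idl K n).card := by
    intro n hn
    rw [Nat.one_le_iff_ne_zero, ← Nat.pos_iff_ne_zero, Finset.card_pos]
    refine ⟨⊤, ?_⟩
    rw [mem_idl]
    refine ⟨?_, top_ne_bot⟩
    simpa using hn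
  refine ⟨min (κ/2) (1 / (n₀ + 1)), 2 * κ + (idl K n₀).card, by positivity, by positivity, ?_⟩
  intro n hn
  have hn' : (0:ℝ) < n := by exact_mod_cast hn
  have hn1 : (1:ℝ) ≤ n := by exact_mod_cast hn
  by_cases hnn : n₀ ≤ n
  · obtain ⟨h6, h7⟩ := hn₀ n hnn
    rw [lt_div_iff₀ hn'] at h6
    rw [div_lt_iff₀ hn'] at h7
    constructor
    · calc min (κ/2) (1 / ((n₀:ℝ) + 1)) * n ≤ κ / 2 * n := by gcongr; exact min_le_left _ _
        _ ≤ _ := h6.le
    · calc ((idl K n).card : ℝ) ≤ 2 * κ * n := h7.le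
        _ ≤ (2 * κ + (idl K n₀).card) * n := by gcongr; simp
  · push Not at hnn
    have hnn' : (n:ℝ) ≤ n₀ + 1 := by
      have : (n:ℝ) < n₀ := by exact_mod_cast hnn
      linarith
    constructor
    · calc min (κ/2) (1 / ((n₀:ℝ) + 1)) * n ≤ 1 / ((n₀:ℝ) + 1) * n := by gcongr; exact min_le_right _ _
        _ ≤ 1 := by rw [one_div_mul_eq_div, div_le_one (by positivity)]; exact hnn'
        _ ≤ _ := by exact_mod_cast hone n hn
    · have h8 : ((idl K n).card : ℝ) ≤ (idl K n₀).card := by
        exact_mod_cast Finset.card_le_card (idl_mono K hnn.le)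
      calc ((idl K n).card : ℝ) ≤ (idl K n₀).card * 1 := by rw [mul_one]; exact h8
        _ ≤ (2 * κ + (idl K n₀).card) * n := by gcongr; linarith

/-- nonzero prime ideals of norm at most `n` -/
def prm (n : ℕ) : Finset (Ideal (𝓞 K)) := (idl K n).filter (fun I => I.IsPrime)

variable {K}

lemma mem_prm {n : ℕ} {I : Ideal (𝓞 K)} : I ∈ prm K n ↔ Ideal.absNorm I ≤ n ∧ I ≠ ⊥ ∧ I.IsPrime := by
  rw [prm, Finset.mem_filter, mem_idl, and_assoc]

lemma two_le_norm {p : Ideal (𝓞 K)} (hp : p.IsPrime) (h0 : p ≠ ⊥) : 2 ≤ Ideal.absNorm p := by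
  have h1 := norm_pos_of_ne h0
  have h2 : Ideal.absNorm p ≠ 1 := fun h => hp.ne_top (Ideal.absNorm_eq_one_iff.mp h)
  omega

lemma prime_of_mem {p : Ideal (𝓞 K)} (hp : p.IsPrime) (h0 : p ≠ ⊥) : Prime p :=
  (Ideal.prime_iff_isPrime h0).mpr hp

lemma card_multiples (J : Ideal (𝓞 K)) (hJ : J ≠ ⊥) (n : ℕ) :
    ((idl K n).filter (fun I => J ∣ I)).card = (idl K (n / Ideal.absNorm J)).card := by
  have hpos := norm_pos_of_ne hJ
  symm
  apply Finset.card_bij (fun I _ => J * I)
  · intro I hI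
    rw [mem_idl] at hI
    rw [Finset.mem_filter, mem_idl]
    refine ⟨⟨?_, mul_ne_zero hJ hI.2⟩, dvd_mul_right _ _⟩
    rw [map_mul]
    calc Ideal.absNorm J * Ideal.absNorm I ≤ Ideal.absNorm J * (n / Ideal.absNorm J) := by gcongr; exact hI.1
      _ ≤ n := Nat.mul_div_le _ _
  · intro I₁ _ I₂ _ h
    exact mul_left_cancel₀ hJ h
  · intro I hI
    rw [Finset.mem_filter, mem_idl] at hI
    obtain ⟨I', rfl⟩ := hI.2
    refine ⟨I', ?_, rfl⟩
    rw [mem_idl]
    refine ⟨?_, right_ne_zero_of_mul hI.1.2⟩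
    rw [Nat.le_div_iff_mul_le hpos, mul_comm, ← map_mul]
    exact hI.1.1

lemma sum_log_primes_le (n : ℕ) (I : Ideal (𝓞 K)) (hI : I ≠ ⊥) :
    ∑ p ∈ (prm K n).filter (fun p => p ∣ I), Real.log (Ideal.absNorm p) ≤ Real.log (Ideal.absNorm I) := by
  have h1 : ∏ p ∈ (prm K n).filter (fun p => p ∣ I), p ∣ I := by
    apply Finset.prod_primes_dvd
    · intro p hp
      rw [Finset.mem_filter, mem_prm] at hp
      exact prime_of_mem hp.1.2.2 hp.1.2.1
    · intro p hp
      exact (Finset.mem_filter.mp hp).2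
  have h2 := Ideal.absNorm_dvd_absNorm_of_le (Ideal.dvd_iff_le.mp h1)
  have h3 := Nat.le_of_dvd (norm_pos_of_ne hI) h2
  rw [map_prod] at h3
  rw [← Real.log_prod]
  · apply Real.log_le_log
    · apply Finset.prod_pos
      intro p hp
      rw [Finset.mem_filter, mem_prm] at hp
      exact_mod_cast norm_pos_of_ne hp.1.2.1
    · exact_mod_cast h3
  · intro p hp
    rw [Finset.mem_filter, mem_prm] at hp
    have := norm_pos_of_ne hp.1.2.1
    exact_mod_cast this.ne'

variable (K)

theorem mertens_upper : ∃ C : ℝ, 0 < C ∧ ∀ n : ℕ, 1 ≤ n →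
    ∑ p ∈ prm K n, Real.log (Ideal.absNorm p) / Ideal.absNorm p ≤ C * Real.log n := by
  obtain ⟨c, C, hc, hC, hb⟩ := idl_bounds K
  refine ⟨2 * C / c, by positivity, ?_⟩
  intro n hn
  have hn' : (0:ℝ) < n := by exact_mod_cast hn
  have h1 : ∑ I ∈ idl K n, ∑ p ∈ (prm K n).filter (fun p => p ∣ I), Real.log (Ideal.absNorm p) ≤
      C * n * Real.log n := by
    calc _ ≤ ∑ I ∈ idl K n, Real.log n := by
          apply Finset.sum_le_sum
          intro I hI
          rw [mem_idl] at hI
          refine (sum_log_primes_le n I hI.2).trans ?_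
          apply Real.log_le_log
          · exact_mod_cast norm_pos_of_ne hI.2
          · exact_mod_cast hI.1
      _ = (idl K n).card * Real.log n := by rw [Finset.sum_const, nsmul_eq_mul]
      _ ≤ _ := by
          have := (hb n hn).2
          have := Real.log_natCast_nonneg n
          gcongr
  have h2 : ∑ I ∈ idl K n, ∑ p ∈ (prm K n).filter (fun p => p ∣ I), Real.log (Ideal.absNorm p) =
      ∑ p ∈ prm K n, Real.log (Ideal.absNorm p) * ((idl K n).filter (fun I => p ∣ I)).card := by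
    simp_rw [Finset.sum_filter]
    rw [Finset.sum_comm]
    apply Finset.sum_congr rfl
    intro p _
    rw [← Finset.sum_filter, Finset.sum_const, nsmul_eq_mul, mul_comm]
  rw [h2] at h1
  have h3 : ∑ p ∈ prm K n, (c * n / 2) * (Real.log (Ideal.absNorm p) / Ideal.absNorm p) ≤
      ∑ p ∈ prm K n, Real.log (Ideal.absNorm p) * ((idl K n).filter (fun I => p ∣ I)).card := by
    apply Finset.sum_le_sum
    intro p hp
    rw [mem_prm] at hp
    have hpos := norm_pos_of_ne hp.2.1
    have hposr : (0:ℝ) < Ideal.absNorm p := by exact_mod_cast hpos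
    rw [card_multiples p hp.2.1]
    have h4 : 1 ≤ n / Ideal.absNorm p := (Nat.one_le_div_iff hpos).mpr hp.1
    have h5 := (hb _ h4).1
    have h6 : (n:ℝ) / Ideal.absNorm p ≤ 2 * (n / Ideal.absNorm p : ℕ) := by
      have h7 : n < Ideal.absNorm p * (n / Ideal.absNorm p + 1) := Nat.lt_mul_div_succ n hpos
      have h8 : (n:ℝ) < Ideal.absNorm p * ((n / Ideal.absNorm p : ℕ) + 1) := by exact_mod_cast h7
      have h9 : (1:ℝ) ≤ (n / Ideal.absNorm p : ℕ) := by exact_mod_cast h4
      rw [div_le_iff₀ hposr]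
      nlinarith
    have hlog := Real.log_natCast_nonneg (Ideal.absNorm p)
    calc c * n / 2 * (Real.log (Ideal.absNorm p) / Ideal.absNorm p)
        = Real.log (Ideal.absNorm p) * (c * (((n:ℝ) / Ideal.absNorm p) / 2)) := by field_simp
      _ ≤ Real.log (Ideal.absNorm p) * (c * (2 * (n / Ideal.absNorm p : ℕ) / 2)) := by gcongr
      _ = Real.log (Ideal.absNorm p) * (c * (n / Ideal.absNorm p : ℕ)) := by ring
      _ ≤ _ := by gcongr
  rw [← Finset.mul_sum] at h3
  have h4 := h3.trans h1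
  have h5 : 0 < c * n / 2 := by positivity
  have h6 : ∑ p ∈ prm K n, Real.log (Ideal.absNorm p) / Ideal.absNorm p ≤ C * n * Real.log n / (c * n / 2) := by
    rw [le_div_iff₀ h5]; linarith
  refine h6.trans (le_of_eq ?_)
  field_simp

lemma geom_le (x : ℝ) (hx0 : 0 ≤ x) (hx : x ≤ 1/2) (E : ℕ) : ∑ e ∈ Finset.Icc 1 E, x ^ e ≤ 2 * x := by
  have h1 : ∑ e ∈ Finset.Icc 1 E, x ^ e ≤ 2 * x - 2 * (x * x ^ E) := by
    induction E with
    | zero => simp
    | succ E ih =>
      rw [Finset.sum_Icc_succ_top (by omega)]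
      have h3 : x ^ (E + 1) = x * x ^ E := by ring
      have h4 : x * x ^ (E + 1) ≤ (1/2) * x ^ (E+1) := by gcongr
      rw [h3] at h4 ⊢
      linarith
  have : 0 ≤ x * x ^ E := by positivity
  linarith

lemma log_norm_le (n : ℕ) (I : Ideal (𝓞 K)) (hI : I ∈ idl K n) :
    Real.log (Ideal.absNorm I) ≤ ∑ p ∈ prm K n, ∑ e ∈ Finset.Icc 1 n,
      if p ^ e ∣ I then Real.log (Ideal.absNorm p) else 0 := by
  rw [mem_idl] at hI
  set F := UniqueFactorizationMonoid.normalizedFactors I with hF
  have hprod : F.prod = I := Ideal.prod_normalizedFactors_eq_self hI.2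
  have h1 : I = ∏ p ∈ F.toFinset, p ^ F.count p := by
    conv_lhs => rw [← hprod]
    exact Finset.prod_multiset_count F
  have hpF : ∀ p ∈ F.toFinset, p.IsPrime ∧ p ≠ ⊥ ∧ p ^ F.count p ∣ I := by
    intro p hp
    rw [Multiset.mem_toFinset] at hp
    have h2 : Prime p := UniqueFactorizationMonoid.prime_of_normalized_factor p hp
    refine ⟨Ideal.isPrime_of_prime h2, h2.ne_zero, ?_⟩
    conv_rhs => rw [h1]
    exact Finset.dvd_prod_of_mem _ (Multiset.mem_toFinset.mpr hp)
  have hdvd : ∀ J : Ideal (𝓞 K), J ∣ I → Ideal.absNorm J ≤ n := by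
    intro J hJ
    exact (Nat.le_of_dvd (norm_pos_of_ne hI.2) (Ideal.absNorm_dvd_absNorm_of_le (Ideal.dvd_iff_le.mp hJ))).trans hI.1
  have hsub : F.toFinset ⊆ prm K n := by
    intro p hp
    obtain ⟨h2, h3, h4⟩ := hpF p hp
    rw [mem_prm]
    refine ⟨?_, h3, h2⟩
    apply hdvd
    rw [Multiset.mem_toFinset] at hp
    exact UniqueFactorizationMonoid.dvd_of_mem_normalizedFactors hp
  have h5 : Real.log (Ideal.absNorm I) = ∑ p ∈ F.toFinset, (F.count p : ℝ) * Real.log (Ideal.absNorm p) := by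
    conv_lhs => rw [h1]
    rw [map_prod]
    push_cast
    rw [Real.log_prod]
    · apply Finset.sum_congr rfl
      intro p _
      rw [map_pow]; push_cast; rw [Real.log_pow]
    · intro p hp
      have := norm_pos_of_ne (hpF p hp).2.1
      rw [map_pow]; push_cast
      positivity
  rw [h5]
  refine le_trans (Finset.sum_le_sum (f := fun p => (F.count p : ℝ) * Real.log (Ideal.absNorm p))
    (g := fun p => ∑ e ∈ Finset.Icc 1 n, if p ^ e ∣ I then Real.log (Ideal.absNorm p) else 0) ?_)
    (Finset.sum_le_sum_of_subset_of_nonneg hsub ?_)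
  · intro p hp
    obtain ⟨h2, h3, h4⟩ := hpF p hp
    have h6 : F.count p ≤ n := by
      have h7 := hdvd _ h4
      rw [map_pow] at h7
      have h8 := two_le_norm h2 h3
      have h9 : F.count p < 2 ^ F.count p := Nat.lt_two_pow_self
      have h10 : 2 ^ F.count p ≤ Ideal.absNorm p ^ F.count p := Nat.pow_le_pow_left h8 _
      omega
    rw [← Finset.sum_filter, Finset.sum_const, nsmul_eq_mul]
    have hlog := Real.log_natCast_nonneg (Ideal.absNorm p)
    have h11 : F.count p ≤ ((Finset.Icc 1 n).filter (fun e => p ^ e ∣ I)).card := by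
      have : Finset.Icc 1 (F.count p) ⊆ (Finset.Icc 1 n).filter (fun e => p ^ e ∣ I) := by
        intro e he
        rw [Finset.mem_Icc] at he
        rw [Finset.mem_filter, Finset.mem_Icc]
        exact ⟨⟨he.1, he.2.trans h6⟩, (pow_dvd_pow p he.2).trans h4⟩
      have h12 := Finset.card_le_card this
      simpa using h12
    have h13 : (F.count p : ℝ) ≤ ((Finset.Icc 1 n).filter (fun e => p ^ e ∣ I)).card := by exact_mod_cast h11
    gcongr
  · intro p _ _
    apply Finset.sum_nonneg
    intro e _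
    have hlog := Real.log_natCast_nonneg (Ideal.absNorm p)
    split_ifs
    · exact hlog
    · exact le_refl _

theorem mertens_lower : ∃ (c : ℝ) (n₀ : ℕ), 0 < c ∧ ∀ n : ℕ, n₀ ≤ n →
    c * Real.log n ≤ ∑ p ∈ prm K n, Real.log (Ideal.absNorm p) / Ideal.absNorm p := by
  obtain ⟨c, C, hc, hC, hb⟩ := idl_bounds K
  obtain ⟨n₀, hn₀⟩ := exists_nat_gt ((2 * C / c + 1) ^ 2)
  refine ⟨c / (8 * C), n₀ + 1, by positivity, ?_⟩
  intro n hn
  have hn1 : 1 ≤ n := by omega
  have hn' : (0:ℝ) < n := by exact_mod_cast hn1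
  have hlogn := Real.log_natCast_nonneg n
  -- lower bound for the sum of logs
  have hlow : c / 4 * n * Real.log n ≤ ∑ I ∈ idl K n, Real.log (Ideal.absNorm I) := by
    set m := Nat.sqrt n with hm
    have hmn : m ≤ n := Nat.sqrt_le_self n
    have hm1 : 1 ≤ m := Nat.sqrt_pos.mpr hn1
    have h1 : ∀ I ∈ idl K n \ idl K m, Real.log n / 2 ≤ Real.log (Ideal.absNorm I) := by
      intro I hI
      rw [Finset.mem_sdiff, mem_idl, mem_idl] at hI
      have h2 : m + 1 ≤ Ideal.absNorm I := by
        by_contra hcon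
        push Not at hcon
        exact hI.2 ⟨by omega, hI.1.2⟩
      have h3 : n ≤ (Ideal.absNorm I) ^ 2 := by
        have h4 := Nat.lt_succ_sqrt n
        calc n ≤ (m + 1) * (m + 1) := h4.le
          _ ≤ (Ideal.absNorm I) ^ 2 := by rw [sq]; exact Nat.mul_le_mul h2 h2
      have h4 : Real.log n ≤ Real.log ((Ideal.absNorm I : ℝ) ^ 2) := by
        apply Real.log_le_log hn'
        exact_mod_cast h3
      rw [Real.log_pow] at h4
      push_cast at h4
      linarith
    have h2 : ((idl K n \ idl K m).card : ℝ) = (idl K n).card - (idl K m).card := by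
      rw [Finset.card_sdiff_of_subset (idl_mono K hmn), Nat.cast_sub (Finset.card_le_card (idl_mono K hmn))]
    have h3 : c / 2 * n ≤ (idl K n \ idl K m).card := by
      rw [h2]
      have h4 := (hb n hn1).1
      have h5 := (hb m hm1).2
      have h6 : C * m ≤ c / 2 * n := by
        have h7 : (2 * C / c) + 1 ≤ m + 1 := by
          have h8 : (2 * C / c + 1) ^ 2 < ((m:ℝ) + 1) ^ 2 := by
            have h9 : (n:ℝ) < ((m + 1) * (m + 1) : ℕ) := by exact_mod_cast Nat.lt_succ_sqrt n
            have h10 : (n₀:ℝ) < n := by exact_mod_cast hn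
            push_cast at h9
            nlinarith
          exact (lt_of_pow_lt_pow_left₀ 2 (by positivity) h8).le
        have h7' : 2 * C / c ≤ m := by linarith
        rw [div_le_iff₀ hc] at h7'
        have h11 : ((m * m : ℕ) : ℝ) ≤ n := by exact_mod_cast Nat.sqrt_le n
        push_cast at h11
        have hm0 : (0:ℝ) ≤ m := Nat.cast_nonneg _
        nlinarith
      linarith
    calc c / 4 * n * Real.log n = (c / 2 * n) * (Real.log n / 2) := by ring
      _ ≤ (idl K n \ idl K m).card * (Real.log n / 2) := by gcongr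
      _ = ∑ I ∈ idl K n \ idl K m, Real.log n / 2 := by rw [Finset.sum_const, nsmul_eq_mul]
      _ ≤ ∑ I ∈ idl K n \ idl K m, Real.log (Ideal.absNorm I) := Finset.sum_le_sum h1
      _ ≤ _ := Finset.sum_le_sum_of_subset_of_nonneg Finset.sdiff_subset
          (fun I _ _ => Real.log_natCast_nonneg _)
  -- upper bound
  have hup : ∑ I ∈ idl K n, Real.log (Ideal.absNorm I) ≤
      2 * C * n * ∑ p ∈ prm K n, Real.log (Ideal.absNorm p) / Ideal.absNorm p := by
    calc ∑ I ∈ idl K n, Real.log (Ideal.absNorm I)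
        ≤ ∑ I ∈ idl K n, ∑ p ∈ prm K n, ∑ e ∈ Finset.Icc 1 n,
          (if p ^ e ∣ I then Real.log (Ideal.absNorm p) else 0) :=
          Finset.sum_le_sum (fun I hI => log_norm_le K n I hI)
      _ = ∑ p ∈ prm K n, ∑ e ∈ Finset.Icc 1 n, ∑ I ∈ idl K n,
          (if p ^ e ∣ I then Real.log (Ideal.absNorm p) else 0) := by
          rw [Finset.sum_comm]
          apply Finset.sum_congr rfl
          intro p _
          rw [Finset.sum_comm]
      _ ≤ ∑ p ∈ prm K n, ∑ e ∈ Finset.Icc 1 n, Real.log (Ideal.absNorm p) * (C * (n * (1 / (Ideal.absNorm p : ℝ)) ^ e)) := by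
          apply Finset.sum_le_sum
          intro p hp
          rw [mem_prm] at hp
          apply Finset.sum_le_sum
          intro e he
          rw [← Finset.sum_filter, Finset.sum_const, nsmul_eq_mul, mul_comm,
            card_multiples _ (pow_ne_zero e hp.2.1)]
          have hlog := Real.log_natCast_nonneg (Ideal.absNorm p)
          have hpos : (0:ℝ) < Ideal.absNorm p := by exact_mod_cast norm_pos_of_ne hp.2.1
          have h1 : ((idl K (n / Ideal.absNorm (p ^ e))).card : ℝ) ≤ C * (n * (1 / (Ideal.absNorm p : ℝ)) ^ e) := by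
            rcases Nat.eq_zero_or_pos (n / Ideal.absNorm (p ^ e)) with h0 | h0
            · rw [h0, idl_zero]; simp; positivity
            · refine (hb _ h0).2.trans ?_
              have h2 : ((n / Ideal.absNorm (p ^ e) : ℕ) : ℝ) ≤ n / (Ideal.absNorm (p^e) : ℝ) := Nat.cast_div_le
              rw [map_pow] at h2 ⊢
              push_cast at h2
              rw [one_div, inv_pow, ← div_eq_mul_inv]
              gcongr
          gcongr
      _ = ∑ p ∈ prm K n, Real.log (Ideal.absNorm p) * (C * (n * ∑ e ∈ Finset.Icc 1 n, (1 / (Ideal.absNorm p : ℝ)) ^ e)) := by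
          apply Finset.sum_congr rfl
          intro p _
          rw [Finset.mul_sum, Finset.mul_sum, Finset.mul_sum]
      _ ≤ ∑ p ∈ prm K n, Real.log (Ideal.absNorm p) * (C * (n * (2 * (1 / (Ideal.absNorm p : ℝ))))) := by
          apply Finset.sum_le_sum
          intro p hp
          rw [mem_prm] at hp
          have hlog := Real.log_natCast_nonneg (Ideal.absNorm p)
          have h2 : (2:ℝ) ≤ Ideal.absNorm p := by exact_mod_cast two_le_norm hp.2.2 hp.2.1
          have h3 := geom_le (1 / (Ideal.absNorm p : ℝ)) (by positivity)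
            (by rw [one_div_le_one_div (by linarith) (by norm_num)]; exact h2) n
          gcongr
      _ = _ := by
          rw [Finset.mul_sum]
          apply Finset.sum_congr rfl
          intro p _
          ring
  have h1 := hlow.trans hup
  have h2 : 0 < 2 * C * n := by positivity
  calc c / (8 * C) * Real.log n = (c / 4 * n * Real.log n) / (2 * C * n) := by field_simp; ring
    _ ≤ _ := by rw [div_le_iff₀ h2]; linarith

end PSarnak
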