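import Pool.Agent.Run7.h492.Close

/-!
Minor arc bounds for the model kernel.
-/

set_option linter.unusedVariables false
set_option linter.unusedSectionVars false

noncomputable section

open Finset NumberField
open scoped Classical ComplexConjugate

namespace PSarnak

variable {K : Type*} [Field K] [NumberField K] {D : ℕ} (b : Module.Basis (Fin D) ℤ (𝓞 K))

/-- convexity in a coordinate direction -/
def Cvx (i : Fin D) (S : Finset (Lat D)) : Prop :=
  ∀ m ∈ S, ∀ t t' : ℤ, 0 ≤ t → t ≤ t' → m + Pi.single i t' ∈ S → m + Pi.single i t ∈ S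

/-- left end points of lines -/
def lft (i : Fin D) (S : Finset (Lat D)) : Finset (Lat D) := S.filter (fun m => m - Pi.single i 1 ∉ S)

/-- right exit points of lines -/
def rgt (i : Fin D) (S : Finset (Lat D)) : Finset (Lat D) := S.filter (fun m => m + Pi.single i 1 ∉ S)

lemma update_inj_aux (i : Fin D) (m m' : Lat D) (t t' : ℤ)
    (h : Function.update m i t = Function.update m' i t') :
    t = t' ∧ m' = m + Pi.single i (m' i - m i) := by
  constructor
  · have := congrFun h i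
    simpa using this
  · ext l
    by_cases hl : l = i
    · subst hl; simp
    · have := congrFun h l
      rw [Function.update_of_ne hl, Function.update_of_ne hl] at this
      simp [hl, this]

lemma card_lft (i : Fin D) (S : Finset (Lat D)) (hS : Cvx i S) (M : ℕ) (hM : S ⊆ box D M) :
    (lft i S).card * (2 * M + 1) ≤ (2 * M + 1) ^ D := by
  have h1 : (2 * M + 1) = (Finset.Icc (-(M:ℤ)) M).card := by simp; omega
  conv_lhs => rw [h1, ← Finset.card_product]
  rw [← card_box]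
  apply Finset.card_le_card_of_injOn (fun p => Function.update p.1 i p.2)
  · rintro ⟨m, t⟩ hp
    rw [Finset.mem_coe, Finset.mem_product, Finset.mem_Icc] at hp
    have hm := mem_box.mp (hM (Finset.mem_filter.mp hp.1).1)
    simp only [Finset.mem_coe, mem_box]
    intro l
    by_cases hl : l = i
    · subst hl
      rw [Function.update_self, abs_le]; exact hp.2
    · rw [Function.update_of_ne hl]; exact hm l
  · rintro ⟨m, t⟩ hp ⟨m', t'⟩ hp' h
    rw [Finset.mem_coe, Finset.mem_product] at hp hp'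
    obtain ⟨h2, h3⟩ := update_inj_aux i m m' t t' h
    obtain ⟨_, h4⟩ := update_inj_aux i m' m t' t h.symm
    have key : ∀ m m' : Lat D, m ∈ lft i S → m' ∈ lft i S → m' = m + Pi.single i (m' i - m i) →
        m i < m' i → False := by
      intro m m' hm hm' he hlt
      rw [lft, Finset.mem_filter] at hm hm'
      apply hm'.2
      have h5 := hS m hm.1 (m' i - m i - 1) (m' i - m i) (by omega) (by omega) (by rw [← he]; exact hm'.1)
      have h6 : m' - Pi.single i 1 = m + Pi.single i (m' i - m i - 1) := by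
        conv_lhs => rw [he]
        rw [add_sub_assoc, ← Pi.single_sub]
      rw [h6]; exact h5
    rcases lt_trichotomy (m i) (m' i) with h5 | h5 | h5
    · exact (key m m' hp.1 hp'.1 h3 h5).elim
    · have h6 : m = m' := by rw [h3, h5]; simp
      rw [h6, h2]
    · exact (key m' m hp'.1 hp.1 h4 h5).elim

lemma card_rgt (i : Fin D) (S : Finset (Lat D)) (hS : Cvx i S) (M : ℕ) (hM : S ⊆ box D M) :
    (rgt i S).card * (2 * M + 1) ≤ (2 * M + 1) ^ D := by
  have h1 : (2 * M + 1) = (Finset.Icc (-(M:ℤ)) M).card := by simp; omega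
  conv_lhs => rw [h1, ← Finset.card_product]
  rw [← card_box]
  apply Finset.card_le_card_of_injOn (fun p => Function.update p.1 i p.2)
  · rintro ⟨m, t⟩ hp
    rw [Finset.mem_coe, Finset.mem_product, Finset.mem_Icc] at hp
    have hm := mem_box.mp (hM (Finset.mem_filter.mp hp.1).1)
    simp only [Finset.mem_coe, mem_box]
    intro l
    by_cases hl : l = i
    · subst hl
      rw [Function.update_self, abs_le]; exact hp.2
    · rw [Function.update_of_ne hl]; exact hm l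
  · rintro ⟨m, t⟩ hp ⟨m', t'⟩ hp' h
    rw [Finset.mem_coe, Finset.mem_product] at hp hp'
    obtain ⟨h2, h3⟩ := update_inj_aux i m m' t t' h
    obtain ⟨_, h4⟩ := update_inj_aux i m' m t' t h.symm
    have key : ∀ m m' : Lat D, m ∈ rgt i S → m' ∈ rgt i S → m' = m + Pi.single i (m' i - m i) →
        m i < m' i → False := by
      intro m m' hm hm' he hlt
      rw [rgt, Finset.mem_filter] at hm hm'
      apply hm.2
      exact hS m hm.1 1 (m' i - m i) (by omega) (by omega) (by rw [← he]; exact hm'.1)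
    rcases lt_trichotomy (m i) (m' i) with h5 | h5 | h5
    · exact (key m m' hp.1 hp'.1 h3 h5).elim
    · have h6 : m = m' := by rw [h3, h5]; simp
      rw [h6, h2]
    · exact (key m' m hp'.1 hp.1 h4 h5).elim

lemma cvx_sum (i : Fin D) (S : Finset (Lat D)) (hS : Cvx i S) (M : ℕ) (hM : S ⊆ box D M) (θ : Tor D) :
    ‖∑ m ∈ S, ee m θ‖ * (2 * ‖θ i‖) * (2 * M + 1) ≤ (2 * (M:ℝ) + 1) ^ D := by
  set E : Lat D := Pi.single i (1:ℤ) with hE
  have hEE : ee E θ = fourier 1 (θ i) := by rw [ee_eq_pr, hE, pr_single]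
  have h1 : (∑ m ∈ S, ee m θ) * (ee E θ - 1) = ∑ m ∈ rgt i S, ee (m + E) θ - ∑ m ∈ lft i S, ee m θ := by
    have e1 : (∑ m ∈ S, ee m θ) * ee E θ = ∑ m ∈ S, ee (m + E) θ := by
      rw [Finset.sum_mul]
      apply Finset.sum_congr rfl
      intro m _
      rw [ee_add]
    have e2 : ∑ m ∈ S, ee (m + E) θ = ∑ m ∈ rgt i S, ee (m + E) θ + ∑ m ∈ S.filter (fun m => m + E ∈ S), ee (m + E) θ := by
      rw [rgt, add_comm]
      exact (Finset.sum_filter_add_sum_filter_not S (fun m => m + E ∈ S) _).symm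
    have e3 : ∑ m ∈ S, ee m θ = ∑ m ∈ lft i S, ee m θ + ∑ m ∈ S.filter (fun m => m - E ∈ S), ee m θ := by
      rw [lft, add_comm]
      exact (Finset.sum_filter_add_sum_filter_not S (fun m => m - E ∈ S) _).symm
    have e4 : ∑ m ∈ S.filter (fun m => m + E ∈ S), ee (m + E) θ = ∑ m ∈ S.filter (fun m => m - E ∈ S), ee m θ := by
      apply Finset.sum_bij (fun m _ => m + E)
      · intro m hm
        rw [Finset.mem_filter] at hm ⊢
        refine ⟨hm.2, ?_⟩
        rw [add_sub_cancel_right]; exact hm.1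
      · intro a _ c _ h; exact add_right_cancel h
      · intro m hm
        rw [Finset.mem_filter] at hm
        refine ⟨m - E, ?_, by abel⟩
        rw [Finset.mem_filter]
        refine ⟨hm.2, ?_⟩
        rw [sub_add_cancel]; exact hm.1
      · intro m _; rfl
    rw [mul_sub, mul_one, e1, e2, e3, e4]; ring
  have h2 : ‖∑ m ∈ S, ee m θ‖ * (4 * ‖θ i‖) ≤ (rgt i S).card + (lft i S).card := by
    calc ‖∑ m ∈ S, ee m θ‖ * (4 * ‖θ i‖) ≤ ‖∑ m ∈ S, ee m θ‖ * ‖ee E θ - 1‖ := by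
          rw [hEE]
          have := (fourier_one_sub_one_bounds (θ i)).1
          gcongr
      _ = ‖∑ m ∈ rgt i S, ee (m + E) θ - ∑ m ∈ lft i S, ee m θ‖ := by rw [← norm_mul, h1]
      _ ≤ ‖∑ m ∈ rgt i S, ee (m + E) θ‖ + ‖∑ m ∈ lft i S, ee m θ‖ := norm_sub_le _ _
      _ ≤ _ := by
          apply add_le_add
          · refine (norm_sum_le _ _).trans (le_of_eq ?_)
            simp only [ee_norm_apply, Finset.sum_const, nsmul_eq_mul, mul_one]
          · refine (norm_sum_le _ _).trans (le_of_eq ?_)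
            simp only [ee_norm_apply, Finset.sum_const, nsmul_eq_mul, mul_one]
  have h3 : ((lft i S).card : ℝ) * (2 * M + 1) ≤ (2 * (M:ℝ) + 1) ^ D := by exact_mod_cast card_lft i S hS M hM
  have h4 : ((rgt i S).card : ℝ) * (2 * M + 1) ≤ (2 * (M:ℝ) + 1) ^ D := by exact_mod_cast card_rgt i S hS M hM
  have h5 : (0:ℝ) ≤ 2 * M + 1 := by positivity
  nlinarith

/-- convexity of the regions -/
lemma cvx_mreg (N : ℕ) (δ δ' : 𝓞 K) (hδ : δ ≠ 0) (hδ' : δ' ≠ 0) (i : Fin D) :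
    Cvx i (mreg b N δ ∩ mreg b N δ') := by
  have key : ∀ δ : 𝓞 K, δ ≠ 0 → ∀ m ∈ mreg b N δ, ∀ t t' : ℤ, 0 ≤ t → t ≤ t' →
      m + Pi.single i t' ∈ mreg b N δ → m + Pi.single i t ∈ mreg b N δ := by
    intro δ hδ m hm t t' ht htt' hm'
    rw [mem_mreg b hδ, mem_cubeAt] at hm hm' ⊢
    have e : ∀ t : ℤ, crd b (δ * iot b (m + Pi.single i t)) = crd b (δ * iot b m) + t • crd b (δ * b i) := by
      intro t
      have e1 : iot b (Pi.single i t) = t • b i := by
        rw [iot_eq, Finset.sum_eq_single i]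
        · simp
        · intro j _ hj; rw [Pi.single_eq_of_ne hj, zero_smul]
        · intro h; exact absurd (Finset.mem_univ i) h
      rw [iot_add, mul_add, crd_add, e1, mul_smul_comm, crd_zsmul]
    intro l
    have h1 := hm l
    have h2 := hm' l
    rw [e] at h2 ⊢
    simp only [Pi.add_apply, Pi.smul_apply, smul_eq_mul] at h2 ⊢
    set a := crd b (δ * iot b m) l
    set c := crd b (δ * b i) l
    rcases le_total 0 c with hc | hc
    · have h3 : 0 ≤ t * c := mul_nonneg ht hc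
      have h4 : t * c ≤ t' * c := mul_le_mul_of_nonneg_right htt' hc
      constructor <;> linarith
    · have h3 : t * c ≤ 0 := mul_nonpos_of_nonneg_of_nonpos ht hc
      have h4 : t' * c ≤ t * c := mul_le_mul_of_nonpos_right htt' hc
      constructor <;> linarith
  intro m hm t t' ht htt' hm'
  rw [Finset.mem_inter] at hm hm' ⊢
  exact ⟨key δ hδ m hm.1 t t' ht htt' hm'.1, key δ' hδ' m hm.2 t t' ht htt' hm'.2⟩

/-- near elements -/
def nearS (𝒢 : Finset (𝓞 K)) (α : Tor D) (τ : ℝ) (δ : 𝓞 K) : Finset (𝓞 K) :=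
  𝒢.filter (fun δ' => ‖sm b (δ - δ') α‖ < τ)

lemma prs_sum (N M : ℕ) (δ δ' : 𝓞 K) (hδ : δ ≠ 0) (hδ' : δ' ≠ 0) (hM : mreg b N δ ⊆ box D M)
    (α : Tor D) (τ : ℝ) (hτ : 0 < τ) :
    ‖∑ m ∈ mreg b N δ ∩ mreg b N δ', ee m (sm b (δ - δ') α)‖ ≤
      (if ‖sm b (δ - δ') α‖ < τ then (2 * (M:ℝ) + 1) ^ D else 0) + (2 * (M:ℝ) + 1) ^ D / (2 * τ * (2 * M + 1)) := by
  have hD := D_pos b
  set θ := sm b (δ - δ') α with hθ
  have hsub : mreg b N δ ∩ mreg b N δ' ⊆ box D M := Finset.inter_subset_left.trans hM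
  have hpos : 0 ≤ (2 * (M:ℝ) + 1) ^ D / (2 * τ * (2 * M + 1)) := by positivity
  split_ifs with h
  · have h1 : ‖∑ m ∈ mreg b N δ ∩ mreg b N δ', ee m θ‖ ≤ ((mreg b N δ ∩ mreg b N δ').card : ℝ) := by
      refine (norm_sum_le _ _).trans (le_of_eq ?_)
      simp only [ee_norm_apply, Finset.sum_const, nsmul_eq_mul, mul_one]
    have h2 : ((mreg b N δ ∩ mreg b N δ').card : ℝ) ≤ (2 * (M:ℝ) + 1) ^ D := by
      have := Finset.card_le_card hsub
      rw [card_box] at this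
      exact_mod_cast this
    linarith
  · rw [zero_add, le_div_iff₀ (by positivity)]
    rw [not_lt] at h
    have : Nonempty (Fin D) := ⟨⟨0, hD⟩⟩
    obtain ⟨i, hi⟩ : ∃ i, ‖θ‖ = ‖θ i‖ := by
      obtain ⟨i, -, hi⟩ := Finset.exists_mem_eq_sup' (Finset.univ_nonempty (α := Fin D)) (fun i => ‖θ i‖₊)
      refine ⟨i, ?_⟩
      apply le_antisymm
      · rw [pi_norm_le_iff_of_nonneg (norm_nonneg _)]
        intro l
        have h3 : ‖θ l‖₊ ≤ Finset.univ.sup' Finset.univ_nonempty (fun i => ‖θ i‖₊) :=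
          Finset.le_sup' (fun i => ‖θ i‖₊) (Finset.mem_univ l)
        rw [hi] at h3
        exact_mod_cast h3
      · exact norm_le_pi_norm θ i
    rw [hi] at h
    have h2 := cvx_sum i _ (cvx_mreg b N δ δ' hδ hδ' i) M hsub θ
    refine le_trans ?_ h2
    have h3 := norm_nonneg (∑ m ∈ mreg b N δ ∩ mreg b N δ', ee m θ)
    calc _ = ‖∑ m ∈ mreg b N δ ∩ mreg b N δ', ee m θ‖ * (2 * τ) * (2 * M + 1) := by ring
      _ ≤ _ := by gcongr

lemma group_minor (χ : 𝓞 K → ℂ) (hχ : ∀ x, ‖χ x‖ ≤ 1) (𝒢 : Finset (𝓞 K)) (h𝒢 : ∀ δ ∈ 𝒢, δ ≠ 0)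
    (N M : ℕ) (hM : ∀ δ ∈ 𝒢, mreg b N δ ⊆ box D M) (α : Tor D) (τ : ℝ) (hτ : 0 < τ) (Bn : ℝ)
    (hB : ∀ δ ∈ 𝒢, ((nearS b 𝒢 α τ δ).card : ℝ) ≤ Bn) :
    ‖∑ δ ∈ 𝒢, χ δ * (sbst b δ (gd b χ N δ)) α‖ ^ 2 ≤
      (2 * (M:ℝ) + 1) ^ (2 * D) * (𝒢.card * (Bn + 𝒢.card / (2 * τ * (2 * M + 1)))) := by
  set F : Lat D → 𝓞 K → ℂ := fun m δ => if m ∈ mreg b N δ then χ δ * ee (crd b (δ * iot b m)) α else 0 with hF
  have h1 : ∑ δ ∈ 𝒢, χ δ * (sbst b δ (gd b χ N δ)) α = ∑ m ∈ box D M, χ (iot b m) * ∑ δ ∈ 𝒢, F m δ := by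
    have e1 : ∀ δ ∈ 𝒢, χ δ * (sbst b δ (gd b χ N δ)) α = ∑ m ∈ box D M, χ (iot b m) * F m δ := by
      intro δ hδ
      rw [gd, sbst_tp, ContinuousMap.sum_apply, Finset.mul_sum]
      rw [← Finset.sum_subset (hM δ hδ)]
      · apply Finset.sum_congr rfl
        intro m hm
        rw [hF]; simp only [if_pos hm, ContinuousMap.smul_apply, smul_eq_mul]; ring
      · intro m _ hm
        rw [hF]; simp only [if_neg hm, mul_zero]
    rw [Finset.sum_congr rfl e1, Finset.sum_comm]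
    apply Finset.sum_congr rfl
    intro m _
    rw [Finset.mul_sum]
  have h2 : ‖∑ δ ∈ 𝒢, χ δ * (sbst b δ (gd b χ N δ)) α‖ ^ 2 ≤
      (2 * (M:ℝ) + 1) ^ D * ∑ m ∈ box D M, ‖∑ δ ∈ 𝒢, F m δ‖ ^ 2 := by
    rw [h1]
    calc ‖∑ m ∈ box D M, χ (iot b m) * ∑ δ ∈ 𝒢, F m δ‖ ^ 2 ≤ (∑ m ∈ box D M, 1 * ‖∑ δ ∈ 𝒢, F m δ‖) ^ 2 := by
          gcongr
          refine (norm_sum_le _ _).trans (Finset.sum_le_sum (fun m _ => ?_))
          rw [norm_mul]
          have := hχ (iot b m)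
          gcongr
      _ ≤ (∑ m ∈ box D M, (1:ℝ) ^ 2) * ∑ m ∈ box D M, ‖∑ δ ∈ 𝒢, F m δ‖ ^ 2 :=
          Finset.sum_mul_sq_le_sq_mul_sq _ _ _
      _ = _ := by
          rw [one_pow, Finset.sum_const, card_box]; push_cast; ring
  refine h2.trans ?_
  rw [two_mul D, pow_add, mul_assoc]
  apply mul_le_mul_of_nonneg_left _ (by positivity)
  -- expand the square
  have h3 : ((∑ m ∈ box D M, ‖∑ δ ∈ 𝒢, F m δ‖ ^ 2 : ℝ) : ℂ) =
      ∑ δ ∈ 𝒢, ∑ δ' ∈ 𝒢, χ δ * conj (χ δ') * ∑ m ∈ mreg b N δ ∩ mreg b N δ', ee m (sm b (δ - δ') α) := by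
    push_cast
    have e1 : ∀ m ∈ box D M, ((‖∑ δ ∈ 𝒢, F m δ‖ : ℝ) : ℂ) ^ 2 =
        ∑ δ ∈ 𝒢, ∑ δ' ∈ 𝒢, χ δ * conj (χ δ') * (if m ∈ mreg b N δ ∩ mreg b N δ' then ee m (sm b (δ - δ') α) else 0) := by
      intro m _
      rw [← Complex.mul_conj', map_sum, Finset.sum_mul_sum]
      apply Finset.sum_congr rfl
      intro δ _
      apply Finset.sum_congr rfl
      intro δ' _
      rw [hF]
      by_cases c1 : m ∈ mreg b N δ <;> by_cases c2 : m ∈ mreg b N δ'
      · simp only [c1, c2, if_true, Finset.mem_inter, and_self]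
        rw [map_mul, ee_sm, sub_mul, crd_sub, ← ee_conj_mul]; ring
      · simp only [c1, c2, if_true, if_false, Finset.mem_inter, and_false, map_zero, mul_zero]
      · simp only [c1, c2, if_true, if_false, Finset.mem_inter, false_and, zero_mul, mul_zero]
      · simp only [c1, c2, if_false, Finset.mem_inter, and_false, map_zero, mul_zero]
    rw [Finset.sum_congr rfl e1, Finset.sum_comm]
    apply Finset.sum_congr rfl
    intro δ hδ
    rw [Finset.sum_comm]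
    apply Finset.sum_congr rfl
    intro δ' _
    rw [← Finset.mul_sum, ← Finset.sum_filter]
    congr 1
    apply Finset.sum_congr _ (fun _ _ => rfl)
    ext m
    rw [Finset.mem_filter]
    constructor
    · exact fun h => h.2
    · exact fun h => ⟨hM δ hδ (Finset.mem_inter.mp h).1, h⟩
  have h4 : ∑ m ∈ box D M, ‖∑ δ ∈ 𝒢, F m δ‖ ^ 2 ≤
      ∑ δ ∈ 𝒢, ∑ δ' ∈ 𝒢, ‖∑ m ∈ mreg b N δ ∩ mreg b N δ', ee m (sm b (δ - δ') α)‖ := by
    have e1 : ∑ m ∈ box D M, ‖∑ δ ∈ 𝒢, F m δ‖ ^ 2 = ‖((∑ m ∈ box D M, ‖∑ δ ∈ 𝒢, F m δ‖ ^ 2 : ℝ) : ℂ)‖ := by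
      rw [Complex.norm_real, Real.norm_of_nonneg]
      exact Finset.sum_nonneg (fun _ _ => by positivity)
    rw [e1, h3]
    refine (norm_sum_le _ _).trans (Finset.sum_le_sum (fun δ _ => ?_))
    refine (norm_sum_le _ _).trans (Finset.sum_le_sum (fun δ' _ => ?_))
    rw [norm_mul, norm_mul, RCLike.norm_conj]
    have e2 : ‖χ δ‖ * ‖χ δ'‖ ≤ 1 := by
      have := hχ δ
      have := hχ δ'
      nlinarith [norm_nonneg (χ δ), norm_nonneg (χ δ')]
    have e3 := norm_nonneg (∑ m ∈ mreg b N δ ∩ mreg b N δ', ee m (sm b (δ - δ') α))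
    nlinarith
  refine h4.trans ?_
  have h5 : ∀ δ ∈ 𝒢, ∑ δ' ∈ 𝒢, ‖∑ m ∈ mreg b N δ ∩ mreg b N δ', ee m (sm b (δ - δ') α)‖ ≤
      (2 * (M:ℝ) + 1) ^ D * (Bn + 𝒢.card / (2 * τ * (2 * M + 1))) := by
    intro δ hδ
    refine (Finset.sum_le_sum (fun δ' hδ' => prs_sum b N M δ δ' (h𝒢 δ hδ) (h𝒢 δ' hδ') (hM δ hδ) α τ hτ)).trans ?_
    rw [Finset.sum_add_distrib, ← Finset.sum_filter, Finset.sum_const, Finset.sum_const, nsmul_eq_mul, nsmul_eq_mul]
    have h6 := hB δ hδ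
    rw [nearS] at h6
    calc _ ≤ Bn * (2 * (M:ℝ) + 1) ^ D + 𝒢.card * ((2 * (M:ℝ) + 1) ^ D / (2 * τ * (2 * M + 1))) := by gcongr
      _ = _ := by ring
  refine (Finset.sum_le_sum h5).trans (le_of_eq ?_)
  rw [Finset.sum_const, nsmul_eq_mul]; ring

/-- separation of the multiples of a minor arc point -/
def SepA (α : Tor D) (Y : ℕ) (τ : ℝ) : Prop := ∀ γ : 𝓞 K, γ ≠ 0 → ‖crd b γ‖ ≤ Y → 2 * τ ≤ ‖sm b γ α‖

lemma near_card (𝒢 : Finset (𝓞 K)) (R Y : ℕ) (hY : 0 < Y) (hR : ∀ δ ∈ 𝒢, crd b δ ∈ box D R) (α : Tor D)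
    (τ : ℝ) (hα : SepA b α Y τ) (δ : 𝓞 K) :
    (nearS b 𝒢 α τ δ).card ≤ (2 * (R / Y) + 3) ^ D := by
  have hY' : (0:ℤ) < Y := by exact_mod_cast hY
  have h1 : (2 * (R / Y) + 3) ^ D = (box D (R / Y + 1)).card := by rw [card_box]; congr 1
  rw [h1]
  apply Finset.card_le_card_of_injOn (fun δ' => fun i => crd b δ' i / (Y : ℤ))
  · intro δ' hδ'
    rw [nearS, Finset.mem_coe, Finset.mem_filter] at hδ'
    have h2 := mem_box.mp (hR δ' hδ'.1)
    rw [Finset.mem_coe, mem_box]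
    intro i
    have h3 := abs_le.mp (h2 i)
    rw [abs_le]
    push_cast
    constructor
    · have h4 : -(R:ℤ) / Y ≤ crd b δ' i / Y := Int.ediv_le_ediv hY' h3.1
      have h5 : -((R:ℤ) / Y + 1) ≤ -(R:ℤ) / Y := by
        rw [Int.le_ediv_iff_mul_le hY']
        have h6 := Int.lt_ediv_add_one_mul_self (R:ℤ) hY'
        linarith
      linarith
    · have h4 : crd b δ' i / Y ≤ (R:ℤ) / Y := Int.ediv_le_ediv hY' h3.2
      linarith
  · intro δ₁ h₁ δ₂ h₂ h
    rw [nearS, Finset.mem_coe, Finset.mem_filter] at h₁ h₂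
    by_contra hne
    have h3 : ‖crd b (δ₁ - δ₂)‖ ≤ Y := by
      rw [pi_norm_le_iff_of_nonneg (Nat.cast_nonneg _)]
      intro i
      have h4 := congrFun h i
      simp only at h4
      rw [crd_sub, Pi.sub_apply, Int.norm_eq_abs]
      have h5 := Int.emod_add_mul_ediv (crd b δ₁ i) Y
      have h6 := Int.emod_add_mul_ediv (crd b δ₂ i) Y
      have h7 := Int.emod_nonneg (crd b δ₁ i) hY'.ne'
      have h8 := Int.emod_nonneg (crd b δ₂ i) hY'.ne'
      have h9 := Int.emod_lt_of_pos (crd b δ₁ i) hY'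
      have h10 := Int.emod_lt_of_pos (crd b δ₂ i) hY'
      have h11 : |crd b δ₁ i - crd b δ₂ i| ≤ Y := by
        rw [abs_le]
        rw [h4] at h5
        constructor <;> linarith
      exact_mod_cast h11
    have h4 := hα (δ₁ - δ₂) (sub_ne_zero.mpr hne) h3
    have h5 : sm b (δ₁ - δ₂) α = sm b (δ - δ₂) α - sm b (δ - δ₁) α := by
      rw [← sm_sub]; congr 1; ring
    rw [h5] at h4
    have h6 := norm_sub_le (sm b (δ - δ₂) α) (sm b (δ - δ₁) α)
    linarith [h₁.2, h₂.2]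

end PSarnak
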