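import Pool.Agent.Run7.h492.Minor

/-!
Minor arc bounds for the model kernel: conclusion.
-/

set_option linter.unusedVariables false
set_option linter.unusedSectionVars false

noncomputable section

open Finset NumberField
open scoped Classical ComplexConjugate

namespace PSarnak

variable {K : Type*} [Field K] [NumberField K] {D : ℕ} (b : Module.Basis (Fin D) ℤ (𝓞 K))

variable (D) in
/-- dyadic groups -/
def grp (𝒟 : Finset (𝓞 K)) (j : ℕ) : Finset (𝓞 K) := 𝒟.filter (fun δ => Nat.log (2 ^ D) (Nn δ) = j)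

lemma grp_bounds (hD : 0 < D) {δ : 𝓞 K} (hδ : δ ≠ 0) {j : ℕ} (hj : Nat.log (2 ^ D) (Nn δ) = j) :
    (2:ℝ) ^ j ≤ Rr D δ ∧ Rr D δ < 2 ^ (j + 1) := by
  have hpos := Nn_pos hδ
  have h2 : 1 < 2 ^ D := Nat.one_lt_two_pow hD.ne'
  have h3 : (2 ^ D) ^ j ≤ Nn δ := by rw [← hj]; exact Nat.pow_log_le_self _ hpos.ne'
  have h4 : Nn δ < (2 ^ D) ^ (j + 1) := by rw [← hj]; exact Nat.lt_pow_succ_log_self h2 _
  have hR := Rr_pow hD δ
  have hR0 := (Rr_pos (D := D) hδ).le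
  constructor
  · apply le_of_pow_le_pow_left₀ hD.ne' hR0
    rw [hR, ← pow_mul, mul_comm, pow_mul]
    exact_mod_cast h3
  · apply lt_of_pow_lt_pow_left₀ D (by positivity)
    rw [hR, ← pow_mul, mul_comm, pow_mul]
    exact_mod_cast h4

lemma crd_mem_box_of_norm {x : Lat D} {B : ℝ} (h : ‖x‖ ≤ B) : x ∈ box D ⌊B⌋₊ := by
  rw [mem_box]
  intro i
  have h1 : ‖x i‖ ≤ B := (norm_le_pi_norm x i).trans h
  rw [Int.norm_eq_abs] at h1
  have h2 : (((x i).natAbs : ℕ) : ℝ) ≤ B := by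
    rw [Nat.cast_natAbs]; exact_mod_cast h1
  have h3 := Nat.le_floor h2
  rw [Int.abs_eq_natAbs]
  exact_mod_cast h3

lemma norm_le_of_mem_pZ {N : ℕ} {n : Lat D} (hn : n ∈ pZ D N) : ‖n‖ ≤ N := by
  rw [pi_norm_le_iff_of_nonneg (Nat.cast_nonneg _)]
  intro i
  have := mem_cubeAt.mp hn i
  rw [Int.norm_eq_abs, abs_of_nonneg (by exact_mod_cast (by omega : (0:ℤ) ≤ n i))]
  exact_mod_cast (by omega : n i ≤ N)

lemma mreg_subset (C : ℝ) (hC : 0 ≤ C) {δ : 𝓞 K} (hδ : Bal b C δ) (N j : ℕ) (hj : (2:ℝ) ^ j ≤ Rr D δ) :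
    mreg b N δ ⊆ box D ⌊C * N / 2 ^ j⌋₊ := by
  intro m hm
  apply crd_mem_box_of_norm
  rw [mem_mreg b hδ.ne] at hm
  have h1 := norm_le_of_mem_pZ hm
  have h2 := hδ.low (iot b m)
  rw [crd_iot] at h2
  rw [le_div_iff₀ (by positivity)]
  calc ‖m‖ * 2 ^ j ≤ ‖m‖ * Rr D δ := by gcongr
    _ ≤ C * ‖crd b (δ * iot b m)‖ := h2
    _ ≤ C * N := by gcongr

theorem kerA_minor (χ : 𝓞 K → ℂ) (hχ : ∀ x, ‖χ x‖ ≤ 1) (C ε : ℝ) (hC : 1 ≤ C) (A P : ℕ)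
    (𝒟 : Finset (𝓞 K)) (h : MultSet b C ε A P 𝒟) (N J Y : ℕ) (hP : 0 < P) (hY : 0 < Y) (hYP : Y ≤ P)
    (hJ : P ^ A < 2 ^ J) (hN : P ^ A ≤ N) (τ : ℝ) (hτ : 0 < τ) (α : Tor D) (hα : SepA b α Y τ) :
    ‖kerA b χ 𝒟 N α‖ ^ 2 ≤ (450 * C ^ 4) ^ D * (J:ℝ) ^ 2 * (1 / (Y:ℝ) ^ D + P ^ A / (τ * N)) := by
  have hD := D_pos b
  have hL : 1 ≤ LL 𝒟 := h.L1
  have hL0 : 0 < LL 𝒟 := by linarith
  have hN0 : 0 < N := lt_of_lt_of_le (pow_pos hP _) hN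
  have hN' : (0:ℝ) < N := by exact_mod_cast hN0
  have hY' : (0:ℝ) < Y := by exact_mod_cast hY
  have hP' : (0:ℝ) < P := by exact_mod_cast hP
  set X : ℝ := 1 / (Y:ℝ) ^ D + P ^ A / (τ * N) with hX
  have hX0 : 0 ≤ X := by positivity
  set S : ℕ → ℂ := fun j => ∑ δ ∈ grp D 𝒟 j, χ δ * (sbst b δ (gd b χ N δ)) α with hS
  have hj𝒟 : ∀ δ ∈ 𝒟, Nat.log (2 ^ D) (Nn δ) ∈ Finset.range J := by
    intro δ hδ
    rw [Finset.mem_range]
    apply Nat.log_lt_of_lt_pow (Nn_pos (h.bal δ hδ).ne).ne'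
    calc Nn δ ≤ P ^ A := h.hi δ hδ
      _ < 2 ^ J := hJ
      _ ≤ (2 ^ D) ^ J := Nat.pow_le_pow_left (Nat.le_self_pow hD.ne' 2) _
  have hsum : kerA b χ 𝒟 N α = (1 / ((LL 𝒟 : ℂ) * (N:ℂ) ^ D)) * ∑ j ∈ Finset.range J, S j := by
    rw [kerA_eq b χ 𝒟 (fun δ hδ => (h.bal δ hδ).ne) N, ContinuousMap.sum_apply]
    have e1 : ∑ j ∈ Finset.range J, S j = ∑ δ ∈ 𝒟, χ δ * (sbst b δ (gd b χ N δ)) α := by
      rw [hS]
      exact Finset.sum_fiberwise_of_maps_to hj𝒟 _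
    rw [e1, Finset.mul_sum]
    apply Finset.sum_congr rfl
    intro δ _
    rw [ContinuousMap.smul_apply, smul_eq_mul]; ring
  have hSj : ∀ j ∈ Finset.range J, ‖S j‖ ^ 2 ≤ (N:ℝ) ^ (2 * D) * ((450 * C ^ 4) ^ D * X) := by
    intro j _
    by_cases hne : (grp D 𝒟 j).Nonempty
    swap
    · rw [Finset.not_nonempty_iff_eq_empty] at hne
      rw [hS]; simp only [hne, Finset.sum_empty, norm_zero]
      rw [zero_pow two_ne_zero]
      positivity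
    obtain ⟨δ₀, hδ₀⟩ := hne
    have hmem : ∀ δ ∈ grp D 𝒟 j, δ ∈ 𝒟 ∧ (2:ℝ) ^ j ≤ Rr D δ ∧ Rr D δ < 2 ^ (j + 1) := by
      intro δ hδ
      rw [grp, Finset.mem_filter] at hδ
      exact ⟨hδ.1, grp_bounds hD (h.bal δ hδ.1).ne hδ.2⟩
    have hPj : (P:ℝ) < 2 ^ (j + 1) := by
      obtain ⟨h1, h2, h3⟩ := hmem δ₀ hδ₀
      refine lt_of_le_of_lt ?_ h3
      apply le_of_pow_le_pow_left₀ hD.ne' (Rr_pos (h.bal δ₀ h1).ne).le
      rw [Rr_pow hD]; exact_mod_cast h.lo δ₀ h1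
    have hjA : (2:ℝ) ^ j ≤ (P:ℝ) ^ A := by
      obtain ⟨h1, h2, h3⟩ := hmem δ₀ hδ₀
      have h4 : (1:ℝ) ≤ 2 ^ j := one_le_pow₀ (by norm_num)
      calc (2:ℝ) ^ j ≤ ((2:ℝ) ^ j) ^ D := le_self_pow₀ h4 hD.ne'
        _ ≤ Rr D δ₀ ^ D := by gcongr
        _ = Nn δ₀ := Rr_pow hD _
        _ ≤ _ := by exact_mod_cast h.hi δ₀ h1
    have h2j : (0:ℝ) < 2 ^ j := by positivity
    have h2j1 : (1:ℝ) ≤ 2 ^ j := one_le_pow₀ (by norm_num)
    set x : ℝ := (2:ℝ) ^ j with hx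
    set M := ⌊C * N / 2 ^ j⌋₊ with hM
    set R := ⌊C * 2 ^ (j + 1)⌋₊ with hR
    have hMsub : ∀ δ ∈ grp D 𝒟 j, mreg b N δ ⊆ box D M := fun δ hδ =>
      mreg_subset b C (by linarith) (h.bal δ (hmem δ hδ).1) N j (hmem δ hδ).2.1
    have hRsub : ∀ δ ∈ grp D 𝒟 j, crd b δ ∈ box D R := by
      intro δ hδ
      apply crd_mem_box_of_norm
      obtain ⟨h1, h2, h3⟩ := hmem δ hδ
      calc ‖crd b δ‖ ≤ C * Rr D δ := (h.bal δ h1).up
        _ ≤ C * 2 ^ (j + 1) := by gcongr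
    have hNx : 1 ≤ (N:ℝ) / x := by
      rw [one_le_div h2j]
      refine hjA.trans ?_
      exact_mod_cast hN
    have hMle : 2 * (M:ℝ) + 1 ≤ 3 * C * N / x := by
      have h1 : (M:ℝ) ≤ C * N / x := Nat.floor_le (by positivity)
      have h2 : 1 ≤ C * N / x := by
        rw [mul_div_assoc]; nlinarith
      have h3 : 3 * C * N / x = 3 * (C * N / x) := by ring
      rw [h3]; linarith
    have hMge : (N:ℝ) / P ^ A ≤ 2 * (M:ℝ) + 1 := by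
      have h1 : C * N / x < M + 1 := Nat.lt_floor_add_one _
      have h2 : (N:ℝ) / x ≤ C * N / x := by
        rw [mul_div_assoc]; nlinarith
      have h3 : (N:ℝ) / P ^ A ≤ N / x := by gcongr
      linarith
    have hRle : (R:ℝ) ≤ 2 * C * x := by
      have h1 : (R:ℝ) ≤ C * 2 ^ (j + 1) := Nat.floor_le (by positivity)
      rw [pow_succ] at h1
      linarith
    have hcard : ((grp D 𝒟 j).card : ℝ) ≤ (5 * C * x) ^ D := by
      have h1 : (grp D 𝒟 j).card ≤ (box D R).card := by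
        apply Finset.card_le_card_of_injOn (crd b) hRsub
        exact (crd_injective b).injOn
      rw [card_box] at h1
      have h2 : ((grp D 𝒟 j).card : ℝ) ≤ (2 * (R:ℝ) + 1) ^ D := by exact_mod_cast h1
      refine h2.trans ?_
      gcongr
      nlinarith
    have hYx : 1 ≤ 2 * C * x / Y := by
      rw [one_le_div hY']
      have h1 : (Y:ℝ) ≤ P := by exact_mod_cast hYP
      rw [pow_succ] at hPj
      nlinarith
    have hnear : ∀ δ ∈ grp D 𝒟 j, ((nearS b (grp D 𝒟 j) α τ δ).card : ℝ) ≤ (10 * C * x / Y) ^ D := by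
      intro δ _
      have h1 := near_card b (grp D 𝒟 j) R Y hY hRsub α τ hα δ
      have h2 : ((nearS b (grp D 𝒟 j) α τ δ).card : ℝ) ≤ (2 * ((R / Y : ℕ) : ℝ) + 3) ^ D := by exact_mod_cast h1
      refine h2.trans ?_
      have h3 : ((R / Y : ℕ) : ℝ) ≤ 2 * C * x / Y := by
        refine Nat.cast_div_le.trans ?_
        gcongr
      have h4 : 10 * C * x / Y = 2 * (2 * C * x / Y) + 3 * (2 * C * x / Y) := by ring
      rw [h4]
      gcongr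
      linarith
    have hmain := group_minor b χ hχ (grp D 𝒟 j) (fun δ hδ => (h.bal δ (hmem δ hδ).1).ne) N M hMsub α τ hτ _ hnear
    refine hmain.trans ?_
    have h1 : ((grp D 𝒟 j).card : ℝ) / (2 * τ * (2 * M + 1)) ≤ (5 * C * x) ^ D * (P ^ A / (τ * N)) := by
      have h3 : (1:ℝ) / (2 * τ * (2 * M + 1)) ≤ P ^ A / (τ * N) := by
        rw [div_le_div_iff₀ (by positivity) (by positivity)]
        rw [div_le_iff₀ (by positivity)] at hMge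
        nlinarith [mul_le_mul_of_nonneg_left hMge hτ.le, mul_pos hτ hN']
      calc ((grp D 𝒟 j).card : ℝ) / (2 * τ * (2 * M + 1)) = (grp D 𝒟 j).card * (1 / (2 * τ * (2 * M + 1))) := by ring
        _ ≤ _ := by gcongr
    have h2 : (10 * C * x / Y) ^ D + ((grp D 𝒟 j).card : ℝ) / (2 * τ * (2 * M + 1)) ≤ (10 * C * x) ^ D * X := by
      have h3 : (5 * C * x) ^ D ≤ (10 * C * x) ^ D := by gcongr; norm_num
      calc _ ≤ (10 * C * x) ^ D * (1 / (Y:ℝ) ^ D) + (10 * C * x) ^ D * (P ^ A / (τ * N)) := by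
            apply add_le_add
            · rw [div_pow]; exact le_of_eq (by ring)
            · refine h1.trans ?_
              gcongr
        _ = _ := by rw [hX]; ring
    calc (2 * (M:ℝ) + 1) ^ (2 * D) * (((grp D 𝒟 j).card : ℝ) *
          ((10 * C * x / Y) ^ D + ((grp D 𝒟 j).card : ℝ) / (2 * τ * (2 * M + 1))))
        ≤ (3 * C * N / x) ^ (2 * D) * ((5 * C * x) ^ D * ((10 * C * x) ^ D * X)) := by gcongr
      _ = (N:ℝ) ^ (2 * D) * ((450 * C ^ 4) ^ D * X) := by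
          have e : (450 * C ^ 4) ^ D = ((3 * C / x) ^ 2) ^ D * (5 * C * x) ^ D * (10 * C * x) ^ D := by
            rw [← mul_pow, ← mul_pow]
            congr 1
            field_simp; norm_num
          rw [e, pow_mul, pow_mul]
          have e2 : (3 * C * N / x) ^ 2 = (N:ℝ) ^ 2 * (3 * C / x) ^ 2 := by ring
          rw [e2, mul_pow ((N:ℝ) ^ 2)]
          ring
  rw [hsum, norm_mul, norm_div, norm_one, norm_mul, norm_pow, Complex.norm_natCast, Complex.norm_real,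
    Real.norm_of_nonneg hL0.le, mul_pow, div_pow, one_pow]
  have h1 : ‖∑ j ∈ Finset.range J, S j‖ ^ 2 ≤ (J:ℝ) * ∑ j ∈ Finset.range J, ‖S j‖ ^ 2 := by
    calc ‖∑ j ∈ Finset.range J, S j‖ ^ 2 ≤ (∑ j ∈ Finset.range J, ‖S j‖) ^ 2 := by
          gcongr; exact norm_sum_le _ _
      _ ≤ _ := by
          have := sq_sum_le_card_mul_sum_sq (s := Finset.range J) (f := fun j => ‖S j‖)
          rwa [Finset.card_range] at this
  have h2 : ∑ j ∈ Finset.range J, ‖S j‖ ^ 2 ≤ J * ((N:ℝ) ^ (2 * D) * ((450 * C ^ 4) ^ D * X)) := by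
    refine (Finset.sum_le_sum hSj).trans (le_of_eq ?_)
    rw [Finset.sum_const, Finset.card_range, nsmul_eq_mul]
  calc 1 / (LL 𝒟 * (N:ℝ) ^ D) ^ 2 * ‖∑ j ∈ Finset.range J, S j‖ ^ 2
      ≤ 1 / (1 * (N:ℝ) ^ D) ^ 2 * ((J:ℝ) * (J * ((N:ℝ) ^ (2 * D) * ((450 * C ^ 4) ^ D * X)))) := by
        gcongr
        exact h1.trans (by gcongr)
    _ = _ := by
        rw [one_mul, ← pow_mul, mul_comm D 2]
        field_simp

/-- minor arc points separate -/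
theorem exists_sepA : ∃ C₄ : ℝ, 1 ≤ C₄ ∧ ∀ (α : Tor D) (Q Y : ℕ) (s τ : ℝ), 0 < Y → 0 < τ →
    C₄ * (Y:ℝ) ^ D ≤ Q → 2 * τ * C₄ * (Y:ℝ) ^ (D - 1) ≤ s →
    (¬ ∃ q : ℕ, 1 ≤ q ∧ q ≤ Q ∧ ‖q • α‖ ≤ s) → SepA b α Y τ := by
  obtain ⟨C₁, hC₁, h1⟩ := exists_Nn_bound b
  obtain ⟨C₂, hC₂, h2⟩ := exists_adj b
  have hCb := Cb_pos b
  refine ⟨C₁ * (Cb b * C₂), ?_, ?_⟩
  · have : 1 ≤ Cb b * C₂ := one_le_mul_of_one_le_of_one_le hCb hC₂
    exact one_le_mul_of_one_le_of_one_le hC₁ this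
  intro α Q Y s τ hY hτ hQ hs hα γ hγ hγY
  by_contra hlt
  rw [not_le] at hlt
  apply hα
  have hCC : 1 ≤ Cb b * C₂ := one_le_mul_of_one_le_of_one_le hCb hC₂
  refine ⟨Nn γ, Nn_pos hγ, ?_, ?_⟩
  · have h3 := h1 γ
    have h4 : C₁ * ‖crd b γ‖ ^ D ≤ C₁ * (Cb b * C₂) * (Y:ℝ) ^ D := by
      calc C₁ * ‖crd b γ‖ ^ D ≤ C₁ * (Y:ℝ) ^ D := by gcongr
        _ ≤ C₁ * (Cb b * C₂) * (Y:ℝ) ^ D := by
            have : C₁ * 1 ≤ C₁ * (Cb b * C₂) := by gcongr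
            rw [mul_one] at this
            gcongr
    exact_mod_cast h3.trans (h4.trans hQ)
  · obtain ⟨y, hy1, hy2⟩ := h2 γ hγ
    rw [← sm_nat b, ← hy1, sm_mul]
    refine (norm_sm_le b y _).trans ?_
    calc Cb b * ‖crd b y‖ * ‖sm b γ α‖ ≤ Cb b * (C₂ * ‖crd b γ‖ ^ (D - 1)) * (2 * τ) := by gcongr
      _ ≤ Cb b * (C₂ * (Y:ℝ) ^ (D - 1)) * (2 * τ) := by gcongr
      _ = 2 * τ * (1 * (Cb b * C₂)) * (Y:ℝ) ^ (D - 1) := by ring
      _ ≤ 2 * τ * (C₁ * (Cb b * C₂)) * (Y:ℝ) ^ (D - 1) := by gcongr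
      _ ≤ s := hs

end PSarnak
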