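import Pool.Agent.Run7.h492.Mertens
import Pool.Agent.Run7.h492.Balanced

/-!
Sets of multipliers.
-/

set_option linter.unusedVariables false
set_option linter.unusedSectionVars false

noncomputable section

open Finset NumberField Filter
open scoped Classical nonZeroDivisors

namespace PSarnak

variable (K : Type*) [Field K] [NumberField K]

lemma prm_mono {m n : ℕ} (h : m ≤ n) : prm K m ⊆ prm K n := by
  intro I hI
  rw [mem_prm] at hI ⊢
  exact ⟨hI.1.trans h, hI.2⟩

theorem range_one : ∃ (c : ℝ) (B n₀ : ℕ), 0 < c ∧ 1 ≤ B ∧ 2 ≤ n₀ ∧ ∀ n : ℕ, n₀ ≤ n →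
    c ≤ ∑ p ∈ prm K (n ^ B) \ prm K n, (1:ℝ) / Ideal.absNorm p := by
  obtain ⟨C, hC, hup⟩ := mertens_upper K
  obtain ⟨c, n₀, hc, hlo⟩ := mertens_lower K
  obtain ⟨B, hB⟩ := exists_nat_gt (2 * C / c)
  have hB' : 2 * C < c * B := by
    rw [div_lt_iff₀ hc] at hB; linarith
  have hB0 : 1 ≤ B := by
    by_contra h
    have : B = 0 := by omega
    rw [this] at hB'
    simp at hB'
    linarith
  refine ⟨c / 2, B, max n₀ 2, by positivity, hB0, le_max_right _ _, ?_⟩
  intro n hn
  have hn0 : n₀ ≤ n := (le_max_left _ _).trans hn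
  have hn2 : 2 ≤ n := (le_max_right _ _).trans hn
  have hnB : n ≤ n ^ B := Nat.le_self_pow (by omega) n
  have h1 := hlo (n ^ B) (hn0.trans hnB)
  have h2 := hup n (by omega)
  have hlog : 0 < Real.log n := Real.log_pos (by exact_mod_cast hn2)
  have h3 : Real.log ((n ^ B : ℕ) : ℝ) = B * Real.log n := by
    push_cast; rw [Real.log_pow]
  rw [h3] at h1
  have h4 : ∑ p ∈ prm K (n ^ B) \ prm K n, Real.log (Ideal.absNorm p) / Ideal.absNorm p =
      ∑ p ∈ prm K (n ^ B), Real.log (Ideal.absNorm p) / Ideal.absNorm p -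
      ∑ p ∈ prm K n, Real.log (Ideal.absNorm p) / Ideal.absNorm p := by
    rw [eq_sub_iff_add_eq]
    exact Finset.sum_sdiff (prm_mono K hnB)
  have h5 : ∑ p ∈ prm K (n ^ B) \ prm K n, Real.log (Ideal.absNorm p) / Ideal.absNorm p ≤
      (B * Real.log n) * ∑ p ∈ prm K (n ^ B) \ prm K n, (1:ℝ) / Ideal.absNorm p := by
    rw [Finset.mul_sum]
    apply Finset.sum_le_sum
    intro p hp
    rw [Finset.mem_sdiff, mem_prm] at hp
    have hpos : (0:ℝ) < Ideal.absNorm p := by exact_mod_cast norm_pos_of_ne hp.1.2.1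
    have h6 : Real.log (Ideal.absNorm p) ≤ B * Real.log n := by
      rw [← h3]
      apply Real.log_le_log hpos
      exact_mod_cast hp.1.1
    rw [mul_one_div]
    gcongr
  have hBr : (0:ℝ) < B := by exact_mod_cast hB0
  have h6 : (B * Real.log n) * (c / 2) ≤ (B * Real.log n) * ∑ p ∈ prm K (n ^ B) \ prm K n, (1:ℝ) / Ideal.absNorm p := by
    refine le_trans ?_ h5
    rw [h4]
    nlinarith
  exact le_of_mul_le_mul_left h6 (by positivity)

theorem range_many (T : ℝ) : ∃ (A n₀ : ℕ), 1 ≤ A ∧ 2 ≤ n₀ ∧ ∀ n : ℕ, n₀ ≤ n →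
    T ≤ ∑ p ∈ prm K (n ^ A) \ prm K n, (1:ℝ) / Ideal.absNorm p := by
  obtain ⟨c, B, n₀, hc, hB, hn₀, h1⟩ := range_one K
  obtain ⟨m, hm⟩ := exists_nat_gt (T / c)
  have hm' : T ≤ m * c := by
    rw [div_lt_iff₀ hc] at hm; exact hm.le
  refine ⟨B ^ m, n₀, Nat.one_le_pow _ _ hB, hn₀, ?_⟩
  intro n hn
  refine hm'.trans ?_
  clear hm hm'
  induction m with
  | zero => simp
  | succ m ih =>
    have hnm : n ≤ n ^ B ^ m := Nat.le_self_pow (by positivity) n
    have hnm2 : n ^ B ^ m ≤ (n ^ B ^ m) ^ B := Nat.le_self_pow (by omega) _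
    have h2 := h1 (n ^ B ^ m) (hn.trans hnm)
    have h3 : (n ^ B ^ m) ^ B = n ^ B ^ (m + 1) := by rw [← pow_mul, pow_succ]
    rw [h3] at h2 hnm2
    have h4 : (prm K (n ^ B ^ m) \ prm K n) ∪ (prm K (n ^ B ^ (m + 1)) \ prm K (n ^ B ^ m)) ⊆
        prm K (n ^ B ^ (m + 1)) \ prm K n := by
      intro p hp
      rw [Finset.mem_union, Finset.mem_sdiff, Finset.mem_sdiff] at hp
      rw [Finset.mem_sdiff]
      rcases hp with hp | hp
      · exact ⟨prm_mono K hnm2 hp.1, hp.2⟩
      · exact ⟨hp.1, fun h => hp.2 (prm_mono K hnm h)⟩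
    have h5 : Disjoint (prm K (n ^ B ^ m) \ prm K n) (prm K (n ^ B ^ (m + 1)) \ prm K (n ^ B ^ m)) := by
      rw [Finset.disjoint_left]
      intro p hp hp2
      rw [Finset.mem_sdiff] at hp hp2
      exact hp2.2 hp.1
    calc ((m + 1 : ℕ) : ℝ) * c = m * c + c := by push_cast; ring
      _ ≤ ∑ p ∈ prm K (n ^ B ^ m) \ prm K n, (1:ℝ) / Ideal.absNorm p +
          ∑ p ∈ prm K (n ^ B ^ (m + 1)) \ prm K (n ^ B ^ m), (1:ℝ) / Ideal.absNorm p := add_le_add ih h2
      _ = ∑ p ∈ (prm K (n ^ B ^ m) \ prm K n) ∪ (prm K (n ^ B ^ (m + 1)) \ prm K (n ^ B ^ m)), (1:ℝ) / Ideal.absNorm p := by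
          rw [Finset.sum_union h5]
      _ ≤ _ := Finset.sum_le_sum_of_subset_of_nonneg h4 (fun p _ _ => by positivity)

/-- logarithmic lower bound for the sum of the inverse norms of ideals -/
theorem sum_inv_lower : ∃ c : ℝ, 0 < c ∧ ∀ n : ℕ, 1 ≤ n →
    c * Real.log n ≤ ∑ I ∈ idl K n, (1:ℝ) / Ideal.absNorm I := by
  obtain ⟨c, C, hc, hC, hb⟩ := idl_bounds K
  obtain ⟨l, hl⟩ := exists_nat_gt (2 * C / c)
  have hl' : 2 * C < c * l := by
    rw [div_lt_iff₀ hc] at hl; linarith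
  have hcC : c ≤ C := by
    have := hb 1 (le_refl _)
    have h1 := this.1.trans this.2
    simpa using h1
  have hl2 : 2 ≤ l := by
    have : (1:ℝ) < l := by nlinarith
    exact_mod_cast this
  have hl0 : (0:ℝ) < l := by
    have : 0 < l := by omega
    exact_mod_cast this
  have hlog : 0 < Real.log l := Real.log_pos (by exact_mod_cast hl2)
  have hone : 1 ≤ ∑ I ∈ idl K 1, (1:ℝ) / Ideal.absNorm I := by
    have h1 : (⊤ : Ideal (𝓞 K)) ∈ idl K 1 := by
      rw [mem_idl]; simp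
    refine le_trans ?_ (Finset.single_le_sum (fun _ _ => by positivity) h1)
    simp
  have key : ∀ J : ℕ, J * (c / 2) ≤ ∑ I ∈ idl K (l ^ J), (1:ℝ) / Ideal.absNorm I := by
    intro J
    induction J with
    | zero => simp; positivity
    | succ J ih =>
      have h1 : idl K (l ^ J) ⊆ idl K (l ^ (J + 1)) := idl_mono K (Nat.pow_le_pow_right (by omega) (by omega))
      rw [← Finset.sum_sdiff h1]
      have hlJ : (0:ℝ) < (l:ℝ) ^ J := by positivity
      have h2 : c / 2 ≤ ∑ I ∈ idl K (l ^ (J + 1)) \ idl K (l ^ J), (1:ℝ) / Ideal.absNorm I := by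
        have h3 : ∀ I ∈ idl K (l ^ (J + 1)) \ idl K (l ^ J), 1 / ((l:ℝ) ^ (J + 1)) ≤ (1:ℝ) / Ideal.absNorm I := by
          intro I hI
          rw [Finset.mem_sdiff, mem_idl] at hI
          have hpos : (0:ℝ) < Ideal.absNorm I := by exact_mod_cast norm_pos_of_ne hI.1.2
          apply one_div_le_one_div_of_le hpos
          exact_mod_cast hI.1.1
        refine le_trans ?_ (Finset.sum_le_sum h3)
        rw [Finset.sum_const, nsmul_eq_mul, Finset.card_sdiff_of_subset h1,
          Nat.cast_sub (Finset.card_le_card h1)]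
        have h4 := (hb (l ^ (J + 1)) (Nat.one_le_pow _ _ (by omega))).1
        have h5 := (hb (l ^ J) (Nat.one_le_pow _ _ (by omega))).2
        push_cast at h4 h5
        rw [mul_one_div, le_div_iff₀ (by positivity)]
        rw [pow_succ] at h4 ⊢
        nlinarith
      push_cast
      linarith
  refine ⟨min (1 / 2) (c / 4) / Real.log l, by positivity, ?_⟩
  intro n hn
  have hn1 : (1:ℝ) ≤ n := by exact_mod_cast hn
  obtain ⟨J, hJ1, hJ2⟩ := exists_nat_pow_near hn1 (show (1:ℝ) < l by exact_mod_cast hl2)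
  have h1 : l ^ J ≤ n := by exact_mod_cast hJ1
  have h2 : Real.log n ≤ (J + 1) * Real.log l := by
    have := Real.log_le_log (by linarith) hJ2.le
    rw [Real.log_pow] at this
    push_cast at this; exact this
  have h3 : ∑ I ∈ idl K (l ^ J), (1:ℝ) / Ideal.absNorm I ≤ ∑ I ∈ idl K n, (1:ℝ) / Ideal.absNorm I :=
    Finset.sum_le_sum_of_subset_of_nonneg (idl_mono K h1) (fun _ _ _ => by positivity)
  have h4 : ∑ I ∈ idl K 1, (1:ℝ) / Ideal.absNorm I ≤ ∑ I ∈ idl K n, (1:ℝ) / Ideal.absNorm I :=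
    Finset.sum_le_sum_of_subset_of_nonneg (idl_mono K hn) (fun _ _ _ => by positivity)
  calc min (1 / 2) (c / 4) / Real.log l * Real.log n ≤ min (1 / 2) (c / 4) / Real.log l * ((J + 1) * Real.log l) := by
        gcongr
    _ = min (1/2) (c/4) * (J + 1) := by field_simp
    _ = min (1/2) (c/4) * J + min (1/2) (c/4) := by ring
    _ ≤ (c / 4) * J + 1 / 2 := by
        gcongr
        · exact min_le_right _ _
        · exact min_le_left _ _
    _ ≤ _ := by
        have := key J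
        linarith

variable {K}

lemma exists_sub_sum {ι : Type*} (s : Finset ι) (w : ι → ℝ) (hw1 : ∀ i ∈ s, w i ≤ 1) (T : ℝ) (hT : 0 ≤ T)
    (hs : T ≤ ∑ i ∈ s, w i) : ∃ t ⊆ s, T ≤ ∑ i ∈ t, w i ∧ ∑ i ∈ t, w i ≤ T + 1 := by
  induction s using Finset.induction_on with
  | empty => exact ⟨∅, by simp, hs, by simp; linarith⟩
  | insert a s ha ih =>
    by_cases h : T ≤ ∑ i ∈ s, w i
    · obtain ⟨t, ht, h1⟩ := ih (fun i hi => hw1 i (Finset.mem_insert_of_mem hi)) h
      exact ⟨t, ht.trans (Finset.subset_insert _ _), h1⟩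
    · push Not at h
      refine ⟨insert a s, Finset.Subset.refl _, hs, ?_⟩
      rw [Finset.sum_insert ha]
      have := hw1 a (Finset.mem_insert_self _ _)
      linarith

lemma greedy {ι : Type*} (w : ι → ℝ) (T : ℝ) (hT : 0 ≤ T) (h : ℕ) : ∀ (s : Finset ι)
    (hw1 : ∀ i ∈ s, w i ≤ 1) (hs : h * (T + 1) ≤ ∑ i ∈ s, w i),
    ∃ P : Fin h → Finset ι, (∀ i, P i ⊆ s) ∧ (∀ i j, i ≠ j → Disjoint (P i) (P j)) ∧
      ∀ i, T ≤ ∑ x ∈ P i, w x := by
  induction h with
  | zero => intro s _ _; exact ⟨fun i => i.elim0, fun i => i.elim0, fun i => i.elim0, fun i => i.elim0⟩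
  | succ h ih =>
    intro s hw1 hs
    push_cast at hs
    have hh : 0 ≤ (h:ℝ) * (T + 1) := by positivity
    obtain ⟨t, ht, h1, h2⟩ := exists_sub_sum s w hw1 T hT (by linarith)
    have h3 : h * (T + 1) ≤ ∑ i ∈ s \ t, w i := by
      have := Finset.sum_sdiff (f := w) ht
      linarith
    obtain ⟨P, hP1, hP2, hP3⟩ := ih (s \ t) (fun i hi => hw1 i (Finset.sdiff_subset hi)) h3
    refine ⟨Fin.cons t P, ?_, ?_, ?_⟩
    · intro i
      refine Fin.cases ?_ (fun j => ?_) i
      · exact ht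
      · simp only [Fin.cons_succ]
        exact (hP1 j).trans Finset.sdiff_subset
    · intro i j
      refine Fin.cases ?_ (fun i' => ?_) i
      · refine Fin.cases ?_ (fun j' => ?_) j
        · intro h; exact absurd rfl h
        · intro _
          simp only [Fin.cons_zero, Fin.cons_succ]
          exact Finset.disjoint_of_subset_right (hP1 j') Finset.disjoint_sdiff
      · refine Fin.cases ?_ (fun j' => ?_) j
        · intro _
          simp only [Fin.cons_zero, Fin.cons_succ]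
          exact (Finset.disjoint_of_subset_right (hP1 i') Finset.disjoint_sdiff).symm
        · intro hij
          simp only [Fin.cons_succ]
          exact hP2 i' j' (fun h => hij (by rw [h]))
    · intro i
      refine Fin.cases ?_ (fun j => ?_) i
      · exact h1
      · exact hP3 j

end PSarnak
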