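import Pool.Agent.Run7.h492.Count
import Pool.Agent.Run7.h492.Multip

/-!
Sums over residues and independence.
-/

set_option linter.unusedVariables false
set_option linter.unusedSectionVars false

noncomputable section

open Finset NumberField
open scoped Classical

namespace PSarnak

variable {K : Type*} [Field K] [NumberField K]

/-- periodicity modulo an ideal -/
def Per (I : Ideal (𝓞 K)) (f : 𝓞 K → ℝ) : Prop := ∀ x y, x - y ∈ I → f x = f y

/-- representative -/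
def rep (I : Ideal (𝓞 K)) (y : 𝓞 K ⧸ I) : 𝓞 K := Function.surjInv (Ideal.Quotient.mk_surjective (I := I)) y

lemma mk_rep (I : Ideal (𝓞 K)) (y : 𝓞 K ⧸ I) : Ideal.Quotient.mk I (rep I y) = y :=
  Function.surjInv_eq _ y

lemma Per.rep_mk {I : Ideal (𝓞 K)} {f : 𝓞 K → ℝ} (hf : Per I f) (x : 𝓞 K) :
    f (rep I (Ideal.Quotient.mk I x)) = f x := by
  apply hf
  rw [← Ideal.Quotient.eq, mk_rep]

/-- sum over residues -/
def ms (I : Ideal (𝓞 K)) (f : 𝓞 K → ℝ) : ℝ := ∑ᶠ y : 𝓞 K ⧸ I, f (rep I y)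

lemma ms_eq (I : Ideal (𝓞 K)) [Fintype (𝓞 K ⧸ I)] (f : 𝓞 K → ℝ) : ms I f = ∑ y, f (rep I y) :=
  finsum_eq_sum_of_fintype _

lemma card_quot (I : Ideal (𝓞 K)) [Fintype (𝓞 K ⧸ I)] : Fintype.card (𝓞 K ⧸ I) = Ideal.absNorm I := by
  rw [Ideal.absNorm_apply, Submodule.cardQuot_apply, Nat.card_eq_fintype_card]

lemma Per.mul {I : Ideal (𝓞 K)} {f g : 𝓞 K → ℝ} (hf : Per I f) (hg : Per I g) :
    Per I (fun x => f x * g x) := fun x y h => by simp only; rw [hf x y h, hg x y h]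

lemma Per.mono {I J : Ideal (𝓞 K)} {f : 𝓞 K → ℝ} (hf : Per I f) (h : J ≤ I) : Per J f :=
  fun x y hxy => hf x y (h hxy)

lemma Per.abs {I : Ideal (𝓞 K)} {f : 𝓞 K → ℝ} (hf : Per I f) : Per I (fun x => |f x|) :=
  fun x y h => by simp only; rw [hf x y h]

lemma finsum_prod_equiv {A B C : Type*} [Finite A] [Finite B] [Finite C] (e : C ≃ A × B) (F : C → ℝ)
    (f : A → ℝ) (g : B → ℝ) (h : ∀ c, F c = f (e c).1 * g (e c).2) :
    ∑ᶠ c, F c = (∑ᶠ a, f a) * ∑ᶠ b, g b := by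
  cases nonempty_fintype A
  cases nonempty_fintype B
  cases nonempty_fintype C
  rw [finsum_eq_sum_of_fintype, finsum_eq_sum_of_fintype, finsum_eq_sum_of_fintype,
    Finset.sum_mul_sum, ← Finset.sum_product', Finset.univ_product_univ]
  exact Fintype.sum_equiv e _ _ h

lemma crt_fst {R : Type*} [CommRing R] (I J : Ideal R) (h : IsCoprime I J) (z : R) :
    ((Ideal.quotientMulEquivQuotientProd I J h).toEquiv (Ideal.Quotient.mk (I * J) z)).1 =
      Ideal.Quotient.mk I z := by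
  show ((Ideal.quotientMulEquivQuotientProd I J h) (Ideal.Quotient.mk (I * J) z)).1 = _
  rw [Ideal.quotientMulEquivQuotientProd_fst]; rfl

lemma crt_snd {R : Type*} [CommRing R] (I J : Ideal R) (h : IsCoprime I J) (z : R) :
    ((Ideal.quotientMulEquivQuotientProd I J h).toEquiv (Ideal.Quotient.mk (I * J) z)).2 =
      Ideal.Quotient.mk J z := by
  show ((Ideal.quotientMulEquivQuotientProd I J h) (Ideal.Quotient.mk (I * J) z)).2 = _
  rw [Ideal.quotientMulEquivQuotientProd_snd]; rfl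

lemma ms_mul (I J : Ideal (𝓞 K)) (hI : I ≠ ⊥) (hJ : J ≠ ⊥) (h : IsCoprime I J) (f g : 𝓞 K → ℝ)
    (hf : Per I f) (hg : Per J g) : ms (I * J) (fun x => f x * g x) = ms I f * ms J g := by
  have hIJ : I * J ≠ ⊥ := mul_ne_zero hI hJ
  have i1 : Finite (𝓞 K ⧸ I) := Ideal.finiteQuotientOfFreeOfNeBot I hI
  have i2 : Finite (𝓞 K ⧸ J) := Ideal.finiteQuotientOfFreeOfNeBot J hJ
  have i3 : Finite (𝓞 K ⧸ (I * J)) := Ideal.finiteQuotientOfFreeOfNeBot _ hIJ
  unfold ms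
  apply finsum_prod_equiv (Ideal.quotientMulEquivQuotientProd I J h).toEquiv
  intro x
  obtain ⟨z, rfl⟩ := Ideal.Quotient.mk_surjective x
  have h1 : f (rep (I * J) (Ideal.Quotient.mk (I * J) z)) = f z :=
    Per.rep_mk (I := I * J) (hf.mono Ideal.mul_le_left) z
  have h2 : g (rep (I * J) (Ideal.Quotient.mk (I * J) z)) = g z :=
    Per.rep_mk (I := I * J) (hg.mono Ideal.mul_le_right) z
  simp only
  rw [h1, h2, crt_fst, crt_snd, hf.rep_mk, hg.rep_mk]

lemma ms_abs_le (I : Ideal (𝓞 K)) (hI : I ≠ ⊥) (f : 𝓞 K → ℝ) (hf : ∀ x, |f x| ≤ 1) :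
    ms I (fun x => |f x|) ≤ Ideal.absNorm I := by
  have : Finite (𝓞 K ⧸ I) := Ideal.finiteQuotientOfFreeOfNeBot I hI
  let _ := Fintype.ofFinite (𝓞 K ⧸ I)
  rw [ms_eq, ← card_quot]
  calc ∑ y, |f (rep I y)| ≤ ∑ y : 𝓞 K ⧸ I, (1:ℝ) := Finset.sum_le_sum (fun y _ => hf _)
    _ = _ := by rw [Finset.sum_const, Finset.card_univ, nsmul_eq_mul, mul_one]

section cube
variable {D : ℕ} (b : Module.Basis (Fin D) ℤ (𝓞 K))

lemma cube_ms (I : Ideal (𝓞 K)) (hI : I ≠ ⊥) (f : 𝓞 K → ℝ) (hf : Per I f) (v : Lat D) (S : ℕ)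
    (hS : Ideal.absNorm I ≤ S) :
    |∑ n ∈ cubeAt v S, f (iot b n) - (S:ℝ) ^ D / Ideal.absNorm I * ms I f| ≤
      D * 2 ^ D * (S:ℝ) ^ (D - 1) * ms I (fun x => |f x|) := by
  have : Finite (𝓞 K ⧸ I) := Ideal.finiteQuotientOfFreeOfNeBot I hI
  let _ := Fintype.ofFinite (𝓞 K ⧸ I)
  rw [ms_eq, ms_eq]
  have h1 := sum_cube_quot b I (fun y => f (rep I y)) v S (by rw [card_quot]; exact hS)
  rw [card_quot] at h1
  simp_rw [hf.rep_mk] at h1
  exact h1

lemma ms_period (I : Ideal (𝓞 K)) (hI : I ≠ ⊥) (f : 𝓞 K → ℝ) (hf : Per I f) (m : ℕ) (hm : 0 < m)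
    (hmI : (m : 𝓞 K) ∈ I) :
    (Ideal.absNorm I : ℝ) * ∑ r ∈ cube D m, f (iot b r) = (m:ℝ) ^ D * ms I f := by
  have : Finite (𝓞 K ⧸ I) := Ideal.finiteQuotientOfFreeOfNeBot I hI
  let _ := Fintype.ofFinite (𝓞 K ⧸ I)
  have h1 := sum_mod b I m hm hmI (fun y => f (rep I y))
  rw [card_quot] at h1
  simp_rw [hf.rep_mk] at h1
  rw [h1, ms_eq]

end cube

/-- product over a set of primes -/
lemma ms_prod (I : Ideal (𝓞 K)) (hI : I ≠ ⊥) (f : 𝓞 K → ℝ) (hf : Per I f)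
    (J : Finset (Ideal (𝓞 K))) (hJ : ∀ p ∈ J, p.IsPrime ∧ p ≠ ⊥ ∧ IsCoprime I p)
    (g : Ideal (𝓞 K) → 𝓞 K → ℝ) (hg : ∀ p ∈ J, Per p (g p)) :
    I * ∏ p ∈ J, p ≠ ⊥ ∧ Per (I * ∏ p ∈ J, p) (fun x => f x * ∏ p ∈ J, g p x) ∧
    ms (I * ∏ p ∈ J, p) (fun x => f x * ∏ p ∈ J, g p x) = ms I f * ∏ p ∈ J, ms p (g p) := by
  induction J using Finset.induction_on with
  | empty => simpa using ⟨hI, hf⟩
  | insert p J hp ih =>
    obtain ⟨h1, h2, h3⟩ := ih (fun q hq => hJ q (Finset.mem_insert_of_mem hq))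
      (fun q hq => hg q (Finset.mem_insert_of_mem hq))
    obtain ⟨a1, a2, a3⟩ := hJ p (Finset.mem_insert_self _ _)
    have hpm : p.IsMaximal := a1.isMaximal a2
    have hcop : IsCoprime (I * ∏ q ∈ J, q) p := by
      apply IsCoprime.mul_left a3
      apply IsCoprime.prod_left
      intro q hq
      obtain ⟨b1, b2, b3⟩ := hJ q (Finset.mem_insert_of_mem hq)
      have := b1.isMaximal b2
      apply Ideal.isCoprime_of_isMaximal
      rintro rfl
      exact hp hq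
    have hgp := hg p (Finset.mem_insert_self _ _)
    have e1 : I * ∏ q ∈ insert p J, q = (I * ∏ q ∈ J, q) * p := by
      rw [Finset.prod_insert hp]; ring
    have e2 : (fun x => f x * ∏ q ∈ insert p J, g q x) = fun x => (f x * ∏ q ∈ J, g q x) * g p x := by
      ext x
      rw [Finset.prod_insert hp]; ring
    rw [e1, e2, Finset.prod_insert hp]
    refine ⟨mul_ne_zero h1 a2, ?_, ?_⟩
    · exact (h2.mono Ideal.mul_le_left).mul (hgp.mono Ideal.mul_le_right)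
    · rw [ms_mul _ _ h1 a2 hcop _ _ h2 hgp, h3]; ring

/-- indicator of not being in the prime -/
def up (p : Ideal (𝓞 K)) (x : 𝓞 K) : ℝ := if x ∈ p then 0 else 1

lemma up_per (p : Ideal (𝓞 K)) : Per p (up p) := by
  intro x y h
  have : x ∈ p ↔ y ∈ p := by
    constructor
    · intro hx
      have := p.sub_mem hx h
      simpa using this
    · intro hy
      have := p.add_mem h hy
      simpa using this
  simp only [up, this]

lemma ms_one (I : Ideal (𝓞 K)) (hI : I ≠ ⊥) : ms I (fun _ => 1) = Ideal.absNorm I := by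
  have : Finite (𝓞 K ⧸ I) := Ideal.finiteQuotientOfFreeOfNeBot I hI
  let _ := Fintype.ofFinite (𝓞 K ⧸ I)
  rw [ms_eq, ← card_quot, Finset.sum_const, Finset.card_univ, nsmul_eq_mul, mul_one]

lemma ms_zero_ind (I : Ideal (𝓞 K)) (hI : I ≠ ⊥) (r : 𝓞 K) : ms I (fun x => if x - r ∈ I then 1 else 0) = 1 := by
  have : Finite (𝓞 K ⧸ I) := Ideal.finiteQuotientOfFreeOfNeBot I hI
  let _ := Fintype.ofFinite (𝓞 K ⧸ I)
  rw [ms_eq]
  have : ∀ y : 𝓞 K ⧸ I, (if rep I y - r ∈ I then (1:ℝ) else 0) = if y = Ideal.Quotient.mk I r then 1 else 0 := by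
    intro y
    rw [← Ideal.Quotient.eq, mk_rep]
  simp_rw [this]
  simp

lemma ind_per (I : Ideal (𝓞 K)) (r : 𝓞 K) : Per I (fun x => if x - r ∈ I then (1:ℝ) else 0) := by
  intro x y h
  have : x - r ∈ I ↔ y - r ∈ I := by
    constructor
    · intro hx
      have := I.sub_mem hx h
      simpa using this
    · intro hy
      have := I.add_mem h hy
      simpa using this
  simp only [this]

lemma ms_lin (I : Ideal (𝓞 K)) (hI : I ≠ ⊥) (f g : 𝓞 K → ℝ) (a c : ℝ) :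
    ms I (fun x => a * f x + c * g x) = a * ms I f + c * ms I g := by
  have : Finite (𝓞 K ⧸ I) := Ideal.finiteQuotientOfFreeOfNeBot I hI
  let _ := Fintype.ofFinite (𝓞 K ⧸ I)
  rw [ms_eq, ms_eq, ms_eq, Finset.sum_add_distrib, Finset.mul_sum, Finset.mul_sum]

lemma ms_up (p : Ideal (𝓞 K)) (hp : p ≠ ⊥) : ms p (up p) = Ideal.absNorm p - 1 := by
  have h1 : up p = fun x => 1 * (fun _ => (1:ℝ)) x + (-1) * (fun x => if x - 0 ∈ p then (1:ℝ) else 0) x := by
    ext x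
    simp only [up, sub_zero]
    split_ifs <;> ring
  rw [h1, ms_lin p hp, ms_one p hp, ms_zero_ind p hp]
  ring

/-- the sieve weight -/
def fp (p : Ideal (𝓞 K)) (x : 𝓞 K) : ℝ :=
  (1 / ((Ideal.absNorm p : ℝ) - 1)) * (1 - Ideal.absNorm p * (if x ∈ p then 1 else 0))

lemma fp_per (p : Ideal (𝓞 K)) : Per p (fp p) := by
  intro x y h
  have := up_per p x y h
  simp only [up] at this
  simp only [fp]
  by_cases hx : x ∈ p
  · by_cases hy : y ∈ p
    · simp [hx, hy]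
    · simp [hx, hy] at this
  · by_cases hy : y ∈ p
    · simp [hx, hy] at this
    · simp [hx, hy]

variable {p : Ideal (𝓞 K)} (hp : p.IsPrime) (hp0 : p ≠ ⊥)
include hp hp0

lemma two_le_norm_real : (2:ℝ) ≤ Ideal.absNorm p := by exact_mod_cast two_le_norm hp hp0

lemma ms_fp : ms p (fp p) = 0 := by
  have h2 := two_le_norm_real hp hp0
  have h1 : fp p = fun x => (1 / ((Ideal.absNorm p : ℝ) - 1)) * (fun _ => (1:ℝ)) x +
      (-(Ideal.absNorm p) / ((Ideal.absNorm p : ℝ) - 1)) * (fun x => if x - 0 ∈ p then (1:ℝ) else 0) x := by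
    ext x
    simp only [fp, sub_zero]
    split_ifs <;> ring
  rw [h1, ms_lin p hp0, ms_one p hp0, ms_zero_ind p hp0]
  ring

lemma ms_fp_sq : ms p (fun x => fp p x * fp p x) = Ideal.absNorm p / ((Ideal.absNorm p : ℝ) - 1) := by
  have h2 := two_le_norm_real hp hp0
  have h3 : ((Ideal.absNorm p : ℝ) - 1) ≠ 0 := by
    have : 0 < ((Ideal.absNorm p : ℝ) - 1) := by linarith
    exact this.ne'
  have h1 : (fun x => fp p x * fp p x) = fun x => (1 / ((Ideal.absNorm p : ℝ) - 1)) ^ 2 * (fun _ => (1:ℝ)) x +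
      (1 - (1 / ((Ideal.absNorm p : ℝ) - 1)) ^ 2) * (fun x => if x - 0 ∈ p then (1:ℝ) else 0) x := by
    ext x
    simp only [fp, sub_zero]
    split_ifs
    · field_simp; ring
    · ring
  rw [h1, ms_lin p hp0, ms_one p hp0, ms_zero_ind p hp0]
  field_simp
  ring

lemma fp_abs_le (x : 𝓞 K) : |fp p x| ≤ 1 := by
  have h2 := two_le_norm_real hp hp0
  have h3 : 0 < ((Ideal.absNorm p : ℝ) - 1) := by linarith
  rw [fp]
  split_ifs
  · rw [mul_one, abs_mul, abs_of_nonneg (by positivity), one_div_mul_eq_div, div_le_one h3, abs_le]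
    constructor <;> linarith
  · rw [mul_zero, sub_zero, mul_one, abs_of_nonneg (by positivity), div_le_one h3]
    linarith

lemma fp_of_notMem (x : 𝓞 K) (hx : x ∉ p) : fp p x = 1 / ((Ideal.absNorm p : ℝ) - 1) := by
  rw [fp, if_neg hx]; ring

end PSarnak
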