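import Pool.Agent.Run7.h492.Sieve1

/-!
The main term of the sieve.
-/

set_option linter.unusedVariables false
set_option linter.unusedSectionVars false

noncomputable section

open Finset NumberField
open scoped Classical

namespace PSarnak

variable (K : Type*) [Field K] [NumberField K]

/-- sieving primes -/
def Pq (z q : ℕ) : Finset (Ideal (𝓞 K)) := (prm K z).filter (fun p => (q : 𝓞 K) ∉ p)
/-- primes dividing the modulus -/
def Qdv (z q : ℕ) : Finset (Ideal (𝓞 K)) := (prm K z).filter (fun p => (q : 𝓞 K) ∈ p)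
/-- index sets -/
def JJ (z q : ℕ) : Finset (Finset (Ideal (𝓞 K))) :=
  (Pq K z q).powerset.filter (fun I => ∏ p ∈ I, Ideal.absNorm p ≤ z)
/-- main term -/
def GG (z q : ℕ) : ℝ := ∑ I ∈ JJ K z q, ∏ p ∈ I, 1 / ((Ideal.absNorm p : ℝ) - 1)

variable {K}

lemma factor_eq {z : ℕ} {I : Ideal (𝓞 K)} (hI : I ∈ idl K z) :
    I = ∏ p ∈ prm K z, p ^ (UniqueFactorizationMonoid.normalizedFactors I).count p := by
  rw [mem_idl] at hI
  set F := UniqueFactorizationMonoid.normalizedFactors I with hF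
  have hprod : F.prod = I := Ideal.prod_normalizedFactors_eq_self hI.2
  have h1 : I = ∏ p ∈ F.toFinset, p ^ F.count p := by
    conv_lhs => rw [← hprod]
    exact Finset.prod_multiset_count F
  have hsub : F.toFinset ⊆ prm K z := by
    intro p hp
    rw [Multiset.mem_toFinset] at hp
    have h2 : Prime p := UniqueFactorizationMonoid.prime_of_normalized_factor p hp
    rw [mem_prm]
    refine ⟨?_, h2.ne_zero, Ideal.isPrime_of_prime h2⟩
    have h3 : p ∣ I := UniqueFactorizationMonoid.dvd_of_mem_normalizedFactors hp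
    exact (Nat.le_of_dvd (norm_pos_of_ne hI.2) (Ideal.absNorm_dvd_absNorm_of_le (Ideal.dvd_iff_le.mp h3))).trans hI.1
  conv_lhs => rw [h1]
  apply Finset.prod_subset hsub
  intro p _ hp
  rw [Multiset.mem_toFinset] at hp
  rw [Multiset.count_eq_zero_of_notMem hp, pow_zero]

lemma count_pos_iff_dvd {z : ℕ} {I : Ideal (𝓞 K)} (hI : I ∈ idl K z) {p : Ideal (𝓞 K)} (hp : p ∈ prm K z) :
    1 ≤ (UniqueFactorizationMonoid.normalizedFactors I).count p ↔ p ∣ I := by
  rw [mem_idl] at hI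
  rw [mem_prm] at hp
  constructor
  · intro h
    exact UniqueFactorizationMonoid.dvd_of_mem_normalizedFactors (Multiset.one_le_count_iff_mem.mp h)
  · intro h
    rw [Multiset.one_le_count_iff_mem]
    have h1 := prime_of_mem hp.2.2 hp.2.1
    obtain ⟨q, hq, hpq⟩ := UniqueFactorizationMonoid.exists_mem_normalizedFactors_of_dvd hI.2 h1.irreducible h
    rw [associated_iff_eq] at hpq
    rw [hpq]; exact hq

lemma count_le {z : ℕ} {I : Ideal (𝓞 K)} (hI : I ∈ idl K z) {p : Ideal (𝓞 K)} (hp : p ∈ prm K z) :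
    (UniqueFactorizationMonoid.normalizedFactors I).count p ≤ z := by
  have h1 := factor_eq hI
  rw [mem_idl] at hI
  rw [mem_prm] at hp
  have h4 : p ^ (UniqueFactorizationMonoid.normalizedFactors I).count p ∣ I := by
    conv_rhs => rw [h1]
    exact Finset.dvd_prod_of_mem (fun p => p ^ (UniqueFactorizationMonoid.normalizedFactors I).count p)
      (mem_prm.mpr hp)
  have h7 := (Nat.le_of_dvd (norm_pos_of_ne hI.2) (Ideal.absNorm_dvd_absNorm_of_le (Ideal.dvd_iff_le.mp h4))).trans hI.1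
  rw [map_pow] at h7
  have h8 := two_le_norm hp.2.2 hp.2.1
  have h9 : (UniqueFactorizationMonoid.normalizedFactors I).count p < 2 ^ (UniqueFactorizationMonoid.normalizedFactors I).count p := Nat.lt_two_pow_self
  have h10 := Nat.pow_le_pow_left h8 ((UniqueFactorizationMonoid.normalizedFactors I).count p)
  omega

lemma geom_range_le (x : ℝ) (hx0 : 0 ≤ x) (hx : x < 1) (E : ℕ) : ∑ e ∈ Finset.range (E + 1), x ^ e ≤ (1 - x)⁻¹ := by
  rw [geom_sum_eq hx.ne]
  rw [← neg_div_neg_eq, neg_sub, neg_sub, div_eq_mul_inv]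
  have h1 : 0 ≤ x ^ (E + 1) := by positivity
  have h2 : 0 < 1 - x := by linarith
  have : 0 < (1 - x)⁻¹ := by positivity
  nlinarith

lemma geom_Icc_le (x : ℝ) (hx0 : 0 ≤ x) (hx : x < 1) (E : ℕ) : ∑ e ∈ Finset.Icc 1 E, x ^ e ≤ x * (1 - x)⁻¹ := by
  have h1 : ∑ e ∈ Finset.Icc 1 E, x ^ e = x * ∑ e ∈ Finset.range E, x ^ e := by
    rw [Finset.range_eq_Ico, Finset.mul_sum]
    rw [Finset.sum_bij (fun e _ => e - 1)]
    · intro e he
      rw [Finset.mem_Icc] at he; rw [Finset.mem_Ico]; omega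
    · intro a ha c hc h
      rw [Finset.mem_Icc] at ha hc; omega
    · intro c hc
      rw [Finset.mem_Ico] at hc
      exact ⟨c + 1, by rw [Finset.mem_Icc]; omega, by omega⟩
    · intro e he
      rw [Finset.mem_Icc] at he
      rw [← pow_succ']; congr 1; omega
  rw [h1]
  have h2 := geom_range_le x hx0 hx E
  have h3 : ∑ e ∈ Finset.range E, x ^ e ≤ ∑ e ∈ Finset.range (E + 1), x ^ e :=
    Finset.sum_le_sum_of_subset_of_nonneg (Finset.range_mono (by omega)) (fun _ _ _ => by positivity)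
  gcongr
  exact h3.trans h2

variable (K)

theorem GG_lower1 (z q : ℕ) : ∑ I ∈ idl K z, (1:ℝ) / Ideal.absNorm I ≤
    (∏ p ∈ Qdv K z q, (1 - 1 / (Ideal.absNorm p : ℝ))⁻¹) * GG K z q := by
  set cn : Ideal (𝓞 K) → Ideal (𝓞 K) → ℕ := fun I p => (UniqueFactorizationMonoid.normalizedFactors I).count p with hcn
  set sp : Ideal (𝓞 K) → Finset (Ideal (𝓞 K)) := fun I => (Pq K z q).filter (fun p => p ∣ I) with hsp
  have hmaps : ∀ I ∈ idl K z, sp I ∈ JJ K z q := by
    intro I hI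
    rw [JJ, Finset.mem_filter, Finset.mem_powerset]
    refine ⟨Finset.filter_subset _ _, ?_⟩
    have h1 : ∏ p ∈ sp I, p ∣ I := by
      apply Finset.prod_primes_dvd
      · intro p hp
        rw [hsp, Finset.mem_filter, Pq, Finset.mem_filter, mem_prm] at hp
        exact prime_of_mem hp.1.1.2.2 hp.1.1.2.1
      · intro p hp
        rw [hsp, Finset.mem_filter] at hp
        exact hp.2
    rw [mem_idl] at hI
    have h2 := Ideal.absNorm_dvd_absNorm_of_le (Ideal.dvd_iff_le.mp h1)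
    have h3 := Nat.le_of_dvd (norm_pos_of_ne hI.2) h2
    rw [map_prod] at h3
    exact h3.trans hI.1
  rw [← Finset.sum_fiberwise_of_maps_to hmaps, GG, Finset.mul_sum]
  apply Finset.sum_le_sum
  intro J hJ
  rw [JJ, Finset.mem_filter, Finset.mem_powerset] at hJ
  set t : Ideal (𝓞 K) → Finset ℕ := fun p => if p ∈ Qdv K z q then Finset.range (z + 1) else
    if p ∈ J then Finset.Icc 1 z else {0} with ht
  set φ : Ideal (𝓞 K) → ((p : Ideal (𝓞 K)) → p ∈ prm K z → ℕ) := fun I p _ => cn I p with hφ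
  set g : ((p : Ideal (𝓞 K)) → p ∈ prm K z → ℕ) → ℝ := fun x =>
    ∏ p ∈ (prm K z).attach, (1 / (Ideal.absNorm p.1 : ℝ)) ^ (x p.1 p.2) with hg
  have hgI : ∀ I ∈ (idl K z).filter (fun I => sp I = J), (1:ℝ) / Ideal.absNorm I = g (φ I) := by
    intro I hI
    rw [Finset.mem_filter] at hI
    conv_lhs => rw [factor_eq hI.1]
    rw [map_prod, hg]
    simp only [hφ]
    rw [Finset.prod_attach (prm K z) (fun p => (1 / (Ideal.absNorm p : ℝ)) ^ (cn I p))]
    push_cast
    rw [one_div, ← Finset.prod_inv_distrib]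
    apply Finset.prod_congr rfl
    intro p _
    rw [map_pow]; push_cast; rw [one_div, inv_pow]
  rw [Finset.sum_congr rfl hgI]
  have hinj : Set.InjOn φ ((idl K z).filter (fun I => sp I = J) : Set (Ideal (𝓞 K))) := by
    intro I hI I' hI' h
    have hI1 := (Finset.mem_filter.mp hI).1
    have hI1' := (Finset.mem_filter.mp hI').1
    rw [factor_eq hI1, factor_eq hI1']
    apply Finset.prod_congr rfl
    intro p hp
    have h2 : φ I p hp = φ I' p hp := by rw [h]
    have h3 : cn I p = cn I' p := h2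
    simp only [hcn] at h3
    rw [h3]
  have himg : ((idl K z).filter (fun I => sp I = J)).image φ ⊆ (prm K z).pi t := by
    intro x hx
    rw [Finset.mem_image] at hx
    obtain ⟨I, hI, rfl⟩ := hx
    rw [Finset.mem_filter] at hI
    rw [Finset.mem_pi]
    intro p hp
    simp only [ht, hφ]
    by_cases h1 : p ∈ Qdv K z q
    · rw [if_pos h1, Finset.mem_range]
      have := count_le hI.1 hp
      simp only [hcn]; omega
    · rw [if_neg h1]
      have hpP : p ∈ Pq K z q := by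
        rw [Pq, Finset.mem_filter]
        refine ⟨hp, fun h => h1 ?_⟩
        rw [Qdv, Finset.mem_filter]; exact ⟨hp, h⟩
      by_cases h2 : p ∈ J
      · rw [if_pos h2, Finset.mem_Icc]
        refine ⟨?_, count_le hI.1 hp⟩
        have h3 : p ∈ sp I := by rw [hI.2]; exact h2
        rw [hsp, Finset.mem_filter] at h3
        exact (count_pos_iff_dvd hI.1 hp).mpr h3.2
      · rw [if_neg h2, Finset.mem_singleton]
        by_contra h3
        have h4 : 1 ≤ cn I p := Nat.one_le_iff_ne_zero.mpr h3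
        have h5 := (count_pos_iff_dvd hI.1 hp).mp h4
        apply h2
        rw [← hI.2, hsp, Finset.mem_filter]
        exact ⟨hpP, h5⟩
  rw [← Finset.sum_image hinj]
  have hgnn : ∀ x, 0 ≤ g x := fun x => Finset.prod_nonneg (fun _ _ => by positivity)
  refine (Finset.sum_le_sum_of_subset_of_nonneg himg (fun x _ _ => hgnn x)).trans ?_
  have hps : ∑ x ∈ (prm K z).pi t, g x = ∏ p ∈ prm K z, ∑ e ∈ t p, (1 / (Ideal.absNorm p : ℝ)) ^ e := by
    rw [Finset.prod_sum]
  rw [hps]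
  have hsplit : ∏ p ∈ prm K z, ∑ e ∈ t p, (1 / (Ideal.absNorm p : ℝ)) ^ e =
      (∏ p ∈ Qdv K z q, ∑ e ∈ t p, (1 / (Ideal.absNorm p : ℝ)) ^ e) *
      ∏ p ∈ Pq K z q, ∑ e ∈ t p, (1 / (Ideal.absNorm p : ℝ)) ^ e := by
    rw [Qdv, Pq]
    exact (Finset.prod_filter_mul_prod_filter_not _ _ _).symm
  rw [hsplit]
  have hlt : ∀ p ∈ prm K z, 0 ≤ 1 / (Ideal.absNorm p : ℝ) ∧ 1 / (Ideal.absNorm p : ℝ) < 1 ∧ (2:ℝ) ≤ Ideal.absNorm p := by
    intro p hp
    rw [mem_prm] at hp
    have h2 : (2:ℝ) ≤ Ideal.absNorm p := by exact_mod_cast two_le_norm hp.2.2 hp.2.1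
    refine ⟨by positivity, ?_, h2⟩
    rw [div_lt_one (by linarith)]; linarith
  have hsn : ∀ p, 0 ≤ ∑ e ∈ t p, (1 / (Ideal.absNorm p : ℝ)) ^ e := fun p =>
    Finset.sum_nonneg (fun _ _ => by positivity)
  have hA : ∏ p ∈ Qdv K z q, ∑ e ∈ t p, (1 / (Ideal.absNorm p : ℝ)) ^ e ≤
      ∏ p ∈ Qdv K z q, (1 - 1 / (Ideal.absNorm p : ℝ))⁻¹ := by
    apply Finset.prod_le_prod (fun p _ => hsn p)
    intro p hp
    have hp' : p ∈ prm K z := (Finset.mem_filter.mp hp).1
    simp only [ht]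
    rw [if_pos hp]
    exact geom_range_le _ (hlt p hp').1 (hlt p hp').2.1 z
  have hB : ∏ p ∈ Pq K z q, ∑ e ∈ t p, (1 / (Ideal.absNorm p : ℝ)) ^ e ≤
      ∏ p ∈ J, 1 / ((Ideal.absNorm p : ℝ) - 1) := by
    have hone : ∀ p ∈ Pq K z q, p ∉ J → ∑ e ∈ t p, (1 / (Ideal.absNorm p : ℝ)) ^ e = 1 := by
      intro p hp hpJ
      have h1 : p ∉ Qdv K z q := by
        intro h
        exact (Finset.mem_filter.mp hp).2 (Finset.mem_filter.mp h).2
      simp only [ht]
      rw [if_neg h1, if_neg hpJ]; simp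
    rw [← Finset.prod_subset hJ.1 hone]
    apply Finset.prod_le_prod (fun p _ => hsn p)
    intro p hp
    have hp1 := hJ.1 hp
    have h1 : p ∉ Qdv K z q := by
      intro h
      exact (Finset.mem_filter.mp hp1).2 (Finset.mem_filter.mp h).2
    have hp' : p ∈ prm K z := (Finset.mem_filter.mp hp1).1
    simp only [ht]
    rw [if_neg h1, if_pos hp]
    obtain ⟨a1, a2, a3⟩ := hlt p hp'
    refine (geom_Icc_le _ a1 a2 z).trans (le_of_eq ?_)
    have h5 : (Ideal.absNorm p : ℝ) - 1 ≠ 0 := by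
      have : 0 < (Ideal.absNorm p : ℝ) - 1 := by linarith
      exact this.ne'
    have h6 : (Ideal.absNorm p : ℝ) ≠ 0 := by
      have : (0:ℝ) < Ideal.absNorm p := by linarith
      exact this.ne'
    rw [one_sub_div h6, inv_div]
    field_simp
  apply mul_le_mul hA hB (Finset.prod_nonneg (fun p _ => hsn p))
  apply Finset.prod_nonneg
  intro p hp
  have hp' : p ∈ prm K z := (Finset.mem_filter.mp hp).1
  have := (hlt p hp').2.1
  have : 0 < 1 - 1 / (Ideal.absNorm p : ℝ) := by linarith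
  positivity

lemma GG_ge_one (z q : ℕ) (hz : 1 ≤ z) : 1 ≤ GG K z q := by
  have h1 : (∅ : Finset (Ideal (𝓞 K))) ∈ JJ K z q := by
    rw [JJ, Finset.mem_filter]
    refine ⟨Finset.empty_mem_powerset _, ?_⟩
    simpa using hz
  rw [GG]
  refine le_trans (le_of_eq ?_) (Finset.single_le_sum (f := fun I => ∏ p ∈ I, 1 / ((Ideal.absNorm p : ℝ) - 1)) ?_ h1)
  · simp
  · intro I hI
    apply Finset.prod_nonneg
    intro p hp
    rw [JJ, Finset.mem_filter, Finset.mem_powerset] at hI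
    have h2 := Finset.mem_filter.mp (hI.1 hp)
    have h3 := mem_prm.mp h2.1
    have h4 : (2:ℝ) ≤ Ideal.absNorm p := by exact_mod_cast two_le_norm h3.2.2 h3.2.1
    have : 0 < (Ideal.absNorm p : ℝ) - 1 := by linarith
    positivity

variable {K}
variable {D : ℕ} (b : Module.Basis (Fin D) ℤ (𝓞 K))

/-- unit residues modulo `q` -/
def unitsF (q : ℕ) : Finset (Lat D) :=
  (cube D q).filter (fun r => IsUnit (Ideal.Quotient.mk (Ideal.span {(q : 𝓞 K)}) (iot b r)))

theorem card_unitsF_le (z q : ℕ) (hq : 0 < q) :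
    ((unitsF b q).card : ℝ) ≤ (q:ℝ) ^ D * ∏ p ∈ Qdv K z q, (1 - 1 / (Ideal.absNorm p : ℝ)) := by
  have hQ : ∀ p ∈ Qdv K z q, p.IsPrime ∧ p ≠ ⊥ ∧ (q : 𝓞 K) ∈ p := by
    intro p hp
    have h1 := Finset.mem_filter.mp hp
    have h2 := mem_prm.mp h1.1
    exact ⟨h2.2.2, h2.2.1, h1.2⟩
  have htop : (⊤ : Ideal (𝓞 K)) ≠ ⊥ := top_ne_bot
  obtain ⟨a1, a2, a3⟩ := ms_prod (⊤ : Ideal (𝓞 K)) htop (fun _ => (1:ℝ)) (fun _ _ _ => rfl) (Qdv K z q)
    (fun p hp => ⟨(hQ p hp).1, (hQ p hp).2.1, by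
      rw [Ideal.isCoprime_iff_sup_eq]; simp⟩) up (fun p _ => up_per p)
  have hmem : (q : 𝓞 K) ∈ (⊤ : Ideal (𝓞 K)) * ∏ p ∈ Qdv K z q, p := by
    rw [Ideal.top_mul, ← Ideal.dvd_span_singleton]
    apply Finset.prod_primes_dvd
    · intro p hp; exact prime_of_mem (hQ p hp).1 (hQ p hp).2.1
    · intro p hp; rw [Ideal.dvd_span_singleton]; exact (hQ p hp).2.2
  have h1 := ms_period b _ a1 _ a2 q hq hmem
  rw [a3, ms_one ⊤ htop] at h1
  have h2 : ((unitsF b q).card : ℝ) ≤ ∑ r ∈ cube D q, (1 * ∏ p ∈ Qdv K z q, up p (iot b r)) := by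
    rw [unitsF, Finset.card_filter]
    push_cast
    apply Finset.sum_le_sum
    intro r _
    split_ifs with hu
    · have : ∀ p ∈ Qdv K z q, up p (iot b r) = 1 := by
        intro p hp
        rw [up, if_neg]
        intro hmem
        obtain ⟨y, hy⟩ := hu.exists_right_inv
        obtain ⟨w, rfl⟩ := Ideal.Quotient.mk_surjective y
        rw [← map_mul, ← map_one (Ideal.Quotient.mk _), Ideal.Quotient.eq] at hy
        have h3 : Ideal.span {(q : 𝓞 K)} ≤ p := by
          rw [Ideal.span_singleton_le_iff_mem]; exact (hQ p hp).2.2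
        have h4 := h3 hy
        apply (hQ p hp).1.ne_top
        rw [Ideal.eq_top_iff_one]
        have h5 := p.sub_mem (p.mul_mem_right w hmem) h4
        simpa using h5
      rw [Finset.prod_congr rfl this]; simp
    · rw [one_mul]
      apply Finset.prod_nonneg
      intro p _
      rw [up]; split_ifs <;> norm_num
  refine h2.trans ?_
  have hN : (Ideal.absNorm ((⊤ : Ideal (𝓞 K)) * ∏ p ∈ Qdv K z q, p) : ℝ) = ∏ p ∈ Qdv K z q, (Ideal.absNorm p : ℝ) := by
    rw [Ideal.top_mul, map_prod]; push_cast; rfl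
  have hNpos : 0 < ∏ p ∈ Qdv K z q, (Ideal.absNorm p : ℝ) := by
    apply Finset.prod_pos
    intro p hp
    exact_mod_cast norm_pos_of_ne (hQ p hp).2.1
  rw [hN] at h1
  have h3 : ∏ p ∈ Qdv K z q, (1 - 1 / (Ideal.absNorm p : ℝ)) =
      (∏ p ∈ Qdv K z q, ms p (up p)) / ∏ p ∈ Qdv K z q, (Ideal.absNorm p : ℝ) := by
    rw [← Finset.prod_div_distrib]
    apply Finset.prod_congr rfl
    intro p hp
    have : (Ideal.absNorm p : ℝ) ≠ 0 := by
      have := norm_pos_of_ne (hQ p hp).2.1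
      exact_mod_cast this.ne'
    rw [ms_up p (hQ p hp).2.1]
    field_simp
  rw [h3, ← mul_div_assoc, le_div_iff₀ hNpos, mul_comm]
  rw [h1]
  simp

theorem GG_lower : ∃ c : ℝ, 0 < c ∧ ∀ z q : ℕ, 1 ≤ z → 0 < q →
    c * Real.log z * (unitsF b q).card ≤ (q:ℝ) ^ D * GG K z q := by
  obtain ⟨c, hc, h1⟩ := sum_inv_lower K
  refine ⟨c, hc, ?_⟩
  intro z q hz hq
  have h2 := h1 z hz
  have h3 := GG_lower1 K z q
  have h4 := card_unitsF_le b z q hq
  have hQ : ∀ p ∈ Qdv K z q, (2:ℝ) ≤ Ideal.absNorm p := by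
    intro p hp
    have h1 := Finset.mem_filter.mp hp
    have h2 := mem_prm.mp h1.1
    exact_mod_cast two_le_norm h2.2.2 h2.2.1
  have hpos : 0 < ∏ p ∈ Qdv K z q, (1 - 1 / (Ideal.absNorm p : ℝ)) := by
    apply Finset.prod_pos
    intro p hp
    have h2 := hQ p hp
    have : 1 / (Ideal.absNorm p : ℝ) < 1 := by
      rw [div_lt_one (by linarith)]; linarith
    linarith
  rw [Finset.prod_inv_distrib] at h3
  set W₀ := ∏ p ∈ Qdv K z q, (1 - 1 / (Ideal.absNorm p : ℝ)) with hW₀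
  have h5 : c * Real.log z * W₀ ≤ GG K z q := by
    calc c * Real.log z * W₀ ≤ (W₀⁻¹ * GG K z q) * W₀ :=
          mul_le_mul_of_nonneg_right (h2.trans h3) hpos.le
      _ = GG K z q := by field_simp
  have hlog := Real.log_natCast_nonneg z
  calc c * Real.log z * (unitsF b q).card ≤ c * Real.log z * ((q:ℝ) ^ D * W₀) := by gcongr
    _ = (q:ℝ) ^ D * (c * Real.log z * W₀) := by ring
    _ ≤ (q:ℝ) ^ D * GG K z q := by gcongr

end PSarnak
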