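import Pool.Agent.Run7.h492.Sieve2

/-!
The upper bound sieve in residue classes.
-/

set_option linter.unusedVariables false
set_option linter.unusedSectionVars false

noncomputable section

open Finset NumberField
open scoped Classical

namespace PSarnak

variable {K : Type*} [Field K] [NumberField K]

lemma card_JJ_le : ∃ C : ℝ, 0 < C ∧ ∀ z q : ℕ, 1 ≤ z → ((JJ K z q).card : ℝ) ≤ C * z := by
  obtain ⟨c, C, hc, hC, hb⟩ := idl_bounds K
  refine ⟨C, hC, fun z q hz => ?_⟩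
  refine le_trans ?_ (hb z hz).2
  have hP : ∀ I ∈ JJ K z q, ∀ p ∈ I, p.IsPrime ∧ p ≠ ⊥ := by
    intro I hI p hp
    rw [JJ, Finset.mem_filter, Finset.mem_powerset] at hI
    have h2 := Finset.mem_filter.mp (hI.1 hp)
    have h3 := mem_prm.mp h2.1
    exact ⟨h3.2.2, h3.2.1⟩
  have h1 : (JJ K z q).card ≤ (idl K z).card := by
    apply Finset.card_le_card_of_injOn (fun I => ∏ p ∈ I, p)
    · intro I hI
      have hI' := (Finset.mem_filter.mp hI).2
      rw [Finset.mem_coe, mem_idl, map_prod]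
      refine ⟨hI', ?_⟩
      apply Finset.prod_ne_zero_iff.mpr
      intro p hp
      exact (hP I hI p hp).2
    · intro I hI I' hI' h
      have key : ∀ I ∈ JJ K z q, ∀ p : Ideal (𝓞 K), p.IsPrime → p ≠ ⊥ → (p ∈ I ↔ p ∣ ∏ p ∈ I, p) := by
        intro I hI p hp hp0
        constructor
        · intro h; exact Finset.dvd_prod_of_mem _ h
        · intro h
          have h4 := prime_of_mem hp hp0
          obtain ⟨q', hq', hdvd⟩ := (Prime.dvd_finsetProd_iff h4 _).mp h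
          have h5 := prime_of_mem (hP I hI q' hq').1 (hP I hI q' hq').2
          rw [Prime.dvd_prime_iff_associated h4 h5, associated_iff_eq] at hdvd
          rw [hdvd]; exact hq'
      simp only at h
      ext p
      constructor
      · intro hp
        obtain ⟨a1, a2⟩ := hP I hI p hp
        rw [key I' hI' p a1 a2, ← h, ← key I hI p a1 a2]; exact hp
      · intro hp
        obtain ⟨a1, a2⟩ := hP I' hI' p hp
        rw [key I hI p a1 a2, h, ← key I' hI' p a1 a2]; exact hp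
  exact_mod_cast h1

/-- local factor of a pair -/
def hpair (I I' : Finset (Ideal (𝓞 K))) (p : Ideal (𝓞 K)) (x : 𝓞 K) : ℝ :=
  (if p ∈ I then fp p x else 1) * (if p ∈ I' then fp p x else 1)

lemma hpair_per (I I' : Finset (Ideal (𝓞 K))) (p : Ideal (𝓞 K)) : Per p (hpair I I' p) := by
  intro x y h
  simp only [hpair]
  rw [fp_per p x y h]

lemma prod_hpair (I I' : Finset (Ideal (𝓞 K))) (x : 𝓞 K) :
    ∏ p ∈ I ∪ I', hpair I I' p x = (∏ p ∈ I, fp p x) * ∏ p ∈ I', fp p x := by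
  simp only [hpair]
  rw [Finset.prod_mul_distrib]
  congr 1
  · rw [Finset.prod_ite_mem, Finset.union_inter_cancel_left]
  · rw [Finset.prod_ite_mem, Finset.union_inter_cancel_right]

variable {D : ℕ} (b : Module.Basis (Fin D) ℤ (𝓞 K))

lemma box_eq_cubeAt (M : ℕ) : box D M = cubeAt (fun _ => -(M:ℤ)) (2 * M + 1) := by
  ext n
  rw [mem_box, mem_cubeAt]
  apply forall_congr'
  intro i
  rw [abs_le]
  push_cast
  constructor
  · intro h; constructor <;> linarith [h.1, h.2]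
  · intro h; constructor
    · linarith [h.1]
    · linarith [h.2]

include b in
lemma absNorm_span_nat (q : ℕ) : Ideal.absNorm (Ideal.span {(q : 𝓞 K)}) = q ^ D := by
  rw [Ideal.absNorm_span_natCast, RingOfIntegers.rank, finrank_eq b]

lemma pair_sum (z q : ℕ) (hz : 1 ≤ z) (hq : 0 < q) (M : ℕ) (hM : z ^ 2 * q ^ D ≤ M) (r : 𝓞 K)
    (I I' : Finset (Ideal (𝓞 K))) (hI : I ∈ JJ K z q) (hI' : I' ∈ JJ K z q) :
    ∑ n ∈ box D M, (if iot b n - r ∈ Ideal.span {(q : 𝓞 K)} then (1:ℝ) else 0) *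
      ((∏ p ∈ I, fp p (iot b n)) * ∏ p ∈ I', fp p (iot b n)) ≤
    ((2 * M + 1 : ℕ) : ℝ) ^ D / (q:ℝ) ^ D * (if I = I' then ∏ p ∈ I, 1 / ((Ideal.absNorm p : ℝ) - 1) else 0) +
      D * 2 ^ D * ((2 * M + 1 : ℕ) : ℝ) ^ (D - 1) * (z ^ 2 * q ^ D) := by
  have hP : ∀ I ∈ JJ K z q, ∀ p ∈ I, p.IsPrime ∧ p ≠ ⊥ ∧ (q : 𝓞 K) ∉ p := by
    intro I hI p hp
    rw [JJ, Finset.mem_filter, Finset.mem_powerset] at hI
    have h2 := Finset.mem_filter.mp (hI.1 hp)
    have h3 := mem_prm.mp h2.1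
    exact ⟨h3.2.2, h3.2.1, h2.2⟩
  have hJ : ∀ p ∈ I ∪ I', p.IsPrime ∧ p ≠ ⊥ ∧ (q : 𝓞 K) ∉ p := by
    intro p hp
    rcases Finset.mem_union.mp hp with h | h
    · exact hP I hI p h
    · exact hP I' hI' p h
  have hq0 : (q : 𝓞 K) ≠ 0 := by exact_mod_cast hq.ne'
  have hspan : Ideal.span {(q : 𝓞 K)} ≠ ⊥ := by
    rw [Ne, Ideal.span_singleton_eq_bot]; exact hq0
  obtain ⟨a1, a2, a3⟩ := ms_prod (Ideal.span {(q : 𝓞 K)}) hspan
    (fun x => if x - r ∈ Ideal.span {(q : 𝓞 K)} then (1:ℝ) else 0) (ind_per _ r) (I ∪ I')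
    (fun p hp => by
      obtain ⟨b1, b2, b3⟩ := hJ p hp
      refine ⟨b1, b2, ?_⟩
      have hmax := b1.isMaximal b2
      rw [Ideal.isCoprime_iff_sup_eq]
      by_contra hne
      have h1 := hmax.eq_of_le hne le_sup_right
      apply b3
      rw [h1]
      exact (le_sup_left : Ideal.span {(q : 𝓞 K)} ≤ _) (Ideal.mem_span_singleton_self _))
    (hpair I I') (fun p _ => hpair_per I I' p)
  set 𝔪 : Ideal (𝓞 K) := Ideal.span {(q : 𝓞 K)} * ∏ p ∈ I ∪ I', p with h𝔪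
  set T : ℕ := 2 * M + 1 with hT
  set U : ℝ := ∏ p ∈ I ∪ I', (Ideal.absNorm p : ℝ) with hU
  have hU1 : 1 ≤ U := by
    rw [hU]
    have : ∀ p ∈ I ∪ I', (1:ℝ) ≤ Ideal.absNorm p := by
      intro p hp
      have := two_le_norm (hJ p hp).1 (hJ p hp).2.1
      have h2 : 1 ≤ Ideal.absNorm p := by omega
      exact_mod_cast h2
    calc (1:ℝ) = ∏ p ∈ I ∪ I', (1:ℝ) := by simp
      _ ≤ _ := Finset.prod_le_prod (fun _ _ => zero_le_one) this
  have hNnat : Ideal.absNorm 𝔪 = q ^ D * ∏ p ∈ I ∪ I', Ideal.absNorm p := by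
    rw [h𝔪, map_mul, map_prod, absNorm_span_nat b]
  have hNr : (Ideal.absNorm 𝔪 : ℝ) = (q:ℝ) ^ D * U := by
    rw [hNnat]; push_cast; rfl
  have hprodle : ∏ p ∈ I ∪ I', Ideal.absNorm p ≤ z ^ 2 := by
    have h1 := Finset.prod_union_inter (s₁ := I) (s₂ := I') (f := fun p => Ideal.absNorm p)
    have h2 : 1 ≤ ∏ p ∈ I ∩ I', Ideal.absNorm p := by
      apply Finset.one_le_prod'
      intro p hp
      have h3 := hP I hI p (Finset.mem_inter.mp hp).1
      exact norm_pos_of_ne h3.2.1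
    have h3 : ∏ p ∈ I, Ideal.absNorm p ≤ z := (Finset.mem_filter.mp hI).2
    have h4 : ∏ p ∈ I', Ideal.absNorm p ≤ z := (Finset.mem_filter.mp hI').2
    calc ∏ p ∈ I ∪ I', Ideal.absNorm p ≤ (∏ p ∈ I ∪ I', Ideal.absNorm p) * ∏ p ∈ I ∩ I', Ideal.absNorm p :=
          Nat.le_mul_of_pos_right _ h2
      _ = (∏ p ∈ I, Ideal.absNorm p) * ∏ p ∈ I', Ideal.absNorm p := h1
      _ ≤ z * z := Nat.mul_le_mul h3 h4
      _ = z ^ 2 := by ring
  have hNle : Ideal.absNorm 𝔪 ≤ z ^ 2 * q ^ D := by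
    rw [hNnat, mul_comm]; gcongr
  set f : 𝓞 K → ℝ := fun x => (if x - r ∈ Ideal.span {(q : 𝓞 K)} then (1:ℝ) else 0) *
    ∏ p ∈ I ∪ I', hpair I I' p x with hf
  have hcube := cube_ms b 𝔪 a1 f a2 (fun _ => -(M:ℤ)) T (by omega)
  rw [← box_eq_cubeAt] at hcube
  have hfabs : ∀ x, |f x| ≤ 1 := by
    intro x
    rw [hf]
    simp only
    rw [abs_mul]
    have h1 : |(if x - r ∈ Ideal.span {(q : 𝓞 K)} then (1:ℝ) else 0)| ≤ 1 := by
      split_ifs <;> simp
    have h2 : |∏ p ∈ I ∪ I', hpair I I' p x| ≤ 1 := by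
      rw [Finset.abs_prod]
      apply Finset.prod_le_one (fun _ _ => abs_nonneg _)
      intro p hp
      obtain ⟨b1, b2, b3⟩ := hJ p hp
      have h3 := fp_abs_le b1 b2 x
      rw [hpair, abs_mul]
      have h4 : |(if p ∈ I then fp p x else 1)| ≤ 1 := by split_ifs; exact h3; simp
      have h5 : |(if p ∈ I' then fp p x else 1)| ≤ 1 := by split_ifs; exact h3; simp
      exact mul_le_one₀ h4 (abs_nonneg _) h5
    exact mul_le_one₀ h1 (abs_nonneg _) h2
  have hms1 : ms 𝔪 (fun x => |f x|) ≤ z ^ 2 * q ^ D := by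
    refine (ms_abs_le 𝔪 a1 f hfabs).trans ?_
    exact_mod_cast hNle
  have hsum : ∑ n ∈ box D M, (if iot b n - r ∈ Ideal.span {(q : 𝓞 K)} then (1:ℝ) else 0) *
      ((∏ p ∈ I, fp p (iot b n)) * ∏ p ∈ I', fp p (iot b n)) = ∑ n ∈ box D M, f (iot b n) := by
    apply Finset.sum_congr rfl
    intro n _
    simp only [hf]
    rw [prod_hpair]
  have hqD : (0:ℝ) < (q:ℝ) ^ D := by
    have : (0:ℝ) < q := by exact_mod_cast hq
    positivity
  have hmain : (T:ℝ) ^ D / Ideal.absNorm 𝔪 * ms 𝔪 f =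
      (T:ℝ) ^ D / (q:ℝ) ^ D * (if I = I' then ∏ p ∈ I, 1 / ((Ideal.absNorm p : ℝ) - 1) else 0) := by
    rw [a3, hNr, ms_zero_ind _ hspan, one_mul]
    by_cases heq : I = I'
    · rw [if_pos heq]
      have h1 : ∏ p ∈ I ∪ I', ms p (hpair I I' p) = U * ∏ p ∈ I, 1 / ((Ideal.absNorm p : ℝ) - 1) := by
        rw [hU, ← heq, Finset.union_self, ← Finset.prod_mul_distrib]
        apply Finset.prod_congr rfl
        intro p hp
        have h2 : hpair I I p = fun x => fp p x * fp p x := by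
          ext x; simp [hpair, hp]
        rw [h2, ms_fp_sq (hP I hI p hp).1 (hP I hI p hp).2.1]
        ring
      rw [h1]
      field_simp
    · rw [if_neg heq]
      have h1 : ∃ p ∈ I ∪ I', ms p (hpair I I' p) = 0 := by
        by_contra hcon
        push Not at hcon
        apply heq
        ext p
        by_contra hp
        have h2 : p ∈ I ∪ I' := by
          rw [Finset.mem_union]; tauto
        obtain ⟨b1, b2, b3⟩ := hJ p h2
        apply hcon p h2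
        have h3 : hpair I I' p = fp p := by
          ext x
          simp only [hpair]
          by_cases h4 : p ∈ I
          · have h5 : p ∉ I' := by tauto
            rw [if_pos h4, if_neg h5, mul_one]
          · have h5 : p ∈ I' := by tauto
            rw [if_neg h4, if_pos h5, one_mul]
        rw [h3, ms_fp b1 b2]
      obtain ⟨p, hp, hp0⟩ := h1
      rw [Finset.prod_eq_zero hp hp0]; simp
  rw [hsum, ← hmain]
  have h1 := (abs_le.mp hcube).2
  have h2 : D * 2 ^ D * (T:ℝ) ^ (D - 1) * ms 𝔪 (fun x => |f x|) ≤ D * 2 ^ D * (T:ℝ) ^ (D - 1) * (z ^ 2 * q ^ D) := by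
    gcongr
  linarith

theorem sieve_bound : ∃ C : ℝ, 0 < C ∧ ∀ z q M : ℕ, 1 ≤ z → 0 < q → z ^ 5 * q ^ (2 * D) ≤ M →
    ∀ (r : 𝓞 K) (S : Finset (Lat D)), S ⊆ box D M →
    (∀ n ∈ S, iot b n - r ∈ Ideal.span {(q : 𝓞 K)} ∧ ∀ p ∈ Pq K z q, iot b n ∉ p) →
    (S.card : ℝ) * ((unitsF b q).card * Real.log z) ≤ C * (M:ℝ) ^ D := by
  obtain ⟨c, hc, hG⟩ := GG_lower b
  obtain ⟨C₁, hC₁, hJJ⟩ := card_JJ_le (K := K)
  have hD := D_pos b
  refine ⟨3 ^ D * (1 / c + C₁ ^ 2 * (D * 2 ^ D)), by positivity, ?_⟩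
  intro z q M hz hq hM r S hS hSp
  have hq1 : 1 ≤ q := hq
  have hM1 : 1 ≤ M := by
    have : 1 ≤ z ^ 5 * q ^ (2 * D) := Nat.mul_pos (Nat.pow_pos hz) (Nat.pow_pos hq)
    omega
  have hM2 : z ^ 2 * q ^ D ≤ M := by
    refine le_trans ?_ hM
    exact Nat.mul_le_mul (Nat.pow_le_pow_right hz (by norm_num)) (Nat.pow_le_pow_right hq1 (by omega))
  have hzr : (1:ℝ) ≤ z := by exact_mod_cast hz
  have hqr : (1:ℝ) ≤ q := by exact_mod_cast hq
  have hMr : (1:ℝ) ≤ M := by exact_mod_cast hM1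
  set G := GG K z q with hGdef
  have hG1 : 1 ≤ G := GG_ge_one K z q hz
  set T : ℕ := 2 * M + 1 with hT
  set g : 𝓞 K → ℝ := fun x => ∑ I ∈ JJ K z q, ∏ p ∈ I, fp p x with hg
  have hgS : ∀ n ∈ S, g (iot b n) = G := by
    intro n hn
    rw [hg, hGdef, GG]
    apply Finset.sum_congr rfl
    intro I hI
    apply Finset.prod_congr rfl
    intro p hp
    rw [JJ, Finset.mem_filter, Finset.mem_powerset] at hI
    have h1 := hI.1 hp
    have h2 := mem_prm.mp (Finset.mem_filter.mp h1).1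
    exact fp_of_notMem h2.2.2 h2.2.1 _ ((hSp n hn).2 p h1)
  have h1 : (S.card : ℝ) * G ^ 2 ≤ ∑ n ∈ box D M,
      (if iot b n - r ∈ Ideal.span {(q : 𝓞 K)} then (1:ℝ) else 0) * (g (iot b n)) ^ 2 := by
    calc (S.card : ℝ) * G ^ 2 = ∑ n ∈ S, G ^ 2 := by rw [Finset.sum_const, nsmul_eq_mul]
      _ = ∑ n ∈ S, (if iot b n - r ∈ Ideal.span {(q : 𝓞 K)} then (1:ℝ) else 0) * (g (iot b n)) ^ 2 := by
          apply Finset.sum_congr rfl
          intro n hn
          rw [if_pos (hSp n hn).1, hgS n hn, one_mul]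
      _ ≤ _ := by
          apply Finset.sum_le_sum_of_subset_of_nonneg hS
          intro n _ _
          apply mul_nonneg _ (sq_nonneg _)
          split_ifs <;> norm_num
  have h2 : ∑ n ∈ box D M,
      (if iot b n - r ∈ Ideal.span {(q : 𝓞 K)} then (1:ℝ) else 0) * (g (iot b n)) ^ 2 =
      ∑ I ∈ JJ K z q, ∑ I' ∈ JJ K z q, ∑ n ∈ box D M,
      (if iot b n - r ∈ Ideal.span {(q : 𝓞 K)} then (1:ℝ) else 0) *
      ((∏ p ∈ I, fp p (iot b n)) * ∏ p ∈ I', fp p (iot b n)) := by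
    have e1 : ∀ n ∈ box D M, (if iot b n - r ∈ Ideal.span {(q : 𝓞 K)} then (1:ℝ) else 0) * (g (iot b n)) ^ 2 =
        ∑ I ∈ JJ K z q, ∑ I' ∈ JJ K z q, (if iot b n - r ∈ Ideal.span {(q : 𝓞 K)} then (1:ℝ) else 0) *
      ((∏ p ∈ I, fp p (iot b n)) * ∏ p ∈ I', fp p (iot b n)) := by
      intro n _
      simp only [← Finset.mul_sum]
      rw [sq, hg]
      simp only
      rw [Finset.sum_mul_sum]
      simp only [← Finset.mul_sum]
    rw [Finset.sum_congr rfl e1, Finset.sum_comm]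
    apply Finset.sum_congr rfl
    intro I _
    rw [Finset.sum_comm]
  have h3 : (S.card : ℝ) * G ^ 2 ≤ (T:ℝ) ^ D / (q:ℝ) ^ D * G +
      ((JJ K z q).card : ℝ) ^ 2 * (D * 2 ^ D * (T:ℝ) ^ (D - 1) * (z ^ 2 * q ^ D)) := by
    rw [h2] at h1
    refine h1.trans ?_
    calc _ ≤ ∑ I ∈ JJ K z q, ∑ I' ∈ JJ K z q, ((T:ℝ) ^ D / (q:ℝ) ^ D * (if I = I' then ∏ p ∈ I, 1 / ((Ideal.absNorm p : ℝ) - 1) else 0) +
          D * 2 ^ D * (T:ℝ) ^ (D - 1) * (z ^ 2 * q ^ D)) := by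
          apply Finset.sum_le_sum
          intro I hI
          apply Finset.sum_le_sum
          intro I' hI'
          exact pair_sum b z q hz hq M hM2 r I I' hI hI'
      _ = _ := by
          simp only [Finset.sum_add_distrib, Finset.sum_const, nsmul_eq_mul]
          congr 1
          · simp only [← Finset.mul_sum, Finset.sum_ite_eq]
            congr 1
            rw [hGdef, GG]
            apply Finset.sum_congr rfl
            intro I hI
            rw [if_pos hI]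
          · ring
  have hlogz := Real.log_natCast_nonneg z
  have hlogz2 : Real.log z ≤ z := (Real.log_le_sub_one_of_pos (by linarith)).trans (by linarith)
  set u : ℝ := ((unitsF b q).card : ℝ) with hu
  have hu0 : 0 ≤ u := Nat.cast_nonneg _
  have hu1 : u ≤ (q:ℝ) ^ D := by
    have : (unitsF b q).card ≤ q ^ D := by
      rw [← card_cube (D := D) q]; exact Finset.card_filter_le _ _
    rw [hu]; exact_mod_cast this
  have hGq := hG z q hz hq
  have h4 : (S.card : ℝ) * G ≤ (T:ℝ) ^ D / (q:ℝ) ^ D +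
      ((JJ K z q).card : ℝ) ^ 2 * (D * 2 ^ D * (T:ℝ) ^ (D - 1) * (z ^ 2 * q ^ D)) := by
    set Er := ((JJ K z q).card : ℝ) ^ 2 * (D * 2 ^ D * (T:ℝ) ^ (D - 1) * (z ^ 2 * q ^ D)) with hEr
    have hEr0 : 0 ≤ Er := by positivity
    have hG0 : 0 < G := by linarith
    have h5 : ((S.card : ℝ) * G) * G ≤ ((T:ℝ) ^ D / (q:ℝ) ^ D + Er) * G := by nlinarith
    exact le_of_mul_le_mul_right h5 hG0
  have hcu : c * (u * Real.log z) ≤ (q:ℝ) ^ D * G := by
    calc c * (u * Real.log z) = c * Real.log z * u := by ring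
      _ ≤ _ := hGq
  have hqD : (0:ℝ) < (q:ℝ) ^ D := by positivity
  have hul0 : 0 ≤ u * Real.log z := by positivity
  have hS0 : (0:ℝ) ≤ S.card := Nat.cast_nonneg _
  have hTr : (T:ℝ) ≤ 3 * M := by
    rw [hT]; push_cast; linarith
  have hT1 : (1:ℝ) ≤ T := by rw [hT]; push_cast; linarith
  -- the two pieces
  have hE : ((JJ K z q).card : ℝ) ^ 2 * (D * 2 ^ D * (T:ℝ) ^ (D - 1) * (z ^ 2 * q ^ D)) * (u * Real.log z) ≤
      C₁ ^ 2 * (D * 2 ^ D) * (T:ℝ) ^ D := by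
    have e1 := hJJ z q hz
    calc _ ≤ (C₁ * z) ^ 2 * (D * 2 ^ D * (T:ℝ) ^ (D - 1) * (z ^ 2 * q ^ D)) * ((q:ℝ) ^ D * z) := by gcongr
      _ = C₁ ^ 2 * (D * 2 ^ D) * ((T:ℝ) ^ (D - 1) * ((z:ℝ) ^ 5 * (q:ℝ) ^ (2 * D))) := by ring
      _ ≤ C₁ ^ 2 * (D * 2 ^ D) * ((T:ℝ) ^ (D - 1) * T) := by
          have e2 : (z:ℝ) ^ 5 * (q:ℝ) ^ (2 * D) ≤ T := by
            have : z ^ 5 * q ^ (2 * D) ≤ T := by omega
            exact_mod_cast this
          gcongr
      _ = C₁ ^ 2 * (D * 2 ^ D) * (T:ℝ) ^ D := by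
          rw [← pow_succ]; congr 2; omega
  have hfin : (S.card : ℝ) * (u * Real.log z) ≤ (1 / c + C₁ ^ 2 * (D * 2 ^ D)) * (T:ℝ) ^ D := by
    set Er := ((JJ K z q).card : ℝ) ^ 2 * (D * 2 ^ D * (T:ℝ) ^ (D - 1) * (z ^ 2 * q ^ D)) with hEr
    have hEr0 : 0 ≤ Er := by positivity
    have hG0 : 0 < G := by linarith
    have h5 : (S.card : ℝ) ≤ ((T:ℝ) ^ D / (q:ℝ) ^ D) / G + Er := by
      have : (S.card : ℝ) ≤ ((T:ℝ) ^ D / (q:ℝ) ^ D + Er) / G := by
        rw [le_div_iff₀ hG0]; exact h4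
      refine this.trans ?_
      rw [add_div]
      have : Er / G ≤ Er := div_le_self hEr0 hG1
      linarith
    calc (S.card : ℝ) * (u * Real.log z) ≤ (((T:ℝ) ^ D / (q:ℝ) ^ D) / G + Er) * (u * Real.log z) := by gcongr
      _ = (T:ℝ) ^ D * ((u * Real.log z) / ((q:ℝ) ^ D * G)) + Er * (u * Real.log z) := by
          field_simp
      _ ≤ (T:ℝ) ^ D * (1 / c) + C₁ ^ 2 * (D * 2 ^ D) * (T:ℝ) ^ D := by
          have e3 : (u * Real.log z) / ((q:ℝ) ^ D * G) ≤ 1 / c := by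
            rw [div_le_div_iff₀ (by positivity) hc]
            linarith
          gcongr
      _ = _ := by ring
  refine hfin.trans ?_
  calc (1 / c + C₁ ^ 2 * (D * 2 ^ D)) * (T:ℝ) ^ D ≤ (1 / c + C₁ ^ 2 * (D * 2 ^ D)) * (3 * (M:ℝ)) ^ D := by
        gcongr
    _ = _ := by rw [mul_pow]; ring

end PSarnak
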