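import Pool.Agent.Run7.h492.Major

/-!
The maximal estimate on the lattice.
-/

set_option linter.unusedVariables false

noncomputable section

open MeasureTheory Finset UnitAddTorus Filter
open scoped ComplexConjugate ENNReal Classical

namespace PSarnak

local instance instMS5 : MeasureSpace UnitAddCircle := ⟨AddCircle.haarAddCircle⟩

variable {D : ℕ}

/-- the approximation of the kernels `aN k` by kernels `a k` -/
structure Approx (D : ℕ) (h N : ℕ → ℕ) (aN : ℕ → C(Tor D, ℂ)) (ε C : ℝ)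
    (a : ℕ → C(Tor D, ℂ)) : Prop where
  tp : ∀ᶠ k : ℕ in atTop, IsTP (N k) (a k)
  bd : ∀ᶠ k : ℕ in atTop, ∀ α, ‖a k α‖ ≤ 2
  close : ∀ᶠ k : ℕ in atTop, nsq (aN k - a k) * (2 * (N k : ℝ) + 1) ^ D ≤ ε
  minor : ∀ᶠ k : ℕ in atTop, ∀ α : Tor D,
    (¬ ∃ q : ℕ, 1 ≤ q ∧ q ≤ Qk D k ∧ ‖q • α‖ ≤ 1 / (h k : ℝ) ^ 3) → ‖a k α‖ ≤ 1 / ((k : ℝ) + 2)
  major : ∀ η : ℝ, 0 < η → ∀ ρ : C(Tor D, ℂ), ∀ M, IsTP M ρ → (∀ α, ‖ρ α‖ ≤ 1) → nsq ρ ≤ η →
    ∃ Q₁ : ℕ, ∀ᶠ k : ℕ in atTop,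
      nsq (a k * kap (Ak D k \ rat D Q₁) ((h k)^2) * ρ) * (2 * (N k : ℝ) + 1) ^ D ≤ C * η

lemma nsq_add_le (F G : C(Tor D, ℂ)) : nsq (F + G) ≤ 2 * nsq F + 2 * nsq G := by
  rw [nsq, nsq, nsq, ← integral_const_mul, ← integral_const_mul, ← integral_add
    (integrable_cont' (by fun_prop)) (integrable_cont' (by fun_prop))]
  apply integral_mono (integrable_cont' (by fun_prop)) (integrable_cont' (by fun_prop))
  intro α
  simp only [ContinuousMap.add_apply]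
  have := norm_add_le (F α) (G α)
  nlinarith [norm_nonneg (F α + G α), norm_nonneg (F α), norm_nonneg (G α), sq_nonneg (‖F α‖ - ‖G α‖)]

lemma nsq_sub_le (F G : C(Tor D, ℂ)) : nsq (F - G) ≤ 2 * nsq F + 2 * nsq G := by
  rw [sub_eq_add_neg]
  refine (nsq_add_le F (-G)).trans ?_
  have : nsq (-G) = nsq G := by
    rw [nsq, nsq]; simp
  rw [this]

/-- calculus bound -/
lemma sqrt_mul_pow_le (t : ℝ) (ht0 : 0 ≤ t) (ht1 : t ≤ 1) (m : ℕ) (hm : 0 < m) :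
    t * ((1 - t) ^ m) ^ 2 ≤ 1 / m := by
  have hm' : (0:ℝ) < m := by exact_mod_cast hm
  rw [le_div_iff₀ hm']
  have h1 : (1 - t) ^ m ≤ 1 / (1 + m * t) := by
    have h2 : 1 + (m:ℝ) * t ≤ (1 + t) ^ m := one_add_mul_le_pow (by linarith) m
    have h3 : (1 - t) ^ m * (1 + t) ^ m ≤ 1 := by
      rw [← mul_pow]
      apply pow_le_one₀
      · nlinarith
      · nlinarith
    rw [le_div_iff₀ (by positivity)]
    calc (1 - t) ^ m * (1 + m * t) ≤ (1 - t) ^ m * (1 + t) ^ m := by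
          apply mul_le_mul_of_nonneg_left h2
          apply pow_nonneg; linarith
      _ ≤ 1 := h3
  have h0 : 0 ≤ (1 - t) ^ m := pow_nonneg (by linarith) _
  have h4 : (1 - t) ^ m ≤ 1 := pow_le_one₀ (by linarith) (by linarith)
  have h5 : ((1 - t) ^ m) ^ 2 ≤ 1 / (1 + m * t) := by
    calc ((1 - t) ^ m) ^ 2 = (1 - t) ^ m * (1 - t) ^ m := by ring
      _ ≤ (1 - t) ^ m * 1 := by gcongr
      _ ≤ _ := by linarith
  calc t * ((1 - t) ^ m) ^ 2 * m ≤ t * (1 / (1 + m * t)) * m := by gcongr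
    _ = (m * t) / (1 + m * t) := by ring
    _ ≤ 1 := by
      rw [div_le_one (by positivity)]; linarith

section
variable (h : ℕ → ℕ) (k₀ : ℕ) (hk : ∀ i, k₀ ≤ i → ∀ α : Tor D, ‖kp h i α‖ ≤ 2)
include hk

/-- decay of the product kernel -/
lemma kp_mul_PR_le (k K : ℕ) (hk0 : k₀ ≤ k) (hkK : k < K) (α : Tor D) :
    (‖kp h k α‖ * PR h k₀ K α) ^ 2 ≤ 4 / ((k:ℝ) + 1) ^ 2 := by
  have h1 : PR h k₀ K α ≤ (1 - ‖kp h k α‖ ^ 2 / 4) ^ ((k + 1) ^ 2) := by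
    rw [PR, ← Finset.mul_prod_erase _ _ (Finset.mem_Ico.mpr ⟨hk0, hkK⟩)]
    apply mul_le_of_le_one_right
    · exact pow_nonneg (fac_mem h k₀ hk k hk0 α).1 _
    · apply Finset.prod_le_one
      · intro i hi
        rw [Finset.mem_erase, Finset.mem_Ico] at hi
        exact pow_nonneg (fac_mem h k₀ hk i hi.2.1 α).1 _
      · intro i hi
        rw [Finset.mem_erase, Finset.mem_Ico] at hi
        exact pow_le_one₀ (fac_mem h k₀ hk i hi.2.1 α).1 (fac_mem h k₀ hk i hi.2.1 α).2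
  have h2 := PR_nonneg h k₀ hk K α
  have h3 := fac_mem h k₀ hk k hk0 α
  have h4 := sqrt_mul_pow_le (‖kp h k α‖ ^ 2 / 4) (by positivity) (by linarith) ((k + 1) ^ 2)
    (by positivity)
  push_cast at h4
  calc (‖kp h k α‖ * PR h k₀ K α) ^ 2 = 4 * ((‖kp h k α‖ ^ 2 / 4) * (PR h k₀ K α) ^ 2) := by ring
    _ ≤ 4 * ((‖kp h k α‖ ^ 2 / 4) * ((1 - ‖kp h k α‖ ^ 2 / 4) ^ ((k + 1) ^ 2)) ^ 2) := by gcongr
    _ ≤ 4 * (1 / ((k:ℝ) + 1) ^ 2) := by gcongr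
    _ = _ := by ring

lemma norm_Pf_le (K : ℕ) (α : Tor D) : ‖Pf h k₀ K α‖ ≤ 1 := by
  rw [Pf_apply, Complex.norm_real, Real.norm_of_nonneg (PR_nonneg h k₀ hk K α)]
  exact PR_le_one h k₀ hk K α

lemma norm_one_sub_Pf_le (K : ℕ) (α : Tor D) : ‖(1 - Pf h k₀ K) α‖ ≤ 1 := by
  rw [ContinuousMap.sub_apply, ContinuousMap.one_apply, Pf_apply]
  have : (1 : ℂ) - (PR h k₀ K α : ℂ) = ((1 - PR h k₀ K α : ℝ) : ℂ) := by push_cast; ring
  rw [this, Complex.norm_real, Real.norm_of_nonneg]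
  · have := PR_nonneg h k₀ hk K α; linarith
  · have := PR_le_one h k₀ hk K α; linarith

lemma one_sub_PR_le (K : ℕ) (α : Tor D) :
    1 - PR h k₀ K α ≤ ∑ i ∈ Finset.Ico k₀ K, ((i:ℝ) + 1) ^ 2 / 4 * ‖kp h i α‖ ^ 2 := by
  by_cases hK : k₀ ≤ K
  · induction K, hK using Nat.le_induction with
    | base => simp [PR]
    | succ K hK ih =>
      rw [Finset.sum_Ico_succ_top hK]
      have h1 : PR h k₀ (K+1) α = PR h k₀ K α * (1 - ‖kp h K α‖ ^ 2 / 4) ^ ((K + 1) ^ 2) := by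
        rw [PR, PR, Finset.prod_Ico_succ_top hK]
      have h3 := fac_mem h k₀ hk K hK α
      have h4 : 1 - (((K + 1) ^ 2 : ℕ) : ℝ) * (‖kp h K α‖ ^ 2 / 4) ≤
          (1 - ‖kp h K α‖ ^ 2 / 4) ^ ((K + 1) ^ 2) := by
        have := one_add_mul_le_pow (a := -(‖kp h K α‖ ^ 2 / 4)) (by linarith) ((K+1)^2)
        rw [← sub_eq_add_neg] at this
        linarith
      have h5 := PR_nonneg h k₀ hk K α
      have h6 := PR_le_one h k₀ hk K α
      have h7 : (1 - ‖kp h K α‖ ^ 2 / 4) ^ ((K + 1) ^ 2) ≤ 1 := pow_le_one₀ h3.1 h3.2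
      rw [h1]
      push_cast at h4
      nlinarith
  · rw [PR, Finset.Ico_eq_empty (by omega)]
    simp

lemma nsq_one_sub_Pf_le (K : ℕ) :
    nsq (1 - Pf (D := D) h k₀ K) ≤ ∑ i ∈ Finset.Ico k₀ K, ((i:ℝ) + 1) ^ 2 / 4 * nsq (kp (D := D) h i) := by
  have h1 : ∀ i : ℕ, ((i:ℝ) + 1) ^ 2 / 4 * nsq (kp (D := D) h i) =
      ∫ α : Tor D, ((i:ℝ) + 1) ^ 2 / 4 * ‖kp h i α‖ ^ 2 := by
    intro i
    rw [integral_const_mul]; rfl
  simp_rw [h1]
  rw [← integral_finsetSum _ (fun i _ => integrable_cont' (by fun_prop)), nsq]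
  apply integral_mono (integrable_cont' (by fun_prop)) (integrable_cont' (by fun_prop))
  intro α
  have h2 := one_sub_PR_le h k₀ hk K α
  have h3 := PR_nonneg h k₀ hk K α
  have h4 := PR_le_one h k₀ hk K α
  have h5 : ‖(1 - Pf h k₀ K) α‖ = 1 - PR h k₀ K α := by
    rw [ContinuousMap.sub_apply, ContinuousMap.one_apply, Pf_apply]
    have : (1 : ℂ) - (PR h k₀ K α : ℂ) = ((1 - PR h k₀ K α : ℝ) : ℂ) := by push_cast; ring
    rw [this, Complex.norm_real, Real.norm_of_nonneg (by linarith)]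
  simp only
  rw [h5]
  refine le_trans ?_ h2
  nlinarith

end


lemma split_sets {ι : Type*} [Fintype ι] (S : Finset (Lat D)) (I : Finset ℕ)
    (T : ℕ → ι → Lat D → ℂ) (ε lam : ℝ) (hlam : 0 ≤ lam) (hl : Fintype.card ι * lam ≤ ε)
    (hS : ∀ n ∈ S, ∃ k ∈ I, ε < ‖∑ j, T k j n‖) :
    (S.card : ℝ) ≤ ∑ j : ι, ((S.filter (fun n => ∃ k ∈ I, lam < ‖T k j n‖)).card : ℝ) := by
  have h1 : S ⊆ Finset.univ.biUnion (fun j : ι => S.filter (fun n => ∃ k ∈ I, lam < ‖T k j n‖)) := by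
    intro n hn
    obtain ⟨k, hk, hlt⟩ := hS n hn
    by_contra hcon
    simp only [Finset.mem_biUnion, Finset.mem_univ, true_and, Finset.mem_filter, not_exists,
      not_and, not_lt] at hcon
    have : ‖∑ j, T k j n‖ ≤ ε := by
      refine (norm_sum_le _ _).trans ?_
      refine (Finset.sum_le_sum (fun j _ => hcon j hn k hk)).trans ?_
      rw [Finset.sum_const, Finset.card_univ, nsmul_eq_mul]
      exact hl
    linarith
  have h2 := (Finset.card_le_card h1).trans Finset.card_biUnion_le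
  exact_mod_cast h2

lemma kap_split (A B : Finset (Tor D)) (H : ℕ) : kap A H = kap (A ∩ B) H + kap (A \ B) H := by
  rw [kap, kap, kap, ← Finset.sum_union (Finset.disjoint_left.mpr ?_)]
  · congr 1
    ext x
    simp only [Finset.mem_union, Finset.mem_inter, Finset.mem_sdiff]
    tauto
  · intro x hx hx2
    rw [Finset.mem_inter] at hx
    rw [Finset.mem_sdiff] at hx2
    exact hx2.2 hx.2

theorem theoremH (hD : 0 < D) (h N : ℕ → ℕ) (hs : Super h)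
    (hN : ∀ᶠ k : ℕ in atTop, (h k) ^ 4 ≤ N k)
    (aN : ℕ → C(Tor D, ℂ)) (C₀ : ℝ) (hC₀ : 0 ≤ C₀)
    (haN : ∀ᶠ k : ℕ in atTop, IsTP (N k) (aN k))
    (haN2 : ∀ᶠ k : ℕ in atTop, nsq (aN k) * (2 * (N k : ℝ) + 1) ^ D ≤ C₀)
    (happ : ∀ ε : ℝ, 0 < ε → ∃ C : ℝ, 0 ≤ C ∧ ∃ a, Approx D h N aN ε C a)
    (ε : ℝ) (hε : 0 < ε) :
    ∃ Cst : ℝ, 0 ≤ Cst ∧ ∃ k₀ : ℕ, (∀ i, k₀ ≤ i → ∀ α : Tor D, ‖kp h i α‖ ≤ 2) ∧
      ∀ k₁ ≥ k₀, ∃ W : ℕ, 1 ≤ W ∧ ∀ M : ℝ, 0 < M → ∃ k₂ ≥ k₁, ∀ K ≥ k₂,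
      ∀ (F : C(Tor D, ℂ)) (g : Fin D → C(Tor D, ℂ)) (S : Finset (Lat D)),
      (∀ n ∈ S, ∃ k ∈ Finset.Ico k₂ K, ε < ‖cf (aN k * F) n‖) →
      (S.card : ℝ) ≤ ε * nsq F + Cst * nsq ((Pf h k₀ k₁ - Pf h k₀ K) * F)
        + Cst * nsq (F - ∑ i, (1 - ee (Pi.single i (W : ℤ))) * g i) + M⁻¹ * ∑ i, nsq (g i) := by
  -- constants
  set lam : ℝ := ε / 8 with hlam
  have hlam0 : 0 < lam := by positivity
  set ε' : ℝ := min 1 (ε * lam ^ 2 / (4 * 5 ^ D)) with hε'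
  have hε'0 : 0 < ε' := by rw [hε']; positivity
  have hε'1 : ε' ≤ 1 := min_le_left _ _
  have hε'2 : 5 ^ D * ε' / lam ^ 2 ≤ ε / 4 := by
    have : ε' ≤ ε * lam ^ 2 / (4 * 5 ^ D) := min_le_right _ _
    rw [div_le_iff₀ (by positivity)]
    rw [le_div_iff₀ (by positivity)] at this
    linarith
  obtain ⟨C, hC0, a, hA⟩ := happ ε' hε'0
  set η : ℝ := ε * lam ^ 2 / (8 * 15 ^ D * (C + 1)) with hη
  have hη0 : 0 < η := by positivity
  have hη1 : 5 ^ D * (3 ^ D * (C * η)) * 2 / lam ^ 2 ≤ ε / 4 := by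
    rw [div_le_iff₀ (by positivity)]
    have h1 : η * (8 * 15 ^ D * (C + 1)) = ε * lam ^ 2 := by
      rw [hη]; field_simp
    have h2 : (15:ℝ) ^ D = 5 ^ D * 3 ^ D := by rw [← mul_pow]; norm_num
    rw [h2] at h1
    have h3 : 0 ≤ (5:ℝ) ^ D * 3 ^ D * η := by positivity
    nlinarith
  set B₄ : ℝ := 4 * (2 ^ D * (2 * C₀ + 2)) with hB₄
  have hB₄0 : 0 ≤ B₄ := by positivity
  set Cst : ℝ := 5 ^ D * B₄ / lam ^ 2 + 5 ^ D * (3 ^ D * (C * η)) * 2 / lam ^ 2 with hCst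
  have hCst0 : 0 ≤ Cst := by positivity
  refine ⟨Cst, hCst0, ?_⟩
  -- choice of k₀
  have hev1 := hA.tp
  have hev2 := hA.bd
  have hev3 := hA.close
  have hev4 := hA.minor
  have hev5 : ∀ᶠ k : ℕ in atTop, ((k:ℝ) + 1) ^ 2 / 4 * ((Qk D k : ℝ) ^ (2 * (D + 1)) / h k) ≤
      η / (((k:ℝ) + 1) * (k + 2)) := by
    filter_upwards [hs.small (2 + 4 * D * (2 * (D + 1))) 1 zero_le_one η hη0, hs.eventually_ge 1] with k hk hk1
    refine le_trans ?_ hk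
    rw [← mul_div_assoc]
    apply div_le_div_of_nonneg_right _ (by positivity)
    calc ((k:ℝ) + 1) ^ 2 / 4 * (Qk D k : ℝ) ^ (2 * (D + 1))
        ≤ ((k:ℝ) + 2) ^ 2 * (((k:ℝ) + 2) ^ (4 * D)) ^ (2 * (D + 1)) := by
          gcongr
          · nlinarith [(Nat.cast_nonneg k : (0:ℝ) ≤ k)]
          · exact Qk_le k
      _ = 1 * ((k:ℝ) + 2) ^ (2 + 4 * D * (2 * (D + 1))) := by rw [← pow_mul]; ring
  have hev6 : ∀ᶠ k : ℕ in atTop, 1 ≤ h k := by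
    filter_upwards [hs.eventually_ge 1] with k hk
    exact_mod_cast hk
  have hev7 : ∀ᶠ k : ℕ in atTop, er D h k ≤ 1 / (2 * ((k:ℝ) + 2)) := by
    filter_upwards [er_small (D := D) hs 1 zero_le_one (1/2) (by norm_num)] with k hk
    rw [one_mul] at hk
    refine hk.trans ?_
    rw [div_le_div_iff₀ (by positivity) (by positivity)]
    nlinarith [(Nat.cast_nonneg k : (0:ℝ) ≤ k)]
  have hev8 : ∀ᶠ k : ℕ in atTop, 2 * Real.pi * D / h k ≤ 1 / (2 * ((k:ℝ) + 2)) := by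
    filter_upwards [hs.small 0 (2 * Real.pi * D) (by positivity) (1/2) (by norm_num)] with k hk
    rw [pow_zero, mul_one] at hk
    refine hk.trans ?_
    rw [div_le_div_iff₀ (by positivity) (by positivity)]
    nlinarith [(Nat.cast_nonneg k : (0:ℝ) ≤ k)]
  have hev9 : ∀ᶠ k : ℕ in atTop, 2 * (Qk D k : ℝ) ^ 2 < (h k : ℝ) ^ 3 := by
    filter_upwards [hs (8 * D + 1) 2, hev6] with k hk hk1
    have hk1' : (1:ℝ) ≤ h k := by exact_mod_cast hk1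
    calc 2 * (Qk D k : ℝ) ^ 2 ≤ 2 * (((k:ℝ) + 2) ^ (4 * D)) ^ 2 := by
          gcongr; exact Qk_le k
      _ = 2 * ((k:ℝ) + 2) ^ (8 * D) := by rw [← pow_mul]; ring_nf
      _ < 2 * ((k:ℝ) + 2) ^ (8 * D + 1) := by
          rw [pow_succ]
          have : 0 < ((k:ℝ) + 2) ^ (8 * D) := by positivity
          nlinarith [(Nat.cast_nonneg k : (0:ℝ) ≤ k)]
      _ ≤ h k := hk
      _ = (h k : ℝ) ^ 1 := by ring
      _ ≤ (h k : ℝ) ^ 3 := pow_le_pow_right₀ hk1' (by norm_num)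
  have hev10 : ∀ᶠ k : ℕ in atTop, 0 < k := eventually_gt_atTop 0
  obtain ⟨k₀, hk₀⟩ := eventually_atTop.mp (hev1.and (hev2.and (hev3.and (hev4.and (hev5.and (hev6.and
    (hev7.and (hev8.and (hev9.and (hev10.and (hN.and (haN.and haN2))))))))))))
  have hkp2 : ∀ i, k₀ ≤ i → ∀ α : Tor D, ‖kp h i α‖ ≤ 2 := by
    intro i hi α
    obtain ⟨e1, e2, e3, e4, e5, e6, e7, e8, e9, e10, e11, e12, e13⟩ := hk₀ i hi
    refine (kp_norm_le h i e10 e6 α).trans ?_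
    have : 1 / (2 * ((i:ℝ) + 2)) ≤ 1 := by
      rw [div_le_one (by positivity)]
      nlinarith [(Nat.cast_nonneg i : (0:ℝ) ≤ i)]
    linarith
  refine ⟨k₀, hkp2, ?_⟩
  intro k₁ hk₁
  set ρ : C(Tor D, ℂ) := 1 - Pf h k₀ k₁ with hρ
  have hρ1 : ∀ α, ‖ρ α‖ ≤ 1 := norm_one_sub_Pf_le h k₀ hkp2 k₁
  have hρ2 : nsq ρ ≤ η := by
    refine (nsq_one_sub_Pf_le h k₀ hkp2 k₁).trans ?_
    refine (sum_telescope _ η k₀ k₁ hη0.le ?_).trans ?_
    · intro i hi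
      obtain ⟨e1, e2, e3, e4, e5, e6, e7, e8, e9, e10, e11, e12, e13⟩ := hk₀ i hi
      refine le_trans ?_ e5
      have := nsq_kp_le hD h i e6
      gcongr
    · apply div_le_self hη0.le
      have : (0:ℝ) ≤ k₀ := Nat.cast_nonneg _
      linarith
  obtain ⟨Mρ, hMρ⟩ : ∃ M, IsTP M ρ := by
    obtain ⟨M, hM⟩ := Pf_isTP (D := D) h k₀ k₁
    exact ⟨M, (isTP_one M).sub hM⟩
  obtain ⟨Q₁, hQ₁⟩ := hA.major η hη0 ρ Mρ hMρ hρ1 hρ2
  refine ⟨Q₁.factorial, Nat.factorial_pos _, ?_⟩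
  set W := Q₁.factorial with hW
  intro M hM
  -- choice of k₂
  have hfev1 : ∀ᶠ k : ℕ in atTop, 9 / ((k:ℝ) + 1) / lam ^ 2 ≤ ε / 8 := by
    have : Tendsto (fun k : ℕ => 9 / ((k:ℝ) + 1) / lam ^ 2) atTop (nhds 0) := by
      rw [show (0:ℝ) = 0 / lam ^ 2 by simp]
      apply Tendsto.div_const
      exact tendsto_const_div_atTop_nhds_zero_nat 9 |>.comp (tendsto_add_atTop_nat 1) |>.congr
        (fun k => by simp)
    exact this.eventually (ge_mem_nhds (by positivity))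
  have hfev2 : ∀ᶠ k : ℕ in atTop, 32 / ((k:ℝ) + 1) / lam ^ 2 ≤ ε / 8 := by
    have : Tendsto (fun k : ℕ => 32 / ((k:ℝ) + 1) / lam ^ 2) atTop (nhds 0) := by
      rw [show (0:ℝ) = 0 / lam ^ 2 by simp]
      apply Tendsto.div_const
      exact tendsto_const_div_atTop_nhds_zero_nat 32 |>.comp (tendsto_add_atTop_nat 1) |>.congr
        (fun k => by simp)
    exact this.eventually (ge_mem_nhds (by positivity))
  set R : ℝ := ((rat D Q₁).card : ℝ) with hR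
  set c₆ : ℝ := (lam / D) ^ 2 * M⁻¹ with hc₆
  have hD' : (0:ℝ) < D := by exact_mod_cast hD
  have hc₆0 : 0 < c₆ := by positivity
  have hfev3 : ∀ᶠ k : ℕ in atTop, (2 * (R * (Real.pi * W / ((h k) ^ 2 : ℕ)))) ^ 2 ≤
      c₆ / (((k:ℝ) + 1) * (k + 2)) := by
    filter_upwards [hs.small 0 ((2 * (R * (Real.pi * W))) ^ 2) (by positivity) c₆ hc₆0,
      hs.eventually_ge 1] with k hk hk1
    refine le_trans ?_ hk
    push_cast
    have e1 : (2 * (R * (Real.pi * W / (h k : ℝ) ^ 2))) ^ 2 =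
        (2 * (R * (Real.pi * W))) ^ 2 / (h k : ℝ) ^ 4 := by
      field_simp
    rw [e1, pow_zero, mul_one]
    have e2 : (h k : ℝ) ≤ (h k : ℝ) ^ 4 := by
      calc (h k : ℝ) = (h k : ℝ) ^ 1 := by ring
        _ ≤ _ := pow_le_pow_right₀ hk1 (by norm_num)
    gcongr
  have hfev4 : ∀ᶠ k : ℕ in atTop, Mρ ≤ N k := by
    filter_upwards [hs.eventually_ge Mρ, hN, hev6] with k hk hk1 hk2
    have e1 : Mρ ≤ h k := by exact_mod_cast hk
    calc Mρ ≤ h k := e1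
      _ = (h k) ^ 1 := by ring
      _ ≤ (h k) ^ 4 := pow_le_pow_right₀ hk2 (by norm_num)
      _ ≤ N k := hk1
  obtain ⟨k₂', hk₂'⟩ := eventually_atTop.mp (hQ₁.and (hfev1.and (hfev2.and (hfev3.and hfev4))))
  set k₂ := max k₁ k₂' with hk₂
  refine ⟨k₂, le_max_left _ _, ?_⟩
  intro K hK F g S hS
  set I := Finset.Ico k₂ K with hI
  have hI1 : ∀ k ∈ I, k₀ ≤ k ∧ k₂' ≤ k ∧ k < K := by
    intro k hk
    rw [hI, Finset.mem_Ico] at hk
    have := le_max_left k₁ k₂'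
    have := le_max_right k₁ k₂'
    omega
  set F₁ : C(Tor D, ℂ) := ∑ i, (1 - ee (Pi.single i (W : ℤ))) * g i with hF₁
  set T : ℕ → Fin 7 → Lat D → ℂ := fun k => ![
    cf ((aN k - a k) * F),
    cf ((a k * (1 - kp h k)) * F),
    cf ((a k * kp h k * Pf h k₀ K) * F),
    cf ((a k * kp h k) * ((Pf h k₀ k₁ - Pf h k₀ K) * F)),
    cf ((a k * kp h k) * (ρ * (F - F₁))),
    cf ((a k * kap (Ak D k ∩ rat D Q₁) ((h k)^2) * ρ) * F₁),
    cf ((a k * kap (Ak D k \ rat D Q₁) ((h k)^2) * ρ) * F₁)] with hT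
  have hsum : ∀ k n, cf (aN k * F) n = ∑ j, T k j n := by
    intro k n
    have e0 : kp h k = kap (Ak D k ∩ rat D Q₁) ((h k)^2) + kap (Ak D k \ rat D Q₁) ((h k)^2) :=
      kap_split _ _ _
    have e1 : aN k * F = (aN k - a k) * F + (a k * (1 - kp h k)) * F
        + (a k * kp h k * Pf h k₀ K) * F
        + (a k * kp h k) * ((Pf h k₀ k₁ - Pf h k₀ K) * F)
        + (a k * kp h k) * (ρ * (F - F₁))
        + (a k * kap (Ak D k ∩ rat D Q₁) ((h k)^2) * ρ) * F₁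
        + (a k * kap (Ak D k \ rat D Q₁) ((h k)^2) * ρ) * F₁ := by
      have e2 : (a k * kap (Ak D k ∩ rat D Q₁) ((h k)^2) * ρ) * F₁
        + (a k * kap (Ak D k \ rat D Q₁) ((h k)^2) * ρ) * F₁ = (a k * kp h k * ρ) * F₁ := by
        rw [e0]; ring
      rw [add_assoc _ (_ * F₁) (_ * F₁), e2, hρ]
      ring
    rw [e1]
    simp only [hT, Fin.sum_univ_succ, cf_add]
    simp
    ring
  have hS' : ∀ n ∈ S, ∃ k ∈ I, ε < ‖∑ j, T k j n‖ := by
    intro n hn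
    obtain ⟨k, hk, hlt⟩ := hS n hn
    exact ⟨k, hk, by rw [← hsum]; exact hlt⟩
  have hcard := split_sets S I T ε lam hlam0.le (by rw [hlam, Fintype.card_fin]; push_cast; linarith) hS'
  rw [Fin.sum_univ_seven] at hcard
  set S0 := S.filter (fun n => ∃ k ∈ I, lam < ‖T k 0 n‖) with hS0
  set S1 := S.filter (fun n => ∃ k ∈ I, lam < ‖T k 1 n‖) with hS1
  set S2 := S.filter (fun n => ∃ k ∈ I, lam < ‖T k 2 n‖) with hS2
  set S3 := S.filter (fun n => ∃ k ∈ I, lam < ‖T k 3 n‖) with hS3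
  set S4 := S.filter (fun n => ∃ k ∈ I, lam < ‖T k 4 n‖) with hS4
  set S5 := S.filter (fun n => ∃ k ∈ I, lam < ‖T k 5 n‖) with hS5
  set S6 := S.filter (fun n => ∃ k ∈ I, lam < ‖T k 6 n‖) with hS6
  -- the seven bounds
  have b0 : (S0.card : ℝ) ≤ 5 ^ D * ε' * nsq F / lam ^ 2 := by
    apply max_principle I (fun k => aN k - a k) N ε' hε'0.le _ _ F lam hlam0 S0 _
    · intro k hk
      obtain ⟨e1, e2, e3, e4, e5, e6, e7, e8, e9, e10, e11, e12, e13⟩ := hk₀ k (hI1 k hk).1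
      exact e12.sub e1
    · intro k hk
      obtain ⟨e1, e2, e3, e4, e5, e6, e7, e8, e9, e10, e11, e12, e13⟩ := hk₀ k (hI1 k hk).1
      exact e3
    · intro n hn
      exact (Finset.mem_filter.mp hn).2
  have b1 : (S1.card : ℝ) ≤ (9 / ((k₂:ℝ) + 1)) * nsq F / lam ^ 2 := by
    apply l2_principle I (fun k => a k * (1 - kp h k)) (fun k => 3 / ((k:ℝ) + 2)) _ _ _ F lam hlam0 S1 _
    · intro k hk α
      obtain ⟨e1, e2, e3, e4, e5, e6, e7, e8, e9, e10, e11, e12, e13⟩ := hk₀ k (hI1 k hk).1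
      have hk2 : (0:ℝ) < (k:ℝ) + 2 := by positivity
      rw [ContinuousMap.mul_apply, norm_mul]
      have e14 : (1 - kp h k) α = 1 - kp h k α := rfl
      rw [e14]
      by_cases hα : ∃ q : ℕ, 1 ≤ q ∧ q ≤ Qk D k ∧ ‖q • α‖ ≤ 1 / (h k : ℝ) ^ 3
      · have f1 := kp_near h k e10 e6 e9 α hα
        have f2 : ‖1 - kp h k α‖ ≤ 1 / ((k:ℝ) + 2) := by
          refine f1.trans ?_
          have : 1 / ((k:ℝ) + 2) = 1 / (2 * ((k:ℝ) + 2)) + 1 / (2 * ((k:ℝ) + 2)) := by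
            field_simp; norm_num
          linarith
        calc ‖a k α‖ * ‖1 - kp h k α‖ ≤ 2 * (1 / ((k:ℝ) + 2)) := by
              have := e2 α
              gcongr
          _ ≤ 3 / ((k:ℝ) + 2) := by
              rw [mul_one_div]; gcongr; norm_num
      · have f1 := e4 α hα
        have f2 : ‖1 - kp h k α‖ ≤ 3 := by
          refine (norm_sub_le _ _).trans ?_
          have := hkp2 k (hI1 k hk).1 α
          rw [norm_one]; linarith
        calc ‖a k α‖ * ‖1 - kp h k α‖ ≤ (1 / ((k:ℝ) + 2)) * 3 := by gcongr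
          _ = _ := by ring
    · apply sum_telescope _ 9 k₂ K (by norm_num)
      intro i hi
      rw [div_pow]
      norm_num
      rw [div_le_div_iff₀ (by positivity) (by positivity)]
      nlinarith [(Nat.cast_nonneg i : (0:ℝ) ≤ i)]
    · intro n hn
      exact (Finset.mem_filter.mp hn).2
  have b2 : (S2.card : ℝ) ≤ (32 / ((k₂:ℝ) + 1)) * nsq F / lam ^ 2 := by
    apply l2_principle I (fun k => a k * kp h k * Pf h k₀ K) (fun k => 4 / ((k:ℝ) + 1)) _ _ _ F lam hlam0 S2 _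
    · intro k hk α
      obtain ⟨e1, e2, e3, e4, e5, e6, e7, e8, e9, e10, e11, e12, e13⟩ := hk₀ k (hI1 k hk).1
      have f1 := kp_mul_PR_le h k₀ hkp2 k K (hI1 k hk).1 (hI1 k hk).2.2 α
      have f2 : ‖kp h k α‖ * PR h k₀ K α ≤ 2 / ((k:ℝ) + 1) := by
        apply le_of_sq_le_sq _ (by positivity)
        refine f1.trans (le_of_eq ?_)
        rw [div_pow]; norm_num
      simp only [ContinuousMap.mul_apply, norm_mul]
      rw [Pf_apply, Complex.norm_real, Real.norm_of_nonneg (PR_nonneg h k₀ hkp2 K α)]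
      calc ‖a k α‖ * ‖kp h k α‖ * PR h k₀ K α = ‖a k α‖ * (‖kp h k α‖ * PR h k₀ K α) := by ring
        _ ≤ 2 * (2 / ((k:ℝ) + 1)) := by
            have := e2 α
            have := PR_nonneg h k₀ hkp2 K α
            gcongr
        _ = _ := by ring
    · apply sum_telescope _ 32 k₂ K (by norm_num)
      intro i hi
      rw [div_pow]
      norm_num
      rw [div_le_div_iff₀ (by positivity) (by positivity)]
      nlinarith [(Nat.cast_nonneg i : (0:ℝ) ≤ i)]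
    · intro n hn
      exact (Finset.mem_filter.mp hn).2
  have hakp : ∀ k ∈ I, IsTP (N k + (h k)^2) (a k * kp h k) ∧
      nsq (a k * kp h k) * (2 * ((N k + (h k)^2 : ℕ) : ℝ) + 1) ^ D ≤ B₄ := by
    intro k hk
    obtain ⟨e1, e2, e3, e4, e5, e6, e7, e8, e9, e10, e11, e12, e13⟩ := hk₀ k (hI1 k hk).1
    refine ⟨e1.mul (kp_isTP h k), ?_⟩
    have f1 : nsq (a k * kp h k) ≤ 4 * nsq (a k) := by
      rw [mul_comm (a k)]
      refine (nsq_mul_le _ _ 2 (hkp2 k (hI1 k hk).1)).trans (le_of_eq (by norm_num))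
    have f2 : nsq (a k) ≤ 2 * nsq (aN k) + 2 * nsq (aN k - a k) := by
      have := nsq_sub_le (aN k) (aN k - a k)
      rwa [sub_sub_cancel] at this
    have f3 : (h k)^2 ≤ N k := le_trans (Nat.pow_le_pow_right e6 (by norm_num)) e11
    have f4 : (2 * ((N k + (h k)^2 : ℕ) : ℝ) + 1) ^ D ≤ 2 ^ D * (2 * (N k : ℝ) + 1) ^ D := by
      rw [← mul_pow]
      have f5 : (((h k)^2 : ℕ) : ℝ) ≤ N k := by exact_mod_cast f3
      push_cast at f5 ⊢
      gcongr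
      linarith
    have g1 := nsq_nonneg (a k)
    calc nsq (a k * kp h k) * (2 * ((N k + (h k)^2 : ℕ) : ℝ) + 1) ^ D
        ≤ (4 * nsq (a k)) * (2 ^ D * (2 * (N k : ℝ) + 1) ^ D) := by gcongr
      _ = 4 * (2 ^ D * (nsq (a k) * (2 * (N k : ℝ) + 1) ^ D)) := by ring
      _ ≤ 4 * (2 ^ D * ((2 * nsq (aN k) + 2 * nsq (aN k - a k)) * (2 * (N k : ℝ) + 1) ^ D)) := by
          gcongr
      _ = 4 * (2 ^ D * (2 * (nsq (aN k) * (2 * (N k : ℝ) + 1) ^ D) +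
          2 * (nsq (aN k - a k) * (2 * (N k : ℝ) + 1) ^ D))) := by ring
      _ ≤ 4 * (2 ^ D * (2 * C₀ + 2 * 1)) := by
          have := e3.trans hε'1
          gcongr
      _ = B₄ := by rw [hB₄]; ring
  have b3 : (S3.card : ℝ) ≤ 5 ^ D * B₄ * nsq ((Pf h k₀ k₁ - Pf h k₀ K) * F) / lam ^ 2 := by
    apply max_principle I (fun k => a k * kp h k) (fun k => N k + (h k)^2) B₄ hB₄0
      (fun k hk => (hakp k hk).1) (fun k hk => (hakp k hk).2) _ lam hlam0 S3 _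
    intro n hn
    exact (Finset.mem_filter.mp hn).2
  have b4 : (S4.card : ℝ) ≤ 5 ^ D * B₄ * nsq (F - F₁) / lam ^ 2 := by
    have : (S4.card : ℝ) ≤ 5 ^ D * B₄ * nsq (ρ * (F - F₁)) / lam ^ 2 := by
      apply max_principle I (fun k => a k * kp h k) (fun k => N k + (h k)^2) B₄ hB₄0
        (fun k hk => (hakp k hk).1) (fun k hk => (hakp k hk).2) _ lam hlam0 S4 _
      intro n hn
      exact (Finset.mem_filter.mp hn).2
    refine this.trans ?_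
    have f1 : nsq (ρ * (F - F₁)) ≤ nsq (F - F₁) := by
      refine (nsq_mul_le _ _ 1 hρ1).trans (le_of_eq (by ring))
    gcongr
  have b5 : (S5.card : ℝ) ≤ M⁻¹ * ∑ i, nsq (g i) := by
    set c : ℕ → Fin D → C(Tor D, ℂ) := fun k i => a k * kap (Ak D k ∩ rat D Q₁) ((h k)^2) * ρ *
      (1 - ee (Pi.single i (W : ℤ))) with hc
    have f0 : ∀ n ∈ S5, ∃ k ∈ I, lam < ‖∑ i, cf (c k i * g i) n‖ := by
      intro n hn
      obtain ⟨k, hk, hlt⟩ := (Finset.mem_filter.mp hn).2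
      refine ⟨k, hk, lt_of_lt_of_le hlt (le_of_eq ?_)⟩
      rw [← cf_sum]
      have : T k 5 n = cf ((a k * kap (Ak D k ∩ rat D Q₁) ((h k)^2) * ρ) * F₁) n := rfl
      rw [this, hF₁, Finset.mul_sum]
      simp only [hc, mul_assoc]
    have f1 := split_sets S5 I (fun k i n => cf (c k i * g i) n) lam (lam / D) (by positivity)
      (by rw [Fintype.card_fin]; rw [mul_div_cancel₀ _ hD'.ne']) f0
    refine f1.trans ?_
    rw [Finset.mul_sum]
    apply Finset.sum_le_sum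
    intro i _
    have f2 := l2_principle I (fun k => c k i) (fun k => 2 * (R * (Real.pi * W / ((h k) ^ 2 : ℕ))))
      (c₆ / ((k₂:ℝ) + 1)) ?_ ?_ (g i) (lam / D) (by positivity)
      (S5.filter (fun n => ∃ k ∈ I, lam / D < ‖cf (c k i * g i) n‖))
      (fun n hn => (Finset.mem_filter.mp hn).2)
    · refine f2.trans ?_
      have g1 := nsq_nonneg (g i)
      have g2 : c₆ / ((k₂:ℝ) + 1) ≤ c₆ := div_le_self hc₆0.le (by
        have : (0:ℝ) ≤ k₂ := Nat.cast_nonneg _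
        linarith)
      calc c₆ / ((k₂:ℝ) + 1) * nsq (g i) / (lam / D) ^ 2 ≤ c₆ * nsq (g i) / (lam / D) ^ 2 := by gcongr
        _ = M⁻¹ * nsq (g i) := by rw [hc₆]; field_simp
    · intro k hk α
      obtain ⟨e1, e2, e3, e4, e5, e6, e7, e8, e9, e10, e11, e12, e13⟩ := hk₀ k (hI1 k hk).1
      simp only [hc, ContinuousMap.mul_apply, norm_mul]
      have g1 := kap_torsion (Ak D k ∩ rat D Q₁) ((h k)^2) W (by positivity) (by
        intro β hβ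
        rw [Finset.mem_inter, mem_rat (Q := Q₁)] at hβ
        obtain ⟨_, q, hq1, hq2, hq3⟩ := hβ
        obtain ⟨r, hr⟩ := Nat.dvd_factorial hq1 hq2
        rw [hW, hr, mul_comm, mul_smul, hq3, smul_zero]) α i
      have g2 : (((Ak D k ∩ rat D Q₁).card : ℕ) : ℝ) ≤ R := by
        rw [hR]
        exact_mod_cast Finset.card_le_card Finset.inter_subset_right
      have g3 : (1 - ee (Pi.single i (W : ℤ)) : C(Tor D, ℂ)) α = 1 - ee (Pi.single i (W : ℤ)) α := rfl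
      rw [g3]
      calc ‖a k α‖ * ‖kap (Ak D k ∩ rat D Q₁) ((h k)^2) α‖ * ‖ρ α‖ * ‖1 - ee (Pi.single i (W : ℤ)) α‖
          = ‖a k α‖ * ‖ρ α‖ * (‖kap (Ak D k ∩ rat D Q₁) ((h k)^2) α‖ * ‖1 - ee (Pi.single i (W : ℤ)) α‖) := by
            ring
        _ ≤ 2 * 1 * (((Ak D k ∩ rat D Q₁).card : ℝ) * (Real.pi * W / ((h k)^2 : ℕ))) := by
            have := e2 α
            have := hρ1 α
            gcongr
        _ ≤ 2 * 1 * (R * (Real.pi * W / ((h k)^2 : ℕ))) := by gcongr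
        _ = _ := by ring
    · apply sum_telescope _ c₆ k₂ K hc₆0.le
      intro k hk
      obtain ⟨t1, t2, t3, t4, t5⟩ := hk₂' k (le_trans (le_max_right _ _) hk)
      exact t4
  have b6 : (S6.card : ℝ) ≤ 5 ^ D * (3 ^ D * (C * η)) * nsq F₁ / lam ^ 2 := by
    apply max_principle I (fun k => a k * kap (Ak D k \ rat D Q₁) ((h k)^2) * ρ)
      (fun k => N k + (h k)^2 + Mρ) (3 ^ D * (C * η)) (by positivity) _ _ F₁ lam hlam0 S6 _
    · intro k hk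
      obtain ⟨e1, e2, e3, e4, e5, e6, e7, e8, e9, e10, e11, e12, e13⟩ := hk₀ k (hI1 k hk).1
      exact (e1.mul (kap_isTP _ _)).mul hMρ
    · intro k hk
      obtain ⟨e1, e2, e3, e4, e5, e6, e7, e8, e9, e10, e11, e12, e13⟩ := hk₀ k (hI1 k hk).1
      obtain ⟨t1, t2, t3, t4, t5⟩ := hk₂' k (hI1 k hk).2.1
      have f3 : (h k)^2 ≤ N k := le_trans (Nat.pow_le_pow_right e6 (by norm_num)) e11
      have f4 : (2 * ((N k + (h k)^2 + Mρ : ℕ) : ℝ) + 1) ^ D ≤ 3 ^ D * (2 * (N k : ℝ) + 1) ^ D := by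
        rw [← mul_pow]
        have f5 : (((h k)^2 : ℕ) : ℝ) ≤ N k := by exact_mod_cast f3
        have f6 : (Mρ : ℝ) ≤ N k := by exact_mod_cast t5
        push_cast at f5 ⊢
        gcongr
        linarith
      have g1 := nsq_nonneg (a k * kap (Ak D k \ rat D Q₁) ((h k)^2) * ρ)
      calc nsq (a k * kap (Ak D k \ rat D Q₁) ((h k)^2) * ρ) * (2 * ((N k + (h k)^2 + Mρ : ℕ) : ℝ) + 1) ^ D
          ≤ nsq (a k * kap (Ak D k \ rat D Q₁) ((h k)^2) * ρ) * (3 ^ D * (2 * (N k : ℝ) + 1) ^ D) := by gcongr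
        _ = 3 ^ D * (nsq (a k * kap (Ak D k \ rat D Q₁) ((h k)^2) * ρ) * (2 * (N k : ℝ) + 1) ^ D) := by ring
        _ ≤ 3 ^ D * (C * η) := by gcongr
    · intro n hn
      exact (Finset.mem_filter.mp hn).2
  have hk₂2 := hk₂' k₂ (le_max_right _ _)
  obtain ⟨t1, t2, t3, t4, t5⟩ := hk₂2
  have hF₁n : nsq F₁ ≤ 2 * nsq F + 2 * nsq (F - F₁) := by
    have := nsq_sub_le F (F - F₁)
    rwa [sub_sub_cancel] at this
  have nF := nsq_nonneg F
  have nF1 := nsq_nonneg (F - F₁)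
  have nF2 := nsq_nonneg ((Pf h k₀ k₁ - Pf h k₀ K) * F)
  have c0 : 5 ^ D * ε' * nsq F / lam ^ 2 ≤ ε / 4 * nsq F := by
    calc 5 ^ D * ε' * nsq F / lam ^ 2 = (5 ^ D * ε' / lam ^ 2) * nsq F := by ring
      _ ≤ ε / 4 * nsq F := by gcongr
  have c1 : (9 / ((k₂:ℝ) + 1)) * nsq F / lam ^ 2 ≤ ε / 8 * nsq F := by
    calc (9 / ((k₂:ℝ) + 1)) * nsq F / lam ^ 2 = (9 / ((k₂:ℝ) + 1) / lam ^ 2) * nsq F := by ring
      _ ≤ ε / 8 * nsq F := by gcongr
  have c2 : (32 / ((k₂:ℝ) + 1)) * nsq F / lam ^ 2 ≤ ε / 8 * nsq F := by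
    calc (32 / ((k₂:ℝ) + 1)) * nsq F / lam ^ 2 = (32 / ((k₂:ℝ) + 1) / lam ^ 2) * nsq F := by ring
      _ ≤ ε / 8 * nsq F := by gcongr
  have c3 : 5 ^ D * B₄ * nsq ((Pf h k₀ k₁ - Pf h k₀ K) * F) / lam ^ 2 ≤
      Cst * nsq ((Pf h k₀ k₁ - Pf h k₀ K) * F) := by
    rw [hCst]
    have : 0 ≤ 5 ^ D * (3 ^ D * (C * η)) * 2 / lam ^ 2 * nsq ((Pf h k₀ k₁ - Pf h k₀ K) * F) := by
      positivity
    calc _ = 5 ^ D * B₄ / lam ^ 2 * nsq ((Pf h k₀ k₁ - Pf h k₀ K) * F) := by ring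
      _ ≤ _ := by rw [add_mul]; linarith
  have c6 : 5 ^ D * (3 ^ D * (C * η)) * nsq F₁ / lam ^ 2 ≤ ε / 4 * nsq F +
      5 ^ D * (3 ^ D * (C * η)) * 2 / lam ^ 2 * nsq (F - F₁) := by
    calc 5 ^ D * (3 ^ D * (C * η)) * nsq F₁ / lam ^ 2
        ≤ 5 ^ D * (3 ^ D * (C * η)) * (2 * nsq F + 2 * nsq (F - F₁)) / lam ^ 2 := by gcongr
      _ = (5 ^ D * (3 ^ D * (C * η)) * 2 / lam ^ 2) * nsq F +
          5 ^ D * (3 ^ D * (C * η)) * 2 / lam ^ 2 * nsq (F - F₁) := by ring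
      _ ≤ _ := by gcongr
  have c4 : 5 ^ D * B₄ * nsq (F - F₁) / lam ^ 2 +
      5 ^ D * (3 ^ D * (C * η)) * 2 / lam ^ 2 * nsq (F - F₁) = Cst * nsq (F - F₁) := by
    rw [hCst]; ring
  linarith [mul_nonneg hε.le nF]

end PSarnak
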