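import Mathlib

/-!
Fourier analysis of trigonometric polynomials on the torus, as used for the pointwise theorem.
-/

set_option linter.unusedVariables false

noncomputable section

open MeasureTheory Finset UnitAddTorus
open scoped ComplexConjugate ENNReal

namespace PSarnak

/-- Haar probability measure on the circle. -/
local instance instMS : MeasureSpace UnitAddCircle := ⟨AddCircle.haarAddCircle⟩

local instance instHaar : Measure.IsAddHaarMeasure (volume : Measure UnitAddCircle) :=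
  inferInstanceAs (Measure.IsAddHaarMeasure AddCircle.haarAddCircle)

local instance instProb : IsProbabilityMeasure (volume : Measure UnitAddCircle) :=
  inferInstanceAs (IsProbabilityMeasure AddCircle.haarAddCircle)

variable {D : ℕ}

/-- the torus -/
abbrev Tor (D : ℕ) := UnitAddTorus (Fin D)
/-- the lattice -/
abbrev Lat (D : ℕ) := Fin D → ℤ

/-- exponential monomial -/
abbrev ee (n : Lat D) : C(Tor D, ℂ) := mFourier n

/-- Fourier coefficient -/
def cf (F : C(Tor D, ℂ)) (n : Lat D) : ℂ := mFourierCoeff F n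

/-- squared L2 norm -/
def nsq (F : C(Tor D, ℂ)) : ℝ := ∫ α, ‖F α‖ ^ 2

lemma ee_norm_apply (n : Lat D) (α : Tor D) : ‖ee n α‖ = 1 := by
  simp only [ee, mFourier, ContinuousMap.coe_mk, norm_prod, fourier_apply, Circle.norm_coe,
    Finset.prod_const_one]

lemma integrable_cont (F : C(Tor D, ℂ)) : Integrable (fun α => F α) (volume : Measure (Tor D)) :=
  F.continuous.integrable_of_hasCompactSupport (HasCompactSupport.of_compactSpace _)

lemma integrable_cont' {E : Type*} [NormedAddCommGroup E] {F : Tor D → E} (hF : Continuous F) :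
    Integrable F (volume : Measure (Tor D)) :=
  hF.integrable_of_hasCompactSupport (HasCompactSupport.of_compactSpace _)

lemma cf_def (F : C(Tor D, ℂ)) (n : Lat D) : cf F n = ∫ α, ee (-n) α * F α := rfl

lemma cf_add (F G : C(Tor D, ℂ)) (n : Lat D) : cf (F + G) n = cf F n + cf G n := by
  simp only [cf_def, ContinuousMap.add_apply, mul_add]
  exact integral_add (integrable_cont' (by fun_prop)) (integrable_cont' (by fun_prop))

lemma cf_sub (F G : C(Tor D, ℂ)) (n : Lat D) : cf (F - G) n = cf F n - cf G n := by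
  simp only [cf_def, ContinuousMap.sub_apply, mul_sub]
  exact integral_sub (integrable_cont' (by fun_prop)) (integrable_cont' (by fun_prop))

lemma cf_smul (c : ℂ) (F : C(Tor D, ℂ)) (n : Lat D) : cf (c • F) n = c * cf F n := by
  simp only [cf_def, ContinuousMap.smul_apply, smul_eq_mul]
  rw [← integral_const_mul]
  congr 1; ext α; ring

lemma cf_zero (n : Lat D) : cf (0 : C(Tor D, ℂ)) n = 0 := by
  simp [cf_def]

lemma cf_sum {ι : Type*} (s : Finset ι) (F : ι → C(Tor D, ℂ)) (n : Lat D) :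
    cf (∑ i ∈ s, F i) n = ∑ i ∈ s, cf (F i) n := by
  classical
  induction s using Finset.induction_on with
  | empty => simp [cf_zero]
  | insert a s ha ih => rw [Finset.sum_insert ha, Finset.sum_insert ha, cf_add, ih]

lemma cf_ee_mul (m : Lat D) (F : C(Tor D, ℂ)) (n : Lat D) :
    cf (ee m * F) n = cf F (n - m) := by
  simp only [cf_def, ContinuousMap.mul_apply]
  congr 1; ext α
  have : (-(n - m) : Lat D) = -n + m := by abel
  rw [this, ← mul_assoc]
  simp only [ee, mFourier_add]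

lemma cf_ee (m n : Lat D) : cf (ee m) n = if n = m then 1 else 0 := by
  have h := (orthonormal_iff_ite.mp (orthonormal_mFourier (d := Fin D))) n m
  simp only [ContinuousMap.inner_toLp] at h
  rw [cf_def]
  have h2 : (∫ α, ee (-n) α * ee m α) = ∫ a, ee m a * conj (ee n a) := by
    congr 1; ext α
    simp only [ee]
    rw [mFourier_neg]; ring
  rw [h2]
  exact h

/-- Parseval -/
lemma hasSum_cf (F : C(Tor D, ℂ)) : HasSum (fun n => ‖cf F n‖ ^ 2) (nsq F) := by
  have h := hasSum_sq_mFourierCoeff (d := Fin D) (ContinuousMap.toLp 2 volume ℂ F)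
  simp only [mFourierCoeff_toLp] at h
  have h2 : (∫ t, ‖(ContinuousMap.toLp (E := ℂ) 2 volume ℂ F) t‖ ^ 2) = nsq F := by
    apply integral_congr_ae
    filter_upwards [ContinuousMap.coeFn_toLp (p := 2) (𝕜 := ℂ) volume F] with a ha
    rw [ha]
  rw [← h2]
  exact h

lemma nsq_nonneg (F : C(Tor D, ℂ)) : 0 ≤ nsq F := integral_nonneg (fun _ => by positivity)

lemma sum_cf_le (F : C(Tor D, ℂ)) (s : Finset (Lat D)) : ∑ n ∈ s, ‖cf F n‖ ^ 2 ≤ nsq F := by
  have h := hasSum_cf F
  exact sum_le_hasSum s (fun i _ => by positivity) h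

lemma nsq_mul_le (c F : C(Tor D, ℂ)) (C : ℝ) (hc : ∀ α, ‖c α‖ ≤ C) :
    nsq (c * F) ≤ C ^ 2 * nsq F := by
  rw [nsq, nsq, ← integral_const_mul]
  apply integral_mono (integrable_cont' (by fun_prop)) (integrable_cont' (by fun_prop))
  intro α
  simp only [ContinuousMap.mul_apply, norm_mul, mul_pow]
  have := hc α
  gcongr

lemma nsq_mono (F G : C(Tor D, ℂ)) (h : ∀ α, ‖F α‖ ≤ ‖G α‖) : nsq F ≤ nsq G := by
  rw [nsq, nsq]
  apply integral_mono (integrable_cont' (by fun_prop)) (integrable_cont' (by fun_prop))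
  intro α
  have := h α
  simp only
  gcongr

/-- trigonometric polynomial with coefficients `a` on `s` -/
def tp (s : Finset (Lat D)) (a : Lat D → ℂ) : C(Tor D, ℂ) := ∑ n ∈ s, a n • ee n

lemma tp_apply (s : Finset (Lat D)) (a : Lat D → ℂ) (α : Tor D) :
    tp s a α = ∑ n ∈ s, a n * ee n α := by
  simp [tp, ContinuousMap.sum_apply]

lemma cf_tp (s : Finset (Lat D)) (a : Lat D → ℂ) (n : Lat D) :
    cf (tp s a) n = if n ∈ s then a n else 0 := by
  classical
  rw [tp, cf_sum]
  simp only [cf_smul, cf_ee]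
  simp

lemma nsq_tp (s : Finset (Lat D)) (a : Lat D → ℂ) : nsq (tp s a) = ∑ n ∈ s, ‖a n‖ ^ 2 := by
  have h := hasSum_cf (tp s a)
  have h2 : HasSum (fun n => ‖cf (tp s a) n‖ ^ 2) (∑ n ∈ s, ‖cf (tp s a) n‖ ^ 2) := by
    apply hasSum_sum_of_ne_finset_zero
    intro n hn
    rw [cf_tp, if_neg hn]; simp
  rw [h.unique h2]
  apply Finset.sum_congr rfl
  intro n hn
  rw [cf_tp, if_pos hn]

lemma cf_tp_mul (s : Finset (Lat D)) (a : Lat D → ℂ) (F : C(Tor D, ℂ)) (n : Lat D) :
    cf (tp s a * F) n = ∑ m ∈ s, a m * cf F (n - m) := by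
  rw [tp, Finset.sum_mul, cf_sum]
  apply Finset.sum_congr rfl
  intro m _
  rw [smul_mul_assoc, cf_smul, cf_ee_mul]

/-- Cauchy-Schwarz -/
lemma norm_cf_tp_mul_sq_le (s : Finset (Lat D)) (a : Lat D → ℂ) (F : C(Tor D, ℂ)) (n : Lat D) :
    ‖cf (tp s a * F) n‖ ^ 2 ≤ (∑ m ∈ s, ‖a m‖ ^ 2) * ∑ m ∈ s, ‖cf F (n - m)‖ ^ 2 := by
  rw [cf_tp_mul]
  calc ‖∑ m ∈ s, a m * cf F (n - m)‖ ^ 2 ≤ (∑ m ∈ s, ‖a m‖ * ‖cf F (n - m)‖) ^ 2 := by
        gcongr
        refine (norm_sum_le _ _).trans (le_of_eq ?_)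
        simp
    _ ≤ _ := Finset.sum_mul_sq_le_sq_mul_sq _ _ _

/-- box of radius `M` -/
def box (D : ℕ) (M : ℕ) : Finset (Lat D) := Fintype.piFinset (fun _ => Finset.Icc (-(M:ℤ)) M)

lemma mem_box {M : ℕ} {n : Lat D} : n ∈ box D M ↔ ∀ i, |n i| ≤ M := by
  simp [box, abs_le]

lemma card_box (M : ℕ) : (box D M).card = (2 * M + 1) ^ D := by
  rw [box, Fintype.card_piFinset]
  simp only [Int.card_Icc, Finset.prod_const, Finset.card_univ, Fintype.card_fin]
  congr 1; omega

/-- being a trigonometric polynomial with frequencies in the box of radius `M` -/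
def IsTP (M : ℕ) (F : C(Tor D, ℂ)) : Prop := ∃ a : Lat D → ℂ, F = tp (box D M) a

lemma IsTP.eq {M : ℕ} {F : C(Tor D, ℂ)} (h : IsTP M F) : F = tp (box D M) (cf F) := by
  obtain ⟨a, rfl⟩ := h
  rw [tp, tp]
  apply Finset.sum_congr rfl
  intro n hn
  have := cf_tp (box D M) a n
  rw [if_pos hn] at this
  rw [tp] at this
  rw [this]

lemma isTP_tp_of_subset {s : Finset (Lat D)} {M : ℕ} (hs : s ⊆ box D M) (a : Lat D → ℂ) :
    IsTP M (tp s a) := by
  classical
  refine ⟨fun n => if n ∈ s then a n else 0, ?_⟩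
  rw [tp, tp]
  rw [← Finset.sum_subset hs]
  · apply Finset.sum_congr rfl
    intro n hn
    simp [hn]
  · intro n _ hn
    ext α
    simp [hn]

lemma IsTP.mono {M M' : ℕ} (hM : M ≤ M') {F : C(Tor D, ℂ)} (h : IsTP M F) : IsTP M' F := by
  obtain ⟨a, rfl⟩ := h
  apply isTP_tp_of_subset
  intro n hn
  rw [mem_box] at hn ⊢
  intro i
  exact (hn i).trans (by exact_mod_cast hM)

lemma IsTP.add {M : ℕ} {F G : C(Tor D, ℂ)} (hF : IsTP M F) (hG : IsTP M G) : IsTP M (F + G) := by
  obtain ⟨a, rfl⟩ := hF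
  obtain ⟨b, rfl⟩ := hG
  refine ⟨fun n => a n + b n, ?_⟩
  ext α
  simp only [ContinuousMap.add_apply, tp_apply, add_mul, Finset.sum_add_distrib]

lemma IsTP.smul {M : ℕ} {F : C(Tor D, ℂ)} (hF : IsTP M F) (c : ℂ) : IsTP M (c • F) := by
  obtain ⟨a, rfl⟩ := hF
  refine ⟨fun n => c * a n, ?_⟩
  ext α
  simp only [ContinuousMap.smul_apply, tp_apply, smul_eq_mul, Finset.mul_sum, mul_assoc]

lemma IsTP.neg {M : ℕ} {F : C(Tor D, ℂ)} (hF : IsTP M F) : IsTP M (-F) := by
  have := hF.smul (-1)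
  have h2 : (-1 : ℂ) • F = -F := by ext α; simp
  rwa [h2] at this

lemma IsTP.sub {M : ℕ} {F G : C(Tor D, ℂ)} (hF : IsTP M F) (hG : IsTP M G) : IsTP M (F - G) := by
  rw [sub_eq_add_neg]; exact hF.add hG.neg

lemma isTP_zero (M : ℕ) : IsTP M (0 : C(Tor D, ℂ)) := ⟨0, by ext α; simp [tp_apply]⟩

lemma IsTP.sum {ι : Type*} {M : ℕ} (s : Finset ι) {F : ι → C(Tor D, ℂ)}
    (hF : ∀ i ∈ s, IsTP M (F i)) : IsTP M (∑ i ∈ s, F i) := by
  classical
  induction s using Finset.induction_on with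
  | empty => simpa using isTP_zero M
  | insert a s ha ih =>
    rw [Finset.sum_insert ha]
    exact (hF a (by simp)).add (ih (fun i hi => hF i (by simp [hi])))

lemma isTP_ee {M : ℕ} {n : Lat D} (hn : n ∈ box D M) : IsTP M (ee n) := by
  classical
  have := isTP_tp_of_subset (s := {n}) (M := M) (by simpa using hn) (fun _ => 1)
  simpa [tp] using this

lemma isTP_one (M : ℕ) : IsTP M (1 : C(Tor D, ℂ)) := by
  have := isTP_ee (D := D) (M := M) (n := 0) (by rw [mem_box]; simp)
  rwa [ee, mFourier_zero] at this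

lemma IsTP.mul {M M' : ℕ} {F G : C(Tor D, ℂ)} (hF : IsTP M F) (hG : IsTP M' G) :
    IsTP (M + M') (F * G) := by
  obtain ⟨a, rfl⟩ := hF
  obtain ⟨b, rfl⟩ := hG
  rw [tp, tp, Finset.sum_mul_sum]
  apply IsTP.sum
  intro n hn
  apply IsTP.sum
  intro m hm
  have : a n • ee n * b m • ee m = (a n * b m) • ee (n + m) := by
    ext α
    simp only [ee, ContinuousMap.mul_apply, ContinuousMap.smul_apply, smul_eq_mul, mFourier_add]
    ring
  rw [this]
  apply IsTP.smul
  apply isTP_ee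
  rw [mem_box] at hn hm ⊢
  intro i
  have h1 := hn i
  have h2 := hm i
  simp only [Pi.add_apply]
  push_cast
  exact (abs_add_le _ _).trans (add_le_add h1 h2)

lemma IsTP.pow {M : ℕ} {F : C(Tor D, ℂ)} (hF : IsTP M F) (k : ℕ) : IsTP (k * M) (F ^ k) := by
  induction k with
  | zero => simpa using isTP_one 0
  | succ k ih =>
    rw [pow_succ, Nat.succ_mul]
    exact ih.mul hF

/-- complex conjugate of a continuous function -/
def cnj (F : C(Tor D, ℂ)) : C(Tor D, ℂ) := star F

lemma cnj_apply (F : C(Tor D, ℂ)) (α : Tor D) : cnj F α = conj (F α) := rfl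

lemma IsTP.cnj {M : ℕ} {F : C(Tor D, ℂ)} (hF : IsTP M F) : IsTP M (cnj F) := by
  obtain ⟨a, rfl⟩ := hF
  have : PSarnak.cnj (tp (box D M) a) = ∑ n ∈ box D M, conj (a n) • ee (-n) := by
    ext α
    rw [cnj_apply, tp_apply, map_sum, ContinuousMap.sum_apply]
    apply Finset.sum_congr rfl
    intro n _
    simp only [map_mul, ContinuousMap.smul_apply, smul_eq_mul, ee, mFourier_neg]
  rw [this]
  apply IsTP.sum
  intro n hn
  apply IsTP.smul
  apply isTP_ee
  rw [mem_box] at hn ⊢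
  intro i
  simpa using hn i

end PSarnak
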